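import Mathlib

/-!
# DFJ: Defs, T1, Charts, Etale, Main, Conc, Conc2, Planar, Sites, Sites2, Sites3, Sites4, Discrete
-/

section

/-!
# PROJECT DFJ, part T2: Voronoi tessellations of an open cone (definitions)

`E` is a real normed space, `K` a closed convex cone in it (Loewner cone), `C` an open
convex cone inside `K` (positive definite elements).  A group `G` acts linearly on `E` and
permutes a set `V` of cusps (base point `o`) and a set `T` of tiles.  `β v` is the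
linear functional of the cusp `v`.  The Voronoi cell of `v` is `F v`, the star of a point
`y ∈ F v` is `S v y`.  The main theorem of T2 (file `Main.lean`): two Voronoi cells `F v`,
`F w` which share a point `y` are neighbours (`w ∈ S v y`): the developing map is injective.
-/

namespace Pool.Agent.Helper20.DFJ

/-- linear data: cone, order, group action, functionals. -/
structure Lin (G E V : Type*) [Group G] [NormedAddCommGroup E] [NormedSpace ℝ E]
    [MulAction G V] [DistribMulAction G E] where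
  /-- closed (Loewner) cone -/
  K : Set E
  /-- open cone -/
  C : Set E
  K_add : ∀ x ∈ K, ∀ y ∈ K, x + y ∈ K
  K_smul : ∀ x ∈ K, ∀ t : ℝ, 0 ≤ t → t • x ∈ K
  C_sub : C ⊆ K
  C_add : ∀ x ∈ C, ∀ y ∈ K, x + y ∈ C
  C_smul : ∀ x ∈ C, ∀ t : ℝ, 0 < t → t • x ∈ C
  /-- every element of `C` is an order unit -/
  unit : ∀ x ∈ C, ∀ e : E, ∃ l : ℝ, 0 < l ∧ l • x - e ∈ K
  /-- order intervals are neighbourhoods -/
  nhd : ∀ x ∈ C, ∀ e : ℝ, 0 < e → {y | y - (1 - e) • x ∈ K ∧ (1 + e) • x - y ∈ K} ∈ nhds x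
  act_smul : ∀ (g : G) (t : ℝ) (x : E), g • (t • x) = t • (g • x)
  act_K : ∀ (g : G), ∀ x ∈ K, g • x ∈ K
  act_C : ∀ (g : G), ∀ x ∈ C, g • x ∈ C
  /-- the functionals -/
  β : V → E →ₗ[ℝ] ℝ
  β_act : ∀ (g : G) (v : V) (x : E), β (g • v) (g • x) = β v x
  β_nonneg : ∀ v, ∀ x ∈ K, 0 ≤ β v x
  β_pos : ∀ v, ∀ x ∈ C, 0 < β v x

namespace Lin

variable {G E V : Type*} [Group G] [NormedAddCommGroup E] [NormedSpace ℝ E]
    [MulAction G V] [DistribMulAction G E] (L : Lin G E V)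

/-- `y` is within the Loewner order interval `[(1-e)x, (1+e)x]`. -/
def near (e : ℝ) (x y : E) : Prop := y - (1 - e) • x ∈ L.K ∧ (1 + e) • x - y ∈ L.K

end Lin

/-- combinatorial data: tiles, their vertex sets and centres. -/
structure Tess (G E V T : Type*) [Group G] [NormedAddCommGroup E] [NormedSpace ℝ E]
    [MulAction G V] [DistribMulAction G E] [MulAction G T] extends Lin G E V where
  o : V
  trans : ∀ v, ∃ g : G, g • o = v
  vert : T → Set V
  ctr : T → E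
  vert_act : ∀ (g : G) (τ : T) (v : V), v ∈ vert τ ↔ g • v ∈ vert (g • τ)
  ctr_act : ∀ (g : G) (τ : T), ctr (g • τ) = g • ctr τ
  ctr_C : ∀ τ, ctr τ ∈ C
  ctr_one : ∀ τ, ∀ v ∈ vert τ, β v (ctr τ) = 1

namespace Tess

variable {G E V T : Type*} [Group G] [NormedAddCommGroup E] [NormedSpace ℝ E]
    [MulAction G V] [DistribMulAction G E] [MulAction G T] (A : Tess G E V T)

/-- neighbours of a cusp: the other vertices of the tiles containing it. -/
def Nb (v : V) : Set V := {w | w ≠ v ∧ ∃ τ, v ∈ A.vert τ ∧ w ∈ A.vert τ}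

/-- Voronoi cell of `v` (with respect to its neighbours only). -/
def F (v : V) : Set E := {y | y ∈ A.C ∧ ∀ w ∈ A.Nb v, A.β v y ≤ A.β w y}

/-- star of the point `y` of the cell `F v`. -/
def S (v : V) (y : E) : Set V := {w | w = v ∨ (w ∈ A.Nb v ∧ A.β w y = A.β v y)}

/-- the hypotheses to be verified, all at the base cusp `o`. -/
structure Good : Prop where
  /-- (E) emptiness -/
  empt : ∀ τ, A.o ∈ A.vert τ → ∀ w ∈ A.Nb A.o, w ∉ A.vert τ → 1 < A.β w (A.ctr τ)
  /-- (VR) vertex representation of the faces of the Voronoi cell of `o` -/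
  vr : ∀ y ∈ A.F A.o, ∀ w ∈ A.Nb A.o, A.β w y = A.β A.o y →
    ∃ (s : Finset ℕ) (f : ℕ → T) (μ : ℕ → ℝ), s.Nonempty ∧
      (∀ a ∈ s, 0 < μ a ∧ A.o ∈ A.vert (f a) ∧ w ∈ A.vert (f a)) ∧
      y = ∑ a ∈ s, μ a • A.ctr (f a)
  /-- (LF) local finiteness -/
  lf : ∀ y ∈ A.C, {w | w ∈ A.Nb A.o ∧ A.β w y ≤ 2 * A.β A.o y}.Finite
  /-- (CC) compactness modulo the stabiliser of `o`, away from the deep part of the cusp -/
  cc : ∃ (Q : Set E) (δ : ℝ), IsCompact Q ∧ Q ⊆ A.C ∧ 0 < δ ∧ ∀ y ∈ A.F A.o,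
    (∀ w ∈ A.Nb A.o, (1 + δ) * A.β A.o y ≤ A.β w y) ∨
      ∃ (g : G) (t : ℝ), g • A.o = A.o ∧ 0 < t ∧ t • (g • y) ∈ Q
  /-- (CON) connectedness -/
  con : ∀ v, Relation.ReflTransGen (fun a b => b ∈ A.Nb a) A.o v

/-- minimisers of `β` over a set `S₀` of cusps at `z`. -/
def amin (S₀ : Set V) (z : E) : Set V := {u | u ∈ S₀ ∧ ∀ w ∈ S₀, A.β u z ≤ A.β w z}

/-- domain of the chart of the set `S₀` of cusps. -/
def Dom (S₀ : Set V) : Set E :=
  {z | z ∈ A.C ∧ ∀ u ∈ S₀, ∀ w ∈ A.Nb u, w ∉ S₀ → ∃ x ∈ S₀, A.β x z < A.β w z}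

/-- abstract points: a cusp set together with a point of the cone. -/
def IsPt (p : Set V × E) : Prop := ∃ v, p.2 ∈ A.F v ∧ p.1 = A.S v p.2

end Tess

end Pool.Agent.Helper20.DFJ

end

section

namespace Pool.Agent.Helper20.DFJ

namespace Lin
variable {G E V : Type*} [Group G] [NormedAddCommGroup E] [NormedSpace ℝ E]
    [MulAction G V] [DistribMulAction G E] (L : Lin G E V)

theorem near_smul_of (e : ℝ) (g : G) (x y : E) (h : L.near e x y) : L.near e (g • x) (g • y) := by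
  obtain ⟨h1, h2⟩ := h
  refine ⟨?_, ?_⟩
  · have := L.act_K g _ h1
    rwa [smul_sub, L.act_smul] at this
  · have := L.act_K g _ h2
    rwa [smul_sub, L.act_smul] at this

theorem near_smul (e : ℝ) (g : G) (x y : E) : L.near e (g • x) (g • y) ↔ L.near e x y := by
  refine ⟨fun h => ?_, L.near_smul_of e g x y⟩
  have := L.near_smul_of e g⁻¹ _ _ h
  simpa using this

theorem near_scale (e t : ℝ) (ht : 0 ≤ t) (x y : E) (h : L.near e x y) :
    L.near e (t • x) (t • y) := by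
  obtain ⟨h1, h2⟩ := h
  refine ⟨?_, ?_⟩
  · have := L.K_smul _ h1 t ht
    rw [smul_sub, smul_comm] at this
    exact this
  · have := L.K_smul _ h2 t ht
    rw [smul_sub, smul_comm] at this
    exact this

theorem near_C (e : ℝ) (he : e < 1) (x y : E) (hx : x ∈ L.C) (h : L.near e x y) : y ∈ L.C := by
  have := L.C_add _ (L.C_smul x hx (1 - e) (by linarith)) _ h.1
  simpa using this

theorem near_mono (e e' : ℝ) (hee : e ≤ e') (x y : E) (hx : x ∈ L.C) (h : L.near e x y) :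
    L.near e' x y := by
  obtain ⟨h1, h2⟩ := h
  have hk : (e' - e) • x ∈ L.K := L.K_smul _ (L.C_sub hx) _ (by linarith)
  refine ⟨?_, ?_⟩
  · have := L.K_add _ h1 _ hk
    convert this using 1
    module
  · have := L.K_add _ h2 _ hk
    convert this using 1
    module

theorem near_refl (e : ℝ) (he : 0 ≤ e) (x : E) (hx : x ∈ L.C) : L.near e x x := by
  refine ⟨?_, ?_⟩
  · convert L.K_smul _ (L.C_sub hx) e he using 1
    module
  · convert L.K_smul _ (L.C_sub hx) e he using 1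
    module

/-- composition of two `near`s. -/
theorem near_trans (a b c : ℝ) (ha : 0 ≤ a) (hb : 0 ≤ b) (hb1 : b ≤ 1)
    (hc : a + b + a * b ≤ c) (x y z : E) (hx : x ∈ L.C)
    (h1 : L.near a x y) (h2 : L.near b y z) : L.near c x z := by
  obtain ⟨h1l, h1u⟩ := h1
  obtain ⟨h2l, h2u⟩ := h2
  have hxK := L.C_sub hx
  refine ⟨?_, ?_⟩
  · have e1 := L.K_smul _ h1l (1 - b) (by linarith)
    have e2 := L.K_add _ h2l _ e1
    have e3 := L.K_add _ e2 _ (L.K_smul _ hxK ((1 - b) * (1 - a) - (1 - c)) (by nlinarith))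
    convert e3 using 1
    module
  · have e1 := L.K_smul _ h1u (1 + b) (by linarith)
    have e2 := L.K_add _ h2u _ e1
    have e3 := L.K_add _ e2 _ (L.K_smul _ hxK ((1 + c) - (1 + b) * (1 + a)) (by nlinarith))
    convert e3 using 1
    module

theorem β_near_le (e : ℝ) (x y : E) (h : L.near e x y) (v : V) :
    L.β v y ≤ (1 + e) * L.β v x := by
  have := L.β_nonneg v _ h.2
  rw [map_sub, map_smul, smul_eq_mul] at this
  linarith

theorem β_near_ge (e : ℝ) (x y : E) (h : L.near e x y) (v : V) :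
    (1 - e) * L.β v x ≤ L.β v y := by
  have := L.β_nonneg v _ h.1
  rw [map_sub, map_smul, smul_eq_mul] at this
  linarith

end Lin

namespace Tess
variable {G E V T : Type*} [Group G] [NormedAddCommGroup E] [NormedSpace ℝ E]
    [MulAction G V] [DistribMulAction G E] [MulAction G T] (A : Tess G E V T)

theorem mem_Nb_smul_of (g : G) (v w : V) (h : w ∈ A.Nb v) : g • w ∈ A.Nb (g • v) := by
  obtain ⟨hne, τ, h1, h2⟩ := h
  refine ⟨fun h => hne ?_, g • τ, (A.vert_act g τ v).1 h1, (A.vert_act g τ w).1 h2⟩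
  simpa using h

theorem mem_Nb_smul (g : G) (v w : V) : g • w ∈ A.Nb (g • v) ↔ w ∈ A.Nb v := by
  refine ⟨fun h => ?_, A.mem_Nb_smul_of g v w⟩
  have := A.mem_Nb_smul_of g⁻¹ _ _ h
  simpa using this

theorem mem_C_smul (g : G) (y : E) : g • y ∈ A.C ↔ y ∈ A.C := by
  refine ⟨fun h => ?_, A.act_C g y⟩
  have := A.act_C g⁻¹ _ h
  simpa using this

theorem β_smul_inv (g : G) (w : V) (y : E) : A.β w (g • y) = A.β (g⁻¹ • w) y := by
  rw [← A.β_act g (g⁻¹ • w) y, smul_inv_smul]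

theorem mem_F_smul_of (g : G) (v : V) (y : E) (h : y ∈ A.F v) : g • y ∈ A.F (g • v) := by
  obtain ⟨hC, h⟩ := h
  refine ⟨A.act_C g y hC, fun w hw => ?_⟩
  rw [A.β_act, β_smul_inv]
  refine h _ ?_
  have := A.mem_Nb_smul_of g⁻¹ _ _ hw
  simpa using this

theorem mem_F_smul (g : G) (v : V) (y : E) : g • y ∈ A.F (g • v) ↔ y ∈ A.F v := by
  refine ⟨fun h => ?_, A.mem_F_smul_of g v y⟩
  have := A.mem_F_smul_of g⁻¹ _ _ h
  simpa using this

theorem mem_S_smul_of (g : G) (v w : V) (y : E) (h : w ∈ A.S v y) :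
    g • w ∈ A.S (g • v) (g • y) := by
  rcases h with h | ⟨h1, h2⟩
  · exact Or.inl (by rw [h])
  · exact Or.inr ⟨A.mem_Nb_smul_of g _ _ h1, by rw [A.β_act, A.β_act, h2]⟩

theorem mem_S_smul (g : G) (v w : V) (y : E) : g • w ∈ A.S (g • v) (g • y) ↔ w ∈ A.S v y := by
  refine ⟨fun h => ?_, A.mem_S_smul_of g v w y⟩
  have := A.mem_S_smul_of g⁻¹ _ _ _ h
  simpa using this

theorem Nb_symm (v w : V) (h : w ∈ A.Nb v) : v ∈ A.Nb w := by
  obtain ⟨hne, τ, h1, h2⟩ := h
  exact ⟨fun h => hne h.symm, τ, h2, h1⟩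

variable {A}

/-- (E) at every cusp -/
theorem Good.empt' (H : A.Good) (τ : T) (v : V) (hv : v ∈ A.vert τ) (w : V) (hw : w ∈ A.Nb v)
    (hwτ : w ∉ A.vert τ) : 1 < A.β w (A.ctr τ) := by
  obtain ⟨g, rfl⟩ := A.trans v
  have h1 : A.o ∈ A.vert (g⁻¹ • τ) := by
    have := (A.vert_act g⁻¹ τ _).1 hv
    simpa using this
  have h2 : g⁻¹ • w ∈ A.Nb A.o := by
    have := A.mem_Nb_smul_of g⁻¹ _ _ hw
    simpa using this
  have h3 : g⁻¹ • w ∉ A.vert (g⁻¹ • τ) := fun h => hwτ ((A.vert_act g⁻¹ τ w).2 h)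
  have := H.empt _ h1 _ h2 h3
  rwa [A.ctr_act, A.β_act] at this

/-- (VR) at every cusp -/
theorem Good.vr' (H : A.Good) (v : V) (y : E) (hy : y ∈ A.F v) (w : V) (hw : w ∈ A.Nb v)
    (hyw : A.β w y = A.β v y) :
    ∃ (s : Finset ℕ) (f : ℕ → T) (μ : ℕ → ℝ), s.Nonempty ∧
      (∀ a ∈ s, 0 < μ a ∧ v ∈ A.vert (f a) ∧ w ∈ A.vert (f a)) ∧
      y = ∑ a ∈ s, μ a • A.ctr (f a) := by
  obtain ⟨g, rfl⟩ := A.trans v
  have h0 : g⁻¹ • y ∈ A.F A.o := by
    have := A.mem_F_smul_of g⁻¹ _ _ hy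
    simpa using this
  have h2 : g⁻¹ • w ∈ A.Nb A.o := by
    have := A.mem_Nb_smul_of g⁻¹ _ _ hw
    simpa using this
  have h3 : A.β (g⁻¹ • w) (g⁻¹ • y) = A.β A.o (g⁻¹ • y) := by
    rw [A.β_act, hyw, ← A.β_act g⁻¹ (g • A.o), inv_smul_smul]
  obtain ⟨s, f, μ, hs, hμ, hsum⟩ := H.vr _ h0 _ h2 h3
  refine ⟨s, fun a => g • f a, μ, hs, ?_, ?_⟩
  · intro a ha
    obtain ⟨h1, h2, h3⟩ := hμ a ha
    refine ⟨h1, (A.vert_act g (f a) _).1 h2, ?_⟩
    have := (A.vert_act g (f a) _).1 h3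
    simpa using this
  · have : y = g • (g⁻¹ • y) := by simp
    rw [this, hsum, Finset.smul_sum]
    refine Finset.sum_congr rfl fun a _ => ?_
    rw [A.act_smul, A.ctr_act]

/-- (LF) at every cusp -/
theorem Good.lf' (H : A.Good) (v : V) (y : E) (hy : y ∈ A.C) :
    {w | w ∈ A.Nb v ∧ A.β w y ≤ 2 * A.β v y}.Finite := by
  obtain ⟨g, rfl⟩ := A.trans v
  have := H.lf (g⁻¹ • y) (A.act_C _ _ hy)
  refine Set.Finite.subset (this.image (fun w => g • w)) ?_
  rintro w ⟨h1, h2⟩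
  refine ⟨g⁻¹ • w, ⟨?_, ?_⟩, by simp⟩
  · have := A.mem_Nb_smul_of g⁻¹ _ _ h1
    simpa using this
  · rw [A.β_act, ← A.β_act g A.o (g⁻¹ • y), smul_inv_smul]
    exact h2

/-- LEMMA 1. -/
theorem Good.lemma1 (H : A.Good) (v w : V) (y : E) (hy : y ∈ A.F v) (hw : w ∈ A.S v y) :
    y ∈ A.F w ∧ A.S w y = A.S v y := by
  rcases hw with rfl | ⟨hwN, hwy⟩
  · exact ⟨hy, rfl⟩
  obtain ⟨s, f, μ, hs, hμ, hsum⟩ := H.vr' v y hy w hwN hwy
  -- value of a functional at `y`
  have hval : ∀ u, A.β u y = ∑ a ∈ s, μ a * A.β u (A.ctr (f a)) := by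
    intro u
    rw [hsum, map_sum]
    refine Finset.sum_congr rfl fun τ _ => ?_
    rw [map_smul, smul_eq_mul]
  -- key: for a cusp `x` contained in all tiles of `s`
  have key : ∀ x, (∀ a ∈ s, x ∈ A.vert (f a)) → ∀ u ∈ A.Nb x,
      A.β x y ≤ A.β u y ∧ (A.β u y = A.β x y ↔ ∀ a ∈ s, u ∈ A.vert (f a)) := by
    intro x hx u hu
    have h1 : ∀ a ∈ s, μ a * A.β x (A.ctr (f a)) ≤ μ a * A.β u (A.ctr (f a)) := by
      intro τ hτ
      refine mul_le_mul_of_nonneg_left ?_ (hμ τ hτ).1.le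
      rw [A.ctr_one (f τ) x (hx τ hτ)]
      by_cases huτ : u ∈ A.vert (f τ)
      · rw [A.ctr_one (f τ) u huτ]
      · exact (H.empt' (f τ) x (hx τ hτ) u hu huτ).le
    refine ⟨by rw [hval, hval]; exact Finset.sum_le_sum h1, ?_⟩
    constructor
    · intro heq τ hτ
      by_contra huτ
      have : A.β x y < A.β u y := by
        rw [hval, hval]
        refine Finset.sum_lt_sum h1 ⟨τ, hτ, ?_⟩
        refine mul_lt_mul_of_pos_left ?_ (hμ τ hτ).1
        rw [A.ctr_one (f τ) x (hx τ hτ)]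
        exact H.empt' (f τ) x (hx τ hτ) u hu huτ
      linarith
    · intro hall
      rw [hval, hval]
      refine Finset.sum_congr rfl fun τ hτ => ?_
      rw [A.ctr_one (f τ) x (hx τ hτ), A.ctr_one (f τ) u (hall τ hτ)]
  have hvs : ∀ a ∈ s, v ∈ A.vert (f a) := fun τ hτ => (hμ τ hτ).2.1
  have hws : ∀ a ∈ s, w ∈ A.vert (f a) := fun τ hτ => (hμ τ hτ).2.2
  -- description of S
  have hS : ∀ x, (∀ a ∈ s, x ∈ A.vert (f a)) → A.S x y = {u | ∀ a ∈ s, u ∈ A.vert (f a)} := by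
    intro x hx
    ext u
    constructor
    · rintro (rfl | ⟨h1, h2⟩)
      · exact hx
      · exact ((key x hx u h1).2).1 h2
    · intro hu
      by_cases hux : u = x
      · exact Or.inl hux
      · obtain ⟨τ, hτ⟩ := hs
        have hN : u ∈ A.Nb x := ⟨hux, f τ, hx τ hτ, hu τ hτ⟩
        exact Or.inr ⟨hN, ((key x hx u hN).2).2 hu⟩
  exact ⟨⟨hy.1, fun u hu => (key w hws u hu).1⟩, by rw [hS w hws, hS v hvs]⟩

/-- two different elements of a star are neighbours. -/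
theorem Good.S_pair (H : A.Good) (v : V) (y : E) (hy : y ∈ A.F v) (a b : V)
    (ha : a ∈ A.S v y) (hb : b ∈ A.S v y) (hab : b ≠ a) : b ∈ A.Nb a := by
  have h := (H.lemma1 v a y hy ha).2
  rw [← h] at hb
  rcases hb with hb | hb
  · exact absurd hb hab
  · exact hb.1

/-- values of β on a star agree -/
theorem Good.S_eq (H : A.Good) (v : V) (y : E) (hy : y ∈ A.F v) (a b : V)
    (ha : a ∈ A.S v y) (hb : b ∈ A.S v y) : A.β b y = A.β a y := by
  have h := (H.lemma1 v a y hy ha).2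
  rw [← h] at hb
  rcases hb with rfl | hb
  · rfl
  · exact hb.2

theorem mem_S_self (v : V) (y : E) : v ∈ A.S v y := Or.inl rfl

theorem Good.S_finite (H : A.Good) (v : V) (y : E) (hy : y ∈ A.F v) : (A.S v y).Finite := by
  refine Set.Finite.subset ((Set.finite_singleton v).union (H.lf' v y hy.1)) ?_
  rintro w (rfl | ⟨h1, h2⟩)
  · exact Or.inl rfl
  · refine Or.inr ⟨h1, ?_⟩
    rw [h2]
    have := A.β_pos v y hy.1
    linarith

end Tess
end Pool.Agent.Helper20.DFJ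

end

section

/-!
# Charts (hubs) of the Voronoi tessellation, compatibility, uniform size
-/

namespace Pool.Agent.Helper20.DFJ
namespace Tess
variable {G E V T : Type*} [Group G] [NormedAddCommGroup E] [NormedSpace ℝ E]
    [MulAction G V] [DistribMulAction G E] [MulAction G T] {A : Tess G E V T}

/-- a star of a point: finite, nonempty, pairwise neighbours -/
structure Good.Cell (S₀ : Set V) : Prop where
  fin : S₀.Finite
  ne : S₀.Nonempty
  pair : ∀ a ∈ S₀, ∀ b ∈ S₀, b ≠ a → b ∈ A.Nb a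

theorem Good.cell_of_pt (H : A.Good) (p : Set V × E) (hp : A.IsPt p) :
    Good.Cell (A := A) p.1 := by
  obtain ⟨v, hv, h⟩ := hp
  rw [h]
  exact ⟨H.S_finite v _ hv, ⟨v, mem_S_self v _⟩, fun a ha b hb hab => H.S_pair v _ hv a b ha hb hab⟩

theorem amin_nonempty {S₀ : Set V} (hS : Good.Cell (A := A) S₀) (z : E) :
    (A.amin S₀ z).Nonempty := by
  obtain ⟨u, hu, h⟩ := hS.fin.toFinset.exists_min_image (fun u => A.β u z)
    (by simpa using hS.ne)
  exact ⟨u, by simpa using hu, fun w hw => h w (by simpa using hw)⟩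

/-- every minimiser is a valid representative of the chart point -/
theorem amin_rep {S₀ : Set V} (hS : Good.Cell (A := A) S₀) (z : E) (hz : z ∈ A.Dom S₀) (u : V)
    (hu : u ∈ A.amin S₀ z) : z ∈ A.F u ∧ A.S u z = A.amin S₀ z := by
  obtain ⟨hzC, hz⟩ := hz
  obtain ⟨huS, hmin⟩ := hu
  have out : ∀ w ∈ A.Nb u, w ∉ S₀ → A.β u z < A.β w z := by
    intro w hw hwS
    obtain ⟨x, hx, hlt⟩ := hz u huS w hw hwS
    exact lt_of_le_of_lt (hmin x hx) hlt
  refine ⟨⟨hzC, fun w hw => ?_⟩, ?_⟩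
  · by_cases hwS : w ∈ S₀
    · exact hmin w hwS
    · exact (out w hw hwS).le
  · ext w
    constructor
    · rintro (rfl | ⟨h1, h2⟩)
      · exact ⟨huS, hmin⟩
      · have hwS : w ∈ S₀ := by
          by_contra hwS
          have := out w h1 hwS
          linarith
        exact ⟨hwS, fun x hx => by rw [h2]; exact hmin x hx⟩
    · rintro ⟨hwS, hw⟩
      by_cases hwu : w = u
      · exact Or.inl hwu
      · exact Or.inr ⟨hS.pair u huS w hwS hwu, le_antisymm (hw u huS) (hmin w hwS)⟩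

/-- the chart point is a point -/
theorem chart_isPt {S₀ : Set V} (hS : Good.Cell (A := A) S₀) (z : E) (hz : z ∈ A.Dom S₀) :
    A.IsPt (A.amin S₀ z, z) := by
  obtain ⟨u, hu⟩ := amin_nonempty hS z
  obtain ⟨h1, h2⟩ := amin_rep hS z hz u hu
  exact ⟨u, h1, h2.symm⟩

/-- LEMMA 2: compatibility of charts -/
theorem chart_compat {S₁ S₂ : Set V} (h₁ : Good.Cell (A := A) S₁) (h₂ : Good.Cell (A := A) S₂)
    (u : V) (hu1 : u ∈ S₁) (hu2 : u ∈ S₂) (z : E) (hz1 : z ∈ A.Dom S₁) (hz2 : z ∈ A.Dom S₂) :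
    A.amin S₁ z = A.amin S₂ z := by
  -- general one-sided statement
  have one : ∀ (Sa Sb : Set V), Good.Cell (A := A) Sa → Good.Cell (A := A) Sb → u ∈ Sa → u ∈ Sb →
      z ∈ A.Dom Sb → ∀ a ∈ A.amin Sa z, ∀ b ∈ A.amin Sb z,
      A.β b z ≤ A.β a z ∧ (A.β a z ≤ A.β b z → a ∈ Sb) := by
    intro Sa Sb ha hb hua hub hzb a haa b hbb
    by_cases haS : a ∈ Sb
    · exact ⟨hbb.2 a haS, fun _ => haS⟩
    · have hau : a ≠ u := fun h => haS (h ▸ hub)
      have hN : a ∈ A.Nb u := ha.pair u hua a haa.1 hau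
      obtain ⟨x, hx, hlt⟩ := hzb.2 u hub a hN haS
      have h3 : A.β b z < A.β a z := lt_of_le_of_lt (hbb.2 x hx) hlt
      exact ⟨h3.le, fun h => absurd h (not_le.2 h3)⟩
  obtain ⟨u₁, hu₁⟩ := amin_nonempty h₁ z
  obtain ⟨u₂, hu₂⟩ := amin_nonempty h₂ z
  have e1 := (one S₁ S₂ h₁ h₂ hu1 hu2 hz2 u₁ hu₁ u₂ hu₂).1
  have e2 := (one S₂ S₁ h₂ h₁ hu2 hu1 hz1 u₂ hu₂ u₁ hu₁).1
  have e : A.β u₁ z = A.β u₂ z := le_antisymm e2 e1
  apply Set.Subset.antisymm
  · intro a ha
    have ha' : A.β a z = A.β u₁ z := le_antisymm (ha.2 u₁ hu₁.1) (hu₁.2 a ha.1)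
    have haS := (one S₁ S₂ h₁ h₂ hu1 hu2 hz2 a ha u₂ hu₂).2 (by rw [ha', e])
    exact ⟨haS, fun w hw => by rw [ha', e]; exact hu₂.2 w hw⟩
  · intro a ha
    have ha' : A.β a z = A.β u₂ z := le_antisymm (ha.2 u₂ hu₂.1) (hu₂.2 a ha.1)
    have haS := (one S₂ S₁ h₂ h₁ hu2 hu1 hz1 a ha u₁ hu₁).2 (by rw [ha', e])
    exact ⟨haS, fun w hw => by rw [ha', ← e]; exact hu₁.2 w hw⟩

/-- if `v ∈ S₀` and `z ∈ F v ∩ Dom S₀`, then the chart point of `S₀` at `z` is the star of `v`. -/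
theorem chart_eq {S₀ : Set V} (hS : Good.Cell (A := A) S₀) (z : E) (hz : z ∈ A.Dom S₀)
    (v : V) (hv : v ∈ S₀) (hvz : z ∈ A.F v) : A.S v z = A.amin S₀ z := by
  have : v ∈ A.amin S₀ z := by
    refine ⟨hv, fun w hw => ?_⟩
    by_cases hwv : w = v
    · rw [hwv]
    · exact hvz.2 w (hS.pair v hv w hw hwv)
  exact (amin_rep hS z hz v this).2

/-- equivariance of domains and minimisers -/
theorem mem_Dom_smul_of (g : G) (S₀ : Set V) (z : E) (hz : z ∈ A.Dom S₀) :
    g • z ∈ A.Dom ((fun v => g • v) '' S₀) := by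
  obtain ⟨h1, h2⟩ := hz
  refine ⟨A.act_C g z h1, ?_⟩
  rintro _ ⟨u, hu, rfl⟩ w hw hwS
  have hw' : g⁻¹ • w ∈ A.Nb u := by
    have := A.mem_Nb_smul_of g⁻¹ _ _ hw
    simpa using this
  have hwS' : g⁻¹ • w ∉ S₀ := fun h => hwS ⟨g⁻¹ • w, h, by simp⟩
  obtain ⟨x, hx, hlt⟩ := h2 u hu _ hw' hwS'
  refine ⟨g • x, ⟨x, hx, rfl⟩, ?_⟩
  show A.β (g • x) (g • z) < A.β w (g • z)
  rw [A.β_act, A.β_smul_inv]
  exact hlt

theorem Dom_scale (S₀ : Set V) (z : E) (t : ℝ) (ht : 0 < t) (hz : z ∈ A.Dom S₀) :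
    t • z ∈ A.Dom S₀ := by
  obtain ⟨h1, h2⟩ := hz
  refine ⟨A.C_smul _ h1 t ht, fun u hu w hw hwS => ?_⟩
  obtain ⟨x, hx, hlt⟩ := h2 u hu w hw hwS
  refine ⟨x, hx, ?_⟩
  rw [map_smul, map_smul, smul_eq_mul, smul_eq_mul]
  exact mul_lt_mul_of_pos_left hlt ht

/-- cells are transported by the group -/
theorem Good.cell_smul {S₀ : Set V} (hS : Good.Cell (A := A) S₀) (g : G) :
    Good.Cell (A := A) ((fun v => g • v) '' S₀) := by
  refine ⟨hS.fin.image _, hS.ne.image _, ?_⟩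
  rintro _ ⟨a, ha, rfl⟩ _ ⟨b, hb, rfl⟩ hab
  exact A.mem_Nb_smul_of g _ _ (hS.pair a ha b hb (fun h => hab (by rw [h])))

/-- local uniform domain around `y₀ ∈ F v` -/
theorem Good.dom_nhd (H : A.Good) (v : V) (y₀ : E) (hy : y₀ ∈ A.F v) :
    ∃ η : ℝ, 0 < η ∧ η ≤ 1 / 10 ∧ ∀ e, 0 ≤ e → e ≤ η → ∀ y z, A.near η y₀ y → A.near (3 * e) y z →
      z ∈ A.Dom (A.S v y₀) := by
  -- gap
  have hfin := H.S_finite v y₀ hy
  have gap : ∃ γ : ℝ, 0 < γ ∧ γ ≤ 1 ∧ ∀ u ∈ A.S v y₀, ∀ w ∈ A.Nb u, w ∉ A.S v y₀ →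
      (1 + γ) * A.β u y₀ ≤ A.β w y₀ := by
    have one : ∀ u ∈ A.S v y₀, ∃ γ : ℝ, 0 < γ ∧ γ ≤ 1 ∧ ∀ w ∈ A.Nb u, w ∉ A.S v y₀ →
        (1 + γ) * A.β u y₀ ≤ A.β w y₀ := by
      intro u hu
      have hF := H.lf' u y₀ hy.1
      have hu' := H.lemma1 v u y₀ hy hu
      have hpos := A.β_pos u y₀ hy.1
      have hfin2 : {w | (w ∈ A.Nb u ∧ A.β w y₀ ≤ 2 * A.β u y₀) ∧ w ∉ A.S v y₀}.Finite :=
        hF.subset (fun w hw => hw.1)
      rcases Set.eq_empty_or_nonempty
        {w | (w ∈ A.Nb u ∧ A.β w y₀ ≤ 2 * A.β u y₀) ∧ w ∉ A.S v y₀} with hem | hne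
      · refine ⟨1, one_pos, le_rfl, fun w hw hwS => ?_⟩
        by_contra hlt
        have : w ∈ {w | (w ∈ A.Nb u ∧ A.β w y₀ ≤ 2 * A.β u y₀) ∧ w ∉ A.S v y₀} :=
          ⟨⟨hw, by linarith [not_le.1 hlt]⟩, hwS⟩
        rw [hem] at this
        exact this
      · obtain ⟨w₀, hw₀, hmin⟩ := hfin2.toFinset.exists_min_image (fun w => A.β w y₀)
          (by simpa using hne)
        have hw₀' : (w₀ ∈ A.Nb u ∧ A.β w₀ y₀ ≤ 2 * A.β u y₀) ∧ w₀ ∉ A.S v y₀ := by
          simpa using hw₀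
        have hlt : A.β u y₀ < A.β w₀ y₀ := by
          refine lt_of_le_of_ne (hu'.1.2 w₀ hw₀'.1.1) (fun heq => hw₀'.2 ?_)
          rw [← hu'.2]
          exact Or.inr ⟨hw₀'.1.1, heq.symm⟩
        refine ⟨min 1 (A.β w₀ y₀ / A.β u y₀ - 1), ?_, min_le_left _ _, fun w hw hwS => ?_⟩
        · refine lt_min one_pos ?_
          have : 1 < A.β w₀ y₀ / A.β u y₀ := by rw [lt_div_iff₀ hpos]; linarith
          linarith
        · by_cases h2 : A.β w y₀ ≤ 2 * A.β u y₀
          · have hm := hmin w (by simpa using ⟨⟨hw, h2⟩, hwS⟩)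
            have : (1 + min 1 (A.β w₀ y₀ / A.β u y₀ - 1)) * A.β u y₀ ≤
                (A.β w₀ y₀ / A.β u y₀) * A.β u y₀ := by
              refine mul_le_mul_of_nonneg_right ?_ hpos.le
              linarith [min_le_right 1 (A.β w₀ y₀ / A.β u y₀ - 1)]
            rw [div_mul_cancel₀ _ hpos.ne'] at this
            linarith
          · have : (1 + min 1 (A.β w₀ y₀ / A.β u y₀ - 1)) * A.β u y₀ ≤ 2 * A.β u y₀ := by
              refine mul_le_mul_of_nonneg_right ?_ hpos.le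
              linarith [min_le_left 1 (A.β w₀ y₀ / A.β u y₀ - 1)]
            linarith [not_le.1 h2]
    choose! γ hγ using one
    obtain ⟨u₀, hu₀, hmin⟩ := hfin.toFinset.exists_min_image γ
      (by simpa using ⟨v, mem_S_self v y₀⟩)
    have hu₀' : u₀ ∈ A.S v y₀ := by simpa using hu₀
    refine ⟨γ u₀, (hγ u₀ hu₀').1, (hγ u₀ hu₀').2.1, fun u hu w hw hwS => ?_⟩
    have h1 := (hγ u hu).2.2 w hw hwS
    have h2 := hmin u (by simpa using hu)
    have hpos := A.β_pos u y₀ hy.1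
    nlinarith
  obtain ⟨γ, hγ, hγ1, hgap⟩ := gap
  refine ⟨γ / 20, by positivity, by linarith, ?_⟩
  intro e he0 he y z hy0y hyz
  have h3e : 3 * e < 1 := by linarith
  have hyC : y ∈ A.C := A.near_C (γ / 20) (by linarith) _ _ hy.1 hy0y
  have hzC : z ∈ A.C := A.near_C (3 * e) h3e _ _ hyC hyz
  refine ⟨hzC, fun u hu w hw hwS => ⟨u, hu, ?_⟩⟩
  have a1 := A.β_near_le (γ / 20) _ _ hy0y u
  have a2 := A.β_near_le (3 * e) _ _ hyz u
  have b1 := A.β_near_ge (γ / 20) _ _ hy0y w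
  have b2 := A.β_near_ge (3 * e) _ _ hyz w
  have g1 := hgap u hu w hw hwS
  have hpos := A.β_pos u y₀ hy.1
  set m := A.β u y₀ with hm
  have c1 : A.β u z ≤ (1 + 3 * e) * ((1 + γ / 20) * m) :=
    le_trans a2 (mul_le_mul_of_nonneg_left a1 (by linarith))
  have c2 : (1 - 3 * e) * ((1 - γ / 20) * ((1 + γ) * m)) ≤ A.β w z := by
    refine le_trans (mul_le_mul_of_nonneg_left ?_ (by linarith)) b2
    refine le_trans (mul_le_mul_of_nonneg_left g1 (by linarith)) b1
  refine lt_of_le_of_lt c1 (lt_of_lt_of_le ?_ c2)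
  have d1 : (1 + 3 * e) * (1 + γ / 20) ≤ (1 + 3 * γ / 20) * (1 + γ / 20) :=
    mul_le_mul_of_nonneg_right (by linarith) (by linarith)
  have d2 : (1 - 3 * γ / 20) * ((1 - γ / 20) * (1 + γ)) ≤ (1 - 3 * e) * ((1 - γ / 20) * (1 + γ)) :=
    mul_le_mul_of_nonneg_right (by linarith) (mul_nonneg (by linarith) (by linarith))
  have d3 : (1 + 3 * γ / 20) * (1 + γ / 20) < (1 - 3 * γ / 20) * ((1 - γ / 20) * (1 + γ)) := by
    nlinarith [mul_pos hγ hγ, mul_nonneg hγ.le (sub_nonneg.2 hγ1), mul_pos (mul_pos hγ hγ) hγ]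
  have : (1 + 3 * e) * (1 + γ / 20) < (1 - 3 * e) * ((1 - γ / 20) * (1 + γ)) := by linarith
  have := mul_lt_mul_of_pos_right this hpos
  linarith

end Tess
end Pool.Agent.Helper20.DFJ

end

section

/-!
# The étale lemma (discrete form)

`D : X → E` with values in `C`; `s p z` is a point over `z`, for `z` near `D p`.
If the partial sections are compatible and `X` is chain connected, then `D` is a bijection
onto `C`.
-/

noncomputable section

namespace Pool.Agent.Helper20.DFJ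

namespace Lin
variable {G E V : Type*} [Group G] [NormedAddCommGroup E] [NormedSpace ℝ E]
    [MulAction G V] [DistribMulAction G E] (L : Lin G E V)

/-- the data of compatible partial sections -/
structure Etale (X : Type*) where
  e : ℝ
  e_pos : 0 < e
  e_le : e ≤ 1 / 10
  D : X → E
  D_C : ∀ p, D p ∈ L.C
  s : X → E → X
  D_s : ∀ p z, L.near (3 * e) (D p) z → D (s p z) = z
  s_D : ∀ p, s p (D p) = p
  comp : ∀ p z w, L.near (3 * e) (D p) z → L.near (3 * e) (D p) w → L.near (3 * e) z w →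
    s (s p z) w = s p w
  conn : ∀ p q, Relation.EqvGen (fun p q => ∃ z, L.near e (D p) z ∧ q = s p z) p q

variable {L} {X : Type*} (M : L.Etale X)

/-- point of the segment from `x` to `y` -/
def seg (m : ℕ) (x y : E) (k : ℕ) : E := (1 - (k : ℝ) / m) • x + ((k : ℝ) / m) • y

/-- lift along the segment -/
def Etale.lift (m : ℕ) (y : E) (p : X) : ℕ → X
  | 0 => p
  | (k + 1) => M.s (Etale.lift m y p k) (seg m (M.D p) y (k + 1))

/-- consecutive points of a fine subdivision are `e`-near in both directions. -/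
theorem seg_near (x y : E) (hx : x ∈ L.C) (hy : y ∈ L.C) (e : ℝ) (he : 0 < e) :
    ∃ m₀ : ℕ, 0 < m₀ ∧ ∀ m, m₀ ≤ m → ∀ k, k < m →
      L.near e (seg m x y k) (seg m x y (k + 1)) ∧ L.near e (seg m x y (k + 1)) (seg m x y k) := by
  obtain ⟨l₁, hl₁, h1⟩ := L.unit x hx y
  obtain ⟨l₂, hl₂, h2⟩ := L.unit y hy x
  set l := max (max l₁ l₂) 1 with hl
  have hl1 : 1 ≤ l := le_max_right _ _
  have hxK := L.C_sub hx
  have hyK := L.C_sub hy
  have h1' : l • x - y ∈ L.K := by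
    have := L.K_add _ h1 _ (L.K_smul _ hxK (l - l₁) (by
      have : l₁ ≤ l := le_trans (le_max_left _ _) (le_max_left _ _)
      linarith))
    convert this using 1
    module
  have h2' : l • y - x ∈ L.K := by
    have := L.K_add _ h2 _ (L.K_smul _ hyK (l - l₂) (by
      have : l₂ ≤ l := le_trans (le_max_right _ _) (le_max_left _ _)
      linarith))
    convert this using 1
    module
  -- every point `u` of the segment satisfies `l u - x, l u - y ∈ K`
  have hpt : ∀ t : ℝ, 0 ≤ t → t ≤ 1 → l • ((1 - t) • x + t • y) - x ∈ L.K ∧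
      l • ((1 - t) • x + t • y) - y ∈ L.K := by
    intro t ht0 ht1
    constructor
    · have a := L.K_smul _ h2' t ht0
      have b := L.K_smul _ hxK ((l - 1) * (1 - t)) (mul_nonneg (by linarith) (by linarith))
      have := L.K_add _ a _ b
      convert this using 1
      module
    · have a := L.K_smul _ h1' (1 - t) (by linarith)
      have b := L.K_smul _ hyK ((l - 1) * t) (mul_nonneg (by linarith) (by linarith))
      have := L.K_add _ a _ b
      convert this using 1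
      module
  obtain ⟨m₀, hm₀⟩ := exists_nat_gt (l / e)
  refine ⟨m₀, ?_, ?_⟩
  · have : (0 : ℝ) < m₀ := lt_trans (by positivity) hm₀
    exact_mod_cast this
  intro m hm k hk
  have hmpos : (0 : ℝ) < m := by
    have : (m₀ : ℝ) ≤ m := by exact_mod_cast hm
    have h0 : (0 : ℝ) < m₀ := lt_trans (by positivity) hm₀
    linarith
  have hml : l / m ≤ e := by
    have : (m₀ : ℝ) ≤ m := by exact_mod_cast hm
    rw [div_le_iff₀ hmpos]
    have := (div_lt_iff₀ he).1 hm₀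
    nlinarith
  have hk' : (k : ℝ) + 1 ≤ m := by exact_mod_cast hk
  have t0 : 0 ≤ (k : ℝ) / m := by positivity
  have t0' : (k : ℝ) / m ≤ 1 := by rw [div_le_one hmpos]; linarith
  have t1 : 0 ≤ ((k : ℝ) + 1) / m := by positivity
  have t1' : ((k : ℝ) + 1) / m ≤ 1 := by rw [div_le_one hmpos]; linarith
  have hinv : 0 ≤ 1 / (m : ℝ) := by positivity
  have hsub : ((k : ℝ) + 1) / m = (k : ℝ) / m + 1 / m := by ring
  -- u ± (1/m)(y - x) control
  have ctl : ∀ t : ℝ, 0 ≤ t → t ≤ 1 →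
      e • ((1 - t) • x + t • y) + (1 / (m : ℝ)) • (y - x) ∈ L.K ∧
      e • ((1 - t) • x + t • y) - (1 / (m : ℝ)) • (y - x) ∈ L.K := by
    intro t ht0 ht1
    obtain ⟨a, b⟩ := hpt t ht0 ht1
    have hu : (1 - t) • x + t • y ∈ L.K :=
      L.K_add _ (L.K_smul _ hxK _ (by linarith)) _ (L.K_smul _ hyK _ ht0)
    have c := L.K_smul _ hu (e - l / m) (by linarith)
    constructor
    · have := L.K_add _ (L.K_add _ c _ (L.K_smul _ a _ hinv)) _ (L.K_smul _ hyK _ hinv)
      convert this using 1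
      have : l / (m : ℝ) = l * (1 / m) := by ring
      rw [this]
      module
    · have := L.K_add _ (L.K_add _ c _ (L.K_smul _ b _ hinv)) _ (L.K_smul _ hxK _ hinv)
      convert this using 1
      have : l / (m : ℝ) = l * (1 / m) := by ring
      rw [this]
      module
  have c0 := ctl _ t0 t0'
  have c1 := ctl _ t1 t1'
  refine ⟨⟨?_, ?_⟩, ⟨?_, ?_⟩⟩
  · convert c0.1 using 1
    simp only [seg, Nat.cast_add, Nat.cast_one]
    rw [hsub]
    module
  · convert c0.2 using 1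
    simp only [seg, Nat.cast_add, Nat.cast_one]
    rw [hsub]
    module
  · convert c1.2 using 1
    simp only [seg, Nat.cast_add, Nat.cast_one]
    rw [hsub]
    module
  · convert c1.1 using 1
    simp only [seg, Nat.cast_add, Nat.cast_one]
    rw [hsub]
    module

theorem seg_zero (m : ℕ) (x y : E) : seg m x y 0 = x := by simp [seg]

theorem seg_last (m : ℕ) (hm : 0 < m) (x y : E) : seg m x y m = y := by
  have : (m : ℝ) / m = 1 := div_self (by exact_mod_cast hm.ne')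
  simp [seg, this]

theorem near_seg (e : ℝ) (he : 0 ≤ e) (x z y : E) (hy : y ∈ L.C) (h : L.near e x z) (m k : ℕ)
    (hk : k ≤ m) (hm : 0 < m) : L.near e (seg m x y k) (seg m z y k) := by
  have hmpos : (0 : ℝ) < m := by exact_mod_cast hm
  have t0 : 0 ≤ (k : ℝ) / m := by positivity
  have t1 : (k : ℝ) / m ≤ 1 := by
    rw [div_le_one hmpos]; exact_mod_cast hk
  have a := L.K_smul _ h.1 (1 - (k : ℝ) / m) (by linarith)
  have b := L.K_smul _ h.2 (1 - (k : ℝ) / m) (by linarith)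
  have c := L.K_smul _ (L.C_sub hy) ((k : ℝ) / m * e) (by positivity)
  refine ⟨?_, ?_⟩
  · convert L.K_add _ a _ c using 1
    simp only [seg]
    module
  · convert L.K_add _ b _ c using 1
    simp only [seg]
    module

theorem Etale.D_lift (m : ℕ) (y : E) (p : X)
    (h : ∀ k, k < m → L.near M.e (seg m (M.D p) y k) (seg m (M.D p) y (k + 1)))
    (hC : ∀ k, k ≤ m → seg m (M.D p) y k ∈ L.C) :
    ∀ k, k ≤ m → M.D (M.lift m y p k) = seg m (M.D p) y k := by
  intro k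
  induction k with
  | zero => intro _; simp [Etale.lift, seg_zero]
  | succ k ih =>
    intro hk
    have ih' := ih (by omega)
    simp only [Etale.lift]
    apply M.D_s
    rw [ih']
    exact L.near_mono _ _ (by linarith [M.e_pos]) _ _ (hC k (by omega)) (h k (by omega))

theorem seg_C (x y : E) (hx : x ∈ L.C) (hy : y ∈ L.C) (m k : ℕ) (hk : k ≤ m) (hm : 0 < m) :
    seg m x y k ∈ L.C := by
  have hmpos : (0 : ℝ) < m := by exact_mod_cast hm
  have t0 : 0 ≤ (k : ℝ) / m := by positivity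
  have t1 : (k : ℝ) / m ≤ 1 := by
    rw [div_le_one hmpos]; exact_mod_cast hk
  rcases eq_or_lt_of_le t1 with h | h
  · simp only [seg, h]; simpa using hy
  · exact L.C_add _ (L.C_smul _ hx _ (by linarith)) _ (L.K_smul _ (L.C_sub hy) _ t0)

/-- lifts from related points end at the same point -/
theorem Etale.lift_rel (y : E) (hy : y ∈ L.C) (p : X) (z : E) (hz : L.near M.e (M.D p) z) :
    ∃ m₀ : ℕ, ∀ m, m₀ ≤ m → M.lift m y p m = M.lift m y (M.s p z) m := by
  have he := M.e_pos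
  have he' := M.e_le
  have hzC : z ∈ L.C := L.near_C M.e (by linarith) _ _ (M.D_C p) hz
  have hDq : M.D (M.s p z) = z :=
    M.D_s p z (L.near_mono _ _ (by linarith) _ _ (M.D_C p) hz)
  obtain ⟨m₁, hm₁, h1⟩ := seg_near (L := L) (M.D p) y (M.D_C p) hy M.e he
  obtain ⟨m₂, hm₂, h2⟩ := seg_near (L := L) z y hzC hy M.e he
  refine ⟨max m₁ m₂, fun m hm => ?_⟩
  have hm1 : m₁ ≤ m := le_trans (le_max_left _ _) hm
  have hm2 : m₂ ≤ m := le_trans (le_max_right _ _) hm
  have hmpos : 0 < m := lt_of_lt_of_le hm₁ hm1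
  have hxC : ∀ k, k ≤ m → seg m (M.D p) y k ∈ L.C := fun k hk =>
    seg_C _ _ (M.D_C p) hy m k hk hmpos
  have hzkC : ∀ k, k ≤ m → seg m z y k ∈ L.C := fun k hk => seg_C _ _ hzC hy m k hk hmpos
  have hDA := M.D_lift m y p (fun k hk => (h1 m hm1 k hk).1) hxC
  have key : ∀ k, k ≤ m → M.lift m y (M.s p z) k = M.s (M.lift m y p k) (seg m z y k) := by
    intro k
    induction k with
    | zero => intro _; simp [Etale.lift, seg_zero]
    | succ k ih =>
      intro hk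
      have ih' := ih (by omega)
      have n1 := near_seg (L := L) M.e he.le _ _ y hy hz m k (by omega) hmpos
      have n1' := near_seg (L := L) M.e he.le _ _ y hy hz m (k + 1) hk hmpos
      have n2 := (h2 m hm2 k (by omega)).1
      have n3 := (h1 m hm1 k (by omega)).1
      have n4 : L.near (3 * M.e) (seg m (M.D p) y k) (seg m z y (k + 1)) :=
        L.near_trans M.e M.e _ he.le he.le (by linarith) (by nlinarith) _ _ _
          (hxC k (by omega)) n1 n2
      have hk0 := hDA k (by omega)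
      have e3 : M.e ≤ 3 * M.e := by linarith
      have lhs : M.lift m y (M.s p z) (k + 1) =
          M.s (M.lift m y p k) (seg m z y (k + 1)) := by
        show M.s (M.lift m y (M.s p z) k) (seg m (M.D (M.s p z)) y (k + 1)) = _
        rw [hDq, ih']
        apply M.comp
        · rw [hk0]; exact L.near_mono _ _ e3 _ _ (hxC k (by omega)) n1
        · rw [hk0]; exact n4
        · exact L.near_mono _ _ e3 _ _ (hzkC k (by omega)) n2
      have rhs : M.s (M.lift m y p (k + 1)) (seg m z y (k + 1)) =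
          M.s (M.lift m y p k) (seg m z y (k + 1)) := by
        show M.s (M.s (M.lift m y p k) (seg m (M.D p) y (k + 1))) _ = _
        apply M.comp
        · rw [hk0]; exact L.near_mono _ _ e3 _ _ (hxC k (by omega)) n3
        · rw [hk0]; exact n4
        · exact L.near_mono _ _ e3 _ _ (hxC (k + 1) hk) n1'
      rw [lhs, rhs]
  rw [key m le_rfl, seg_last m hmpos]
  have := hDA m le_rfl
  rw [seg_last m hmpos] at this
  conv_lhs => rw [← M.s_D (M.lift m y p m), this]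

theorem Etale.lift_eq (y : E) (hy : y ∈ L.C) (p q : X) :
    ∃ m₀ : ℕ, ∀ m, m₀ ≤ m → M.lift m y p m = M.lift m y q m := by
  induction M.conn p q with
  | rel a b h =>
    obtain ⟨z, hz, rfl⟩ := h
    exact M.lift_rel y hy a z hz
  | refl a => exact ⟨0, fun _ _ => rfl⟩
  | symm a b _ ih =>
    obtain ⟨m₀, h⟩ := ih
    exact ⟨m₀, fun m hm => (h m hm).symm⟩
  | trans a b c _ _ ih1 ih2 =>
    obtain ⟨m₁, h1⟩ := ih1
    obtain ⟨m₂, h2⟩ := ih2
    exact ⟨max m₁ m₂, fun m hm => (h1 m (le_trans (le_max_left _ _) hm)).trans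
      (h2 m (le_trans (le_max_right _ _) hm))⟩

/-- the étale lemma: injectivity -/
theorem Etale.injective : Function.Injective M.D := by
  intro p q hpq
  have he := M.e_pos
  have he' := M.e_le
  set y := M.D p with hy
  have hyC : y ∈ L.C := M.D_C p
  obtain ⟨m₀, h0⟩ := M.lift_eq y hyC p q
  obtain ⟨m₁, hm₁, h1⟩ := seg_near (L := L) (M.D p) y (M.D_C p) hyC M.e he
  set m := max m₀ m₁ with hm
  have hmm := h0 m (le_max_left _ _)
  have hmpos : 0 < m := lt_of_lt_of_le hm₁ (le_max_right _ _)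
  have hxC : ∀ k, k ≤ m → seg m (M.D p) y k ∈ L.C := fun k hk =>
    seg_C _ _ (M.D_C p) hyC m k hk hmpos
  have hn := h1 m (le_max_right _ _)
  have back : ∀ r : X, M.D r = M.D p → ∀ k, k < m →
      M.lift m y r k = M.s (M.lift m y r (k + 1)) (seg m (M.D p) y k) := by
    intro r hr k hk
    have hD := M.D_lift m y r (by rw [hr]; exact fun k hk => (hn k hk).1)
      (by rw [hr]; exact hxC) k hk.le
    rw [hr] at hD
    have e3 : M.e ≤ 3 * M.e := by linarith
    show _ = M.s (M.s (M.lift m y r k) (seg m (M.D r) y (k + 1))) _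
    rw [hr, M.comp]
    · conv_lhs => rw [← M.s_D (M.lift m y r k), hD]
    · rw [hD]; exact L.near_mono _ _ e3 _ _ (hxC k hk.le) (hn k hk).1
    · rw [hD]; exact L.near_refl _ (by linarith) _ (hxC k hk.le)
    · exact L.near_mono _ _ e3 _ _ (hxC (k + 1) hk) (hn k hk).2
  have key : ∀ j, j ≤ m → M.lift m y p (m - j) = M.lift m y q (m - j) := by
    intro j
    induction j with
    | zero => intro _; simpa using hmm
    | succ j ih =>
      intro hj
      have h2 : m - (j + 1) + 1 = m - j := by omega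
      rw [back p rfl (m - (j + 1)) (by omega), back q (hpq ▸ rfl) (m - (j + 1)) (by omega), h2,
        ih (by omega)]
  have := key m le_rfl
  simpa [Etale.lift] using this

theorem Etale.surjective (p : X) (y : E) (hy : y ∈ L.C) : ∃ q, M.D q = y := by
  obtain ⟨m, hm, h1⟩ := seg_near (L := L) (M.D p) y (M.D_C p) hy M.e M.e_pos
  refine ⟨M.lift m y p m, ?_⟩
  rw [M.D_lift m y p (fun k hk => (h1 m le_rfl k hk).1)
    (fun k hk => seg_C _ _ (M.D_C p) hy m k hk hm) m le_rfl, seg_last m hm]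

end Lin
end Pool.Agent.Helper20.DFJ

end

end

section

/-!
# T2: the Voronoi tessellation theorem
-/

noncomputable section

namespace Pool.Agent.Helper20.DFJ
namespace Tess
variable {G E V T : Type*} [Group G] [NormedAddCommGroup E] [NormedSpace ℝ E]
    [MulAction G V] [DistribMulAction G E] [MulAction G T] {A : Tess G E V T}

theorem amin_smul (g : G) (S₀ : Set V) (z : E) :
    A.amin ((fun v => g • v) '' S₀) (g • z) = (fun v => g • v) '' (A.amin S₀ z) := by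
  ext u
  constructor
  · rintro ⟨⟨a, ha, rfl⟩, hmin⟩
    refine ⟨a, ⟨ha, fun w hw => ?_⟩, rfl⟩
    have := hmin (g • w) ⟨w, hw, rfl⟩
    simp only [A.β_act] at this
    exact this
  · rintro ⟨a, ⟨ha, hmin⟩, rfl⟩
    refine ⟨⟨a, ha, rfl⟩, ?_⟩
    rintro _ ⟨w, hw, rfl⟩
    simp only [A.β_act]
    exact hmin w hw

theorem amin_scale (S₀ : Set V) (z : E) (t : ℝ) (ht : 0 < t) :
    A.amin S₀ (t • z) = A.amin S₀ z := by
  ext u
  simp only [amin, map_smul, smul_eq_mul, Set.mem_ofPred_eq]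
  constructor
  · rintro ⟨h1, h2⟩
    exact ⟨h1, fun w hw => le_of_mul_le_mul_left (h2 w hw) ht⟩
  · rintro ⟨h1, h2⟩
    exact ⟨h1, fun w hw => mul_le_mul_of_nonneg_left (h2 w hw) ht.le⟩

theorem F_scale (v : V) (y : E) (t : ℝ) (ht : 0 < t) (hy : y ∈ A.F v) : t • y ∈ A.F v := by
  refine ⟨A.C_smul _ hy.1 t ht, fun w hw => ?_⟩
  rw [map_smul, map_smul, smul_eq_mul, smul_eq_mul]
  exact mul_le_mul_of_nonneg_left (hy.2 w hw) ht.le

theorem S_scale (v : V) (y : E) (t : ℝ) (ht : 0 < t) : A.S v (t • y) = A.S v y := by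
  ext w
  simp only [S, map_smul, smul_eq_mul, Set.mem_ofPred_eq]
  constructor
  · rintro (h | ⟨h1, h2⟩)
    · exact Or.inl h
    · exact Or.inr ⟨h1, mul_left_cancel₀ ht.ne' h2⟩
  · rintro (h | ⟨h1, h2⟩)
    · exact Or.inl h
    · exact Or.inr ⟨h1, by rw [h2]⟩

theorem S_smul (g : G) (v : V) (y : E) : A.S (g • v) (g • y) = (fun v => g • v) '' (A.S v y) := by
  ext w
  constructor
  · intro hw
    refine ⟨g⁻¹ • w, ?_, by simp⟩
    have := A.mem_S_smul_of g⁻¹ _ _ _ hw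
    simpa using this
  · rintro ⟨a, ha, rfl⟩
    exact A.mem_S_smul_of g _ _ _ ha

/-- being a hub for the pair `(S v y, y)` with radius `3e` -/
def Hub (A : Tess G E V T) (e : ℝ) (v : V) (y : E) (S₀ : Set V) : Prop :=
  Good.Cell (A := A) S₀ ∧ A.S v y = A.amin S₀ y ∧ ∀ z, A.near (3 * e) y z → z ∈ A.Dom S₀

theorem Hub.smul {e : ℝ} {v : V} {y : E} {S₀ : Set V} (h : Hub A e v y S₀) (g : G) :
    Hub A e (g • v) (g • y) ((fun v => g • v) '' S₀) := by
  obtain ⟨h1, h2, h3⟩ := h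
  refine ⟨Good.cell_smul h1 g, ?_, fun z hz => ?_⟩
  · rw [S_smul, amin_smul, h2]
  · have : A.near (3 * e) y (g⁻¹ • z) := by
      have := A.near_smul_of (3 * e) g⁻¹ _ _ hz
      simpa using this
    have := mem_Dom_smul_of g S₀ _ (h3 _ this)
    simpa using this

theorem Hub.scale {e : ℝ} {v : V} {y : E} {S₀ : Set V} (h : Hub A e v y S₀) (t : ℝ) (ht : 0 < t) :
    Hub A e v (t • y) S₀ := by
  obtain ⟨h1, h2, h3⟩ := h
  refine ⟨h1, ?_, fun z hz => ?_⟩
  · rw [S_scale v y t ht, amin_scale _ _ _ ht, h2]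
  · have hti : 0 < t⁻¹ := inv_pos.2 ht
    have : A.near (3 * e) y (t⁻¹ • z) := by
      have := A.near_scale (3 * e) t⁻¹ hti.le _ _ hz
      rwa [smul_smul, inv_mul_cancel₀ ht.ne', one_smul] at this
    have := Dom_scale S₀ _ t ht (h3 _ this)
    rwa [smul_smul, mul_inv_cancel₀ ht.ne', one_smul] at this

/-- LEMMA 3: uniform hubs. -/
theorem Good.hubs (H : A.Good) : ∃ e : ℝ, 0 < e ∧ e ≤ 1 / 10 ∧ ∀ v y, y ∈ A.F v →
    ∃ S₀, Hub A e v y S₀ := by
  obtain ⟨Q, δ, hQc, hQC, hδ, hcc⟩ := H.cc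
  -- local statement on Q
  have loc : ∀ y₀ ∈ Q, ∃ η : ℝ, 0 < η ∧ η ≤ 1 / 10 ∧ ∀ y, A.near η y₀ y → y ∈ A.F A.o →
      ∀ e, 0 ≤ e → e ≤ η → ∃ S₀, Hub A e A.o y S₀ := by
    intro y₀ hy₀
    by_cases hF : y₀ ∈ A.F A.o
    · obtain ⟨η, h1, h2, h3⟩ := H.dom_nhd A.o y₀ hF
      refine ⟨η, h1, h2, fun y hy hyF e he0 he => ⟨A.S A.o y₀, ?_, ?_, fun z hz =>
        h3 e he0 he y z hy hz⟩⟩
      · exact H.cell_of_pt (A.S A.o y₀, y₀) ⟨A.o, hF, rfl⟩
      · have hd : y ∈ A.Dom (A.S A.o y₀) :=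
          h3 0 le_rfl h1.le y y hy (by simpa using A.near_refl 0 le_rfl y hyF.1)
        exact chart_eq (H.cell_of_pt (A.S A.o y₀, y₀) ⟨A.o, hF, rfl⟩) y hd A.o
          (mem_S_self _ _) hyF
    · have hC := hQC hy₀
      have : ∃ w ∈ A.Nb A.o, A.β w y₀ < A.β A.o y₀ := by
        by_contra hcon
        push Not at hcon
        exact hF ⟨hC, hcon⟩
      obtain ⟨w, hw, hlt⟩ := this
      have hp := A.β_pos w y₀ hC
      set a := A.β w y₀
      set b := A.β A.o y₀
      refine ⟨min (1 / 10) ((b - a) / (2 * (a + b))), ?_, min_le_left _ _, ?_⟩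
      · refine lt_min (by norm_num) (div_pos (by linarith) (by linarith))
      intro y hy hyF
      exfalso
      set η := min (1 / 10) ((b - a) / (2 * (a + b)))
      have h1 := A.β_near_le η _ _ hy w
      have h2 := A.β_near_ge η _ _ hy A.o
      have h3 := hyF.2 w hw
      have h4 : η * (2 * (a + b)) ≤ b - a := by
        have : η ≤ (b - a) / (2 * (a + b)) := min_le_right _ _
        rwa [le_div_iff₀ (by linarith)] at this
      have h5 : (1 - η) * b ≤ (1 + η) * a := by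
        change (1 - η) * b ≤ _ at h2
        change _ ≤ (1 + η) * a at h1
        linarith
      nlinarith
  choose! η hη using loc
  obtain ⟨t, htc⟩ := hQc.elim_nhds_subcover'
    (fun y₀ hy₀ => {y | A.near (η y₀) y₀ y}) (fun y₀ hy₀ => A.nhd y₀ (hQC hy₀) _ (hη y₀ hy₀).1)
  -- choose e
  have hex : ∃ e₁ : ℝ, 0 < e₁ ∧ e₁ ≤ 1 / 10 ∧ ∀ y₀ ∈ t, e₁ ≤ η y₀ := by
    rcases t.eq_empty_or_nonempty with rfl | hne
    · exact ⟨1 / 10, by norm_num, le_rfl, by simp⟩
    · obtain ⟨y₁, hy₁, hmin⟩ := t.exists_min_image (fun y => η y) hne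
      exact ⟨η y₁, (hη _ y₁.2).1, (hη _ y₁.2).2.1, fun y₀ hy₀ => hmin y₀ hy₀⟩
  obtain ⟨e₁, he₁, he₁', hle⟩ := hex
  set e := min e₁ (min (1 / 10) (δ / (10 * (1 + δ)))) with he
  have hepos : 0 < e := lt_min he₁ (lt_min (by norm_num) (by positivity))
  have hee₁ : e ≤ e₁ := min_le_left _ _
  have he10 : e ≤ 1 / 10 := le_trans hee₁ he₁'
  have heδ : e * (10 * (1 + δ)) ≤ δ := by
    have : e ≤ δ / (10 * (1 + δ)) := le_trans (min_le_right _ _) (min_le_right _ _)
    rwa [le_div_iff₀ (by positivity)] at this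
  refine ⟨e, hepos, he10, ?_⟩
  -- at the base cusp
  have base : ∀ y ∈ A.F A.o, ∃ S₀, Hub A e A.o y S₀ := by
    intro y hy
    rcases hcc y hy with hdeep | ⟨g, s, hg, hs, hQ⟩
    · refine ⟨{A.o}, ⟨Set.finite_singleton _, Set.singleton_nonempty _, ?_⟩, ?_, ?_⟩
      · rintro a rfl b rfl hab
        exact absurd rfl hab
      · ext w
        constructor
        · rintro (rfl | ⟨h1, h2⟩)
          · exact ⟨rfl, fun w hw => by rw [Set.mem_singleton_iff.1 hw]⟩
          · exfalso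
            have := hdeep w h1
            have hp := A.β_pos A.o y hy.1
            rw [h2] at this
            nlinarith
        · rintro ⟨h1, -⟩
          exact Or.inl h1
      · intro z hz
        have hzC : z ∈ A.C := A.near_C (3 * e) (by linarith) _ _ hy.1 hz
        refine ⟨hzC, ?_⟩
        rintro u rfl w hw -
        refine ⟨A.o, rfl, ?_⟩
        have h1 := A.β_near_le _ _ _ hz A.o
        have h2 := A.β_near_ge _ _ _ hz w
        have h3 := hdeep w hw
        have hp := A.β_pos A.o y hy.1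
        have h4 : (1 - 3 * e) * ((1 + δ) * A.β A.o y) ≤ A.β w z :=
          le_trans (mul_le_mul_of_nonneg_left h3 (by linarith)) h2
        have h5 : (1 + 3 * e) < (1 - 3 * e) * (1 + δ) := by nlinarith
        have h6 := mul_lt_mul_of_pos_right h5 hp
        linarith
    · -- compact part
      have hFy : s • (g • y) ∈ A.F A.o := by
        refine F_scale _ _ _ hs ?_
        have := A.mem_F_smul_of g _ _ hy
        rwa [hg] at this
      have := htc hQ
      simp only [Set.mem_iUnion] at this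
      obtain ⟨y₀, hy₀t, hnear⟩ := this
      obtain ⟨S₀, hS₀⟩ := (hη y₀ y₀.2).2.2 _ hnear hFy e hepos.le (le_trans hee₁ (hle y₀ hy₀t))
      have h1 := (hS₀.scale s⁻¹ (inv_pos.2 hs)).smul g⁻¹
      rw [smul_smul, inv_mul_cancel₀ hs.ne', one_smul, inv_smul_smul] at h1
      have ho : g⁻¹ • A.o = A.o := by
        conv_lhs => rw [← hg]
        simp
      rw [ho] at h1
      exact ⟨_, h1⟩
  intro v y hy
  obtain ⟨g, rfl⟩ := A.trans v
  have hy' : g⁻¹ • y ∈ A.F A.o := by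
    have := A.mem_F_smul_of g⁻¹ _ _ hy
    simpa using this
  obtain ⟨S₀, hS₀⟩ := base _ hy'
  have := hS₀.smul g
  rw [smul_inv_smul] at this
  exact ⟨_, this⟩

/-- the space of abstract points -/
def Pt (A : Tess G E V T) := {p : Set V × E // A.IsPt p}

theorem Pt.hub (H : A.Good) (p : Pt A) :
    ∃ S₀, Good.Cell (A := A) S₀ ∧ p.1.1 = A.amin S₀ p.1.2 ∧
      ∀ z, A.near (3 * H.hubs.choose) p.1.2 z → z ∈ A.Dom S₀ := by
  obtain ⟨v, hv, h⟩ := p.2
  obtain ⟨S₀, h1, h2, h3⟩ := H.hubs.choose_spec.2.2 v p.1.2 hv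
  exact ⟨S₀, h1, by rw [h, h2], h3⟩

/-- chosen hub -/
def hubOf (H : A.Good) (p : Pt A) : Set V := (Pt.hub H p).choose

theorem hubOf_cell (H : A.Good) (p : Pt A) : Good.Cell (A := A) (hubOf H p) :=
  (Pt.hub H p).choose_spec.1
theorem hubOf_eq (H : A.Good) (p : Pt A) : p.1.1 = A.amin (hubOf H p) p.1.2 :=
  (Pt.hub H p).choose_spec.2.1
theorem hubOf_dom (H : A.Good) (p : Pt A) (z : E) (hz : A.near (3 * H.hubs.choose) p.1.2 z) :
    z ∈ A.Dom (hubOf H p) :=
  (Pt.hub H p).choose_spec.2.2 z hz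

open Classical in
/-- the local section through `p` -/
def sec (H : A.Good) (p : Pt A) (z : E) : Pt A :=
  if hz : z ∈ A.Dom (hubOf H p) then ⟨(A.amin (hubOf H p) z, z), chart_isPt (hubOf_cell H p) z hz⟩
  else p

theorem sec_of (H : A.Good) (p : Pt A) (z : E) (hz : z ∈ A.Dom (hubOf H p)) :
    (sec H p z).1 = (A.amin (hubOf H p) z, z) := by
  unfold sec
  rw [dif_pos hz]

theorem pt_C (p : Pt A) : p.1.2 ∈ A.C := by
  obtain ⟨v, hv, -⟩ := p.2
  exact hv.1

/-- if `v` is in the star `p.1.1` and `z ∈ F v` is near, then the section at `z` is the star of `v`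
at `z`. -/
theorem sec_of_F (H : A.Good) (p : Pt A) (z : E) (hz : A.near (3 * H.hubs.choose) p.1.2 z)
    (v : V) (hv : v ∈ p.1.1) (hvz : z ∈ A.F v) : (sec H p z).1 = (A.S v z, z) := by
  have hd := hubOf_dom H p z hz
  rw [sec_of H p z hd]
  have hv' : v ∈ hubOf H p := by
    rw [hubOf_eq H p] at hv
    exact hv.1
  rw [chart_eq (hubOf_cell H p) z hd v hv' hvz]

theorem mem_star_F (H : A.Good) (p : Pt A) (v : V) (hv : v ∈ p.1.1) :
    p.1.2 ∈ A.F v ∧ A.S v p.1.2 = p.1.1 := by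
  obtain ⟨u, hu, h⟩ := p.2
  rw [h] at hv ⊢
  exact H.lemma1 u v _ hu hv

theorem F_seg (v : V) (x y : E) (hx : x ∈ A.F v) (hy : y ∈ A.F v) (m k : ℕ) (hk : k ≤ m)
    (hm : 0 < m) : Lin.seg m x y k ∈ A.F v := by
  have hmpos : (0 : ℝ) < m := by exact_mod_cast hm
  have t0 : 0 ≤ (k : ℝ) / m := by positivity
  have t1 : (k : ℝ) / m ≤ 1 := by
    rw [div_le_one hmpos]; exact_mod_cast hk
  refine ⟨Lin.seg_C (L := A.toLin) x y hx.1 hy.1 m k hk hm, fun w hw => ?_⟩
  have h1 := hx.2 w hw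
  have h2 := hy.2 w hw
  simp only [Lin.seg, map_add, map_smul, smul_eq_mul]
  have := mul_le_mul_of_nonneg_left h1 (sub_nonneg.2 t1)
  have := mul_le_mul_of_nonneg_left h2 t0
  linarith

/-- the relation small move -/
def move (H : A.Good) (p q : Pt A) : Prop :=
  ∃ z, A.near H.hubs.choose p.1.2 z ∧ q = sec H p z

/-- two points of the same cell are connected -/
theorem conn_cell (H : A.Good) (v : V) (p q : Pt A) (hp : v ∈ p.1.1) (hq : v ∈ q.1.1) :
    Relation.EqvGen (move H) p q := by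
  have he := H.hubs.choose_spec.1
  set e := H.hubs.choose
  obtain ⟨hpF, hpS⟩ := mem_star_F H p v hp
  obtain ⟨hqF, hqS⟩ := mem_star_F H q v hq
  obtain ⟨m, hm, h1⟩ := Lin.seg_near (L := A.toLin) p.1.2 q.1.2 hpF.1 hqF.1 e he
  have hn := h1 m le_rfl
  let r : ∀ k, k ≤ m → Pt A := fun k hk =>
    ⟨(A.S v (Lin.seg m p.1.2 q.1.2 k), Lin.seg m p.1.2 q.1.2 k),
      v, F_seg v _ _ hpF hqF m k hk hm, rfl⟩
  have key : ∀ k (hk : k ≤ m), Relation.EqvGen (move H) p (r k hk) := by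
    intro k
    induction k with
    | zero =>
      intro hk
      have : p = r 0 hk := by
        apply Subtype.ext
        show p.1 = (A.S v (Lin.seg m p.1.2 q.1.2 0), Lin.seg m p.1.2 q.1.2 0)
        rw [Lin.seg_zero, hpS]
      rw [← this]
      exact Relation.EqvGen.refl _
    | succ k ih =>
      intro hk
      refine Relation.EqvGen.trans _ _ _ (ih (by omega)) (Relation.EqvGen.rel _ _ ?_)
      refine ⟨Lin.seg m p.1.2 q.1.2 (k + 1), (hn k (by omega)).1, ?_⟩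
      apply Subtype.ext
      have := sec_of_F H (r k (by omega)) (Lin.seg m p.1.2 q.1.2 (k + 1))
        (A.near_mono e _ (by linarith) _ _ (F_seg v _ _ hpF hqF m k (by omega) hm).1
          (hn k (by omega)).1) v (mem_S_self _ _) (F_seg v _ _ hpF hqF m (k + 1) hk hm)
      rw [this]
  have := key m le_rfl
  have h2 : r m le_rfl = q := by
    apply Subtype.ext
    show (A.S v (Lin.seg m p.1.2 q.1.2 m), Lin.seg m p.1.2 q.1.2 m) = q.1
    rw [Lin.seg_last m hm, hqS]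
  rwa [h2] at this

theorem ctr_F (H : A.Good) (τ : T) (v : V) (hv : v ∈ A.vert τ) : A.ctr τ ∈ A.F v := by
  refine ⟨A.ctr_C τ, fun w hw => ?_⟩
  rw [A.ctr_one τ v hv]
  by_cases h : w ∈ A.vert τ
  · rw [A.ctr_one τ w h]
  · exact (H.empt' τ v hv w hw h).le

theorem conn_all (H : A.Good) (p q : Pt A) : Relation.EqvGen (move H) p q := by
  -- every point is connected to every point of the cell of `o`
  have key : ∀ v, Relation.ReflTransGen (fun a b => b ∈ A.Nb a) A.o v → ∀ (p q : Pt A),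
      A.o ∈ p.1.1 → v ∈ q.1.1 → Relation.EqvGen (move H) p q := by
    intro v hv
    induction hv with
    | refl => intro p q hp hq; exact conn_cell H _ p q hp hq
    | tail _ hbc ih =>
      rename_i b c _
      intro p q hp hq
      obtain ⟨hne, τ, hbτ, hcτ⟩ := hbc
      let r : Pt A := ⟨(A.S b (A.ctr τ), A.ctr τ), b, ctr_F H τ b hbτ, rfl⟩
      have hbr : b ∈ r.1.1 := mem_S_self _ _
      have hcr : c ∈ r.1.1 := by
        refine Or.inr ⟨⟨hne, τ, hbτ, hcτ⟩, ?_⟩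
        rw [A.ctr_one τ b hbτ, A.ctr_one τ c hcτ]
      exact Relation.EqvGen.trans _ _ _ (ih p r hp hbr) (conn_cell H _ r q hcr hq)
  obtain ⟨v, hv, h⟩ := p.2
  obtain ⟨w, hw, h'⟩ := q.2
  have hvp : v ∈ p.1.1 := by rw [h]; exact mem_S_self _ _
  have hwq : w ∈ q.1.1 := by rw [h']; exact mem_S_self _ _
  -- need a point in the cell of `o`
  obtain ⟨g, hg⟩ := A.trans v
  have hyo : g⁻¹ • p.1.2 ∈ A.F A.o := by
    have := A.mem_F_smul_of g⁻¹ _ _ hv
    rw [← hg] at this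
    simpa using this
  let r : Pt A := ⟨(A.S A.o (g⁻¹ • p.1.2), g⁻¹ • p.1.2), A.o, hyo, rfl⟩
  have hr : A.o ∈ r.1.1 := mem_S_self _ _
  exact Relation.EqvGen.trans _ _ _ (Relation.EqvGen.symm _ _ (key v (H.con v) r p hr hvp))
    (key w (H.con w) r q hr hwq)

/-- the étale structure -/
def etale (H : A.Good) : A.toLin.Etale (Pt A) where
  e := H.hubs.choose
  e_pos := H.hubs.choose_spec.1
  e_le := H.hubs.choose_spec.2.1
  D := fun p => p.1.2
  D_C := pt_C
  s := sec H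
  D_s := by
    intro p z hz
    rw [sec_of H p z (hubOf_dom H p z hz)]
  s_D := by
    intro p
    have hn : A.near (3 * H.hubs.choose) p.1.2 p.1.2 :=
      A.near_refl _ (by linarith [H.hubs.choose_spec.1]) _ (pt_C p)
    apply Subtype.ext
    rw [sec_of H p _ (hubOf_dom H p _ hn), ← hubOf_eq H p]
  comp := by
    intro p z w hz hw hzw
    have hdz := hubOf_dom H p z hz
    have hdw := hubOf_dom H p w hw
    have hq := sec_of H p z hdz
    set q := sec H p z with hqdef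
    have hzw' : A.near (3 * H.hubs.choose) q.1.2 w := by rw [hq]; exact hzw
    have hdw' := hubOf_dom H q w hzw'
    apply Subtype.ext
    rw [sec_of H q w hdw', sec_of H p w hdw]
    obtain ⟨u, hu⟩ := amin_nonempty (hubOf_cell H p) z
    have hu1 : u ∈ q.1.1 := by rw [hq]; exact hu
    have hu2 : u ∈ hubOf H q := by
      rw [hubOf_eq H q] at hu1
      exact hu1.1
    rw [chart_compat (hubOf_cell H q) (hubOf_cell H p) u hu2 hu.1 w hdw' hdw]
  conn := fun p q => conn_all H p q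

/-- **T2**: two Voronoi cells sharing a point are neighbours there. -/
theorem Good.main (H : A.Good) (v w : V) (y : E) (hv : y ∈ A.F v) (hw : y ∈ A.F w) :
    w ∈ A.S v y := by
  have inj := (etale H).injective
  let p : Pt A := ⟨(A.S v y, y), v, hv, rfl⟩
  let q : Pt A := ⟨(A.S w y, y), w, hw, rfl⟩
  have : p = q := inj rfl
  have h : A.S v y = A.S w y := congrArg (fun r : Pt A => r.1.1) this
  rw [h]
  exact mem_S_self _ _

/-- the Voronoi cells cover the cone -/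
theorem Good.cover (H : A.Good) (y₀ : E) (hy₀ : y₀ ∈ A.F A.o) (y : E) (hy : y ∈ A.C) :
    ∃ v, y ∈ A.F v := by
  let p : Pt A := ⟨(A.S A.o y₀, y₀), A.o, hy₀, rfl⟩
  obtain ⟨q, hq⟩ := (etale H).surjective p y hy
  obtain ⟨v, hv, -⟩ := q.2
  refine ⟨v, ?_⟩
  change q.1.2 = y at hq
  rwa [hq] at hv

/-- **faithfulness and discreteness**: `y₀` is a deep point of the base cell; an element moving
`y₀` by little fixes the base cusp. -/
theorem Good.fix_of_near (H : A.Good) (y₀ : E) (hy₀ : y₀ ∈ A.C) (ε : ℝ) (hε : 0 < ε)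
    (hε1 : ε ≤ 1) (hdeep : ∀ w ∈ A.Nb A.o, (1 + ε) * A.β A.o y₀ ≤ A.β w y₀) (g : G)
    (hg : A.near (ε / 4) y₀ (g • y₀)) : g • A.o = A.o := by
  have hp := A.β_pos A.o y₀ hy₀
  have h1 : y₀ ∈ A.F A.o := ⟨hy₀, fun w hw => by nlinarith [hdeep w hw]⟩
  have h2 : g • y₀ ∈ A.F (g • A.o) := A.mem_F_smul_of g _ _ h1
  have hlt : ∀ w ∈ A.Nb A.o, A.β A.o (g • y₀) < A.β w (g • y₀) := by
    intro w hw
    have a := A.β_near_le _ _ _ hg A.o
    have b := A.β_near_ge _ _ _ hg w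
    have c := hdeep w hw
    have d : (1 - ε / 4) * ((1 + ε) * A.β A.o y₀) ≤ A.β w (g • y₀) :=
      le_trans (mul_le_mul_of_nonneg_left c (by linarith)) b
    have e : (1 + ε / 4) < (1 - ε / 4) * (1 + ε) := by nlinarith
    have := mul_lt_mul_of_pos_right e hp
    linarith
  have h3 : g • y₀ ∈ A.F A.o := ⟨A.act_C g _ hy₀, fun w hw => (hlt w hw).le⟩
  rcases H.main A.o (g • A.o) (g • y₀) h3 h2 with h | ⟨h, h'⟩
  · exact h
  · exact absurd h' (hlt _ h).ne'

end Tess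
end Pool.Agent.Helper20.DFJ

end

end

section

/-!
# Concrete layer: Hermitian 2x2 forms `(q z ; z̄ r)` and the action of `GL₂(ℂ)`
-/

noncomputable section

open Complex Matrix
open scoped ComplexConjugate

namespace Pool.Agent.Helper20.DFJ

/-- Hermitian forms `(q z ; z̄ r)` -/
abbrev HE := ℝ × ℂ × ℝ

/-- the Hermitian matrix -/
def toMat (y : HE) : Matrix (Fin 2) (Fin 2) ℂ := !![(y.1 : ℂ), y.2.1; conj y.2.1, (y.2.2 : ℂ)]

theorem toMat_inj {x y : HE} (h : toMat x = toMat y) : x = y := by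
  have h00 := congrFun (congrFun h 0) 0
  have h01 := congrFun (congrFun h 0) 1
  have h11 := congrFun (congrFun h 1) 1
  simp only [toMat, Matrix.of_apply, Matrix.cons_val', Matrix.cons_val_zero, Matrix.cons_val_one,
    Matrix.cons_val_fin_one] at h00 h01 h11
  refine Prod.ext (by exact_mod_cast h00) (Prod.ext h01 (by exact_mod_cast h11))

/-- `g y g*` -/
def actH (g : Matrix (Fin 2) (Fin 2) ℂ) (y : HE) : HE :=
  (normSq (g 0 0) * y.1 + 2 * (g 0 0 * y.2.1 * conj (g 0 1)).re + normSq (g 0 1) * y.2.2,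
   g 0 0 * conj (g 1 0) * y.1 + g 0 0 * conj (g 1 1) * y.2.1 +
     g 0 1 * conj (g 1 0) * conj y.2.1 + g 0 1 * conj (g 1 1) * y.2.2,
   normSq (g 1 0) * y.1 + 2 * (g 1 0 * y.2.1 * conj (g 1 1)).re + normSq (g 1 1) * y.2.2)

theorem toMat_actH (g : Matrix (Fin 2) (Fin 2) ℂ) (y : HE) :
    toMat (actH g y) = g * toMat y * gᴴ := by
  have key : ∀ w : ℂ, ((2 * w.re : ℝ) : ℂ) = w + conj w := by
    intro w
    apply Complex.ext <;> simp
    ring
  ext i j
  fin_cases i <;> fin_cases j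
  · simp only [toMat, actH, Matrix.mul_apply, Fin.sum_univ_two, Matrix.conjTranspose_apply,
      Matrix.of_apply, Matrix.cons_val', Matrix.cons_val_zero, Matrix.cons_val_one,
      Matrix.cons_val_fin_one, Fin.zero_eta, Fin.isValue, ofReal_add, ofReal_mul]
    have := key (g 0 0 * y.2.1 * conj (g 0 1))
    rw [ofReal_mul] at this
    rw [← Complex.mul_conj, ← Complex.mul_conj, this]
    simp only [map_mul, Complex.conj_conj, RCLike.star_def]
    ring
  · simp only [toMat, actH, Matrix.mul_apply, Fin.sum_univ_two, Matrix.conjTranspose_apply,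
      Matrix.of_apply, Matrix.cons_val', Matrix.cons_val_zero, Matrix.cons_val_one,
      Matrix.cons_val_fin_one, Fin.zero_eta, Fin.isValue, Fin.mk_one, RCLike.star_def]
    ring
  · simp only [toMat, actH, Matrix.mul_apply, Fin.sum_univ_two, Matrix.conjTranspose_apply,
      Matrix.of_apply, Matrix.cons_val', Matrix.cons_val_zero, Matrix.cons_val_one,
      Matrix.cons_val_fin_one, Fin.zero_eta, Fin.isValue, Fin.mk_one, RCLike.star_def]
    simp only [map_add, map_mul, Complex.conj_conj, Complex.conj_ofReal]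
    ring
  · simp only [toMat, actH, Matrix.mul_apply, Fin.sum_univ_two, Matrix.conjTranspose_apply,
      Matrix.of_apply, Matrix.cons_val', Matrix.cons_val_zero, Matrix.cons_val_one,
      Matrix.cons_val_fin_one, Fin.zero_eta, Fin.isValue, Fin.mk_one, ofReal_add, ofReal_mul]
    have := key (g 1 0 * y.2.1 * conj (g 1 1))
    rw [ofReal_mul] at this
    rw [← Complex.mul_conj, ← Complex.mul_conj, this]
    simp only [map_mul, Complex.conj_conj, RCLike.star_def]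
    ring

theorem actH_mul (g h : Matrix (Fin 2) (Fin 2) ℂ) (y : HE) :
    actH (g * h) y = actH g (actH h y) := by
  apply toMat_inj
  rw [toMat_actH, toMat_actH, toMat_actH, Matrix.conjTranspose_mul]
  simp only [Matrix.mul_assoc]

theorem actH_one (y : HE) : actH 1 y = y := by
  apply toMat_inj
  rw [toMat_actH]
  simp

theorem actH_add (g : Matrix (Fin 2) (Fin 2) ℂ) (x y : HE) :
    actH g (x + y) = actH g x + actH g y := by
  refine Prod.ext ?_ (Prod.ext ?_ ?_)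
  · simp only [actH, Prod.fst_add, Prod.snd_add, mul_add, add_mul, add_re]
    ring
  · simp only [actH, Prod.fst_add, Prod.snd_add, map_add, ofReal_add]
    ring
  · simp only [actH, Prod.fst_add, Prod.snd_add, mul_add, add_mul, add_re]
    ring

theorem actH_smul (g : Matrix (Fin 2) (Fin 2) ℂ) (t : ℝ) (y : HE) :
    actH g (t • y) = t • actH g y := by
  refine Prod.ext ?_ (Prod.ext ?_ ?_)
  · simp only [actH, Prod.smul_fst, Prod.smul_snd, smul_eq_mul, real_smul]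
    have : g 0 0 * (↑t * y.2.1) * conj (g 0 1) = ↑t * (g 0 0 * y.2.1 * conj (g 0 1)) := by ring
    rw [this, re_ofReal_mul]
    ring
  · simp only [actH, Prod.smul_fst, Prod.smul_snd, smul_eq_mul, real_smul, map_mul, ofReal_mul,
      Complex.conj_ofReal]
    ring
  · simp only [actH, Prod.smul_fst, Prod.smul_snd, smul_eq_mul, real_smul]
    have : g 1 0 * (↑t * y.2.1) * conj (g 1 1) = ↑t * (g 1 0 * y.2.1 * conj (g 1 1)) := by ring
    rw [this, re_ofReal_mul]
    ring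

theorem actH_zero (g : Matrix (Fin 2) (Fin 2) ℂ) : actH g 0 = 0 := by
  have := actH_smul g 0 0
  simpa using this

instance instGLHE : DistribMulAction (GL (Fin 2) ℂ) HE where
  smul g y := actH g.1 y
  one_smul y := actH_one y
  mul_smul g h y := actH_mul g.1 h.1 y
  smul_zero g := actH_zero g.1
  smul_add g x y := actH_add g.1 x y

theorem gl_smul_def (g : GL (Fin 2) ℂ) (y : HE) : g • y = actH g.1 y := rfl

/-- determinant of the form -/
def dt (y : HE) : ℝ := y.1 * y.2.2 - normSq y.2.1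

theorem toMat_det (y : HE) : (toMat y).det = (dt y : ℂ) := by
  rw [Matrix.det_fin_two]
  simp only [toMat, dt, Matrix.of_apply, Matrix.cons_val', Matrix.cons_val_zero,
    Matrix.cons_val_one, Matrix.cons_val_fin_one, ofReal_sub, ofReal_mul]
  rw [← Complex.mul_conj]

theorem dt_actH (g : Matrix (Fin 2) (Fin 2) ℂ) (y : HE) :
    dt (actH g y) = normSq g.det * dt y := by
  have h : ((dt (actH g y) : ℝ) : ℂ) = ((normSq g.det * dt y : ℝ) : ℂ) := by
    rw [← toMat_det, toMat_actH, Matrix.det_mul, Matrix.det_mul, toMat_det,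
      Matrix.det_conjTranspose, ofReal_mul, ← Complex.mul_conj]
    simp only [RCLike.star_def]
    ring
  exact_mod_cast h

/-- closed cone -/
def KH : Set HE := {y | 0 ≤ y.1 ∧ 0 ≤ y.2.2 ∧ 0 ≤ dt y}
/-- open cone -/
def CH : Set HE := {y | 0 < y.1 ∧ 0 < y.2.2 ∧ 0 < dt y}

theorem CH_sub : CH ⊆ KH := fun _ h => ⟨h.1.le, h.2.1.le, h.2.2.le⟩

theorem dt_add (x y : HE) : dt (x + y) = dt x + dt y + (x.1 * y.2.2 + y.1 * x.2.2 -
    2 * (x.2.1 * conj y.2.1).re) := by
  simp only [dt, Prod.fst_add, Prod.snd_add, normSq_add]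
  ring

/-- mixed term is nonnegative -/
theorem mixed_nonneg (x y : HE) (hx : x ∈ KH) (hy : y ∈ KH) :
    0 ≤ x.1 * y.2.2 + y.1 * x.2.2 - 2 * (x.2.1 * conj y.2.1).re := by
  obtain ⟨h1, h2, h3⟩ := hx
  obtain ⟨h4, h5, h6⟩ := hy
  unfold dt at h3 h6
  set a := x.1
  set b := x.2.2
  set c := y.1
  set d := y.2.2
  have hre : (x.2.1 * conj y.2.1).re ≤ ‖x.2.1‖ * ‖y.2.1‖ := by
    refine le_trans (Complex.re_le_norm _) ?_
    rw [norm_mul, RCLike.norm_conj]
  have hx2 : ‖x.2.1‖ ^ 2 ≤ a * b := by rw [← Complex.normSq_eq_norm_sq]; linarith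
  have hy2 : ‖y.2.1‖ ^ 2 ≤ c * d := by rw [← Complex.normSq_eq_norm_sq]; linarith
  have hX := norm_nonneg x.2.1
  have hY := norm_nonneg y.2.1
  set X := ‖x.2.1‖
  set Y := ‖y.2.1‖
  have hXY : (2 * (X * Y)) ^ 2 ≤ (a * d + c * b) ^ 2 := by
    have : X ^ 2 * Y ^ 2 ≤ (a * b) * (c * d) := by
      apply mul_le_mul hx2 hy2 (by positivity) (by positivity)
    nlinarith [sq_nonneg (a * d - c * b)]
  have := abs_le_of_sq_le_sq' hXY (by positivity)
  linarith [this.2]

theorem KH_add (x : HE) (hx : x ∈ KH) (y : HE) (hy : y ∈ KH) : x + y ∈ KH := by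
  have hm := mixed_nonneg x y hx hy
  refine ⟨add_nonneg hx.1 hy.1, add_nonneg hx.2.1 hy.2.1, ?_⟩
  rw [dt_add]
  linarith [hx.2.2, hy.2.2]

theorem CH_add (x : HE) (hx : x ∈ CH) (y : HE) (hy : y ∈ KH) : x + y ∈ CH := by
  have hm := mixed_nonneg x y (CH_sub hx) hy
  refine ⟨add_pos_of_pos_of_nonneg hx.1 hy.1, add_pos_of_pos_of_nonneg hx.2.1 hy.2.1, ?_⟩
  rw [dt_add]
  linarith [hx.2.2, hy.2.2]

theorem dt_smul (t : ℝ) (y : HE) : dt (t • y) = t ^ 2 * dt y := by
  simp only [dt, Prod.smul_fst, Prod.smul_snd, smul_eq_mul, real_smul, map_mul, normSq_ofReal]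
  ring

theorem KH_smul (x : HE) (hx : x ∈ KH) (t : ℝ) (ht : 0 ≤ t) : t • x ∈ KH :=
  ⟨mul_nonneg ht hx.1, mul_nonneg ht hx.2.1, by rw [dt_smul]; exact mul_nonneg (by positivity) hx.2.2⟩

theorem CH_smul (x : HE) (hx : x ∈ CH) (t : ℝ) (ht : 0 < t) : t • x ∈ CH :=
  ⟨mul_pos ht hx.1, mul_pos ht hx.2.1, by rw [dt_smul]; exact mul_pos (by positivity) hx.2.2⟩

/-- the (2,2) entry is nonnegative on the cone -/
theorem quad_nonneg (y : HE) (hy : y ∈ KH) (u v : ℂ) :
    0 ≤ normSq u * y.1 + 2 * (u * y.2.1 * conj v).re + normSq v * y.2.2 := by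
  have h := mixed_nonneg (normSq v, -(v * conj u), normSq u) y ?_ hy
  · simp only at h
    have e : (-(v * conj u) * conj y.2.1).re = -(u * y.2.1 * conj v).re := by
      rw [neg_mul, neg_re]
      congr 1
      rw [← Complex.conj_re]
      congr 1
      simp only [map_mul, Complex.conj_conj]
      ring
    rw [e] at h
    linarith
  · refine ⟨normSq_nonneg _, normSq_nonneg _, ?_⟩
    simp only [dt, normSq_neg, normSq_mul, normSq_conj]
    rw [mul_comm]
    simp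

theorem quad_pos (y : HE) (hy : y ∈ CH) (u v : ℂ) (huv : u ≠ 0 ∨ v ≠ 0) :
    0 < normSq u * y.1 + 2 * (u * y.2.1 * conj v).re + normSq v * y.2.2 := by
  obtain ⟨h1, h2, h3⟩ := hy
  unfold dt at h3
  have hre : -(‖u‖ * ‖y.2.1‖ * ‖v‖) ≤ (u * y.2.1 * conj v).re := by
    have := (abs_le.1 (Complex.abs_re_le_norm (u * y.2.1 * conj v))).1
    rwa [norm_mul, norm_mul, RCLike.norm_conj] at this
  rw [Complex.normSq_eq_norm_sq, Complex.normSq_eq_norm_sq]
  rw [Complex.normSq_eq_norm_sq] at h3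
  have hU := norm_nonneg u
  have hV := norm_nonneg v
  have hX := norm_nonneg y.2.1
  have hUV : 0 < ‖u‖ ∨ 0 < ‖v‖ := by
    rcases huv with h | h
    · exact Or.inl (norm_pos_iff.2 h)
    · exact Or.inr (norm_pos_iff.2 h)
  set U := ‖u‖
  set W := ‖v‖
  set X := ‖y.2.1‖
  set a := y.1
  set b := y.2.2
  -- a U² - 2 U X W + b W² > 0
  have hm : 0 < a * (U ^ 2 * a - 2 * (U * X * W) + W ^ 2 * b) := by
    have : a * (U ^ 2 * a - 2 * (U * X * W) + W ^ 2 * b) =
        (a * U - X * W) ^ 2 + W ^ 2 * (a * b - X ^ 2) := by ring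
    rw [this]
    rcases eq_or_lt_of_le hV with hW | hW
    · rw [← hW]
      rcases hUV with h | h
      · have : 0 < a * U := mul_pos h1 h
        nlinarith [sq_pos_of_pos this]
      · rw [← hW] at h; exact absurd h (lt_irrefl _)
    · have : 0 < W ^ 2 * (a * b - X ^ 2) := mul_pos (by positivity) h3
      nlinarith [sq_nonneg (a * U - X * W)]
  have hm' := (mul_pos_iff_of_pos_left h1).1 hm
  nlinarith

end Pool.Agent.Helper20.DFJ

end

end

section

/-!
# Concrete layer, part 2: the linear data `Lin` for a homomorphism `ρ : G → GL₂(ℂ)`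
-/

noncomputable section

open Complex Matrix
open scoped ComplexConjugate

namespace Pool.Agent.Helper20.DFJ

theorem CH_open : IsOpen CH := by
  have h1 : Continuous fun y : HE => y.1 := continuous_fst
  have h2 : Continuous fun y : HE => y.2.2 := continuous_snd.comp continuous_snd
  have h3 : Continuous dt := by
    unfold dt
    exact (h1.mul h2).sub (Complex.continuous_normSq.comp (continuous_fst.comp continuous_snd))
  exact (isOpen_lt continuous_const h1).inter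
    ((isOpen_lt continuous_const h2).inter (isOpen_lt continuous_const h3))

theorem CH_unit (x : HE) (hx : x ∈ CH) (e : HE) : ∃ l : ℝ, 0 < l ∧ l • x - e ∈ KH := by
  have hcont : Filter.Tendsto (fun t : ℝ => x - t • e) (nhdsWithin 0 (Set.Ioi 0)) (nhds x) := by
    have : Continuous fun t : ℝ => x - t • e := by fun_prop
    have h := this.tendsto 0
    simp only [zero_smul, sub_zero] at h
    exact h.mono_left nhdsWithin_le_nhds
  have hev := hcont.eventually (CH_open.mem_nhds hx)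
  have hpos : ∀ᶠ t in nhdsWithin (0 : ℝ) (Set.Ioi 0), 0 < t := eventually_mem_nhdsWithin
  obtain ⟨t, ht, htpos⟩ := (hev.and hpos).exists
  refine ⟨t⁻¹, inv_pos.2 htpos, ?_⟩
  have := KH_smul _ (CH_sub ht) t⁻¹ (inv_pos.2 htpos).le
  rwa [smul_sub, smul_smul, inv_mul_cancel₀ htpos.ne', one_smul] at this

theorem CH_nhd (x : HE) (hx : x ∈ CH) (e : ℝ) (he : 0 < e) :
    {y | y - (1 - e) • x ∈ KH ∧ (1 + e) • x - y ∈ KH} ∈ nhds x := by
  have h1 : Continuous fun y : HE => y - (1 - e) • x := by fun_prop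
  have h2 : Continuous fun y : HE => (1 + e) • x - y := by fun_prop
  have hm : e • x ∈ CH := CH_smul x hx e he
  have e1 : (fun y : HE => y - (1 - e) • x) x = e • x := by
    show x - (1 - e) • x = e • x
    module
  have e2 : (fun y : HE => (1 + e) • x - y) x = e • x := by
    show (1 + e) • x - x = e • x
    module
  have a1 : ∀ᶠ y in nhds x, y - (1 - e) • x ∈ CH := by
    apply h1.continuousAt.eventually
    rw [e1]
    exact CH_open.mem_nhds hm
  have a2 : ∀ᶠ y in nhds x, (1 + e) • x - y ∈ CH := by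
    apply h2.continuousAt.eventually
    rw [e2]
    exact CH_open.mem_nhds hm
  filter_upwards [a1, a2] with y hy1 hy2
  exact ⟨CH_sub hy1, CH_sub hy2⟩

theorem act_KH (g : GL (Fin 2) ℂ) (y : HE) (hy : y ∈ KH) : g • y ∈ KH := by
  refine ⟨quad_nonneg y hy _ _, quad_nonneg y hy _ _, ?_⟩
  rw [gl_smul_def, dt_actH]
  exact mul_nonneg (normSq_nonneg _) hy.2.2

theorem det_ne (g : GL (Fin 2) ℂ) : g.1.det ≠ 0 := by
  have := (Matrix.isUnit_iff_isUnit_det g.1).1 g.isUnit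
  exact this.ne_zero

theorem act_CH (g : GL (Fin 2) ℂ) (y : HE) (hy : y ∈ CH) : g • y ∈ CH := by
  have hdet := det_ne g
  rw [Matrix.det_fin_two] at hdet
  refine ⟨quad_pos y hy _ _ ?_, quad_pos y hy _ _ ?_, ?_⟩
  · by_contra hcon
    push Not at hcon
    exact hdet (by rw [hcon.1, hcon.2]; ring)
  · by_contra hcon
    push Not at hcon
    exact hdet (by rw [hcon.1, hcon.2]; ring)
  · rw [gl_smul_def, dt_actH]
    exact mul_pos (normSq_pos.2 (det_ne g)) hy.2.2

/-- third coordinate as a linear functional -/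
def rr : HE →ₗ[ℝ] ℝ := (LinearMap.snd ℝ ℂ ℝ).comp (LinearMap.snd ℝ ℝ (ℂ × ℝ))

theorem rr_apply (y : HE) : rr y = y.2.2 := rfl

/-- action as a linear map -/
def glin (g : GL (Fin 2) ℂ) : HE →ₗ[ℝ] HE where
  toFun y := g • y
  map_add' x y := smul_add g x y
  map_smul' t y := by
    show actH g.1 (t • y) = t • actH g.1 y
    exact actH_smul _ _ _

/-- the functional of the cusp `g∞`: `y ↦ (g⁻¹ y)₂₂` -/
def bfun (g : GL (Fin 2) ℂ) : HE →ₗ[ℝ] ℝ := rr.comp (glin g⁻¹)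

theorem bfun_apply (g : GL (Fin 2) ℂ) (y : HE) : bfun g y = (g⁻¹ • y).2.2 := rfl

/-- elements fixing the functional of `∞` -/
def FixInf (g : GL (Fin 2) ℂ) : Prop := g.1 1 0 = 0 ∧ normSq (g.1 1 1) = 1

theorem FixInf.rr {g : GL (Fin 2) ℂ} (h : FixInf g) (y : HE) : (g • y).2.2 = y.2.2 := by
  obtain ⟨h1, h2⟩ := h
  rw [gl_smul_def]
  simp only [actH]
  rw [h1, h2]
  simp

variable {G : Type*} [Group G]

/-- `HE` with the action of `G` through `ρ` -/
def HX (_ρ : G →* GL (Fin 2) ℂ) : Type := HE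

instance (ρ : G →* GL (Fin 2) ℂ) : NormedAddCommGroup (HX ρ) :=
  inferInstanceAs (NormedAddCommGroup HE)
instance (ρ : G →* GL (Fin 2) ℂ) : NormedSpace ℝ (HX ρ) := inferInstanceAs (NormedSpace ℝ HE)

/-- forget `ρ` -/
@[reducible] def HX.v {ρ : G →* GL (Fin 2) ℂ} (y : HX ρ) : HE := y

/-- `G` acts on `HE` through `ρ` -/
instance gact (ρ : G →* GL (Fin 2) ℂ) : DistribMulAction G (HX ρ) :=
  DistribMulAction.compHom HE ρ

theorem gact_def (ρ : G →* GL (Fin 2) ℂ) (g : G) (y : HX ρ) :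
    g • y = ρ g • y.v := rfl

/-- the functional of a cusp `v ∈ G/P` -/
def bcusp (ρ : G →* GL (Fin 2) ℂ) (P : Subgroup G) (hP : ∀ p ∈ P, FixInf (ρ p)) :
    G ⧸ P → (HX ρ →ₗ[ℝ] ℝ) :=
  Quotient.lift (fun g => (bfun (ρ g) : HX ρ →ₗ[ℝ] ℝ)) (by
    intro a b hab
    have hab' : a⁻¹ * b ∈ P := QuotientGroup.leftRel_apply.1 hab
    apply LinearMap.ext
    intro y
    have h := hP _ (P.inv_mem hab')
    have e : (ρ b)⁻¹ • y = ρ (a⁻¹ * b)⁻¹ • ((ρ a)⁻¹ • y) := by
      rw [smul_smul, ← map_inv ρ b, ← map_inv ρ a, ← map_mul]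
      congr 2
      group
    show ((ρ a)⁻¹ • y).2.2 = ((ρ b)⁻¹ • y).2.2
    rw [e, h.rr])

theorem bcusp_mk (ρ : G →* GL (Fin 2) ℂ) (P : Subgroup G) (hP : ∀ p ∈ P, FixInf (ρ p)) (g : G)
    (y : HX ρ) : bcusp ρ P hP (g : G ⧸ P) y = ((ρ g)⁻¹ • y.v).2.2 := rfl

/-- the linear data -/
def concLin (ρ : G →* GL (Fin 2) ℂ) (P : Subgroup G) (hP : ∀ p ∈ P, FixInf (ρ p)) :
    Lin G (HX ρ) (G ⧸ P) where
  K := KH
  C := CH
  K_add := KH_add
  K_smul := KH_smul
  C_sub := CH_sub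
  C_add := CH_add
  C_smul := CH_smul
  unit := CH_unit
  nhd := CH_nhd
  act_smul := fun g t x => (glin (ρ g)).map_smul t x
  act_K := fun g x hx => act_KH (ρ g) x hx
  act_C := fun g x hx => act_CH (ρ g) x hx
  β := bcusp ρ P hP
  β_act := by
    intro g v x
    induction v using QuotientGroup.induction_on with
    | H a =>
      show ((ρ (g * a))⁻¹ • (ρ g • x.v)).2.2 = ((ρ a)⁻¹ • x.v).2.2
      rw [smul_smul, map_mul, _root_.mul_inv_rev, mul_assoc, inv_mul_cancel,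
        mul_one]
  β_nonneg := by
    intro v x hx
    induction v using QuotientGroup.induction_on with
    | H a => exact (act_KH ((ρ a)⁻¹) x hx).2.1
  β_pos := by
    intro v x hx
    induction v using QuotientGroup.induction_on with
    | H a => exact (act_CH ((ρ a)⁻¹) x hx).2.1

/-- tiles: pairs (group element, cell type), duplicates allowed -/
structure Tl (G I : Type*) where
  g : G
  i : I

instance (I : Type*) : MulAction G (Tl G I) where
  smul h τ := ⟨h * τ.g, τ.i⟩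
  one_smul τ := by
    show (⟨1 * τ.g, τ.i⟩ : Tl G I) = τ
    rw [one_mul]
  mul_smul a b τ := by
    show (⟨a * b * τ.g, τ.i⟩ : Tl G I) = ⟨a * (b * τ.g), τ.i⟩
    rw [mul_assoc]

theorem Tl.smul_def {I : Type*} (h : G) (τ : Tl G I) : h • τ = ⟨h * τ.g, τ.i⟩ := rfl

/-- the Voronoi data: cell types `I`, vertices `x i k`, centres `c i` -/
def concTess (ρ : G →* GL (Fin 2) ℂ) (P : Subgroup G) (hP : ∀ p ∈ P, FixInf (ρ p))
    {I : Type*} {n : I → ℕ} (x : (i : I) → Fin (n i) → G) (c : I → HE)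
    (hc : ∀ i, c i ∈ CH) (h1 : ∀ i k, ((ρ (x i k))⁻¹ • c i).2.2 = 1) :
    Tess G (HX ρ) (G ⧸ P) (Tl G I) where
  toLin := concLin ρ P hP
  o := ((1 : G) : G ⧸ P)
  trans := by
    intro v
    induction v using QuotientGroup.induction_on with
    | H a => exact ⟨a, by show ((a * 1 : G) : G ⧸ P) = _; rw [mul_one]⟩
  vert := fun τ => {v | ∃ k : Fin (n τ.i), v = ((τ.g * x τ.i k : G) : G ⧸ P)}
  ctr := fun τ => (ρ τ.g • c τ.i : HE)
  vert_act := by
    intro g τ v
    constructor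
    · rintro ⟨k, rfl⟩
      exact ⟨k, by show ((g * (τ.g * x τ.i k) : G) : G ⧸ P) = _; rw [← mul_assoc]; rfl⟩
    · rintro ⟨k, hk⟩
      refine ⟨k, ?_⟩
      have : v = g⁻¹ • (g • v) := by simp
      rw [this, hk]
      show ((g⁻¹ * (g * τ.g * x τ.i k) : G) : G ⧸ P) = _
      congr 1
      group
  ctr_act := by
    intro g τ
    show ρ (g * τ.g) • c τ.i = ρ g • (ρ τ.g • c τ.i)
    rw [map_mul, mul_smul]
  ctr_C := fun τ => act_CH _ _ (hc τ.i)
  ctr_one := by
    rintro τ v ⟨k, rfl⟩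
    show ((ρ (τ.g * x τ.i k))⁻¹ • (ρ τ.g • c τ.i)).2.2 = 1
    rw [smul_smul, map_mul, _root_.mul_inv_rev, mul_assoc, inv_mul_cancel, mul_one]
    exact h1 τ.i k

end Pool.Agent.Helper20.DFJ

end

end

section

/-!
# Planar geometry for the faces of the Voronoi cell of the cusp
-/

noncomputable section

open Complex
open scoped ComplexConjugate

namespace Pool.Agent.Helper20.DFJ

/-- cross product -/
def cr (u v : ℂ) : ℝ := u.re * v.im - u.im * v.re

/-- scalar product -/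
def sp (u v : ℂ) : ℝ := u.re * v.re + u.im * v.im

theorem cr_expand (w u v : ℂ) (D : ℝ) (hD : D = cr u v) (hD0 : D ≠ 0) :
    w = ((-(cr v w) / D : ℝ) : ℂ) * u + ((cr u w / D : ℝ) : ℂ) * v := by
  have key1 : D * w.re = -(cr v w) * u.re + cr u w * v.re := by
    rw [hD]; unfold cr; ring
  have key2 : D * w.im = -(cr v w) * u.im + cr u w * v.im := by
    rw [hD]; unfold cr; ring
  apply Complex.ext
  · rw [add_re, re_ofReal_mul, re_ofReal_mul]
    field_simp
    linarith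
  · rw [add_im, im_ofReal_mul, im_ofReal_mul]
    field_simp
    linarith

/-- the fan lemma: a convex polygon is the convex hull of its corners -/
theorem fan (m : ℕ) (hm : 3 ≤ m) (Z : ℕ → ℂ)
    (hfan : ∀ a, 1 ≤ a → a + 1 < m → 0 < cr (Z a - Z 0) (Z (a + 1) - Z 0)) (z : ℂ)
    (hedge : ∀ a, a + 1 < m → 0 ≤ cr (Z (a + 1) - Z a) (z - Z a))
    (hlast : 0 ≤ cr (Z 0 - Z (m - 1)) (z - Z (m - 1))) :
    ∃ μ : ℕ → ℝ, (∀ a, 0 ≤ μ a) ∧ ∑ a ∈ Finset.range m, μ a = 1 ∧
      ∑ a ∈ Finset.range m, (μ a : ℂ) * Z a = z := by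
  set φ : ℕ → ℝ := fun a => cr (Z a - Z 0) (z - Z 0) with hφ
  have h1 : 0 ≤ φ 1 := by
    have := hedge 0 (by omega)
    simpa using this
  have hl : φ (m - 1) ≤ 0 := by
    have e : cr (Z 0 - Z (m - 1)) (z - Z (m - 1)) = -φ (m - 1) := by
      simp only [hφ, cr, sub_re, sub_im]; ring
    rw [e] at hlast
    linarith
  have hk : ∃ k, 1 ≤ k ∧ k + 1 < m ∧ 0 ≤ φ k ∧ φ (k + 1) ≤ 0 := by
    by_contra hcon
    push Not at hcon
    have : ∀ k, 1 ≤ k → k < m - 1 → 0 ≤ φ k := by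
      intro k hk1
      induction k, hk1 using Nat.le_induction with
      | base => intro _; exact h1
      | succ k hk ih =>
        intro hk2
        have := ih (by omega)
        exact (hcon k hk (by omega) this).le
    have h2 := this (m - 2) (by omega) (by omega)
    have h3 := hcon (m - 2) (by omega) (by omega) h2
    have h4 : m - 2 + 1 = m - 1 := by omega
    rw [h4] at h3
    linarith
  obtain ⟨k, hk1, hk2, hp, hn⟩ := hk
  have hD := hfan k hk1 hk2
  set D := cr (Z k - Z 0) (Z (k + 1) - Z 0) with hDdef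
  set μ1 := -(φ (k + 1)) / D with hμ1
  set μ2 := φ k / D with hμ2
  have hμ0 : 0 ≤ 1 - μ1 - μ2 := by
    have he := hedge k hk2
    have e : cr (Z (k + 1) - Z k) (z - Z k) = φ (k + 1) + D - φ k := by
      simp only [hφ, hDdef, cr, sub_re, sub_im]; ring
    rw [e] at he
    have : 1 - μ1 - μ2 = (φ (k + 1) + D - φ k) / D := by
      rw [hμ1, hμ2]; field_simp; ring
    rw [this]
    exact div_nonneg he hD.le
  have hμ1' : 0 ≤ μ1 := div_nonneg (by linarith) hD.le
  have hμ2' : 0 ≤ μ2 := div_nonneg hp hD.le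
  refine ⟨fun a => if a = 0 then 1 - μ1 - μ2 else if a = k then μ1 else if a = k + 1 then μ2
    else 0, ?_, ?_, ?_⟩
  · intro a
    dsimp only
    split_ifs <;> linarith
  · have hsub : ({0, k, k + 1} : Finset ℕ) ⊆ Finset.range m := by
      intro a ha
      simp only [Finset.mem_insert, Finset.mem_singleton] at ha
      rw [Finset.mem_range]; omega
    rw [← Finset.sum_subset hsub]
    · rw [Finset.sum_insert, Finset.sum_insert, Finset.sum_singleton]
      · have a1 : k ≠ 0 := by omega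
        have a2 : k + 1 ≠ 0 := by omega
        have a3 : k + 1 ≠ k := by omega
        simp only [if_true, a1, a2, a3, if_false]
        ring
      · simp
      · simp only [Finset.mem_insert, Finset.mem_singleton]; omega
    · intro a _ ha
      simp only [Finset.mem_insert, Finset.mem_singleton, not_or] at ha
      simp [ha.1, ha.2.1, ha.2.2]
  · have hsub : ({0, k, k + 1} : Finset ℕ) ⊆ Finset.range m := by
      intro a ha
      simp only [Finset.mem_insert, Finset.mem_singleton] at ha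
      rw [Finset.mem_range]; omega
    rw [← Finset.sum_subset hsub]
    · rw [Finset.sum_insert, Finset.sum_insert, Finset.sum_singleton]
      · have a1 : k ≠ 0 := by omega
        have a2 : k + 1 ≠ 0 := by omega
        have a3 : k + 1 ≠ k := by omega
        simp only [if_true, a1, a2, a3, if_false]
        have := cr_expand (z - Z 0) (Z k - Z 0) (Z (k + 1) - Z 0) D hDdef hD.ne'
        have e1 : (-(cr (Z (k + 1) - Z 0) (z - Z 0)) / D : ℝ) = μ1 := rfl
        have e2 : (cr (Z k - Z 0) (z - Z 0) / D : ℝ) = μ2 := rfl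
        rw [e1, e2] at this
        have h5 : z = Z 0 + ((μ1 : ℂ) * (Z k - Z 0) + (μ2 : ℂ) * (Z (k + 1) - Z 0)) := by
          rw [← this]; ring
        conv_rhs => rw [h5]
        push_cast
        ring
      · simp
      · simp only [Finset.mem_insert, Finset.mem_singleton]; omega
    · intro a _ ha
      simp only [Finset.mem_insert, Finset.mem_singleton, not_or] at ha
      simp [ha.1, ha.2.1, ha.2.2]

/-- power of the point `z` with respect to the circle of centre `s` and squared radius `R` -/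
def pw (s : ℂ) (R : ℝ) (z : ℂ) : ℝ := normSq (z - s) - R

/-- an affine function vanishing at two points is a multiple of the cross product -/
theorem edge_sign (s s' : ℂ) (R R' : ℝ) (P Q W z : ℂ)
    (hP : pw s' R' P = pw s R P) (hQ : pw s' R' Q = pw s R Q)
    (hW : pw s R W < pw s' R' W) (hcr : 0 < cr (Q - P) (W - P))
    (hz : pw s R z ≤ pw s' R' z) : 0 ≤ cr (Q - P) (z - P) := by
  -- A(z) = pw s' z - pw s z = 2 (s - s')·(z - P) + A(P)
  have hA : ∀ x : ℂ, pw s' R' x - pw s R x = 2 * sp (s - s') (x - P) + (pw s' R' P - pw s R P) := by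
    intro x
    simp only [pw, sp, normSq_apply, sub_re, sub_im]; ring
  have h0 : pw s' R' P - pw s R P = 0 := by linarith
  have hQ' : sp (s - s') (Q - P) = 0 := by
    have := hA Q; rw [h0] at this; linarith
  have hW' : 0 < sp (s - s') (W - P) := by
    have := hA W; rw [h0] at this; linarith
  have hz' : 0 ≤ sp (s - s') (z - P) := by
    have := hA z; rw [h0] at this; linarith
  have key : sp (s - s') (z - P) * cr (Q - P) (W - P) =
      sp (s - s') (W - P) * cr (Q - P) (z - P) +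
      sp (s - s') (Q - P) * cr (z - P) (W - P) := by
    simp only [sp, cr, sub_re, sub_im]; ring
  rw [hQ', zero_mul, add_zero] at key
  have h1 : 0 ≤ sp (s - s') (W - P) * cr (Q - P) (z - P) := by
    rw [← key]; exact mul_nonneg hz' hcr.le
  by_contra hneg
  push Not at hneg
  have := mul_neg_of_pos_of_neg hW' hneg
  linarith

/-- the degenerate case: positively spanning constraints vanishing at `P` -/
theorem degen (s s1 s2 s3 : ℂ) (R R1 R2 R3 : ℝ) (P z : ℂ)
    (h1 : pw s1 R1 P = pw s R P) (h2 : pw s2 R2 P = pw s R P) (h3 : pw s3 R3 P = pw s R P)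
    (c12 : 0 < cr (s1 - s) (s2 - s)) (c23 : 0 < cr (s2 - s) (s3 - s))
    (c31 : 0 < cr (s3 - s) (s1 - s))
    (z1 : pw s R z ≤ pw s1 R1 z) (z2 : pw s R z ≤ pw s2 R2 z) (z3 : pw s R z ≤ pw s3 R3 z) :
    z = P := by
  have hA : ∀ (s' : ℂ) (R' : ℝ), pw s' R' P = pw s R P → pw s R z ≤ pw s' R' z →
      sp (s' - s) (z - P) ≤ 0 := by
    intro s' R' hP hz
    have : pw s' R' z - pw s R z = -2 * sp (s' - s) (z - P) + (pw s' R' P - pw s R P) := by
      simp only [pw, sp, normSq_apply, sub_re, sub_im]; ring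
    linarith
  have a1 := hA s1 R1 h1 z1
  have a2 := hA s2 R2 h2 z2
  have a3 := hA s3 R3 h3 z3
  have key : sp (s1 - s) (z - P) * cr (s2 - s) (s3 - s) + sp (s2 - s) (z - P) * cr (s3 - s) (s1 - s)
      + sp (s3 - s) (z - P) * cr (s1 - s) (s2 - s) = 0 := by
    simp only [sp, cr, sub_re, sub_im]; ring
  have b1 : sp (s1 - s) (z - P) * cr (s2 - s) (s3 - s) ≤ 0 :=
    mul_nonpos_of_nonpos_of_nonneg a1 c23.le
  have b2 : sp (s2 - s) (z - P) * cr (s3 - s) (s1 - s) ≤ 0 :=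
    mul_nonpos_of_nonpos_of_nonneg a2 c31.le
  have b3 : sp (s3 - s) (z - P) * cr (s1 - s) (s2 - s) ≤ 0 :=
    mul_nonpos_of_nonpos_of_nonneg a3 c12.le
  have e1 : sp (s1 - s) (z - P) = 0 := by
    have : sp (s1 - s) (z - P) * cr (s2 - s) (s3 - s) = 0 := by linarith
    rcases mul_eq_zero.1 this with h | h
    · exact h
    · exact absurd h c23.ne'
  have e2 : sp (s2 - s) (z - P) = 0 := by
    have : sp (s2 - s) (z - P) * cr (s3 - s) (s1 - s) = 0 := by linarith
    rcases mul_eq_zero.1 this with h | h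
    · exact h
    · exact absurd h c31.ne'
  have k1 : cr (s1 - s) (s2 - s) * (z - P).re = 0 := by
    have : cr (s1 - s) (s2 - s) * (z - P).re =
        sp (s1 - s) (z - P) * (s2 - s).im - sp (s2 - s) (z - P) * (s1 - s).im := by
      simp only [sp, cr, sub_re, sub_im]; ring
    rw [this, e1, e2]; ring
  have k2 : cr (s1 - s) (s2 - s) * (z - P).im = 0 := by
    have : cr (s1 - s) (s2 - s) * (z - P).im =
        sp (s2 - s) (z - P) * (s1 - s).re - sp (s1 - s) (z - P) * (s2 - s).re := by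
      simp only [sp, cr, sub_re, sub_im]; ring
    rw [this, e1, e2]; ring
  have r1 : (z - P).re = 0 := (mul_eq_zero.1 k1).resolve_left c12.ne'
  have r2 : (z - P).im = 0 := (mul_eq_zero.1 k2).resolve_left c12.ne'
  have : z - P = 0 := Complex.ext r1 r2
  exact sub_eq_zero.1 this

/-- the segment case: the face of the diagonal of a flat quadrilateral -/
theorem segm (s s1 s2 s3 s4 : ℂ) (R R1 R2 R3 R4 : ℝ) (P Q z : ℂ)
    (hs : s + s = s1 + s2) (hne : s1 ≠ s2)
    (p1 : pw s1 R1 P = pw s R P) (p2 : pw s2 R2 P = pw s R P)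
    (q1 : pw s1 R1 Q = pw s R Q)
    (p3 : pw s3 R3 P = pw s R P) (q3 : pw s R Q < pw s3 R3 Q)
    (q4 : pw s4 R4 Q = pw s R Q) (p4 : pw s R P < pw s4 R4 P)
    (z1 : pw s R z ≤ pw s1 R1 z) (z2 : pw s R z ≤ pw s2 R2 z) (z3 : pw s R z ≤ pw s3 R3 z)
    (z4 : pw s R z ≤ pw s4 R4 z) : ∃ t : ℝ, 0 ≤ t ∧ t ≤ 1 ∧ z = ((1 - t : ℝ) : ℂ) * P + (t : ℂ) * Q := by
  have hA : ∀ (s' : ℂ) (R' : ℝ) (B x : ℂ), pw s' R' B = pw s R B →
      pw s' R' x - pw s R x = -2 * sp (s' - s) (x - B) := by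
    intro s' R' B x hB
    have : pw s' R' x - pw s R x = -2 * sp (s' - s) (x - B) + (pw s' R' B - pw s R B) := by
      simp only [pw, sp, normSq_apply, sub_re, sub_im]; ring
    linarith
  have hsre := congrArg Complex.re hs
  have hsim := congrArg Complex.im hs
  simp only [add_re, add_im] at hsre hsim
  have a1 := hA s1 R1 P z p1
  have a2 := hA s2 R2 P z p2
  have b1 := hA s1 R1 P Q p1
  have c3 := hA s3 R3 P Q p3
  have c3z := hA s3 R3 P z p3
  have c4 := hA s4 R4 Q P q4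
  have c4z := hA s4 R4 Q z q4
  have hd : sp (s2 - s) (z - P) = -sp (s1 - s) (z - P) := by
    have e1 : (s2 - s).re = -(s1 - s).re := by simp only [sub_re]; linarith
    have e2 : (s2 - s).im = -(s1 - s).im := by simp only [sub_im]; linarith
    simp only [sp, e1, e2]; ring
  have hz0 : sp (s1 - s) (z - P) = 0 := by
    have h1 : sp (s1 - s) (z - P) ≤ 0 := by linarith
    have h2 : sp (s2 - s) (z - P) ≤ 0 := by linarith
    linarith
  have hq0 : sp (s1 - s) (Q - P) = 0 := by linarith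
  have hdne : 0 < normSq (s1 - s) := by
    rw [normSq_pos]
    intro h
    apply hne
    have e1 : s1 = s := sub_eq_zero.1 h
    have e2 : s2 = s := by
      rw [e1] at hs
      exact (add_left_cancel hs).symm
    rw [e1, e2]
  have hQP : sp (s3 - s) (Q - P) < 0 := by linarith
  have hn : 0 < normSq (Q - P) := by
    rw [normSq_pos]
    intro h
    rw [h] at hQP
    simp [sp] at hQP
  -- both differences are orthogonal to s1 - s
  have hcr : cr (Q - P) (z - P) = 0 := by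
    have : normSq (s1 - s) * cr (Q - P) (z - P) =
        sp (s1 - s) (Q - P) * cr (s1 - s) (z - P) - cr (s1 - s) (Q - P) * sp (s1 - s) (z - P) := by
      simp only [sp, cr, normSq_apply, sub_re, sub_im]; ring
    rw [hz0, hq0] at this
    have h0 : normSq (s1 - s) * cr (Q - P) (z - P) = 0 := by rw [this]; ring
    exact (mul_eq_zero.1 h0).resolve_left hdne.ne'
  set t : ℝ := sp (Q - P) (z - P) / normSq (Q - P) with ht
  have htn : t * normSq (Q - P) = sp (Q - P) (z - P) := by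
    rw [ht]; field_simp
  have hzt : z - P = (t : ℂ) * (Q - P) := by
    have k1 : normSq (Q - P) * (z - P).re = normSq (Q - P) * (t * (Q - P).re) := by
      have e1 : normSq (Q - P) * (z - P).re =
          sp (Q - P) (z - P) * (Q - P).re - cr (Q - P) (z - P) * (Q - P).im := by
        simp only [sp, cr, normSq_apply]; ring
      rw [e1, hcr, ← htn]; ring
    have k2 : normSq (Q - P) * (z - P).im = normSq (Q - P) * (t * (Q - P).im) := by
      have e1 : normSq (Q - P) * (z - P).im =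
          sp (Q - P) (z - P) * (Q - P).im + cr (Q - P) (z - P) * (Q - P).re := by
        simp only [sp, cr, normSq_apply]; ring
      rw [e1, hcr, ← htn]; ring
    apply Complex.ext
    · rw [re_ofReal_mul]; exact mul_left_cancel₀ hn.ne' k1
    · rw [im_ofReal_mul]; exact mul_left_cancel₀ hn.ne' k2
  refine ⟨t, ?_, ?_, ?_⟩
  · have e : sp (s3 - s) (z - P) = t * sp (s3 - s) (Q - P) := by
      rw [hzt]; simp only [sp, re_ofReal_mul, im_ofReal_mul]; ring
    have h1 : sp (s3 - s) (z - P) ≤ 0 := by linarith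
    rw [e] at h1
    by_contra hneg
    push Not at hneg
    have := mul_pos_of_neg_of_neg hneg hQP
    linarith
  · have e0 : z - Q = ((1 - t : ℝ) : ℂ) * (P - Q) := by
      have : z = P + (t : ℂ) * (Q - P) := by rw [← hzt]; ring
      rw [this]; push_cast; ring
    have e : sp (s4 - s) (z - Q) = (1 - t) * sp (s4 - s) (P - Q) := by
      rw [e0]; simp only [sp, re_ofReal_mul, im_ofReal_mul]; ring
    have h1 : sp (s4 - s) (z - Q) ≤ 0 := by linarith
    have h2 : sp (s4 - s) (P - Q) < 0 := by linarith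
    rw [e] at h1
    by_contra hneg
    push Not at hneg
    have := mul_pos_of_neg_of_neg (show 1 - t < 0 by linarith) h2
    linarith
  · have : z = P + (t : ℂ) * (Q - P) := by rw [← hzt]; ring
    rw [this]; push_cast; ring

end Pool.Agent.Helper20.DFJ

end

end

section

/-!
# T2b: the hypotheses of the tessellation theorem in terms of the power diagram at the cusp

`G` a group, `ρ : G → GL₂(ℂ)`, peripheral elements `pe (m,n)` acting as translations by
`m ω₁ + n ω₂`.  `J` neighbour classes: `gJ j ∞` is the point `s j`, with weight `1/κ j`.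
`I` cell types with vertices `x i k ∞`, centres `c i`.  Sites: `(j, m, n)`, i.e. the cusp
`pe (m,n) * gJ j`, position `s j + m ω₁ + n ω₂`.
-/

noncomputable section

open Complex Matrix
open scoped ComplexConjugate

namespace Pool.Agent.Helper20.DFJ

variable {G : Type*} [Group G]

/-- a site: neighbour class and translation -/
abbrev Site (J : Type*) := J × ℤ × ℤ

/-- data of the tessellation as seen from the cusp -/
structure SD (ρ : G →* GL (Fin 2) ℂ) (I J : Type*) where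
  /-- peripheral elements -/
  pe : ℤ × ℤ → G
  ω₁ : ℂ
  ω₂ : ℂ
  n : I → ℕ
  x : (i : I) → Fin (n i) → G
  c : I → HE
  gJ : J → G
  s : J → ℂ
  κ : J → ℝ
  /-- the table of sites: `x i k ⁻¹ x i l ∞` -/
  site : (i : I) → Fin (n i) → Fin (n i) → Site J
  pe_zero : pe 0 = 1
  pe_add : ∀ a b, pe (a + b) = pe a * pe b
  /-- translations -/
  pe_tr : ∀ a, (ρ (pe a)).1 1 0 = 0 ∧ (ρ (pe a)).1 0 0 = (ρ (pe a)).1 1 1 ∧
    normSq ((ρ (pe a)).1 1 1) = 1 ∧
    (ρ (pe a)).1 0 1 = ((a.1 : ℂ) * ω₁ + a.2 * ω₂) * (ρ (pe a)).1 1 1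
  ω_ne : cr ω₁ ω₂ ≠ 0
  c_C : ∀ i, c i ∈ CH
  c_one : ∀ i k, ((ρ (x i k))⁻¹ • c i).2.2 = 1
  κ_pos : ∀ j, 0 < κ j
  /-- the functional of `gJ j ∞` -/
  gJ_spec : ∀ j, ∀ y : HE, ((ρ (gJ j))⁻¹ • y).2.2 =
    κ j * (y.1 - 2 * sp (s j) y.2.1 + normSq (s j) * y.2.2)
  site_spec : ∀ i k l, k ≠ l → ∃ p, (x i k)⁻¹ * x i l =
    pe (site i k l).2 * gJ (site i k l).1 * pe p
  /-- two vertices of a cell are never equal: implied by `gJ_spec`; -/
  used : ∀ j, ∃ i k l, k ≠ l ∧ (site i k l).1 = j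

namespace SD

variable {ρ : G →* GL (Fin 2) ℂ} {I J : Type*} (D : SD ρ I J)

/-- position of a site -/
def pos (σ : Site J) : ℂ := D.s σ.1 + ((σ.2.1 : ℂ) * D.ω₁ + σ.2.2 * D.ω₂)

/-- squared radius of a site -/
def rad (σ : Site J) : ℝ := (D.κ σ.1)⁻¹

/-- translate a site -/
def sh (a : ℤ × ℤ) (σ : Site J) : Site J := (σ.1, a + σ.2)

/-- the centre of the cell `i` seen from its vertex `k` -/
def cc (i : I) (k : Fin (D.n i)) : HE := (ρ (D.x i k))⁻¹ • D.c i

/-- its position -/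
def Z (i : I) (k : Fin (D.n i)) : ℂ := (D.cc i k).2.1

/-- its squared height -/
def H (i : I) (k : Fin (D.n i)) : ℝ := (D.cc i k).1 - normSq (D.Z i k)

/-- the peripheral subgroup -/
def P : Subgroup G where
  carrier := Set.range D.pe
  one_mem' := ⟨0, D.pe_zero⟩
  mul_mem' := by
    rintro _ _ ⟨a, rfl⟩ ⟨b, rfl⟩
    exact ⟨a + b, D.pe_add a b⟩
  inv_mem' := by
    rintro _ ⟨a, rfl⟩
    refine ⟨-a, ?_⟩
    have : D.pe (-a) * D.pe a = 1 := by rw [← D.pe_add]; simp [D.pe_zero]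
    exact eq_inv_of_mul_eq_one_left this

theorem mem_P (g : G) : g ∈ D.P ↔ ∃ a, D.pe a = g := Iff.rfl

theorem fixInf : ∀ p ∈ D.P, FixInf (ρ p) := by
  rintro _ ⟨a, rfl⟩
  exact ⟨(D.pe_tr a).1, (D.pe_tr a).2.2.1⟩

/-- the Voronoi data -/
def tess : Tess G (HX ρ) (G ⧸ D.P) (Tl G I) :=
  concTess ρ D.P D.fixInf D.x D.c D.c_C D.c_one

/-- the hypotheses to be checked: emptiness and the polygons. -/
structure Checks : Prop where
  finI : Finite I
  finJ : Finite J
  neJ : Nonempty J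
  /-- (E) -/
  empt : ∀ i k, ∀ σ : Site J, (∀ l, l ≠ k → D.site i k l ≠ σ) →
    D.rad σ < normSq (D.Z i k - D.pos σ) + D.H i k
  /-- polygons: nondegenerate (`m ≥ 3` corners, counterclockwise) or degenerate faces.
   The corner `a` of the face `j` is the cell `ci a` seen from its vertex `ck a`, translated by
   `cp a`. -/
  poly : ∀ j : J,
    (∃ (m : ℕ) (_ : 3 ≤ m) (ci : ℕ → I) (ck : (a : ℕ) → Fin (D.n (ci a))) (cp : ℕ → ℤ × ℤ)
        (sep : ℕ → Site J),
      -- every corner contains the face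
      (∀ a, a < m → ∃ l, l ≠ ck a ∧ sh (cp a) (D.site (ci a) (ck a) l) = (j, 0, 0)) ∧
      -- separators: common vertex of consecutive corners
      (∀ a, a < m → ∃ l, l ≠ ck a ∧ sh (cp a) (D.site (ci a) (ck a) l) = sep a) ∧
      (∀ a, a + 1 < m → ∃ l, l ≠ ck (a + 1) ∧
        sh (cp (a + 1)) (D.site (ci (a + 1)) (ck (a + 1)) l) = sep a) ∧
      (∃ l, l ≠ ck 0 ∧ sh (cp 0) (D.site (ci 0) (ck 0) l) = sep (m - 1)) ∧
      -- the separator is not a vertex of the opposite corner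
      (∀ l, l ≠ ck 2 → sh (cp 2) (D.site (ci 2) (ck 2) l) ≠ sep 0) ∧
      (∀ a, 1 ≤ a → a + 1 < m → ∀ l, l ≠ ck 0 → sh (cp 0) (D.site (ci 0) (ck 0) l) ≠ sep a) ∧
      (∀ l, l ≠ ck (m - 2) →
        sh (cp (m - 2)) (D.site (ci (m - 2)) (ck (m - 2)) l) ≠ sep (m - 1)) ∧
      -- orientation
      (∀ a, 1 ≤ a → a + 1 < m →
        0 < cr (D.Z (ci a) (ck a) + ((cp a).1 * D.ω₁ + (cp a).2 * D.ω₂) -
              (D.Z (ci 0) (ck 0) + ((cp 0).1 * D.ω₁ + (cp 0).2 * D.ω₂)))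
            (D.Z (ci (a + 1)) (ck (a + 1)) + ((cp (a + 1)).1 * D.ω₁ + (cp (a + 1)).2 * D.ω₂) -
              (D.Z (ci 0) (ck 0) + ((cp 0).1 * D.ω₁ + (cp 0).2 * D.ω₂))))) ∨
    (∃ (i : I) (k l l1 l2 l3 : Fin (D.n i)) (a : ℤ × ℤ), l ≠ k ∧ l1 ≠ k ∧ l2 ≠ k ∧ l3 ≠ k ∧
      sh a (D.site i k l) = (j, 0, 0) ∧
      0 < cr (D.pos (D.site i k l1) - D.pos (D.site i k l))
        (D.pos (D.site i k l2) - D.pos (D.site i k l)) ∧
      0 < cr (D.pos (D.site i k l2) - D.pos (D.site i k l))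
        (D.pos (D.site i k l3) - D.pos (D.site i k l)) ∧
      0 < cr (D.pos (D.site i k l3) - D.pos (D.site i k l))
        (D.pos (D.site i k l1) - D.pos (D.site i k l))) ∨
    -- segment: the diagonal of a flat quadrilateral face between two cells
    (∃ (i0 i1 : I) (k0 : Fin (D.n i0)) (k1 : Fin (D.n i1)) (a0 a1 : ℤ × ℤ) (σ1 σ2 σ3 σ4 : Site J),
      (∃ l, l ≠ k0 ∧ sh a0 (D.site i0 k0 l) = (j, 0, 0)) ∧
      (∃ l, l ≠ k1 ∧ sh a1 (D.site i1 k1 l) = (j, 0, 0)) ∧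
      (∃ l, l ≠ k0 ∧ sh a0 (D.site i0 k0 l) = σ1) ∧ (∃ l, l ≠ k0 ∧ sh a0 (D.site i0 k0 l) = σ2) ∧
      (∃ l, l ≠ k0 ∧ sh a0 (D.site i0 k0 l) = σ3) ∧ (∃ l, l ≠ k1 ∧ sh a1 (D.site i1 k1 l) = σ1) ∧
      (∃ l, l ≠ k1 ∧ sh a1 (D.site i1 k1 l) = σ4) ∧
      (∀ l, l ≠ k1 → sh a1 (D.site i1 k1 l) ≠ σ3) ∧ (∀ l, l ≠ k0 → sh a0 (D.site i0 k0 l) ≠ σ4) ∧
      D.pos (j, 0, 0) + D.pos (j, 0, 0) = D.pos σ1 + D.pos σ2 ∧ D.pos σ1 ≠ D.pos σ2)
  /-- connectedness -/
  gens : ∃ X : Set G, Subgroup.closure X = ⊤ ∧ ∀ g ∈ X, ∃ w : List G,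
    (∀ h ∈ w, h ∈ Set.range D.pe ∨ (∃ j, h = D.gJ j) ∨ ∃ j, h = (D.gJ j)⁻¹) ∧ g = w.prod

end SD
end Pool.Agent.Helper20.DFJ

end

end

section

/-!
# T2b, part 2: from the checks to the hypotheses `Good`: values of the functionals, (E), (VR)
-/

noncomputable section

open Complex Matrix
open scoped ComplexConjugate

namespace Pool.Agent.Helper20.DFJ
namespace SD

variable {G : Type*} [Group G] {ρ : G →* GL (Fin 2) ℂ} {I J : Type*} (D : SD ρ I J)

/-- translation vector -/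
def la (a : ℤ × ℤ) : ℂ := (a.1 : ℂ) * D.ω₁ + a.2 * D.ω₂

theorem la_zero : D.la 0 = 0 := by simp [la]
theorem la_add (a b : ℤ × ℤ) : D.la (a + b) = D.la a + D.la b := by
  simp only [la, Prod.fst_add, Prod.snd_add, Int.cast_add]; ring
theorem la_neg (a : ℤ × ℤ) : D.la (-a) = -D.la a := by
  simp only [la, Prod.fst_neg, Prod.snd_neg, Int.cast_neg]; ring

theorem pe_neg (a : ℤ × ℤ) : D.pe (-a) = (D.pe a)⁻¹ := by
  have : D.pe (-a) * D.pe a = 1 := by rw [← D.pe_add]; simp [D.pe_zero]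
  exact eq_inv_of_mul_eq_one_left this

theorem pos_sh (a : ℤ × ℤ) (σ : Site J) : D.pos (sh a σ) = D.pos σ + D.la a := by
  simp only [pos, sh, la, Prod.fst_add, Prod.snd_add, Int.cast_add]; ring

theorem rad_sh (a : ℤ × ℤ) (σ : Site J) : D.rad (sh a σ) = D.rad σ := rfl

theorem sh_sh (a b : ℤ × ℤ) (σ : Site J) : sh a (sh b σ) = sh (a + b) σ := by
  simp only [sh, add_assoc]

theorem sh_zero (σ : Site J) : sh 0 σ = σ := by simp [sh]

theorem sh_inj (a : ℤ × ℤ) (σ τ : Site J) (h : sh a σ = sh a τ) : σ = τ := by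
  have := congrArg (sh (-a)) h
  simpa [sh_sh, sh_zero] using this

/-- the action of a peripheral element -/
theorem tr_act (a : ℤ × ℤ) (y : HE) : ρ (D.pe a) • y =
    (y.1 + 2 * sp (D.la a) y.2.1 + normSq (D.la a) * y.2.2, y.2.1 + D.la a * y.2.2, y.2.2) := by
  obtain ⟨h1, h2, h3, h4⟩ := D.pe_tr a
  have h3' : (ρ (D.pe a)).1 1 1 * conj ((ρ (D.pe a)).1 1 1) = 1 := by
    rw [Complex.mul_conj, h3]; simp
  rw [gl_smul_def]
  refine Prod.ext ?_ (Prod.ext ?_ ?_)
  · simp only [actH]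
    rw [h4, h2, h3]
    change _ = y.1 + 2 * sp ((a.1 : ℂ) * D.ω₁ + a.2 * D.ω₂) y.2.1 + normSq ((a.1 : ℂ) * D.ω₁ + a.2 * D.ω₂) * y.2.2
    set L : ℂ := (a.1 : ℂ) * D.ω₁ + a.2 * D.ω₂
    have e : (ρ (D.pe a)).1 1 1 * y.2.1 * conj (L * (ρ (D.pe a)).1 1 1) = y.2.1 * conj L := by
      rw [map_mul]
      linear_combination (y.2.1 * conj L) * h3'
    rw [e, normSq_mul, h3]
    simp only [mul_re, conj_re, conj_im, sp]
    ring
  · simp only [actH]
    rw [h1, h4, h2]
    change _ = y.2.1 + ((a.1 : ℂ) * D.ω₁ + a.2 * D.ω₂) * y.2.2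
    set L : ℂ := (a.1 : ℂ) * D.ω₁ + a.2 * D.ω₂
    simp only [map_zero, mul_zero, zero_mul, zero_add, add_zero]
    linear_combination (y.2.1 + L * y.2.2) * h3'
  · simp only [actH]
    rw [h1, h3]
    simp

/-- the coset of a site -/
def cos (σ : Site J) : G ⧸ D.P := ((D.pe σ.2 * D.gJ σ.1 : G) : G ⧸ D.P)

theorem mk_mul_pe (g : G) (a : ℤ × ℤ) : ((g * D.pe a : G) : G ⧸ D.P) = ((g : G) : G ⧸ D.P) := by
  rw [QuotientGroup.eq]
  refine (D.mem_P _).2 ⟨-a, ?_⟩
  rw [D.pe_neg]; group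

theorem beta_o (y : HX ρ) : D.tess.β D.tess.o y = y.v.2.2 := by
  show ((ρ (1 : G))⁻¹ • y.v).2.2 = y.v.2.2
  rw [map_one, inv_one, one_smul]

theorem beta_cos (σ : Site J) (y : HX ρ) : D.tess.β (D.cos σ) y =
    D.κ σ.1 * (y.v.1 - 2 * sp (D.pos σ) y.v.2.1 + normSq (D.pos σ) * y.v.2.2) := by
  show ((ρ (D.pe σ.2 * D.gJ σ.1))⁻¹ • y.v).2.2 = _
  have e : (ρ (D.pe σ.2 * D.gJ σ.1))⁻¹ • y.v = (ρ (D.gJ σ.1))⁻¹ • (ρ (D.pe (-σ.2)) • y.v) := by
    rw [map_mul, _root_.mul_inv_rev, mul_smul, D.pe_neg, map_inv]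
  rw [e, D.gJ_spec, tr_act]
  congr 1
  have hp : D.pos σ = D.s σ.1 + D.la σ.2 := rfl
  rw [hp, la_neg]
  simp only [sp, normSq_apply, neg_re, neg_im, add_re, add_im, mul_re, mul_im, ofReal_re,
    ofReal_im]
  ring

/-- value at a normalised point in terms of the power -/
theorem beta_cos_one (σ : Site J) (y : HX ρ) (hy : y.v.2.2 = 1) : D.tess.β (D.cos σ) y =
    1 + D.κ σ.1 * (pw (D.pos σ) (D.rad σ) y.v.2.1 + (y.v.1 - normSq y.v.2.1)) := by
  rw [beta_cos, hy]
  have hk : D.κ σ.1 * D.rad σ = 1 := mul_inv_cancel₀ (D.κ_pos σ.1).ne'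
  simp only [pw, sp, normSq_apply, sub_re, sub_im]
  linear_combination (1 : ℝ) * hk

theorem one_le_beta (σ : Site J) (y : HX ρ) (hy : y.v.2.2 = 1) :
    1 ≤ D.tess.β (D.cos σ) y ↔ -(y.v.1 - normSq y.v.2.1) ≤ pw (D.pos σ) (D.rad σ) y.v.2.1 := by
  rw [beta_cos_one D σ y hy]
  have hk := D.κ_pos σ.1
  constructor
  · intro h
    have h2 : 0 ≤ D.κ σ.1 * (pw (D.pos σ) (D.rad σ) y.v.2.1 + (y.v.1 - normSq y.v.2.1)) := by
      linarith
    have := nonneg_of_mul_nonneg_right h2 hk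
    linarith
  · intro h
    have : 0 ≤ D.κ σ.1 * (pw (D.pos σ) (D.rad σ) y.v.2.1 + (y.v.1 - normSq y.v.2.1)) :=
      mul_nonneg hk.le (by linarith)
    linarith

theorem beta_eq_one (σ : Site J) (y : HX ρ) (hy : y.v.2.2 = 1) :
    D.tess.β (D.cos σ) y = 1 ↔ pw (D.pos σ) (D.rad σ) y.v.2.1 = -(y.v.1 - normSq y.v.2.1) := by
  rw [beta_cos_one D σ y hy]
  have hk := D.κ_pos σ.1
  constructor
  · intro h
    have h2 : D.κ σ.1 * (pw (D.pos σ) (D.rad σ) y.v.2.1 + (y.v.1 - normSq y.v.2.1)) = 0 := by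
      linarith
    have := (mul_eq_zero.1 h2).resolve_left hk.ne'
    linarith
  · intro h
    rw [h]; ring

/-- the tile of the corner `(i,k)` translated by `a` -/
def tl (a : ℤ × ℤ) (i : I) (k : Fin (D.n i)) : Tl G I := ⟨D.pe a * (D.x i k)⁻¹, i⟩

theorem o_mem_tl (a : ℤ × ℤ) (i : I) (k : Fin (D.n i)) : D.tess.o ∈ D.tess.vert (D.tl a i k) := by
  refine ⟨k, ?_⟩
  show ((1 : G) : G ⧸ D.P) = ((D.pe a * (D.x i k)⁻¹ * D.x i k : G) : G ⧸ D.P)
  rw [inv_mul_cancel_right]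
  have := D.mk_mul_pe 1 a
  rw [one_mul] at this
  exact this.symm

theorem cos_site_eq (a : ℤ × ℤ) (i : I) (k l : Fin (D.n i)) (hkl : k ≠ l) :
    D.cos (sh a (D.site i k l)) = ((D.pe a * (D.x i k)⁻¹ * D.x i l : G) : G ⧸ D.P) := by
  obtain ⟨p, hp⟩ := D.site_spec i k l hkl
  show ((D.pe (a + (D.site i k l).2) * D.gJ (D.site i k l).1 : G) : G ⧸ D.P) = _
  rw [mul_assoc, hp, ← mul_assoc, D.mk_mul_pe, D.pe_add, mul_assoc]

theorem cos_mem_tl (a : ℤ × ℤ) (i : I) (k l : Fin (D.n i)) (hkl : k ≠ l) :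
    D.cos (sh a (D.site i k l)) ∈ D.tess.vert (D.tl a i k) :=
  ⟨l, D.cos_site_eq a i k l hkl⟩

theorem ctr_tl (a : ℤ × ℤ) (i : I) (k : Fin (D.n i)) :
    D.tess.ctr (D.tl a i k) = (ρ (D.pe a) • D.cc i k : HE) := by
  show (ρ (D.pe a * (D.x i k)⁻¹) • D.c i : HE) = ρ (D.pe a) • ((ρ (D.x i k))⁻¹ • D.c i)
  rw [map_mul, map_inv, mul_smul]

theorem cc_one (i : I) (k : Fin (D.n i)) : (D.cc i k).2.2 = 1 := D.c_one i k

theorem ctr_tl_r (a : ℤ × ℤ) (i : I) (k : Fin (D.n i)) :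
    (HX.v (D.tess.ctr (D.tl a i k))).2.2 = 1 := by
  show (D.tess.ctr (D.tl a i k) : HE).2.2 = 1
  rw [ctr_tl, tr_act]
  exact D.cc_one i k

theorem ctr_tl_z (a : ℤ × ℤ) (i : I) (k : Fin (D.n i)) :
    (HX.v (D.tess.ctr (D.tl a i k))).2.1 = D.Z i k + D.la a := by
  show (D.tess.ctr (D.tl a i k) : HE).2.1 = _
  rw [ctr_tl, tr_act]
  show (D.cc i k).2.1 + D.la a * (D.cc i k).2.2 = _
  rw [D.cc_one i k]; simp [Z]

theorem ctr_tl_h (a : ℤ × ℤ) (i : I) (k : Fin (D.n i)) :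
    (HX.v (D.tess.ctr (D.tl a i k))).1 - normSq (HX.v (D.tess.ctr (D.tl a i k))).2.1 = D.H i k := by
  rw [ctr_tl_z]
  show (D.tess.ctr (D.tl a i k) : HE).1 - _ = _
  rw [ctr_tl, tr_act]
  show (D.cc i k).1 + 2 * sp (D.la a) (D.cc i k).2.1 + normSq (D.la a) * (D.cc i k).2.2 - _ = _
  rw [D.cc_one i k]
  simp only [H, Z, sp, normSq_apply, add_re, add_im]
  ring

/-- powers at a corner -/
theorem pw_corner (a : ℤ × ℤ) (i : I) (k l : Fin (D.n i)) (hkl : k ≠ l) (σ : Site J)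
    (h : sh a (D.site i k l) = σ) : pw (D.pos σ) (D.rad σ) (D.Z i k + D.la a) = -D.H i k := by
  subst h
  have h1 := D.tess.ctr_one (D.tl a i k) _ (D.cos_mem_tl a i k l hkl)
  rw [beta_eq_one D _ _ (D.ctr_tl_r a i k), ctr_tl_h, ctr_tl_z] at h1
  exact h1

theorem pw_corner_lt (C : D.Checks) (a : ℤ × ℤ) (i : I) (k : Fin (D.n i)) (σ : Site J)
    (h : ∀ l, l ≠ k → sh a (D.site i k l) ≠ σ) :
    -D.H i k < pw (D.pos σ) (D.rad σ) (D.Z i k + D.la a) := by
  have h1 := C.empt i k (sh (-a) σ) (by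
    intro l hl heq
    apply h l hl
    rw [heq, sh_sh]
    simp [sh_zero])
  rw [rad_sh, pos_sh, la_neg] at h1
  have e : D.Z i k + D.la a - D.pos σ = D.Z i k - (D.pos σ + -D.la a) := by ring
  simp only [pw]
  rw [e]
  linarith

theorem cos_ne_o (σ : Site J) : D.cos σ ≠ D.tess.o := by
  intro h
  have h1 := D.beta_cos σ ((1, 0, 0) : HE)
  rw [h, beta_o] at h1
  have : (0 : ℝ) = D.κ σ.1 * (1 - 2 * sp (D.pos σ) 0 + normSq (D.pos σ) * 0) := h1
  simp only [sp, zero_re, zero_im, mul_zero, add_zero, sub_zero, mul_one] at this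
  exact (D.κ_pos σ.1).ne this

/-- every site is a neighbour -/
theorem cos_nb (σ : Site J) : D.cos σ ∈ D.tess.Nb D.tess.o := by
  obtain ⟨i, k, l, hkl, hj⟩ := D.used σ.1
  refine ⟨D.cos_ne_o σ, D.tl (σ.2 - (D.site i k l).2) i k, D.o_mem_tl _ i k, ?_⟩
  have := D.cos_mem_tl (σ.2 - (D.site i k l).2) i k l hkl
  have e : sh (σ.2 - (D.site i k l).2) (D.site i k l) = σ := by
    simp only [sh, sub_add_cancel]
    rw [hj]
  rwa [e] at this

/-- tiles containing the base cusp -/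
theorem tile_o (τ : Tl G I) (h : D.tess.o ∈ D.tess.vert τ) :
    ∃ (a : ℤ × ℤ) (k : Fin (D.n τ.i)), τ = D.tl a τ.i k := by
  obtain ⟨k, hk⟩ := h
  have hk' : ((1 : G) : G ⧸ D.P) = ((τ.g * D.x τ.i k : G) : G ⧸ D.P) := hk
  rw [QuotientGroup.eq, inv_one, one_mul] at hk'
  obtain ⟨a, ha⟩ := (D.mem_P _).1 hk'
  refine ⟨a, k, ?_⟩
  show τ = ⟨D.pe a * (D.x τ.i k)⁻¹, τ.i⟩
  rw [ha]
  simp

theorem vert_tl (a : ℤ × ℤ) (i : I) (k : Fin (D.n i)) (w : G ⧸ D.P)
    (hw : w ∈ D.tess.vert (D.tl a i k)) (hwo : w ≠ D.tess.o) :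
    ∃ l, k ≠ l ∧ w = D.cos (sh a (D.site i k l)) := by
  obtain ⟨l, hl⟩ := hw
  have hl' : w = ((D.pe a * (D.x i k)⁻¹ * D.x i l : G) : G ⧸ D.P) := hl
  have hkl : k ≠ l := by
    rintro rfl
    apply hwo
    rw [hl', inv_mul_cancel_right]
    have := D.mk_mul_pe 1 a
    rw [one_mul] at this
    exact this
  exact ⟨l, hkl, by rw [hl', D.cos_site_eq a i k l hkl]⟩

/-- neighbours of the base cusp are sites -/
theorem nb_cos (w : G ⧸ D.P) (hw : w ∈ D.tess.Nb D.tess.o) : ∃ σ, w = D.cos σ := by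
  obtain ⟨hne, τ, h1, h2⟩ := hw
  obtain ⟨a, k, hτ⟩ := D.tile_o τ h1
  rw [hτ] at h2
  obtain ⟨l, _, h3⟩ := D.vert_tl a τ.i k w h2 hne
  exact ⟨_, h3⟩

/-- (E) -/
theorem good_empt (C : D.Checks) : ∀ τ, D.tess.o ∈ D.tess.vert τ → ∀ w ∈ D.tess.Nb D.tess.o,
    w ∉ D.tess.vert τ → 1 < D.tess.β w (D.tess.ctr τ) := by
  intro τ hτ w hw hwτ
  obtain ⟨a, k, hτ'⟩ := D.tile_o τ hτ
  obtain ⟨σ, rfl⟩ := D.nb_cos w hw
  rw [hτ'] at hwτ ⊢
  have h1 := D.pw_corner_lt C a τ.i k σ (by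
    intro l hl heq
    apply hwτ
    rw [← heq]
    exact D.cos_mem_tl a τ.i k l hl.symm)
  rw [beta_cos_one D σ _ (D.ctr_tl_r a τ.i k), ctr_tl_h, ctr_tl_z]
  have hk := D.κ_pos σ.1
  have : 0 < D.κ σ.1 * (pw (D.pos σ) (D.rad σ) (D.Z τ.i k + D.la a) + D.H τ.i k) :=
    mul_pos hk (by linarith)
  linarith

/-- **polygons**: a point of the face `(j,0,0)` is a convex combination of corners. -/
theorem face_hull (C : D.Checks) (j : J) (z : ℂ)
    (hz : ∀ σ, pw (D.pos (j, 0, 0)) (D.rad (j, 0, 0)) z ≤ pw (D.pos σ) (D.rad σ) z) :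
    ∃ (m : ℕ) (ci : ℕ → I) (ck : (a : ℕ) → Fin (D.n (ci a))) (cp : ℕ → ℤ × ℤ) (μ : ℕ → ℝ),
      (∀ a, a < m → ∃ l, l ≠ ck a ∧ sh (cp a) (D.site (ci a) (ck a) l) = (j, 0, 0)) ∧
      (∀ a, 0 ≤ μ a) ∧ ∑ a ∈ Finset.range m, μ a = 1 ∧
      ∑ a ∈ Finset.range m, (μ a : ℂ) * (D.Z (ci a) (ck a) + D.la (cp a)) = z := by
  rcases C.poly j with ⟨m, hm, ci, ck, cp, sep, hmem, hs1, hs2, hs3, ho1, ho2, ho3, hor⟩ |
    ⟨i, k, l, l1, l2, l3, a, hl, hl1, hl2, hl3, hj, c1, c2, c3⟩ |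
    ⟨i0, i1, k0, k1, a0, a1, σ1, σ2, σ3, σ4, ⟨l0, hl0, e0⟩, ⟨l1, hl1, e1⟩, ⟨m1, hm1, f1⟩,
      ⟨m2, hm2, f2⟩, ⟨m3, hm3, f3⟩, ⟨n1, hn1, g1⟩, ⟨n4, hn4, g4⟩, h3, h4, hmid, hne⟩
  · -- nondegenerate
    set Zc : ℕ → ℂ := fun a => D.Z (ci a) (ck a) + D.la (cp a) with hZc
    have hor' : ∀ a, 1 ≤ a → a + 1 < m → 0 < cr (Zc a - Zc 0) (Zc (a + 1) - Zc 0) := hor
    -- power of the face at the corners
    have pj : ∀ a, a < m → pw (D.pos (j, 0, 0)) (D.rad (j, 0, 0)) (Zc a) = -D.H (ci a) (ck a) := by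
      intro a ha
      obtain ⟨l, hl, h⟩ := hmem a ha
      exact D.pw_corner _ _ _ l hl.symm _ h
    have ps : ∀ a, a < m → pw (D.pos (sep a)) (D.rad (sep a)) (Zc a) = -D.H (ci a) (ck a) := by
      intro a ha
      obtain ⟨l, hl, h⟩ := hs1 a ha
      exact D.pw_corner _ _ _ l hl.symm _ h
    have ps' : ∀ a, a + 1 < m → pw (D.pos (sep a)) (D.rad (sep a)) (Zc (a + 1)) =
        -D.H (ci (a + 1)) (ck (a + 1)) := by
      intro a ha
      obtain ⟨l, hl, h⟩ := hs2 a ha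
      exact D.pw_corner _ _ _ l hl.symm _ h
    have ps0 : pw (D.pos (sep (m - 1))) (D.rad (sep (m - 1))) (Zc 0) = -D.H (ci 0) (ck 0) := by
      obtain ⟨l, hl, h⟩ := hs3
      exact D.pw_corner _ _ _ l hl.symm _ h
    have edge : ∀ a, a + 1 < m → 0 ≤ cr (Zc (a + 1) - Zc a) (z - Zc a) := by
      intro a ha
      rcases Nat.eq_zero_or_pos a with rfl | ha0
      · refine edge_sign (D.pos (j, 0, 0)) (D.pos (sep 0)) (D.rad (j, 0, 0)) (D.rad (sep 0))
          (Zc 0) (Zc 1) (Zc 2) z ?_ ?_ ?_ ?_ (hz _)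
        · rw [ps 0 (by omega), pj 0 (by omega)]
        · rw [ps' 0 (by omega), pj (0 + 1) (by omega)]
        · rw [pj 2 (by omega)]
          exact D.pw_corner_lt C (cp 2) (ci 2) (ck 2) (sep 0) ho1
        · exact hor' 1 le_rfl (by omega)
      · refine edge_sign (D.pos (j, 0, 0)) (D.pos (sep a)) (D.rad (j, 0, 0)) (D.rad (sep a))
          (Zc a) (Zc (a + 1)) (Zc 0) z ?_ ?_ ?_ ?_ (hz _)
        · rw [ps a (by omega), pj a (by omega)]
        · rw [ps' a ha, pj (a + 1) ha]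
        · rw [pj 0 (by omega)]
          exact D.pw_corner_lt C (cp 0) (ci 0) (ck 0) (sep a) (ho2 a ha0 ha)
        · have := hor' a ha0 ha
          have e : cr (Zc (a + 1) - Zc a) (Zc 0 - Zc a) = cr (Zc a - Zc 0) (Zc (a + 1) - Zc 0) := by
            simp only [cr, sub_re, sub_im]; ring
          rw [e]; exact this
    have last : 0 ≤ cr (Zc 0 - Zc (m - 1)) (z - Zc (m - 1)) := by
      refine edge_sign (D.pos (j, 0, 0)) (D.pos (sep (m - 1))) (D.rad (j, 0, 0))
          (D.rad (sep (m - 1))) (Zc (m - 1)) (Zc 0) (Zc (m - 2)) z ?_ ?_ ?_ ?_ (hz _)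
      · rw [ps (m - 1) (by omega), pj (m - 1) (by omega)]
      · rw [ps0, pj 0 (by omega)]
      · rw [pj (m - 2) (by omega)]
        exact D.pw_corner_lt C (cp (m - 2)) (ci (m - 2)) (ck (m - 2)) (sep (m - 1)) ho3
      · have := hor' (m - 2) (by omega) (by omega)
        have h2 : m - 2 + 1 = m - 1 := by omega
        rw [h2] at this
        have e : cr (Zc 0 - Zc (m - 1)) (Zc (m - 2) - Zc (m - 1)) =
            cr (Zc (m - 2) - Zc 0) (Zc (m - 1) - Zc 0) := by
          simp only [cr, sub_re, sub_im]; ring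
        rw [e]; exact this
    obtain ⟨μ, h1, h2, h3⟩ := fan m hm Zc hor' z edge last
    exact ⟨m, ci, ck, cp, μ, hmem, h1, h2, h3⟩
  · -- degenerate
    have hs : ∀ l', l' ≠ k → pw (D.pos (sh a (D.site i k l'))) (D.rad (sh a (D.site i k l')))
        (D.Z i k + D.la a) = -D.H i k := fun l' hl' => D.pw_corner a i k l' hl'.symm _ rfl
    have p0 := hs l hl
    rw [hj] at p0
    have hzP : z = D.Z i k + D.la a := by
      refine degen (D.pos (j, 0, 0)) (D.pos (sh a (D.site i k l1))) (D.pos (sh a (D.site i k l2)))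
        (D.pos (sh a (D.site i k l3))) (D.rad (j, 0, 0)) (D.rad (sh a (D.site i k l1)))
        (D.rad (sh a (D.site i k l2))) (D.rad (sh a (D.site i k l3))) _ z
        (by rw [hs l1 hl1, p0]) (by rw [hs l2 hl2, p0]) (by rw [hs l3 hl3, p0])
        ?_ ?_ ?_ (hz _) (hz _) (hz _)
      all_goals
        rw [← hj]
        simp only [pos_sh, add_sub_add_right_eq_sub]
        assumption
    refine ⟨1, fun _ => i, fun _ => k, fun _ => a, fun _ => 1, ?_, ?_, ?_, ?_⟩
    · intro b _; exact ⟨l, hl, hj⟩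
    · intro _; exact zero_le_one
    · simp
    · simp [hzP]
  · -- segment
    have P0 := D.pw_corner a0 i0 k0 l0 hl0.symm _ e0
    have Q0 := D.pw_corner a1 i1 k1 l1 hl1.symm _ e1
    have P1 := D.pw_corner a0 i0 k0 m1 hm1.symm _ f1
    have P2 := D.pw_corner a0 i0 k0 m2 hm2.symm _ f2
    have P3 := D.pw_corner a0 i0 k0 m3 hm3.symm _ f3
    have Q1 := D.pw_corner a1 i1 k1 n1 hn1.symm _ g1
    have Q4 := D.pw_corner a1 i1 k1 n4 hn4.symm _ g4
    have Q3 := D.pw_corner_lt C a1 i1 k1 σ3 h3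
    have P4 := D.pw_corner_lt C a0 i0 k0 σ4 h4
    obtain ⟨t, ht0, ht1, hz'⟩ := segm (D.pos (j, 0, 0)) (D.pos σ1) (D.pos σ2) (D.pos σ3) (D.pos σ4)
      (D.rad (j, 0, 0)) (D.rad σ1) (D.rad σ2) (D.rad σ3) (D.rad σ4)
      (D.Z i0 k0 + D.la a0) (D.Z i1 k1 + D.la a1) z hmid hne
      (by rw [P1, P0]) (by rw [P2, P0]) (by rw [Q1, Q0]) (by rw [P3, P0]) (by rw [Q0]; exact Q3)
      (by rw [Q4, Q0]) (by rw [P0]; exact P4) (hz _) (hz _) (hz _) (hz _)
    refine ⟨2, fun b => match b with | 0 => i0 | _ + 1 => i1,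
      fun b => match b with | 0 => k0 | _ + 1 => k1,
      fun b => match b with | 0 => a0 | _ + 1 => a1, fun b => match b with | 0 => 1 - t | _ + 1 => t,
      ?_, ?_, ?_, ?_⟩
    · intro b hb
      match b, hb with
      | 0, _ => exact ⟨l0, hl0, e0⟩
      | 1, _ => exact ⟨l1, hl1, e1⟩
      | n + 2, h => exact absurd h (by omega)
    · intro b
      match b with
      | 0 => show 0 ≤ 1 - t; linarith
      | n + 1 => exact ht0
    · rw [Finset.sum_range_succ, Finset.sum_range_succ, Finset.sum_range_zero, zero_add]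
      show 1 - t + t = 1
      ring
    · rw [Finset.sum_range_succ, Finset.sum_range_succ, Finset.sum_range_zero, zero_add]
      rw [hz']

end SD
end Pool.Agent.Helper20.DFJ

end

end

section

/-!
# T2b, part 3: (VR), (LF), (CC), (CON): `Checks → Good`
-/

noncomputable section

open Complex Matrix
open scoped ComplexConjugate

namespace Pool.Agent.Helper20.DFJ
namespace SD

variable {G : Type*} [Group G] {ρ : G →* GL (Fin 2) ℂ} {I J : Type*} (D : SD ρ I J)

theorem pe_o (a : ℤ × ℤ) : D.pe a • D.tess.o = D.tess.o := by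
  show ((D.pe a * 1 : G) : G ⧸ D.P) = ((1 : G) : G ⧸ D.P)
  rw [mul_one]
  have := D.mk_mul_pe 1 a
  rw [one_mul] at this
  exact this

theorem pe_cos (a : ℤ × ℤ) (σ : Site J) : D.pe a • D.cos σ = D.cos (sh a σ) := by
  show ((D.pe a * (D.pe σ.2 * D.gJ σ.1) : G) : G ⧸ D.P) = ((D.pe (a + σ.2) * D.gJ σ.1 : G) : G ⧸ D.P)
  rw [D.pe_add, mul_assoc]

theorem sh_neg_self (σ : Site J) : sh (-σ.2) σ = (σ.1, 0, 0) := by
  simp only [sh, neg_add_cancel]
  rfl

theorem pe_tl (b a : ℤ × ℤ) (i : I) (k : Fin (D.n i)) :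
    D.pe b • D.tl a i k = D.tl (b + a) i k := by
  show (⟨D.pe b * (D.pe a * (D.x i k)⁻¹), i⟩ : Tl G I) = ⟨D.pe (b + a) * (D.x i k)⁻¹, i⟩
  rw [D.pe_add, mul_assoc]

/-- normalisation of a point of the base cell -/
theorem normalise (y : HX ρ) (hy : y ∈ D.tess.F D.tess.o) (a : ℤ × ℤ) :
    ∃ (r : ℝ) (y₁ : HX ρ), 0 < r ∧ y₁ ∈ D.tess.F D.tess.o ∧ y₁.v.2.2 = 1 ∧
      r⁻¹ • (D.pe a • y) = y₁ ∧ y = r • (D.pe (-a) • y₁) ∧ D.tess.β D.tess.o y = r ∧
      ∀ w, D.tess.β (D.pe a • w) y₁ = r⁻¹ * D.tess.β w y := by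
  have hr : 0 < D.tess.β D.tess.o y := D.tess.β_pos _ y hy.1
  set r := D.tess.β D.tess.o y with hrdef
  have hr0 : (0 : ℝ) < r⁻¹ := inv_pos.2 hr
  refine ⟨r, r⁻¹ • (D.pe a • y), hr, ?_, ?_, rfl, ?_, rfl, ?_⟩
  · refine Tess.F_scale _ _ _ hr0 ?_
    have := D.tess.mem_F_smul_of (D.pe a) _ _ hy
    rwa [D.pe_o] at this
  · have h1 := D.beta_o (r⁻¹ • (D.pe a • y))
    rw [← h1, map_smul, smul_eq_mul]
    have h2 := D.tess.β_act (D.pe a) D.tess.o y
    rw [D.pe_o] at h2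
    rw [h2, ← hrdef, inv_mul_cancel₀ hr.ne']
  · rw [D.tess.act_smul, smul_smul, mul_inv_cancel₀ hr.ne', one_smul, smul_smul, ← D.pe_add,
      neg_add_cancel, D.pe_zero, one_smul]
  · intro w
    rw [map_smul, smul_eq_mul, D.tess.β_act]

/-- affine formula for the first coordinate on a face -/
theorem first_coord (s : ℂ) (R : ℝ) (q : ℝ) (z : ℂ) (h : pw s R z = -(q - normSq z)) :
    q = 2 * sp s z - normSq s + R := by
  simp only [pw, sp, normSq_apply, sub_re, sub_im] at h ⊢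
  linarith

theorem sp_sum (s : ℂ) (m : ℕ) (μ : ℕ → ℝ) (Z : ℕ → ℂ) :
    sp s (∑ a ∈ Finset.range m, (μ a : ℂ) * Z a) = ∑ a ∈ Finset.range m, μ a * sp s (Z a) := by
  simp only [sp, re_sum, im_sum, re_ofReal_mul, im_ofReal_mul, Finset.mul_sum,
    ← Finset.sum_add_distrib]
  refine Finset.sum_congr rfl fun a _ => ?_
  ring

theorem HX_ext (x y : HX ρ) (h1 : x.v.1 = y.v.1) (h2 : x.v.2.1 = y.v.2.1)
    (h3 : x.v.2.2 = y.v.2.2) : x = y := Prod.ext h1 (Prod.ext h2 h3)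

theorem sum_v (m : Finset ℕ) (f : ℕ → HX ρ) :
    (HX.v (∑ a ∈ m, f a)).1 = ∑ a ∈ m, (f a).v.1 ∧
    (HX.v (∑ a ∈ m, f a)).2.1 = ∑ a ∈ m, (f a).v.2.1 ∧
    (HX.v (∑ a ∈ m, f a)).2.2 = ∑ a ∈ m, (f a).v.2.2 := by
  refine ⟨?_, ?_, ?_⟩
  · exact map_sum (AddMonoidHom.fst ℝ (ℂ × ℝ)) f m
  · exact map_sum ((AddMonoidHom.fst ℂ ℝ).comp (AddMonoidHom.snd ℝ (ℂ × ℝ))) f m
  · exact map_sum ((AddMonoidHom.snd ℂ ℝ).comp (AddMonoidHom.snd ℝ (ℂ × ℝ))) f m

/-- (VR) -/
theorem good_vr (C : D.Checks) : ∀ y ∈ D.tess.F D.tess.o, ∀ w ∈ D.tess.Nb D.tess.o,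
    D.tess.β w y = D.tess.β D.tess.o y →
    ∃ (s : Finset ℕ) (f : ℕ → Tl G I) (μ : ℕ → ℝ), s.Nonempty ∧
      (∀ a ∈ s, 0 < μ a ∧ D.tess.o ∈ D.tess.vert (f a) ∧ w ∈ D.tess.vert (f a)) ∧
      y = ∑ a ∈ s, μ a • D.tess.ctr (f a) := by
  intro y hy w hw hwy
  obtain ⟨σ, rfl⟩ := D.nb_cos w hw
  obtain ⟨r, y₁, hr, hy₁, hy₁r, -, hyy, hβo, hβ⟩ := D.normalise y hy (-σ.2)
  -- face equation
  have hface : D.tess.β (D.cos (σ.1, 0, 0)) y₁ = 1 := by
    have := hβ (D.cos σ)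
    rw [D.pe_cos, sh_neg_self, hwy, hβo, inv_mul_cancel₀ hr.ne'] at this
    exact this
  have hge : ∀ σ', 1 ≤ D.tess.β (D.cos σ') y₁ := by
    intro σ'
    have := hy₁.2 _ (D.cos_nb σ')
    rwa [beta_o, hy₁r] at this
  have hf := (beta_eq_one D _ y₁ hy₁r).1 hface
  have hz : ∀ σ', pw (D.pos (σ.1, 0, 0)) (D.rad (σ.1, 0, 0)) y₁.v.2.1 ≤
      pw (D.pos σ') (D.rad σ') y₁.v.2.1 := by
    intro σ'
    rw [hf]
    exact (one_le_beta D σ' y₁ hy₁r).1 (hge σ')
  obtain ⟨m, ci, ck, cp, μ, hmem, hμ, hsum, hzs⟩ := D.face_hull C σ.1 _ hz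
  set ct : ℕ → HX ρ := fun a => D.tess.ctr (D.tl (cp a) (ci a) (ck a)) with hct
  -- y₁ is the combination
  have hfirst : ∀ a, a < m → (ct a).v.1 = 2 * sp (D.pos (σ.1, 0, 0)) (ct a).v.2.1 -
      normSq (D.pos (σ.1, 0, 0)) + D.rad (σ.1, 0, 0) := by
    intro a ha
    obtain ⟨l, hl, h⟩ := hmem a ha
    apply first_coord
    have h1 := D.ctr_tl_h (cp a) (ci a) (ck a)
    have h2 := D.ctr_tl_z (cp a) (ci a) (ck a)
    have h3 := D.pw_corner (cp a) (ci a) (ck a) l hl.symm _ h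
    show pw _ _ (HX.v (D.tess.ctr (D.tl (cp a) (ci a) (ck a)))).2.1 =
      -((HX.v (D.tess.ctr (D.tl (cp a) (ci a) (ck a)))).1 -
        normSq (HX.v (D.tess.ctr (D.tl (cp a) (ci a) (ck a)))).2.1)
    rw [h1, h2, h3]
  have hcomb : y₁ = ∑ a ∈ Finset.range m, μ a • ct a := by
    obtain ⟨e1, e2, e3⟩ := sum_v (ρ := ρ) (Finset.range m) (fun a => μ a • ct a)
    have e2' : (HX.v (∑ a ∈ Finset.range m, μ a • ct a)).2.1 = y₁.v.2.1 := by
      rw [e2, ← hzs]
      refine Finset.sum_congr rfl fun a _ => ?_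
      have h2 := D.ctr_tl_z (cp a) (ci a) (ck a)
      show (μ a • (HX.v (ct a)).2.1 : ℂ) = _
      rw [real_smul]
      show (μ a : ℂ) * (HX.v (D.tess.ctr (D.tl (cp a) (ci a) (ck a)))).2.1 = _
      rw [h2]
    apply HX_ext
    · rw [e1]
      have h0 := first_coord _ _ _ _ hf
      have : ∀ a ∈ Finset.range m, (HX.v (μ a • ct a)).1 =
          μ a * (2 * sp (D.pos (σ.1, 0, 0)) (ct a).v.2.1 -
            normSq (D.pos (σ.1, 0, 0)) + D.rad (σ.1, 0, 0)) := by
        intro a ha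
        rw [← hfirst a (Finset.mem_range.1 ha)]
        rfl
      rw [Finset.sum_congr rfl this, h0]
      have h4 : sp (D.pos (σ.1, 0, 0)) y₁.v.2.1 =
          ∑ a ∈ Finset.range m, μ a * sp (D.pos (σ.1, 0, 0)) (ct a).v.2.1 := by
        rw [← e2', e2]
        have : ∀ a ∈ Finset.range m, (HX.v (μ a • ct a)).2.1 = (μ a : ℂ) * (ct a).v.2.1 := by
          intro a _
          rw [← real_smul]; rfl
        rw [Finset.sum_congr rfl this, sp_sum]
      rw [h4]
      have h5 : ∑ a ∈ Finset.range m, μ a * (2 * sp (D.pos (σ.1, 0, 0)) (ct a).v.2.1 -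
            normSq (D.pos (σ.1, 0, 0)) + D.rad (σ.1, 0, 0)) =
          2 * (∑ a ∈ Finset.range m, μ a * sp (D.pos (σ.1, 0, 0)) (ct a).v.2.1) +
          (∑ a ∈ Finset.range m, μ a) * (-normSq (D.pos (σ.1, 0, 0)) + D.rad (σ.1, 0, 0)) := by
        rw [Finset.mul_sum, Finset.sum_mul, ← Finset.sum_add_distrib]
        refine Finset.sum_congr rfl fun a _ => ?_
        ring
      rw [h5, hsum]
      ring
    · exact e2'.symm
    · rw [e3, hy₁r, ← hsum]
      refine Finset.sum_congr rfl fun a _ => ?_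
      have h2 := D.ctr_tl_r (cp a) (ci a) (ck a)
      show _ = μ a * (HX.v (D.tess.ctr (D.tl (cp a) (ci a) (ck a)))).2.2
      rw [h2, mul_one]
  refine ⟨(Finset.range m).filter (fun a => 0 < μ a),
    fun a => D.tl (σ.2 + cp a) (ci a) (ck a), fun a => r * μ a, ?_, ?_, ?_⟩
  · by_contra hne
    rw [Finset.not_nonempty_iff_eq_empty, Finset.filter_eq_empty_iff] at hne
    have : ∑ a ∈ Finset.range m, μ a = 0 :=
      Finset.sum_eq_zero fun a ha => le_antisymm (not_lt.1 (hne ha)) (hμ a)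
    rw [hsum] at this
    exact one_ne_zero this
  · intro a ha
    rw [Finset.mem_filter, Finset.mem_range] at ha
    refine ⟨mul_pos hr ha.2, D.o_mem_tl _ _ _, ?_⟩
    obtain ⟨l, hl, h⟩ := hmem a ha.1
    have := D.cos_mem_tl (σ.2 + cp a) (ci a) (ck a) l hl.symm
    rw [← sh_sh, h] at this
    have e : sh σ.2 (σ.1, (0 : ℤ), (0 : ℤ)) = σ := by
      show (σ.1, σ.2 + 0) = σ
      rw [add_zero]
    rwa [e] at this
  · have h1 : ∑ a ∈ (Finset.range m).filter (fun a => 0 < μ a),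
        (r * μ a) • D.tess.ctr (D.tl (σ.2 + cp a) (ci a) (ck a)) =
        ∑ a ∈ Finset.range m, (r * μ a) • D.tess.ctr (D.tl (σ.2 + cp a) (ci a) (ck a)) := by
      apply Finset.sum_subset (Finset.filter_subset _ _)
      intro a ha hna
      have : μ a = 0 := by
        by_contra h0
        exact hna (Finset.mem_filter.2 ⟨ha, lt_of_le_of_ne (hμ a) (Ne.symm h0)⟩)
      rw [this, mul_zero, zero_smul]
    rw [h1, hyy, neg_neg, hcomb, Finset.smul_sum, Finset.smul_sum]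
    refine Finset.sum_congr rfl fun a _ => ?_
    rw [D.tess.act_smul, smul_smul, ← D.pe_tl, D.tess.ctr_act]

/-- lattice finiteness -/
theorem lattice_finite (w : ℂ) (B : ℝ) : {a : ℤ × ℤ | normSq (w + D.la a) ≤ B}.Finite := by
  have hω := D.ω_ne
  have hω' : 0 < |cr D.ω₁ D.ω₂| := abs_pos.2 hω
  set b := |B| + 1 with hb
  have hbpos : 0 < b := by positivity
  -- bound of cross products
  have hcr : ∀ (u v : ℂ), normSq v ≤ B → |cr u v| ≤ (|u.re| + |u.im|) * b := by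
    intro u v hv
    rw [normSq_apply] at hv
    have hB : B ≤ |B| := le_abs_self B
    have h1 : |v.re| ≤ b := by
      refine abs_le_of_sq_le_sq ?_ hbpos.le
      nlinarith [sq_nonneg v.im, abs_nonneg B]
    have h2 : |v.im| ≤ b := by
      refine abs_le_of_sq_le_sq ?_ hbpos.le
      nlinarith [sq_nonneg v.re, abs_nonneg B]
    unfold cr
    refine (abs_sub _ _).trans ?_
    rw [abs_mul, abs_mul]
    have h3 := mul_le_mul_of_nonneg_left h2 (abs_nonneg u.re)
    have h4 := mul_le_mul_of_nonneg_left h1 (abs_nonneg u.im)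
    linarith
  set N2 : ℤ := ⌈((|D.ω₁.re| + |D.ω₁.im|) * b + |cr D.ω₁ w|) / |cr D.ω₁ D.ω₂|⌉ with hN2
  set N1 : ℤ := ⌈((|D.ω₂.re| + |D.ω₂.im|) * b + |cr D.ω₂ w|) / |cr D.ω₁ D.ω₂|⌉ with hN1
  refine Set.Finite.subset ((Set.finite_Icc (-N1) N1).prod (Set.finite_Icc (-N2) N2)) ?_
  rintro ⟨m, n⟩ h
  have h' : normSq (w + D.la (m, n)) ≤ B := h
  have e1 : cr D.ω₁ (w + D.la (m, n)) = cr D.ω₁ w + n * cr D.ω₁ D.ω₂ := by
    simp only [cr, la, add_re, add_im, mul_re, mul_im, intCast_re, intCast_im]; ring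
  have e2 : cr D.ω₂ (w + D.la (m, n)) = cr D.ω₂ w - m * cr D.ω₁ D.ω₂ := by
    simp only [cr, la, add_re, add_im, mul_re, mul_im, intCast_re, intCast_im]; ring
  have a1 := hcr D.ω₁ _ h'
  have a2 := hcr D.ω₂ _ h'
  rw [e1] at a1
  rw [e2] at a2
  have hn : |(n : ℝ)| ≤ N2 := by
    have : |(n : ℝ)| * |cr D.ω₁ D.ω₂| ≤ (|D.ω₁.re| + |D.ω₁.im|) * b + |cr D.ω₁ w| := by
      rw [← abs_mul]
      have : (n : ℝ) * cr D.ω₁ D.ω₂ = (cr D.ω₁ w + n * cr D.ω₁ D.ω₂) - cr D.ω₁ w := by ring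
      rw [this]
      exact (abs_sub _ _).trans (by linarith)
    exact ((le_div_iff₀ hω').2 this).trans (Int.le_ceil _)
  have hm : |(m : ℝ)| ≤ N1 := by
    have : |(m : ℝ)| * |cr D.ω₁ D.ω₂| ≤ (|D.ω₂.re| + |D.ω₂.im|) * b + |cr D.ω₂ w| := by
      rw [← abs_mul]
      have : (m : ℝ) * cr D.ω₁ D.ω₂ = cr D.ω₂ w - (cr D.ω₂ w - m * cr D.ω₁ D.ω₂) := by ring
      rw [this]
      exact (abs_sub _ _).trans (by linarith)
    exact ((le_div_iff₀ hω').2 this).trans (Int.le_ceil _)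
  constructor
  · rw [Set.mem_Icc]
    have := abs_le.1 hm
    exact ⟨by exact_mod_cast this.1, by exact_mod_cast this.2⟩
  · rw [Set.mem_Icc]
    have := abs_le.1 hn
    exact ⟨by exact_mod_cast this.1, by exact_mod_cast this.2⟩

/-- finitely many sites in a bounded region -/
theorem site_finite (C : D.Checks) (w : ℂ) (B : J → ℝ) :
    {σ : Site J | normSq (w - D.pos σ) ≤ B σ.1}.Finite := by
  haveI := C.finJ
  have : {σ : Site J | normSq (w - D.pos σ) ≤ B σ.1} ⊆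
      ⋃ j : J, (fun a : ℤ × ℤ => ((j, a) : Site J)) '' {a | normSq (D.s j - w + D.la a) ≤ B j} := by
    rintro ⟨j, a⟩ h
    refine Set.mem_iUnion.2 ⟨j, a, ?_, rfl⟩
    have h' : normSq (w - D.pos (j, a)) ≤ B j := h
    show normSq (D.s j - w + D.la a) ≤ B j
    rw [← normSq_neg] at h'
    convert h' using 2
    simp only [pos, la]; ring
  refine Set.Finite.subset (Set.finite_iUnion fun j => (D.lattice_finite _ _).image _) this

/-- (LF) -/
theorem good_lf (C : D.Checks) : ∀ y ∈ D.tess.C,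
    {w | w ∈ D.tess.Nb D.tess.o ∧ D.tess.β w y ≤ 2 * D.tess.β D.tess.o y}.Finite := by
  intro y hy
  have hy' : (HX.v y) ∈ CH := hy
  obtain ⟨h1, h2, h3⟩ := hy'
  have hfin := D.site_finite C (y.v.2.1 / y.v.2.2) (fun j => 2 * (D.κ j)⁻¹)
  refine Set.Finite.subset (hfin.image D.cos) ?_
  rintro w ⟨hw, hle⟩
  obtain ⟨σ, rfl⟩ := D.nb_cos w hw
  refine ⟨σ, ?_, rfl⟩
  show normSq (y.v.2.1 / y.v.2.2 - D.pos σ) ≤ 2 * (D.κ σ.1)⁻¹
  rw [beta_cos, beta_o] at hle
  have hk := D.κ_pos σ.1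
  set r := y.v.2.2 with hr
  have e : y.v.1 - 2 * sp (D.pos σ) y.v.2.1 + normSq (D.pos σ) * r =
      r * normSq (y.v.2.1 / r - D.pos σ) + dt y.v / r := by
    have hr0 : r ≠ 0 := h2.ne'
    have hre : (y.v.2.1 / (r : ℂ)).re = y.v.2.1.re / r := by
      rw [Complex.div_ofReal_re]
    have him : (y.v.2.1 / (r : ℂ)).im = y.v.2.1.im / r := by
      rw [Complex.div_ofReal_im]
    simp only [sp, normSq_apply, sub_re, sub_im, dt, hre, him]
    rw [← hr]
    field_simp
    ring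
  rw [e] at hle
  have h4 : 0 ≤ dt y.v / r := div_nonneg h3.le h2.le
  have h5 : D.κ σ.1 * (r * normSq (y.v.2.1 / r - D.pos σ)) ≤ 2 * r := by
    have := mul_nonneg hk.le h4
    nlinarith
  rw [← div_eq_mul_inv, le_div_iff₀ hk]
  have h6 : r * (normSq (y.v.2.1 / r - D.pos σ) * D.κ σ.1) ≤ r * 2 := by nlinarith
  exact le_of_mul_le_mul_left h6 h2

/-- (CON) -/
theorem good_con (C : D.Checks) : ∀ v, Relation.ReflTransGen
    (fun a b => b ∈ D.tess.Nb a) D.tess.o v := by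
  have smulR : ∀ (g : G) (v w : G ⧸ D.P), Relation.ReflTransGen
      (fun a b => b ∈ D.tess.Nb a) v w → Relation.ReflTransGen
      (fun a b => b ∈ D.tess.Nb a) (g • v) (g • w) := by
    intro g v w h
    induction h with
    | refl => exact Relation.ReflTransGen.refl
    | tail _ hbc ih => exact ih.tail (D.tess.mem_Nb_smul_of g _ _ hbc)
  have symR : ∀ (v w : G ⧸ D.P), Relation.ReflTransGen
      (fun a b => b ∈ D.tess.Nb a) v w → Relation.ReflTransGen
      (fun a b => b ∈ D.tess.Nb a) w v := by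
    intro v w h
    induction h with
    | refl => exact Relation.ReflTransGen.refl
    | tail _ hbc ih =>
      exact Relation.ReflTransGen.head (D.tess.Nb_symm _ _ hbc) ih
  let R : Subgroup G :=
    { carrier := {g | Relation.ReflTransGen (fun a b => b ∈ D.tess.Nb a) D.tess.o (g • D.tess.o)}
      one_mem' := by
        show Relation.ReflTransGen _ _ _
        rw [one_smul]
      mul_mem' := by
        intro a b ha hb
        show Relation.ReflTransGen _ _ _
        rw [mul_smul]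
        exact Relation.ReflTransGen.trans ha (smulR a _ _ hb)
      inv_mem' := by
        intro a ha
        show Relation.ReflTransGen _ _ _
        have := smulR a⁻¹ _ _ (symR _ _ ha)
        rwa [inv_smul_smul] at this }
  have hpe : ∀ a, D.pe a ∈ R := by
    intro a
    show Relation.ReflTransGen _ _ _
    rw [D.pe_o]
  have hgJ : ∀ j, D.gJ j ∈ R := by
    intro j
    show Relation.ReflTransGen _ _ _
    refine Relation.ReflTransGen.single ?_
    have := D.cos_nb (j, 0)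
    have e : D.cos (j, 0) = D.gJ j • D.tess.o := by
      show ((D.pe 0 * D.gJ j : G) : G ⧸ D.P) = ((D.gJ j * 1 : G) : G ⧸ D.P)
      rw [D.pe_zero, one_mul, mul_one]
    rwa [e] at this
  obtain ⟨X, hX, hXw⟩ := C.gens
  have hXR : ∀ g ∈ X, g ∈ R := by
    intro g hg
    obtain ⟨w, hw, rfl⟩ := hXw g hg
    refine Subgroup.list_prod_mem R fun h hh => ?_
    rcases hw h hh with ⟨a, rfl⟩ | ⟨j, rfl⟩ | ⟨j, rfl⟩
    · exact hpe a
    · exact hgJ j
    · exact R.inv_mem (hgJ j)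
  have hR : R = ⊤ := by
    rw [eq_top_iff, ← hX]
    exact (Subgroup.closure_le R).2 hXR
  intro v
  obtain ⟨g, rfl⟩ := D.tess.trans v
  have : g ∈ R := by rw [hR]; trivial
  exact this

end SD
end Pool.Agent.Helper20.DFJ

end

end

section

/-!
# T2b, part 4: (CC) and the final theorem of the tessellation part
-/

noncomputable section

open Complex Matrix
open scoped ComplexConjugate

namespace Pool.Agent.Helper20.DFJ
namespace SD

variable {G : Type*} [Group G] {ρ : G →* GL (Fin 2) ℂ} {I J : Type*} (D : SD ρ I J)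

theorem H_pos (i : I) (k : Fin (D.n i)) : 0 < D.H i k := by
  have h : D.cc i k ∈ CH := act_CH _ _ (D.c_C i)
  have h3 := h.2.2
  unfold dt at h3
  rw [D.cc_one i k] at h3
  simp only [H, Z]
  linarith

/-- lower bound of the heights of the centres -/
theorem exists_h0 (C : D.Checks) : ∃ h₀ : ℝ, 0 < h₀ ∧ ∀ i k, h₀ ≤ D.H i k := by
  have := C.finI
  have : Finite (Σ i : I, Fin (D.n i)) := inferInstance
  rcases isEmpty_or_nonempty (Σ i : I, Fin (D.n i)) with he | hne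
  · exact ⟨1, one_pos, fun i k => (he.false ⟨i, k⟩).elim⟩
  · obtain ⟨p, hp⟩ := Finite.exists_min (fun p : Σ i : I, Fin (D.n i) => D.H p.1 p.2)
    exact ⟨D.H p.1 p.2, D.H_pos _ _, fun i k => hp ⟨i, k⟩⟩

theorem normSq_sum_le (m : ℕ) (μ : ℕ → ℝ) (hμ : ∀ a, 0 ≤ μ a)
    (hs : ∑ a ∈ Finset.range m, μ a = 1) (u : ℕ → ℂ) :
    normSq (∑ a ∈ Finset.range m, (μ a : ℂ) * u a) ≤ ∑ a ∈ Finset.range m, μ a * normSq (u a) := by
  set U := ∑ a ∈ Finset.range m, (μ a : ℂ) * u a with hU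
  have hre : U.re = ∑ a ∈ Finset.range m, μ a * (u a).re := by
    rw [hU, re_sum]; exact Finset.sum_congr rfl fun a _ => re_ofReal_mul _ _
  have him : U.im = ∑ a ∈ Finset.range m, μ a * (u a).im := by
    rw [hU, im_sum]; exact Finset.sum_congr rfl fun a _ => im_ofReal_mul _ _
  have key : 0 ≤ ∑ a ∈ Finset.range m, μ a * normSq (u a - U) :=
    Finset.sum_nonneg fun a _ => mul_nonneg (hμ a) (normSq_nonneg _)
  have e : ∑ a ∈ Finset.range m, μ a * normSq (u a - U) =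
      ∑ a ∈ Finset.range m, μ a * normSq (u a) - 2 * (U.re * ∑ a ∈ Finset.range m, μ a * (u a).re
        + U.im * ∑ a ∈ Finset.range m, μ a * (u a).im)
        + (∑ a ∈ Finset.range m, μ a) * normSq U := by
    rw [Finset.mul_sum, Finset.mul_sum, ← Finset.sum_add_distrib, Finset.mul_sum,
      Finset.sum_mul, ← Finset.sum_sub_distrib, ← Finset.sum_add_distrib]
    refine Finset.sum_congr rfl fun a _ => ?_
    simp only [normSq_apply, sub_re, sub_im]
    ring
  rw [e, ← hre, ← him, hs, one_mul] at key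
  rw [normSq_apply] at key ⊢
  linarith

/-- a point with negative power for some site has power `≤ -h₀` for some site -/
theorem cover_step (C : D.Checks) (h₀ : ℝ) (hh : ∀ i k, h₀ ≤ D.H i k) (z : ℂ)
    (hz : ∃ σ, pw (D.pos σ) (D.rad σ) z < 0) : ∃ σ, pw (D.pos σ) (D.rad σ) z ≤ -h₀ := by
  have hfin : {σ : Site J | pw (D.pos σ) (D.rad σ) z < 0}.Finite := by
    refine Set.Finite.subset (D.site_finite C z (fun j => (D.κ j)⁻¹)) ?_
    intro σ hσ
    have : normSq (z - D.pos σ) - (D.κ σ.1)⁻¹ < 0 := hσ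
    show normSq (z - D.pos σ) ≤ (D.κ σ.1)⁻¹
    linarith
  obtain ⟨σ₁, hσ₁⟩ := hz
  obtain ⟨σ, hσ, hmin⟩ := hfin.toFinset.exists_min_image (fun σ => pw (D.pos σ) (D.rad σ) z)
    ⟨σ₁, by simpa using hσ₁⟩
  have hσ' : pw (D.pos σ) (D.rad σ) z < 0 := by simpa using hσ
  have hall : ∀ τ, pw (D.pos σ) (D.rad σ) z ≤ pw (D.pos τ) (D.rad τ) z := by
    intro τ
    by_cases h : pw (D.pos τ) (D.rad τ) z < 0
    · exact hmin τ (by simpa using h)
    · linarith [not_lt.1 h]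
  refine ⟨σ, ?_⟩
  -- translate to (j,0,0)
  have tr : ∀ τ : Site J, pw (D.pos τ) (D.rad τ) (z - D.la σ.2) =
      pw (D.pos (sh σ.2 τ)) (D.rad (sh σ.2 τ)) z := by
    intro τ
    simp only [pw, pos_sh, rad_sh]
    congr 2
    ring
  have e0 : sh σ.2 (σ.1, (0 : ℤ), (0 : ℤ)) = σ := by
    show (σ.1, σ.2 + 0) = σ
    rw [add_zero]
  obtain ⟨m, ci, ck, cp, μ, hmem, hμ, hsum, hzs⟩ := D.face_hull C σ.1 (z - D.la σ.2) (by
    intro τ
    rw [tr, tr, e0]
    exact hall _)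
  have h1 : pw (D.pos σ) (D.rad σ) z = pw (D.pos (σ.1, 0, 0)) (D.rad (σ.1, 0, 0))
      (z - D.la σ.2) := by rw [tr, e0]
  rw [h1]
  have h2 : z - D.la σ.2 - D.pos (σ.1, 0, 0) = ∑ a ∈ Finset.range m,
      (μ a : ℂ) * (D.Z (ci a) (ck a) + D.la (cp a) - D.pos (σ.1, 0, 0)) := by
    simp only [mul_sub, Finset.sum_sub_distrib]
    rw [hzs, ← Finset.sum_mul, ← ofReal_sum, hsum]
    simp
  have h3 := normSq_sum_le m μ hμ hsum
    (fun a => D.Z (ci a) (ck a) + D.la (cp a) - D.pos (σ.1, 0, 0))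
  simp only [pw]
  rw [h2]
  have h4 : ∑ a ∈ Finset.range m, μ a * normSq (D.Z (ci a) (ck a) + D.la (cp a) -
      D.pos (σ.1, 0, 0)) ≤ ∑ a ∈ Finset.range m, μ a * (D.rad (σ.1, 0, 0) - h₀) := by
    refine Finset.sum_le_sum fun a ha => mul_le_mul_of_nonneg_left ?_ (hμ a)
    obtain ⟨l, hl, h⟩ := hmem a (Finset.mem_range.1 ha)
    have h5 := D.pw_corner (cp a) (ci a) (ck a) l hl.symm _ h
    simp only [pw] at h5
    have := hh (ci a) (ck a)
    linarith
  rw [← Finset.sum_mul, hsum, one_mul] at h4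
  linarith

/-- the sites cover the plane, with a uniform margin -/
theorem cover_plane (C : D.Checks) (h₀ : ℝ) (hh0 : 0 < h₀) (hh : ∀ i k, h₀ ≤ D.H i k) (z : ℂ) :
    ∃ σ, pw (D.pos σ) (D.rad σ) z ≤ -h₀ := by
  set Ω : Set ℂ := {z | ∃ σ, pw (D.pos σ) (D.rad σ) z < 0} with hΩ
  have hcont : ∀ σ : Site J, Continuous fun z => pw (D.pos σ) (D.rad σ) z := by
    intro σ
    unfold pw
    exact (Complex.continuous_normSq.comp (continuous_id.sub continuous_const)).sub
      continuous_const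
  have hopen : IsOpen Ω := by
    have : Ω = ⋃ σ : Site J, {z | pw (D.pos σ) (D.rad σ) z < 0} := by
      ext z; simp [hΩ]
    rw [this]
    exact isOpen_iUnion fun σ => isOpen_lt (hcont σ) continuous_const
  have hclosed : IsClosed Ω := by
    rw [← isOpen_compl_iff, isOpen_iff_mem_nhds]
    intro w hw
    -- sites that can reach the unit ball around w
    have := C.finJ
    set Φ : Set (Site J) := {σ | normSq (w - D.pos σ) ≤ 2 * ((D.κ σ.1)⁻¹ + 1)} with hΦ
    have hΦf : Φ.Finite := D.site_finite C w (fun j => 2 * ((D.κ j)⁻¹ + 1))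
    have hcl : IsClosed (⋃ σ ∈ Φ, {z | pw (D.pos σ) (D.rad σ) z ≤ -h₀}) :=
      hΦf.isClosed_biUnion fun σ _ => isClosed_le (hcont σ) continuous_const
    have hwn : w ∉ ⋃ σ ∈ Φ, {z | pw (D.pos σ) (D.rad σ) z ≤ -h₀} := by
      intro hmem
      simp only [Set.mem_iUnion] at hmem
      obtain ⟨σ, _, h⟩ := hmem
      have h' : pw (D.pos σ) (D.rad σ) w ≤ -h₀ := h
      exact hw ⟨σ, by linarith⟩
    have hn1 := hcl.isOpen_compl.mem_nhds hwn
    have hn2 : {u : ℂ | normSq (u - w) < 1} ∈ nhds w := by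
      refine (isOpen_lt (Complex.continuous_normSq.comp (continuous_id.sub continuous_const))
        continuous_const).mem_nhds ?_
      simp
    filter_upwards [hn1, hn2] with u hu1 hu2 huΩ
    obtain ⟨σ, hσ⟩ := D.cover_step C h₀ hh u huΩ
    apply hu1
    simp only [Set.mem_iUnion]
    refine ⟨σ, ?_, hσ⟩
    show normSq (w - D.pos σ) ≤ 2 * ((D.κ σ.1)⁻¹ + 1)
    have h1 : normSq (u - D.pos σ) ≤ (D.κ σ.1)⁻¹ := by
      have : normSq (u - D.pos σ) - (D.κ σ.1)⁻¹ ≤ -h₀ := hσ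
      linarith
    have h2 : normSq (w - D.pos σ) ≤ 2 * normSq (u - D.pos σ) + 2 * normSq (u - w) := by
      simp only [normSq_apply, sub_re, sub_im]
      nlinarith [sq_nonneg ((u.re - (D.pos σ).re) + (u.re - w.re)),
        sq_nonneg ((u.im - (D.pos σ).im) + (u.im - w.im))]
    have hu2' : normSq (u - w) < 1 := hu2
    linarith
  have hne : Ω.Nonempty := by
    obtain ⟨j⟩ := C.neJ
    refine ⟨D.s j, (j, 0, 0), ?_⟩
    simp only [pw, pos, rad, Int.cast_zero, zero_mul, add_zero, sub_self, map_zero]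
    have := inv_pos.2 (D.κ_pos j)
    linarith
  have huniv : Ω = Set.univ := IsClopen.eq_univ ⟨hclosed, hopen⟩ hne
  exact D.cover_step C h₀ hh z (by
    have : z ∈ Ω := by rw [huniv]; trivial
    exact this)

/-- (CC) -/
theorem good_cc (C : D.Checks) : ∃ (Q : Set (HX ρ)) (δ : ℝ), IsCompact Q ∧ Q ⊆ D.tess.C ∧ 0 < δ ∧
    ∀ y ∈ D.tess.F D.tess.o, (∀ w ∈ D.tess.Nb D.tess.o,
      (1 + δ) * D.tess.β D.tess.o y ≤ D.tess.β w y) ∨
      ∃ (g : G) (t : ℝ), g • D.tess.o = D.tess.o ∧ 0 < t ∧ t • (g • y) ∈ Q := by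
  obtain ⟨h₀, hh0, hh⟩ := D.exists_h0 C
  have := C.finJ
  let Qj : J → Set HE := fun j => {y | y.2.2 = 1 ∧ normSq (y.2.1 - D.s j) ≤ 2 * (D.κ j)⁻¹ ∧
    h₀ ≤ y.1 - normSq y.2.1 ∧ y.1 - normSq y.2.1 ≤ 2 * (D.κ j)⁻¹}
  have c1 : Continuous fun y : HE => y.1 := continuous_fst
  have c2 : Continuous fun y : HE => y.2.1 := continuous_fst.comp continuous_snd
  have c3 : Continuous fun y : HE => y.2.2 := continuous_snd.comp continuous_snd
  have c4 : Continuous fun y : HE => y.1 - normSq y.2.1 :=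
    c1.sub (Complex.continuous_normSq.comp c2)
  have hQj : ∀ j, IsCompact (Qj j) := by
    intro j
    refine Metric.isCompact_of_isClosed_isBounded ?_ ?_
    · refine (isClosed_eq c3 continuous_const).inter ((isClosed_le
        (Complex.continuous_normSq.comp (c2.sub continuous_const)) continuous_const).inter
        ((isClosed_le continuous_const c4).inter (isClosed_le c4 continuous_const)))
    · set b := 2 * (D.κ j)⁻¹ with hb
      have hbp : 0 < b := by have := inv_pos.2 (D.κ_pos j); linarith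
      refine (Metric.isBounded_closedBall (x := (0 : HE))
        (r := (b + (‖D.s j‖ + (b + 1)) ^ 2) + (‖D.s j‖ + (b + 1)) + 1)).subset ?_
      rintro y ⟨h1, h2, h3, h4⟩
      rw [mem_closedBall_zero_iff]
      have n1 : ‖y.2.1 - D.s j‖ ≤ b + 1 := by
        rw [normSq_eq_norm_sq] at h2
        nlinarith [norm_nonneg (y.2.1 - D.s j)]
      have n2 : ‖y.2.1‖ ≤ ‖D.s j‖ + (b + 1) := by
        have : y.2.1 = D.s j + (y.2.1 - D.s j) := by ring
        rw [this]
        exact (norm_add_le _ _).trans (by linarith)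
      have n3 : |y.1| ≤ b + (‖D.s j‖ + (b + 1)) ^ 2 := by
        rw [normSq_eq_norm_sq] at h3 h4
        have : ‖y.2.1‖ ^ 2 ≤ (‖D.s j‖ + (b + 1)) ^ 2 :=
          pow_le_pow_left₀ (norm_nonneg _) n2 2
        rw [abs_le]
        constructor <;> nlinarith [sq_nonneg ‖y.2.1‖]
      have p1 : 0 ≤ b + (‖D.s j‖ + (b + 1)) ^ 2 := by positivity
      have p2 : 0 ≤ ‖D.s j‖ + (b + 1) := by positivity
      rw [Prod.norm_def, Prod.norm_def]
      refine max_le ?_ (max_le ?_ ?_)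
      · rw [Real.norm_eq_abs]; linarith
      · linarith
      · rw [h1]; simp; linarith
  refine ⟨⋃ j, Qj j, 1, isCompact_iUnion hQj, ?_, one_pos, ?_⟩
  · intro y hy
    obtain ⟨j, h1, h2, h3, h4⟩ := Set.mem_iUnion.1 hy
    show HX.v y ∈ CH
    have h1' : (HX.v y).2.2 = 1 := h1
    have h3' : h₀ ≤ (HX.v y).1 - normSq (HX.v y).2.1 := h3
    refine ⟨?_, ?_, ?_⟩
    · have := normSq_nonneg (HX.v y).2.1
      linarith
    · rw [h1']; exact one_pos
    · unfold dt; rw [h1']; linarith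
  · intro y hy
    by_cases hdeep : ∀ w ∈ D.tess.Nb D.tess.o, (1 + 1) * D.tess.β D.tess.o y ≤ D.tess.β w y
    · exact Or.inl hdeep
    · right
      push Not at hdeep
      obtain ⟨w, hw, hlt⟩ := hdeep
      obtain ⟨σ, rfl⟩ := D.nb_cos w hw
      obtain ⟨r, y₁, hr, hy₁, hy₁r, hy₁e, -, hβo, hβ⟩ := D.normalise y hy (-σ.2)
      refine ⟨D.pe (-σ.2), r⁻¹, D.pe_o _, inv_pos.2 hr, ?_⟩
      rw [hy₁e]
      refine Set.mem_iUnion.2 ⟨σ.1, hy₁r, ?_⟩
      -- β of the site < 2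
      have h2 : D.tess.β (D.cos (σ.1, 0, 0)) y₁ < 2 := by
        have := hβ (D.cos σ)
        rw [D.pe_cos, sh_neg_self] at this
        rw [this]
        have h3 : r⁻¹ * D.tess.β (D.cos σ) y < r⁻¹ * ((1 + 1) * D.tess.β D.tess.o y) :=
          mul_lt_mul_of_pos_left hlt (inv_pos.2 hr)
        rw [hβo] at h3
        have h4 : r⁻¹ * ((1 + 1) * r) = 2 := by field_simp; norm_num
        linarith
      -- lower bound of the height
      have hlow : h₀ ≤ y₁.v.1 - normSq y₁.v.2.1 := by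
        obtain ⟨τ, hτ⟩ := D.cover_plane C h₀ hh0 hh y₁.v.2.1
        have h5 := hy₁.2 _ (D.cos_nb τ)
        rw [beta_o, hy₁r, one_le_beta D τ y₁ hy₁r] at h5
        linarith
      rw [beta_cos_one D _ y₁ hy₁r] at h2
      have hk := D.κ_pos σ.1
      have hpos0 : D.pos (σ.1, 0, 0) = D.s σ.1 := by simp [pos]
      have hki : D.κ σ.1 * (D.κ σ.1)⁻¹ = 1 := mul_inv_cancel₀ hk.ne'
      have h6 : D.κ σ.1 * (normSq (y₁.v.2.1 - D.s σ.1) + (y₁.v.1 - normSq y₁.v.2.1)) < 2 := by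
        simp only [pw, rad, hpos0] at h2
        nlinarith
      have h7 : normSq (y₁.v.2.1 - D.s σ.1) + (y₁.v.1 - normSq y₁.v.2.1) ≤
          2 * (D.κ σ.1)⁻¹ := by
        rw [← div_eq_mul_inv, le_div_iff₀ hk]
        linarith
      have h8 := normSq_nonneg (y₁.v.2.1 - D.s σ.1)
      refine ⟨?_, hlow, ?_⟩
      · show normSq (y₁.v.2.1 - D.s σ.1) ≤ 2 * (D.κ σ.1)⁻¹
        linarith
      · show y₁.v.1 - normSq y₁.v.2.1 ≤ 2 * (D.κ σ.1)⁻¹
        linarith

/-- **T2b**: the checks imply the hypotheses of the tessellation theorem. -/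
theorem good (C : D.Checks) : D.tess.Good where
  empt := D.good_empt C
  vr := D.good_vr C
  lf := D.good_lf C
  cc := D.good_cc C
  con := D.good_con C

end SD
end Pool.Agent.Helper20.DFJ

end

end

section

/-!
# T2c: faithfulness and discreteness from the checks
-/

noncomputable section

open Complex Matrix
open scoped ComplexConjugate

namespace Pool.Agent.Helper20.DFJ
namespace SD

variable {G : Type*} [Group G] {ρ : G →* GL (Fin 2) ℂ} {I J : Type*} (D : SD ρ I J)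

theorem la_eq_zero (a : ℤ × ℤ) (h : D.la a = 0) : a = 0 := by
  have e1 : cr D.ω₁ (D.la a) = a.2 * cr D.ω₁ D.ω₂ := by
    simp only [cr, la, add_re, add_im, mul_re, mul_im, intCast_re, intCast_im]; ring
  have e2 : cr D.ω₂ (D.la a) = -(a.1 * cr D.ω₁ D.ω₂) := by
    simp only [cr, la, add_re, add_im, mul_re, mul_im, intCast_re, intCast_im]; ring
  rw [h] at e1 e2
  have z : ∀ u : ℂ, cr u 0 = 0 := by intro u; simp [cr]
  rw [z] at e1 e2
  have h2 : (a.2 : ℝ) = 0 := by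
    rcases mul_eq_zero.1 e1.symm with h | h
    · exact h
    · exact absurd h D.ω_ne
  have h1 : (a.1 : ℝ) = 0 := by
    rcases mul_eq_zero.1 (neg_eq_zero.1 e2.symm) with h | h
    · exact h
    · exact absurd h D.ω_ne
  exact Prod.ext (by exact_mod_cast h1) (by exact_mod_cast h2)

/-- a deep point of the base cell -/
theorem exists_deep (C : D.Checks) : ∃ y₀ : HX ρ, y₀ ∈ D.tess.C ∧
    ∀ w ∈ D.tess.Nb D.tess.o, (1 + 1) * D.tess.β D.tess.o y₀ ≤ D.tess.β w y₀ := by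
  have := C.finJ
  have := C.neJ
  obtain ⟨j, hj⟩ := Finite.exists_max (fun j : J => (D.κ j)⁻¹)
  have hjp : 0 < (D.κ j)⁻¹ := inv_pos.2 (D.κ_pos j)
  set q : ℝ := 2 * (D.κ j)⁻¹ with hq
  have hqp : 0 < q := by positivity
  refine ⟨((q, 0, 1) : HE), ?_, ?_⟩
  · show ((q, 0, 1) : HE) ∈ CH
    refine ⟨hqp, one_pos, ?_⟩
    simp only [dt, map_zero]
    linarith
  · intro w hw
    obtain ⟨σ, rfl⟩ := D.nb_cos w hw
    rw [beta_cos, beta_o]
    show (1 + 1) * (1 : ℝ) ≤ D.κ σ.1 * (q - 2 * sp (D.pos σ) 0 + normSq (D.pos σ) * 1)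
    have hk := D.κ_pos σ.1
    have h1 := hj σ.1
    have h2 : sp (D.pos σ) 0 = 0 := by simp [sp]
    rw [h2]
    have h3 := normSq_nonneg (D.pos σ)
    have h4 : D.κ σ.1 * (D.κ σ.1)⁻¹ = 1 := mul_inv_cancel₀ hk.ne'
    have h5 : D.κ σ.1 * (D.κ σ.1)⁻¹ ≤ D.κ σ.1 * (D.κ j)⁻¹ := mul_le_mul_of_nonneg_left h1 hk.le
    have h6 : 0 ≤ D.κ σ.1 * normSq (D.pos σ) := mul_nonneg hk.le h3
    nlinarith

/-- scalars act by real scaling -/
theorem scalar_act (g : GL (Fin 2) ℂ) (l : ℂ) (h : g.1 = l • (1 : Matrix (Fin 2) (Fin 2) ℂ))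
    (y : HE) : g • y = normSq l • y := by
  rw [gl_smul_def, h]
  refine Prod.ext ?_ (Prod.ext ?_ ?_)
  · simp [actH]
  · simp only [actH, Matrix.smul_apply, Matrix.one_apply_eq, smul_eq_mul, mul_one,
      Matrix.one_apply_ne (show (1 : Fin 2) ≠ 0 by decide),
      Matrix.one_apply_ne (show (0 : Fin 2) ≠ 1 by decide), mul_zero, map_zero, zero_mul, add_zero,
      zero_add, Prod.smul_snd, Prod.smul_fst, real_smul]
    rw [Complex.mul_conj]
  · simp [actH]

/-- an element of `P` with scalar image is trivial -/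
theorem P_scalar (g : G) (hg : g • D.tess.o = D.tess.o) (h : (ρ g).1 0 1 = 0) : g = 1 := by
  have h1 : ((g * 1 : G) : G ⧸ D.P) = ((1 : G) : G ⧸ D.P) := hg
  rw [mul_one, eq_comm, QuotientGroup.eq, inv_one, one_mul] at h1
  obtain ⟨a, rfl⟩ := (D.mem_P _).1 h1
  obtain ⟨t1, t2, t3, t4⟩ := D.pe_tr a
  rw [h] at t4
  have hu : (ρ (D.pe a)).1 1 1 ≠ 0 := by
    intro h0; rw [h0] at t3; simp at t3
  have hla : D.la a = 0 := (mul_eq_zero.1 t4.symm).resolve_right hu
  rw [D.la_eq_zero a hla, D.pe_zero]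

/-- **faithfulness** modulo scalars -/
theorem faithful (C : D.Checks) (g : G) (l : ℂ)
    (h : (ρ g).1 = l • (1 : Matrix (Fin 2) (Fin 2) ℂ)) : g = 1 := by
  have H := D.good C
  obtain ⟨y₀, hy₀, hdeep⟩ := D.exists_deep C
  have hp := D.tess.β_pos D.tess.o y₀ hy₀
  have hl : l ≠ 0 := by
    rintro rfl
    have := det_ne (ρ g)
    rw [h] at this
    simp at this
  have hF : y₀ ∈ D.tess.F D.tess.o := ⟨hy₀, fun w hw => by linarith [hdeep w hw]⟩
  have hact : g • y₀ = normSq l • y₀ := scalar_act (ρ g) l h y₀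
  have hn : 0 < normSq l := normSq_pos.2 hl
  have h1 := D.tess.mem_F_smul_of g _ _ hF
  rw [hact] at h1
  have h2 := Tess.F_scale _ _ _ hn hF
  have h3 := H.main D.tess.o (g • D.tess.o) _ h2 h1
  have hgo : g • D.tess.o = D.tess.o := by
    rcases h3 with h3 | ⟨h3, h4⟩
    · exact h3
    · exfalso
      rw [map_smul, map_smul, smul_eq_mul, smul_eq_mul] at h4
      have h5 := mul_left_cancel₀ hn.ne' h4
      have := hdeep _ h3
      linarith
  refine D.P_scalar g hgo ?_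
  rw [h]
  simp

/-- the nonzero lattice vectors are bounded below -/
theorem lattice_sep : ∃ ε : ℝ, 0 < ε ∧ ∀ a, ‖D.la a‖ < ε → a = 0 := by
  have hfin : {a : ℤ × ℤ | normSq (0 + D.la a) ≤ 1 ∧ a ≠ 0}.Finite :=
    (D.lattice_finite 0 1).subset fun a h => h.1
  rcases Set.eq_empty_or_nonempty {a : ℤ × ℤ | normSq (0 + D.la a) ≤ 1 ∧ a ≠ 0} with he | hne
  · refine ⟨1, one_pos, fun a ha => ?_⟩
    by_contra h0
    have : a ∈ {a : ℤ × ℤ | normSq (0 + D.la a) ≤ 1 ∧ a ≠ 0} := by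
      refine ⟨?_, h0⟩
      rw [zero_add, normSq_eq_norm_sq]
      nlinarith [norm_nonneg (D.la a)]
    rw [he] at this
    exact this
  · obtain ⟨b, hb, hmin⟩ := hfin.toFinset.exists_min_image (fun a => ‖D.la a‖)
      (by simpa using hne)
    have hb' : normSq (0 + D.la b) ≤ 1 ∧ b ≠ 0 := by simpa using hb
    have hbp : 0 < ‖D.la b‖ := norm_pos_iff.2 fun h => hb'.2 (D.la_eq_zero b h)
    refine ⟨min 1 ‖D.la b‖, lt_min one_pos hbp, fun a ha => ?_⟩
    by_contra h0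
    have h1 : normSq (0 + D.la a) ≤ 1 ∧ a ≠ 0 := by
      refine ⟨?_, h0⟩
      rw [zero_add, normSq_eq_norm_sq]
      have := lt_of_lt_of_le ha (min_le_left _ _)
      nlinarith [norm_nonneg (D.la a)]
    have := hmin a (by simpa using h1)
    exact absurd (lt_of_lt_of_le ha (min_le_right _ _)) (not_lt.2 this)

/-- scalars of modulus one act trivially -/
theorem actH_unit (M : Matrix (Fin 2) (Fin 2) ℂ) (l : ℂ) (hl : normSq l = 1) (y : HE) :
    actH (l • M) y = actH M y := by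
  apply toMat_inj
  rw [toMat_actH, toMat_actH, Matrix.conjTranspose_smul, Matrix.smul_mul, Matrix.smul_mul,
    Matrix.mul_smul, smul_smul]
  have : l * star l = 1 := by
    show l * conj l = 1
    rw [Complex.mul_conj, hl]; simp
  rw [this, one_smul]

/-- **discreteness**: an element whose matrix is close to a scalar of modulus one is trivial -/
theorem discrete (C : D.Checks) : ∃ ε : ℝ, 0 < ε ∧ ∀ (g : G) (l : ℂ), normSq l = 1 →
    (∀ i j, ‖(ρ g).1 i j - (l • (1 : Matrix (Fin 2) (Fin 2) ℂ)) i j‖ < ε) → g = 1 := by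
  have H := D.good C
  obtain ⟨y₀, hy₀, hdeep⟩ := D.exists_deep C
  obtain ⟨ε₁, hε₁, hsep⟩ := D.lattice_sep
  -- continuity of M ↦ actH M y₀ at 1
  have hcont : Continuous fun M : Matrix (Fin 2) (Fin 2) ℂ => actH M y₀.v := by
    have e : ∀ i j, Continuous fun M : Matrix (Fin 2) (Fin 2) ℂ => M i j := fun i j =>
      (continuous_apply j).comp (continuous_apply i)
    unfold actH
    refine Continuous.prodMk ?_ (Continuous.prodMk ?_ ?_)
    · exact (((Complex.continuous_normSq.comp (e 0 0)).mul continuous_const).add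
        (continuous_const.mul (Complex.continuous_re.comp
        (((e 0 0).mul continuous_const).mul (Complex.continuous_conj.comp (e 0 1)))))).add
        ((Complex.continuous_normSq.comp (e 0 1)).mul continuous_const)
    · exact (((((e 0 0).mul (Complex.continuous_conj.comp (e 1 0))).mul continuous_const).add
        (((e 0 0).mul (Complex.continuous_conj.comp (e 1 1))).mul continuous_const)).add
        (((e 0 1).mul (Complex.continuous_conj.comp (e 1 0))).mul continuous_const)).add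
        (((e 0 1).mul (Complex.continuous_conj.comp (e 1 1))).mul continuous_const)
    · exact (((Complex.continuous_normSq.comp (e 1 0)).mul continuous_const).add
        (continuous_const.mul (Complex.continuous_re.comp
        (((e 1 0).mul continuous_const).mul (Complex.continuous_conj.comp (e 1 1)))))).add
        ((Complex.continuous_normSq.comp (e 1 1)).mul continuous_const)
  have hnb := CH_nhd y₀.v hy₀ (1 / 4) (by norm_num)
  have hev : ∀ᶠ M in nhds (1 : Matrix (Fin 2) (Fin 2) ℂ),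
      actH M y₀.v ∈ {y | y - ((1 : ℝ) - 1 / 4) • y₀.v ∈ KH ∧ ((1 : ℝ) + 1 / 4) • y₀.v - y ∈ KH} := by
    apply hcont.continuousAt.eventually
    show ∀ᶠ y in nhds (actH 1 y₀.v), y ∈ {y | y - ((1 : ℝ) - 1 / 4) • y₀.v ∈ KH ∧
      ((1 : ℝ) + 1 / 4) • y₀.v - y ∈ KH}
    rw [actH_one]
    exact hnb
  -- metric form
  have hmet : ∃ ε₂ : ℝ, 0 < ε₂ ∧ ∀ M : Matrix (Fin 2) (Fin 2) ℂ,
      (∀ i j, ‖M i j - (1 : Matrix (Fin 2) (Fin 2) ℂ) i j‖ < ε₂) →
      actH M y₀.v ∈ {y | y - ((1 : ℝ) - 1 / 4) • y₀.v ∈ KH ∧ ((1 : ℝ) + 1 / 4) • y₀.v - y ∈ KH} := by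
    have h1 : ∀ᶠ M in nhds (1 : Fin 2 → Fin 2 → ℂ),
      actH (Matrix.of M) y₀.v ∈ {y | y - ((1 : ℝ) - 1 / 4) • y₀.v ∈ KH ∧ ((1 : ℝ) + 1 / 4) • y₀.v - y ∈ KH} ∨
        True := Filter.Eventually.of_forall fun _ => Or.inr trivial
    obtain ⟨ε₂, hε₂, hball⟩ := Metric.eventually_nhds_iff.1
      (show ∀ᶠ M : Fin 2 → Fin 2 → ℂ in nhds (fun i j => (1 : Matrix (Fin 2) (Fin 2) ℂ) i j),
        actH (Matrix.of M) y₀.v ∈
          {y | y - ((1 : ℝ) - 1 / 4) • y₀.v ∈ KH ∧ ((1 : ℝ) + 1 / 4) • y₀.v - y ∈ KH} from hev)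
    refine ⟨ε₂, hε₂, fun M hM => ?_⟩
    apply hball (y := fun i j => M i j)
    rw [dist_pi_lt_iff hε₂]
    intro i
    rw [dist_pi_lt_iff hε₂]
    intro j
    rw [dist_eq_norm]
    exact hM i j
  obtain ⟨ε₂, hε₂, hmet⟩ := hmet
  refine ⟨min ε₁ ε₂, lt_min hε₁ hε₂, fun g l hl hg => ?_⟩
  have hlc : normSq (conj l) = 1 := by rw [normSq_conj, hl]
  have hll : conj l * l = 1 := by rw [mul_comm, Complex.mul_conj, hl]; simp
  have hnl : ‖conj l‖ = 1 := by
    rw [RCLike.norm_conj]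
    have := Complex.normSq_eq_norm_sq l
    rw [hl] at this
    have h0 := norm_nonneg l
    nlinarith
  have hnear : D.tess.near (1 / 4) y₀ (g • y₀) := by
    have h1 : actH (conj l • (ρ g).1) y₀.v ∈
        {y | y - ((1 : ℝ) - 1 / 4) • y₀.v ∈ KH ∧ ((1 : ℝ) + 1 / 4) • y₀.v - y ∈ KH} := by
      apply hmet
      intro i j
      have h2 : (conj l • (ρ g).1) i j - (1 : Matrix (Fin 2) (Fin 2) ℂ) i j =
          conj l * ((ρ g).1 i j - (l • (1 : Matrix (Fin 2) (Fin 2) ℂ)) i j) := by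
        simp only [Matrix.smul_apply, smul_eq_mul, mul_sub, ← mul_assoc, hll, one_mul]
      rw [h2, norm_mul, hnl, one_mul]
      exact lt_of_lt_of_le (hg i j) (min_le_right _ _)
    rw [actH_unit _ _ hlc] at h1
    obtain ⟨h11, h12⟩ := h1
    exact ⟨h11, h12⟩
  have hgo : g • D.tess.o = D.tess.o :=
    H.fix_of_near y₀ hy₀ 1 one_pos le_rfl hdeep g hnear
  -- g is peripheral with small translation
  have h1 : ((g * 1 : G) : G ⧸ D.P) = ((1 : G) : G ⧸ D.P) := hgo
  rw [mul_one, eq_comm, QuotientGroup.eq, inv_one, one_mul] at h1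
  obtain ⟨a, rfl⟩ := (D.mem_P _).1 h1
  obtain ⟨t1, t2, t3, t4⟩ := D.pe_tr a
  have h01 := hg 0 1
  have hz : (l • (1 : Matrix (Fin 2) (Fin 2) ℂ)) 0 1 = 0 := by simp
  rw [hz, sub_zero, t4, norm_mul] at h01
  have hu : ‖(ρ (D.pe a)).1 1 1‖ = 1 := by
    have := Complex.normSq_eq_norm_sq ((ρ (D.pe a)).1 1 1)
    rw [t3] at this
    have h0 := norm_nonneg ((ρ (D.pe a)).1 1 1)
    nlinarith
  rw [hu, mul_one] at h01
  have : a = 0 := hsep a (lt_of_lt_of_le h01 (min_le_left _ _))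
  rw [this, D.pe_zero]

end SD
end Pool.Agent.Helper20.DFJ

end

end
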