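import Pool.Agent.Helper20.DFJ.Statement

/-!
# DFJ: Markov, Wirt
-/

section

/-!
# Markov's moves preserve the group of the closed braid together with its meridians
-/

noncomputable section

namespace Pool.Agent.DFJ

section Labels

variable {H : Type*} [Group H] {H' : Type*} [Group H']

/-- the meridians after a braid word -/
def lab (w : List (ℕ × Bool)) (x : ℕ → H) : ℕ → H := w.foldl crossing x

theorem lab_nil (x : ℕ → H) : lab [] x = x := rfl

theorem lab_cons (l : ℕ × Bool) (w : List (ℕ × Bool)) (x : ℕ → H) :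
    lab (l :: w) x = lab w (crossing x l) := rfl

theorem lab_append (w w' : List (ℕ × Bool)) (x : ℕ → H) :
    lab (w ++ w') x = lab w' (lab w x) := List.foldl_append

theorem crossing_true (x : ℕ → H) (i j : ℕ) : crossing x (i, true) j =
    if j = i + 1 then x i else if j = i then x i * x (i + 1) * (x i)⁻¹ else x j := by
  simp only [crossing, if_true, Function.update_apply]

theorem crossing_false (x : ℕ → H) (i j : ℕ) : crossing x (i, false) j =
    if j = i + 1 then (x (i + 1))⁻¹ * x i * x (i + 1) else if j = i then x (i + 1) else x j := by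
  simp only [crossing, Bool.false_eq_true, if_false, Function.update_apply]

theorem crossing_ge (x : ℕ → H) (l : ℕ × Bool) (j : ℕ) (h : l.1 + 1 < j) :
    crossing x l j = x j := by
  obtain ⟨i, e⟩ := l
  simp only at h
  cases e
  · rw [crossing_false, if_neg (by omega), if_neg (by omega)]
  · rw [crossing_true, if_neg (by omega), if_neg (by omega)]

theorem lab_ge (n : ℕ) (w : List (ℕ × Bool)) (hw : ∀ l ∈ w, l.1 + 1 < n) (x : ℕ → H) (j : ℕ)
    (h : n ≤ j) : lab w x j = x j := by
  induction w generalizing x with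
  | nil => rfl
  | cons l w ih =>
    rw [lab_cons, ih (fun l' hl' => hw l' (List.mem_cons_of_mem _ hl'))]
    exact crossing_ge x l j (lt_of_lt_of_le (hw l List.mem_cons_self) h)

theorem crossing_map (f : H →* H') (x : ℕ → H) (l : ℕ × Bool) :
    (fun j => f (crossing x l j)) = crossing (fun j => f (x j)) l := by
  funext j
  obtain ⟨i, e⟩ := l
  cases e
  · rw [crossing_false, crossing_false]
    split_ifs <;> simp
  · rw [crossing_true, crossing_true]
    split_ifs <;> simp

theorem lab_map (f : H →* H') (w : List (ℕ × Bool)) (x : ℕ → H) :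
    (fun j => f (lab w x j)) = lab w (fun j => f (x j)) := by
  induction w generalizing x with
  | nil => rfl
  | cons l w ih => rw [lab_cons, ih, crossing_map, lab_cons]

/-- locality -/
theorem lab_congr (n : ℕ) (w : List (ℕ × Bool)) (hw : ∀ l ∈ w, l.1 + 1 < n) (x y : ℕ → H)
    (h : ∀ j < n, x j = y j) : ∀ j < n, lab w x j = lab w y j := by
  induction w generalizing x y with
  | nil => exact h
  | cons l w ih =>
    have hl := hw l List.mem_cons_self
    refine ih (fun l' hl' => hw l' (List.mem_cons_of_mem _ hl')) _ _ fun j hj => ?_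
    obtain ⟨i, e⟩ := l
    simp only at hl
    cases e
    · rw [crossing_false, crossing_false, h j hj, h i (by omega), h (i + 1) hl]
    · rw [crossing_true, crossing_true, h j hj, h i (by omega), h (i + 1) hl]

/-- the labels after a word are conjugates of the labels before it, and conversely -/
theorem crossing_conj (n : ℕ) (l : ℕ × Bool) (hl : l.1 + 1 < n) (x : ℕ → H) :
    (∀ j < n, ∃ i < n, IsConj (x i) (crossing x l j)) ∧
      (∀ i < n, ∃ j < n, IsConj (x i) (crossing x l j)) := by
  obtain ⟨a, e⟩ := l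
  simp only at hl
  have key : ∀ i < n, IsConj (x i) (crossing x (a, e) (place i (a, e))) ∧
      place i (a, e) < n ∧ place (place i (a, e)) (a, e) = i := by
    intro i hi
    unfold place
    by_cases h1 : i = a
    · subst h1
      simp only [if_true]
      refine ⟨?_, by omega, by rw [if_neg (by omega)]⟩
      cases e
      · rw [crossing_false, if_pos rfl]
        exact isConj_iff.2 ⟨(x (i + 1))⁻¹, by group⟩
      · rw [crossing_true, if_pos rfl]
    · by_cases h2 : i = a + 1
      · subst h2
        simp only [if_true, if_neg h1]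
        refine ⟨?_, by omega, trivial⟩
        cases e
        · rw [crossing_false, if_neg (by omega), if_pos rfl]
        · rw [crossing_true, if_neg (by omega), if_pos rfl]
          exact isConj_iff.2 ⟨x a, rfl⟩
      · simp only [if_neg h1, if_neg h2]
        refine ⟨?_, hi, trivial⟩
        cases e
        · rw [crossing_false, if_neg h2, if_neg h1]
        · rw [crossing_true, if_neg h2, if_neg h1]
  constructor
  · intro j hj
    obtain ⟨-, h2, h3⟩ := key j hj
    have h4 := (key _ h2).1
    rw [h3] at h4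
    exact ⟨_, h2, h4⟩
  · intro i hi
    exact ⟨_, (key i hi).2.1, (key i hi).1⟩

theorem lab_conj (n : ℕ) (w : List (ℕ × Bool)) (hw : ∀ l ∈ w, l.1 + 1 < n) (x : ℕ → H) :
    (∀ j < n, ∃ i < n, IsConj (x i) (lab w x j)) ∧
      (∀ i < n, ∃ j < n, IsConj (x i) (lab w x j)) := by
  induction w generalizing x with
  | nil => exact ⟨fun j hj => ⟨j, hj, IsConj.refl _⟩, fun j hj => ⟨j, hj, IsConj.refl _⟩⟩
  | cons l w ih =>
    have h1 := crossing_conj n l (hw l List.mem_cons_self) x
    have h2 := ih (fun l' hl' => hw l' (List.mem_cons_of_mem _ hl')) (crossing x l)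
    constructor
    · intro j hj
      obtain ⟨i, hi, h3⟩ := h2.1 j hj
      obtain ⟨i', hi', h4⟩ := h1.1 i hi
      exact ⟨i', hi', h4.trans h3⟩
    · intro i hi
      obtain ⟨j, hj, h3⟩ := h1.2 i hi
      obtain ⟨j', hj', h4⟩ := h2.2 j hj
      exact ⟨j', hj', h3.trans h4⟩

end Labels

/-! ### The universal property -/

variable {H : Type*} [Group H]

/-- the meridians, extended by `1` -/
def Braid.mL (K : Braid) : ℕ → K.Grp := fun j => if h : j < K.n then K.mer ⟨j, h⟩ else 1

theorem Braid.mL_lt (K : Braid) {j : ℕ} (h : j < K.n) : K.mL j = K.mer ⟨j, h⟩ := dif_pos h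

theorem Braid.mL_ge (K : Braid) {j : ℕ} (h : K.n ≤ j) : K.mL j = 1 := dif_neg (by omega)

theorem Braid.mL_eq (K : Braid) : K.mL = fun j => PresentedGroup.mk K.rels (gen K.n j) := by
  funext j
  unfold Braid.mL gen
  split_ifs with h
  · rfl
  · simp

/-- the relations hold -/
theorem Braid.lab_mL (K : Braid) : lab K.word K.mL = K.mL := by
  funext j
  by_cases hj : j < K.n
  · rw [Braid.mL_eq, ← lab_map]
    have h1 : PresentedGroup.mk K.rels (lab K.word (gen K.n) j * (gen K.n j)⁻¹) = 1 :=
      PresentedGroup.one_of_mem ⟨j, hj, rfl⟩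
    rw [map_mul, map_inv, mul_inv_eq_one] at h1
    exact h1
  · exact lab_ge K.n K.word K.valid _ j (by omega)

/-- homomorphisms out of the group of a closed braid -/
theorem Braid.exists_hom (K : Braid) (y : ℕ → H) (hy : ∀ j, K.n ≤ j → y j = 1)
    (h : ∀ j < K.n, lab K.word y j = y j) : ∃ f : K.Grp →* H, ∀ j, f (K.mL j) = y j := by
  have hg : (fun j => FreeGroup.lift (fun i : Fin K.n => y i) (gen K.n j)) = y := by
    funext j
    unfold gen
    split_ifs with hj
    · simp
    · rw [map_one, hy j (by omega)]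
  have hr : ∀ r ∈ K.rels, FreeGroup.lift (fun i : Fin K.n => y i) r = 1 := by
    rintro _ ⟨j, hj, rfl⟩
    rw [map_mul, map_inv, mul_inv_eq_one]
    have h1 := congrFun (lab_map (FreeGroup.lift (fun i : Fin K.n => y i)) K.word (gen K.n)) j
    rw [hg] at h1
    have h2 := congrFun hg j
    exact h1.trans ((h j hj).trans h2.symm)
  refine ⟨PresentedGroup.toGroup hr, fun j => ?_⟩
  by_cases hj : j < K.n
  · rw [K.mL_lt hj]
    exact PresentedGroup.toGroup.of hr
  · rw [K.mL_ge (by omega), map_one, hy j (by omega)]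

theorem Braid.hom_ext (K : Braid) {f g : K.Grp →* H} (h : ∀ j < K.n, f (K.mL j) = g (K.mL j)) :
    f = g := by
  apply PresentedGroup.ext
  intro i
  have := h i i.2
  rw [K.mL_lt i.2] at this
  exact this

/-! ### Isomorphisms which preserve the meridians -/

/-- the groups are isomorphic, and meridians go to conjugates of meridians -/
def Braid.MerIso (K L : Braid) : Prop :=
  ∃ e : K.Grp ≃* L.Grp, (∀ i < K.n, ∃ j < L.n, IsConj (e (K.mL i)) (L.mL j)) ∧
    ∀ j < L.n, ∃ i < K.n, IsConj (e (K.mL i)) (L.mL j)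

theorem Braid.MerIso.refl (K : Braid) : K.MerIso K :=
  ⟨MulEquiv.refl _, fun i hi => ⟨i, hi, IsConj.refl _⟩, fun i hi => ⟨i, hi, IsConj.refl _⟩⟩

theorem Braid.MerIso.symm {K L : Braid} (h : K.MerIso L) : L.MerIso K := by
  obtain ⟨e, h1, h2⟩ := h
  have key : ∀ i j, IsConj (e (K.mL i)) (L.mL j) → IsConj (e.symm (L.mL j)) (K.mL i) := by
    intro i j hij
    have := (e.symm.toMonoidHom.map_isConj hij).symm
    have h3 : e.symm.toMonoidHom (e (K.mL i)) = K.mL i := e.symm_apply_apply _
    rw [h3] at this
    exact this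
  refine ⟨e.symm, fun j hj => ?_, fun i hi => ?_⟩
  · obtain ⟨i, hi, h⟩ := h2 j hj
    exact ⟨i, hi, key i j h⟩
  · obtain ⟨j, hj, h⟩ := h1 i hi
    exact ⟨j, hj, key i j h⟩

theorem Braid.MerIso.trans {K L M : Braid} (h : K.MerIso L) (h' : L.MerIso M) : K.MerIso M := by
  obtain ⟨e, h1, h2⟩ := h
  obtain ⟨e', h1', h2'⟩ := h'
  refine ⟨e.trans e', fun i hi => ?_, fun k hk => ?_⟩
  · obtain ⟨j, hj, h⟩ := h1 i hi
    obtain ⟨k, hk, h'⟩ := h1' j hj
    exact ⟨k, hk, (e'.toMonoidHom.map_isConj h).trans h'⟩
  · obtain ⟨j, hj, h'⟩ := h2' k hk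
    obtain ⟨i, hi, h⟩ := h2 j hj
    exact ⟨i, hi, (e'.toMonoidHom.map_isConj h).trans h'⟩

/-- two homomorphisms inverse to each other on the meridians -/
theorem Braid.merIso_of {K L : Braid} (f : K.Grp →* L.Grp) (g : L.Grp →* K.Grp)
    (h1 : ∀ i < K.n, g (f (K.mL i)) = K.mL i) (h2 : ∀ j < L.n, f (g (L.mL j)) = L.mL j)
    (h3 : ∀ i < K.n, ∃ j < L.n, IsConj (f (K.mL i)) (L.mL j))
    (h4 : ∀ j < L.n, ∃ i < K.n, IsConj (f (K.mL i)) (L.mL j)) : K.MerIso L := by
  have e1 : g.comp f = MonoidHom.id _ := K.hom_ext h1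
  have e2 : f.comp g = MonoidHom.id _ := L.hom_ext h2
  exact ⟨MonoidHom.toMulEquiv f g e1 e2, h3, h4⟩

/-- words with the same action on labels -/
theorem Braid.merIso_same (n : ℕ) (w w' : List (ℕ × Bool)) (h h')
    (hw : ∀ (H : Type) [Group H] (x : ℕ → H), lab w x = lab w' x) :
    Braid.MerIso ⟨n, w, h⟩ ⟨n, w', h'⟩ := by
  set K : Braid := ⟨n, w, h⟩
  set L : Braid := ⟨n, w', h'⟩
  obtain ⟨f, hf⟩ := K.exists_hom L.mL (fun j hj => L.mL_ge hj) (fun j hj => by
    show lab w L.mL j = _
    rw [hw]; exact congrFun L.lab_mL j)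
  obtain ⟨g, hg⟩ := L.exists_hom K.mL (fun j hj => K.mL_ge hj) (fun j hj => by
    show lab w' K.mL j = _
    rw [← hw]; exact congrFun K.lab_mL j)
  exact Braid.merIso_of f g (fun i _ => by rw [hf, hg]) (fun i _ => by rw [hg, hf])
    (fun i hi => ⟨i, hi, by rw [hf]⟩) (fun i hi => ⟨i, hi, by rw [hf]⟩)

/-! ### The moves -/

theorem crossing_cancel (x : ℕ → H) (i : ℕ) (e : Bool) :
    crossing (crossing x (i, e)) (i, !e) = x := by
  funext j
  cases e
  · rw [Bool.not_false, crossing_true, crossing_false, crossing_false, crossing_false]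
    by_cases h1 : j = i + 1
    · subst h1; simp
    · by_cases h2 : j = i
      · subst h2; simp [mul_assoc]
      · simp [h1, h2]
  · rw [Bool.not_true, crossing_false, crossing_true, crossing_true, crossing_true]
    by_cases h1 : j = i + 1
    · subst h1; simp [mul_assoc]
    · by_cases h2 : j = i
      · subst h2; simp
      · simp [h1, h2]

theorem crossing_comm (x : ℕ → H) (i j : ℕ) (d e : Bool) (hij : i + 1 < j) :
    crossing (crossing x (i, d)) (j, e) = crossing (crossing x (j, e)) (i, d) := by
  funext k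
  have a1 : i ≠ j := by omega
  have a2 : i ≠ j + 1 := by omega
  have a3 : i + 1 ≠ j := by omega
  have a4 : j ≠ i := by omega
  have a5 : j ≠ i + 1 := by omega
  have a6 : j + 1 ≠ i := by omega
  have a7 : j + 1 ≠ i + 1 := by omega
  have a8 : i + 1 ≠ j + 1 := by omega
  cases d <;> cases e <;> simp only [crossing_true, crossing_false] <;>
    by_cases h1 : k = i <;> by_cases h2 : k = i + 1 <;> by_cases h3 : k = j <;>
    by_cases h4 : k = j + 1 <;> simp_all

theorem crossing_braid (x : ℕ → H) (i : ℕ) :
    crossing (crossing (crossing x (i, true)) (i + 1, true)) (i, true) =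
      crossing (crossing (crossing x (i + 1, true)) (i, true)) (i + 1, true) := by
  funext k
  have a1 : ¬ i = i + 1 + 1 := by omega
  have a2 : ¬ i = i + 1 := by omega
  have a3 : ¬ i + 1 + 1 = i := by omega
  have a4 : ¬ i + 1 = i := by omega
  have a5 : ¬ i + 1 + 1 = i + 1 := by omega
  have a6 : ¬ i + 1 = i + 1 + 1 := by omega
  simp only [crossing_true]
  by_cases h1 : k = i
  · subst h1; simp only [if_neg a1, if_neg a2, if_neg a3, if_neg a4, if_neg a5, if_neg a6, if_true,
      mul_assoc, mul_inv_rev, inv_inv, inv_mul_cancel_left]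
  · by_cases h2 : k = i + 1
    · subst h2; simp only [if_neg a1, if_neg a2, if_neg a3, if_neg a4, if_neg a5, if_neg a6, if_true,
        mul_assoc, mul_inv_rev, inv_inv, inv_mul_cancel_left]
    · by_cases h3 : k = i + 1 + 1
      · subst h3; simp only [if_neg a1, if_neg a2, if_neg a3, if_neg a4, if_neg a5, if_neg a6, if_true]
      · simp only [if_neg h1, if_neg h2, if_neg h3]

theorem merIso_conj (n : ℕ) (u v : List (ℕ × Bool)) (h h') :
    Braid.MerIso ⟨n, u ++ v, h⟩ ⟨n, v ++ u, h'⟩ := by
  set K : Braid := ⟨n, u ++ v, h⟩ with hK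
  set L : Braid := ⟨n, v ++ u, h'⟩ with hL
  have hu : ∀ l ∈ u, l.1 + 1 < n := fun l hl => h l (List.mem_append_left _ hl)
  have hv : ∀ l ∈ v, l.1 + 1 < n := fun l hl => h l (List.mem_append_right _ hl)
  have eK : lab v (lab u K.mL) = K.mL := by
    rw [← lab_append]; exact K.lab_mL
  have eL : lab u (lab v L.mL) = L.mL := by
    rw [← lab_append]; exact L.lab_mL
  obtain ⟨f, hf⟩ := K.exists_hom (lab v L.mL) (fun j hj => by
    rw [lab_ge n v hv _ j hj]; exact L.mL_ge hj) (fun j _ => by
    show lab (u ++ v) (lab v L.mL) j = _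
    rw [lab_append, eL])
  obtain ⟨g, hg⟩ := L.exists_hom (lab u K.mL) (fun j hj => by
    rw [lab_ge n u hu _ j hj]; exact K.mL_ge hj) (fun j _ => by
    show lab (v ++ u) (lab u K.mL) j = _
    rw [lab_append, eK])
  have h3 := lab_conj n v hv L.mL
  refine Braid.merIso_of f g (fun i _ => ?_) (fun i _ => ?_) (fun i hi => ?_) (fun j hj => ?_)
  · rw [hf]
    have h1 := congrFun (lab_map g v L.mL) i
    have h2 : (fun j => g (L.mL j)) = lab u K.mL := funext hg
    rw [h2, eK] at h1
    exact h1
  · rw [hg]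
    have h1 := congrFun (lab_map f u K.mL) i
    have h2 : (fun j => f (K.mL j)) = lab v L.mL := funext hf
    rw [h2, eL] at h1
    exact h1
  · obtain ⟨j, hj, h⟩ := h3.1 i hi
    exact ⟨j, hj, by rw [hf]; exact h.symm⟩
  · obtain ⟨i, hi, h⟩ := h3.2 j hj
    exact ⟨i, hi, by rw [hf]; exact h.symm⟩

theorem merIso_stab (n : ℕ) (w : List (ℕ × Bool)) (e : Bool) (h h') :
    Braid.MerIso ⟨n + 1, w, h⟩ ⟨n + 2, w ++ [(n, e)], h'⟩ := by
  set K : Braid := ⟨n + 1, w, h⟩ with hK
  set L : Braid := ⟨n + 2, w ++ [(n, e)], h'⟩ with hL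
  -- consequences of the relations of `L`
  have hz : crossing (lab w L.mL) (n, e) = L.mL := by
    have := L.lab_mL
    rw [hL] at this
    rw [hL]
    change lab (w ++ [(n, e)]) _ = _ at this
    rw [lab_append] at this
    exact this
  have z1 : lab w L.mL (n + 1) = L.mL (n + 1) := lab_ge (n + 1) w h _ _ le_rfl
  have zj : ∀ j < n, lab w L.mL j = L.mL j := by
    intro j hj
    have h1 := congrFun hz j
    cases e
    · rw [crossing_false, if_neg (by omega), if_neg (by omega)] at h1
      exact h1
    · rw [crossing_true, if_neg (by omega), if_neg (by omega)] at h1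
      exact h1
  have zn : lab w L.mL n = L.mL n ∧ L.mL (n + 1) = L.mL n := by
    have h1 := congrFun hz (n + 1)
    have h2 := congrFun hz n
    cases e
    · rw [crossing_false, if_pos rfl, z1] at h1
      rw [crossing_false, if_neg (by omega), if_pos rfl, z1] at h2
      refine ⟨?_, h2⟩
      have h3 : lab w L.mL n = L.mL (n + 1) * L.mL (n + 1) * (L.mL (n + 1))⁻¹ := by
        calc lab w L.mL n = L.mL (n + 1) * ((L.mL (n + 1))⁻¹ * lab w L.mL n * L.mL (n + 1)) *
              (L.mL (n + 1))⁻¹ := by group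
          _ = _ := by rw [h1]
      rw [h3, mul_inv_cancel_right, h2]
    · rw [crossing_true, if_pos rfl] at h1
      rw [crossing_true, if_neg (by omega), if_pos rfl, z1, h1, mul_inv_cancel_right] at h2
      exact ⟨h1.trans h2, h2⟩
  obtain ⟨f, hf⟩ := K.exists_hom (fun j => if j < n + 1 then L.mL j else 1)
    (fun j hj => if_neg (by have : n + 1 ≤ j := hj; omega)) (fun j hj => by
      have hj' : j < n + 1 := hj
      show lab w _ j = _
      rw [if_pos hj', lab_congr (n + 1) w h _ L.mL (fun i hi => if_pos hi) j hj']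
      rcases Nat.lt_succ_iff_lt_or_eq.1 hj' with h1 | rfl
      · exact zj j h1
      · exact zn.1)
  have hKn : n < K.n := Nat.lt_succ_self n
  obtain ⟨g, hg⟩ := L.exists_hom (fun j => if j = n + 1 then K.mL n else K.mL j)
    (fun j hj => by
      have h1 : n + 2 ≤ j := hj
      show (if j = n + 1 then K.mL n else K.mL j) = 1
      rw [if_neg (by omega)]
      exact K.mL_ge (by show n + 1 ≤ j; omega)) (fun j hj => by
      have hj' : j < n + 2 := hj
      show lab (w ++ [(n, e)]) _ j = _
      rw [lab_append]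
      set y : ℕ → K.Grp := fun j => if j = n + 1 then K.mL n else K.mL j with hy
      have e1 : ∀ i < n + 1, lab w y i = K.mL i := by
        intro i hi
        rw [lab_congr (n + 1) w h y K.mL (fun k hk => if_neg (by omega)) i hi]
        exact congrFun K.lab_mL i
      have e2 : lab w y (n + 1) = K.mL n := by
        rw [lab_ge (n + 1) w h y _ le_rfl]
        exact if_pos rfl
      show crossing (lab w y) (n, e) j = y j
      cases e
      · rw [crossing_false]
        split_ifs with h1 h2
        · subst h1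
          rw [e1 n (by omega), e2, inv_mul_cancel, one_mul]
          exact (if_pos rfl).symm
        · subst h2
          rw [e2]
          exact (if_neg (by omega)).symm
        · rw [e1 j (by omega)]
          exact (if_neg h1).symm
      · rw [crossing_true]
        split_ifs with h1 h2
        · subst h1
          rw [e1 n (by omega)]
          exact (if_pos rfl).symm
        · subst h2
          rw [e1 j (by omega), e2, mul_inv_cancel_right]
          exact (if_neg (by omega)).symm
        · rw [e1 j (by omega)]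
          exact (if_neg h1).symm)
  have hf' : ∀ i < n + 1, f (K.mL i) = L.mL i := fun i hi => by rw [hf]; exact if_pos hi
  have hg' : ∀ i < n + 1, g (L.mL i) = K.mL i := fun i hi => by rw [hg]; exact if_neg (by omega)
  refine Braid.merIso_of f g (fun i hi => ?_) (fun i hi => ?_) (fun i hi => ?_) (fun j hj => ?_)
  · have hi' : i < n + 1 := hi
    rw [hf' i hi', hg' i hi']
  · have hi' : i < n + 2 := hi
    rcases Nat.lt_succ_iff_lt_or_eq.1 hi' with h1 | rfl
    · rw [hg' i h1, hf' i h1]
    · rw [hg, if_pos rfl, hf' n (by omega)]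
      exact zn.2.symm
  · have hi' : i < n + 1 := hi
    exact ⟨i, by show i < n + 2; omega, by rw [hf' i hi']⟩
  · have hj' : j < n + 2 := hj
    rcases Nat.lt_succ_iff_lt_or_eq.1 hj' with h1 | rfl
    · exact ⟨j, h1, by rw [hf' j h1]⟩
    · exact ⟨n, hKn, by rw [hf' n (by omega), zn.2]⟩

/-- Markov's moves -/
theorem Markov.merIso {K L : Braid} (h : Markov K L) : K.MerIso L := by
  cases h with
  | cancel n u v i e h h' =>
    refine Braid.merIso_same n _ _ _ _ fun H _ x => ?_
    rw [lab_append, lab_append, lab_cons, lab_cons, crossing_cancel]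
  | comm n u v i j d e hij h h' =>
    refine Braid.merIso_same n _ _ _ _ fun H _ x => ?_
    rw [lab_append, lab_append, lab_cons, lab_cons, lab_cons, lab_cons, crossing_comm _ _ _ _ _ hij]
  | braid n u v i h h' =>
    refine Braid.merIso_same n _ _ _ _ fun H _ x => ?_
    rw [lab_append, lab_append, lab_cons, lab_cons, lab_cons, lab_cons, lab_cons, lab_cons,
      crossing_braid]
  | conj n u v h h' => exact merIso_conj n u v h h'
  | stab n w e h h' => exact merIso_stab n w e h h'

/-- isotopic closed braids have isomorphic groups, with corresponding meridians -/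
theorem Braid.Isotopic.merIso {K L : Braid} (h : K.Isotopic L) : K.MerIso L := by
  induction h with
  | rel _ _ h => exact h.merIso
  | refl K => exact Braid.MerIso.refl K
  | symm _ _ _ h => exact h.symm
  | trans _ _ _ _ _ h h' => exact h.trans h'

end Pool.Agent.DFJ

end

end

section

/-!
The Wirtinger presentation of a closed braid with one relation left out, and the denominator of Wada's invariant.
-/

noncomputable section

namespace Pool.Agent.DFJ

open Multiplicative
open scoped LaurentPolynomial MatrixGroups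

section prod

variable {H : Type*} [Group H]

/-- ordered product of the meridians -/
def prodN (x : ℕ → H) (n : ℕ) : H := ((List.range n).map x).prod

theorem prodN_succ (x : ℕ → H) (n : ℕ) : prodN x (n + 1) = prodN x n * x n := by
  unfold prodN
  rw [List.range_succ, List.map_append, List.prod_append]
  simp

theorem prodN_congr {x y : ℕ → H} {n : ℕ} (h : ∀ j < n, x j = y j) : prodN x n = prodN y n := by
  induction n with
  | zero => rfl
  | succ n ih => rw [prodN_succ, prodN_succ, ih (fun j hj => h j (by omega)), h n (by omega)]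

theorem crossing_ne (x : ℕ → H) (l : ℕ × Bool) (j : ℕ) (h1 : j ≠ l.1) (h2 : j ≠ l.1 + 1) : crossing x l j = x j := by
  unfold crossing
  split_ifs
  · rw [Function.update_of_ne h2, Function.update_of_ne h1]
  · rw [Function.update_of_ne h2, Function.update_of_ne h1]

theorem crossing_prod (x : ℕ → H) (l : ℕ × Bool) : crossing x l l.1 * crossing x l (l.1 + 1) = x l.1 * x (l.1 + 1) := by
  unfold crossing
  split_ifs
  · rw [Function.update_self, Function.update_of_ne (by omega), Function.update_self]
    simp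
  · rw [Function.update_self, Function.update_of_ne (by omega), Function.update_self]
    simp [mul_assoc]

theorem prodN_crossing (x : ℕ → H) (l : ℕ × Bool) (n : ℕ) (h : l.1 + 1 < n) : prodN (crossing x l) n = prodN x n := by
  have key : ∀ k, prodN (crossing x l) (l.1 + 2 + k) = prodN x (l.1 + 2 + k) := by
    intro k
    induction k with
    | zero =>
      have e0 : prodN (crossing x l) l.1 = prodN x l.1 :=
        prodN_congr fun j hj => crossing_ne x l j (by omega) (by omega)
      show prodN (crossing x l) (l.1 + 1 + 1) = prodN x (l.1 + 1 + 1)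
      rw [prodN_succ, prodN_succ, prodN_succ, prodN_succ, e0, mul_assoc, crossing_prod, mul_assoc]
    | succ k ih =>
      show prodN (crossing x l) (l.1 + 2 + k + 1) = prodN x (l.1 + 2 + k + 1)
      rw [prodN_succ, prodN_succ, ih, crossing_ne x l _ (by omega) (by omega)]
  have := key (n - (l.1 + 2))
  rwa [show l.1 + 2 + (n - (l.1 + 2)) = n by omega] at this

theorem prodN_foldl (w : List (ℕ × Bool)) (n : ℕ) (h : ∀ l ∈ w, l.1 + 1 < n) (x : ℕ → H) :
    prodN (w.foldl crossing x) n = prodN x n := by
  induction w generalizing x with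
  | nil => rfl
  | cons l w ih =>
    rw [List.foldl_cons, ih (fun l' hl' => h l' (List.mem_cons_of_mem _ hl')), prodN_crossing x l n (h l (by simp))]

theorem prodN_map {H' : Type*} [Group H'] (f : H →* H') (x : ℕ → H) (n : ℕ) : f (prodN x n) = prodN (fun j => f (x j)) n := by
  induction n with
  | zero => exact map_one f
  | succ n ih => rw [prodN_succ, prodN_succ, map_mul, ih]

end prod

/-- the Wirtinger relator of the strand `j` -/
def Braid.wrel (K : Braid) (j : ℕ) : FreeGroup (Fin K.n) := K.word.foldl crossing (gen K.n) j * (gen K.n j)⁻¹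

/-- any `n - 1` of the `n` Wirtinger relations suffice; we leave out the last one -/
theorem wirt_last (m : ℕ) (w : List (ℕ × Bool)) (h : ∀ l ∈ w, l.1 + 1 < m + 1) :
    Subgroup.normalClosure (Set.range fun p : Fin m => (Braid.mk (m + 1) w h).wrel p) =
      Subgroup.normalClosure (Braid.mk (m + 1) w h).rels := by
  set K := Braid.mk (m + 1) w h with hK
  apply le_antisymm
  · refine Subgroup.normalClosure_mono ?_
    rintro _ ⟨p, rfl⟩
    exact ⟨p, by show (p : ℕ) < m + 1; omega, rfl⟩
  · apply Subgroup.normalClosure_le_normal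
    rintro _ ⟨j, hj, rfl⟩
    set N := Subgroup.normalClosure (Set.range fun p : Fin m => K.wrel p) with hN
    have hlt : ∀ i < m, K.wrel i ∈ N := fun i hi => Subgroup.subset_normalClosure ⟨⟨i, hi⟩, rfl⟩
    have hj' : j < m + 1 := hj
    rcases Nat.lt_succ_iff_lt_or_eq.1 hj' with hj1 | hj1
    · exact hlt j hj1
    · subst hj1
      show K.wrel j ∈ N
      let q : FreeGroup (Fin K.n) →* FreeGroup (Fin K.n) ⧸ N := QuotientGroup.mk' N
      have hq : ∀ i < j, q (K.word.foldl crossing (gen K.n) i) = q (gen K.n i) := by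
        intro i hi
        have h1 : q (K.wrel i) = 1 := (QuotientGroup.eq_one_iff _).2 (hlt i hi)
        unfold Braid.wrel at h1
        rw [map_mul, map_inv, mul_inv_eq_one] at h1
        exact h1
      have hp : prodN (K.word.foldl crossing (gen K.n)) (j + 1) = prodN (gen K.n) (j + 1) :=
        prodN_foldl K.word (j + 1) h (gen K.n)
      have hp2 := congrArg q hp
      rw [prodN_map, prodN_map, prodN_succ, prodN_succ, prodN_congr hq] at hp2
      have h3 := mul_left_cancel hp2
      have h4 : q (K.wrel j) = 1 := by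
        unfold Braid.wrel
        rw [map_mul, map_inv, mul_inv_eq_one]
        exact h3
      exact (QuotientGroup.eq_one_iff _).1 h4

/-- the Wirtinger presentation of a closed braid with `m + 1` strands: `m + 1` generators (the meridians)
and `m` relations -/
theorem Braid.exists_wirtinger (K : Braid) (m : ℕ) (hm : K.n = m + 1) :
    ∃ (r : Fin m → FreeGroup (Fin (m + 1))) (π : FreeGroup (Fin (m + 1)) →* K.Grp),
      IsPresentation r π ∧ ∀ k : Fin (m + 1), π (FreeGroup.of k) = K.mer (Fin.cast hm.symm k) := by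
  obtain ⟨n, w, h⟩ := K
  simp only at hm
  subst hm
  refine ⟨fun p => (Braid.mk (m + 1) w h).wrel p, PresentedGroup.mk _, ⟨?_, ?_⟩, ?_⟩
  · exact QuotientGroup.mk'_surjective _
  · rw [wirt_last m w h]
    exact QuotientGroup.ker_mk' _
  · intro k
    rfl

section den

variable {G : Type*} [Group G]

/-- the denominator at a meridian is `T ^ 2 - 2 T + 1` -/
theorem den_meridian {m : ℕ} (ρ : G →* SL(2, ℂ)) (α : G →* Multiplicative ℤ) (π : FreeGroup (Fin (m + 1)) →* G)
    (k : Fin (m + 1)) (htr : (ρ (π (FreeGroup.of k)) : Matrix (Fin 2) (Fin 2) ℂ).trace = 2)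
    (hα : α (π (FreeGroup.of k)) = ofAdd 1) :
    den ρ α π k = LaurentPolynomial.T 2 - 2 * LaurentPolynomial.T 1 + 1 := by
  have hP : Phi ρ α π (MonoidAlgebra.single (FreeGroup.of k) 1 - 1) =
      (LaurentPolynomial.T 1 : ℂ[T;T⁻¹]) • ((ρ (π (FreeGroup.of k)) : Matrix (Fin 2) (Fin 2) ℂ).map LaurentPolynomial.C) - 1 := by
    rw [map_sub, map_one]
    congr 1
    unfold Phi
    rw [MonoidAlgebra.lift_single, one_smul]
    show (LaurentPolynomial.T (toAdd (α (π (FreeGroup.of k)))) : ℂ[T;T⁻¹]) •
      ((ρ (π (FreeGroup.of k)) : Matrix (Fin 2) (Fin 2) ℂ).map LaurentPolynomial.C) = _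
    rw [hα]; rfl
  unfold den
  rw [hP, Matrix.det_fin_two]
  set A : Matrix (Fin 2) (Fin 2) ℂ := (ρ (π (FreeGroup.of k)) : Matrix (Fin 2) (Fin 2) ℂ) with hA
  have hdet : A 0 0 * A 1 1 - A 0 1 * A 1 0 = 1 := by
    rw [← Matrix.det_fin_two]
    exact (ρ (π (FreeGroup.of k))).2
  have htr' : A 0 0 + A 1 1 = 2 := by
    rw [← Matrix.trace_fin_two]; exact htr
  have c1 : (LaurentPolynomial.C (A 0 0) * LaurentPolynomial.C (A 1 1) - LaurentPolynomial.C (A 0 1) * LaurentPolynomial.C (A 1 0) : ℂ[T;T⁻¹]) = 1 := by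
    rw [← map_mul, ← map_mul, ← map_sub, hdet, map_one]
  have c2 : (LaurentPolynomial.C (A 0 0) + LaurentPolynomial.C (A 1 1) : ℂ[T;T⁻¹]) = 2 := by
    rw [← map_add, htr']
    exact map_ofNat _ 2
  have hT : (LaurentPolynomial.T 2 : ℂ[T;T⁻¹]) = LaurentPolynomial.T 1 * LaurentPolynomial.T 1 := by
    rw [← LaurentPolynomial.T_add]; rfl
  simp only [Matrix.sub_apply, Matrix.smul_apply, Matrix.map_apply, smul_eq_mul, Matrix.one_apply_eq,
    Matrix.one_apply_ne (show (0 : Fin 2) ≠ 1 by decide), Matrix.one_apply_ne (show (1 : Fin 2) ≠ 0 by decide), sub_zero]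
  rw [hT]
  linear_combination (LaurentPolynomial.T 1 * LaurentPolynomial.T 1 : ℂ[T;T⁻¹]) * c1 - (LaurentPolynomial.T 1 : ℂ[T;T⁻¹]) * c2

theorem den_poly_ne : (LaurentPolynomial.T 2 - 2 * LaurentPolynomial.T 1 + 1 : ℂ[T;T⁻¹]) ≠ 0 := by
  intro h
  have h1 : (LaurentPolynomial.eval₂ (RingHom.id ℂ) (-1 : ℂˣ)) (LaurentPolynomial.T 2 - 2 * LaurentPolynomial.T 1 + 1 : ℂ[T;T⁻¹]) = 0 := by
    rw [h, map_zero]
  rw [map_add, map_sub, map_mul, map_one, LaurentPolynomial.eval₂_T, LaurentPolynomial.eval₂_T, map_ofNat] at h1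
  norm_num at h1

theorem den_ne {m : ℕ} (ρ : G →* SL(2, ℂ)) (α : G →* Multiplicative ℤ) (π : FreeGroup (Fin (m + 1)) →* G)
    (k : Fin (m + 1)) (htr : (ρ (π (FreeGroup.of k)) : Matrix (Fin 2) (Fin 2) ℂ).trace = 2)
    (hα : α (π (FreeGroup.of k)) = ofAdd 1) : den ρ α π k ≠ 0 := by
  rw [den_meridian ρ α π k htr hα]
  exact den_poly_ne

end den

end Pool.Agent.DFJ

end

end
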