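import Pool.Agent.Helper20.DFJ.Surface
import Pool.Agent.Helper46.DFJ.Inst
import Pool.Agent.Helper46.DFJ.Geo
import Pool.Agent.Helper95.DFJ.Wada
import Pool.Agent.Helper46.DFJ.A4n
import Pool.Agent.Helper95.DFJ.St.A3
import Pool.Agent.Helper95.DFJ.St.A4
import Pool.Agent.Helper95.DFJ.St.A9
import Pool.Agent.Helper35.DFJ.Const
import Pool.Agent.Helper95.DFJ.St.L1
import Pool.Agent.Helper20.DFJ.Markov

/-!
# DFJ: Hyp, Kap, A4m, Dims, Upper, Lower, Final
-/

section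

/-!
# The hyperbolic structure: the representation of `G3` is faithful and discrete
-/

namespace Pool.Agent.Helper20.DFJ

open Complex
open scoped MatrixGroups

/-- the relations of the matrices -/
theorem grel_mat {u : Helper46.DFJ.V3} (hu : u ∈ Helper46.DFJ.box Helper46.DFJ.cen Helper46.DFJ.rho)
    (hz : ∀ i, Helper46.DFJ.eqF u i = 0) :
    GRel (Helper46.DFJ.bG u) (Helper46.DFJ.cG u (Helper46.DFJ.kappa_ne hu))
      (Helper46.DFJ.tG u) :=
  ⟨Helper46.DFJ.bG_pow u, Helper46.DFJ.cG_pow u _, Helper46.DFJ.R5_mat hu hz,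
    Helper46.DFJ.R4_mat hu hz⟩

theorem rels_G3 : Helper46.DFJ.Rels G3.b G3.c G3.t :=
  Helper46.DFJ.rels_of_R G3.rel.b3 G3.rel.c4 G3.rel.r5 G3.rel.r4

/-- the hyperbolic holonomy of the orbifold group -/
theorem exists_holonomy : ∃ (u : Helper46.DFJ.V3)
    (hu : u ∈ Helper46.DFJ.box Helper46.DFJ.cen Helper46.DFJ.rho)
    (_ : ∀ i, Helper46.DFJ.eqF u i = 0) (ρ : G3 →* GL (Fin 2) ℂ),
    ρ G3.b = Helper46.DFJ.bG u ∧ ρ G3.c = Helper46.DFJ.cG u (Helper46.DFJ.kappa_ne hu) ∧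
    ρ G3.t = Helper46.DFJ.tG u ∧
    (∀ (g : G3) (l : ℂ), (ρ g).1 = l • (1 : Matrix (Fin 2) (Fin 2) ℂ) → g = 1) ∧
    ∃ ε : ℝ, 0 < ε ∧ ∀ (g : G3) (l : ℂ), normSq l = 1 →
      (∀ i j, ‖(ρ g).1 i j - (l • (1 : Matrix (Fin 2) (Fin 2) ℂ)) i j‖ < ε) → g = 1 := by
  obtain ⟨u, hu, hz⟩ := Helper46.DFJ.exists_zero
  let ρ : G3 →* GL (Fin 2) ℂ := G3.lift _ _ _ (grel_mat hu hz)
  have hb : ρ G3.b = Helper46.DFJ.bG u := G3.lift_b _ _ _ _
  have hc : ρ G3.c = Helper46.DFJ.cG u (Helper46.DFJ.kappa_ne hu) := G3.lift_c _ _ _ _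
  have ht : ρ G3.t = Helper46.DFJ.tG u := G3.lift_t _ _ _ _
  have C := Helper46.DFJ.inst_checks rels_G3 hu hz ρ hb hc ht G3.closure_eq
  exact ⟨u, hu, hz, ρ, hb, hc, ht, fun g l h => SD.faithful _ C g l h, SD.discrete _ C⟩

end Pool.Agent.Helper20.DFJ

end

section

/-!
# The characters of the orbifold group and the knot group as a kernel
-/

noncomputable section

namespace Pool.Agent.Helper20.DFJ

open Multiplicative Pool.Agent.Helper95.DFJ

/-- the relations hold in commutative groups -/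
theorem grel_comm {A : Type*} [CommGroup A] {b c t : A} (hb : b ^ 3 = 1) (hc : c ^ 4 = 1) :
    GRel b c t := by
  refine ⟨hb, hc, ?_, ?_⟩
  · apply Additive.ofMul.injective
    simp only [wW, ofMul_mul, ofMul_inv]
    abel
  · apply Additive.ofMul.injective
    simp only [wW, ofMul_mul, ofMul_inv]
    abel

/-- degree: `b, c ↦ 0`, `t ↦ 1` -/
def alpha : G3 →* Multiplicative ℤ :=
  G3.lift 1 1 (ofAdd 1) (grel_comm (one_pow 3) (one_pow 4))

@[simp] theorem alpha_b : alpha G3.b = 1 := G3.lift_b _ _ _ _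
@[simp] theorem alpha_c : alpha G3.c = 1 := G3.lift_c _ _ _ _
@[simp] theorem alpha_t : alpha G3.t = ofAdd 1 := G3.lift_t _ _ _ _

section kap

variable {F : Type*} [Field F] (z : Fˣ) (hz : z ^ 12 = 1)

/-- `b ↦ z ^ 4`, `c ↦ z ^ 3`, `t ↦ 1` -/
def kap (hz : z ^ 12 = 1) : G3 →* Fˣ :=
  G3.lift (z ^ 4) (z ^ 3) 1 (grel_comm (by rw [← pow_mul]; exact hz) (by rw [← pow_mul]; exact hz))

@[simp] theorem kap_b : kap z hz G3.b = z ^ 4 := G3.lift_b _ _ _ _
@[simp] theorem kap_c : kap z hz G3.c = z ^ 3 := G3.lift_c _ _ _ _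
@[simp] theorem kap_t : kap z hz G3.t = 1 := G3.lift_t _ _ _ _

/-- homomorphisms out of the orbifold group agree if they agree on the generators -/
theorem G3.ext {A : Type*} [Group A] {f g : G3 →* A} (hb : f G3.b = g G3.b)
    (hc : f G3.c = g G3.c) (ht : f G3.t = g G3.t) : f = g := by
  have h : ∀ x, x ∈ f.eqLocus g := G3.mem_of_gens hb hc ht
  exact MonoidHom.ext h

/-- powers of `z` -/
def zpw (hz : z ^ 12 = 1) : Multiplicative (ZMod 12) →* Fˣ where
  toFun x := z ^ (toAdd x).val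
  map_one' := by simp
  map_mul' x y := by
    show z ^ (toAdd x + toAdd y).val = _
    rw [ZMod.val_add, ← pow_eq_pow_mod _ hz, pow_add]

theorem kap_eq (g : G3) : kap z hz g = z ^ (toAdd (chi g)).val := by
  have h : kap z hz = (zpw z hz).comp chi := by
    apply G3.ext
    · rw [kap_b]
      show _ = z ^ (toAdd (chi G3.b)).val
      rw [chi_b]; rfl
    · rw [kap_c]
      show _ = z ^ (toAdd (chi G3.c)).val
      rw [chi_c]; rfl
    · rw [kap_t]
      show _ = z ^ (toAdd (chi G3.t)).val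
      rw [chi_t]; simp
  rw [h]; rfl

theorem kap_pow (g : G3) : ∃ j : ℕ, kap z hz g = z ^ j := ⟨_, kap_eq z hz g⟩

theorem kap_gen : kap z hz (G3.b * G3.c⁻¹) = z := by
  rw [map_mul, map_inv, kap_b, kap_c, mul_inv_eq_iff_eq_mul, ← pow_succ']

/-- the kernel is the image of the knot group -/
theorem kap_ker (hp : IsPrimitiveRoot z 12) : (kap z hz).ker = ff.range := by
  rw [range_ff]
  ext g
  rw [MonoidHom.mem_ker, MonoidHom.mem_ker, kap_eq, hp.pow_eq_one_iff_dvd]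
  constructor
  · intro h
    have h1 : (toAdd (chi g)).val < 12 := ZMod.val_lt _
    have h2 : (toAdd (chi g)).val = 0 := Nat.eq_zero_of_dvd_of_lt h h1
    have h3 : toAdd (chi g) = 0 := (ZMod.val_eq_zero _).1 h2
    exact h3
  · intro h
    rw [h]; simp

/-- the knot group is the kernel -/
def eKer (hp : IsPrimitiveRoot z 12) : D60.Grp ≃* (kap z hz).ker :=
  (MonoidHom.ofInjective ff_injective).trans (MulEquiv.subgroupCongr (kap_ker z hz hp).symm)

theorem eKer_val (hp : IsPrimitiveRoot z 12) (g : D60.Grp) : (eKer z hz hp g : G3) = ff g := rfl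

end kap

end Pool.Agent.Helper20.DFJ

end

end

section

/-!
The inputs of the algebraic part: for every twist the crossed homomorphisms at z = -1 vanish, and no sequence is fixed.
-/

set_option linter.unusedSimpArgs false
set_option linter.unusedVariables false
set_option linter.unusedSectionVars false

namespace Helper46.DFJ

open Complex Multiplicative Pool.Agent.Helper95.DFJ

section

variable {G : Type*} [Group G]

/-- the representation on C^2 of a representation in GL2 -/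
noncomputable def glRep (ρ : G →* GL (Fin 2) ℂ) : Representation ℂ G (Fin 2 → ℂ) where
  toFun g := Matrix.toLin' ((ρ g : GL (Fin 2) ℂ) : MatC)
  map_one' := by simp; rfl
  map_mul' g h := by simp [Matrix.toLin'_mul]; rfl

theorem glRep_apply (ρ : G →* GL (Fin 2) ℂ) (g : G) : glRep ρ g = Matrix.toLin' ((ρ g : GL (Fin 2) ℂ) : MatC) := rfl

variable {b c t : G}

theorem wrels_of {b c t : G} (hb : b ^ 3 = 1) (hc : c ^ 4 = 1)
    (h5 : c * t⁻¹ * c * t * c⁻¹ = Wel b t * c * (Wel b t)⁻¹)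
    (h4 : c⁻¹ * t * b⁻¹ * t⁻¹ * c =
      t * c⁻¹ * t * b * c⁻¹ * (Wel b t)⁻¹ * c * b⁻¹ * t⁻¹ * c * t⁻¹) : WRels b c t where
  hb := by simpa [ev, lv, pow_succ, mul_assoc] using hb
  hc := by simpa [ev, lv, pow_succ, mul_assoc] using hc
  h5 := by simpa [ev, lv, wW, wWi, Wel, mul_assoc] using h5
  h4 := by simpa [ev, lv, wL4, wR4, Wel, mul_assoc] using h4

variable {u : V3} (hu : u ∈ box cen rho) (ρ : G →* GL (Fin 2) ℂ) (hb : ρ b = bG u) (hc : ρ c = cG u (kappa_ne hu)) (ht : ρ t = tG u)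
  (α : G →* Multiplicative ℤ) (hαb : α b = 1) (hαc : α c = 1) (hαt : α t = ofAdd 1)
  (κ : G →* ℂˣ) (hκb : (κ b : ℂ) = omg) (hκc : (κ c : ℂ) = I) (hκt : κ t = 1)

include hb hc ht hαb hαc hαt hκb hκc hκt

theorem A4_letters (j : ℕ) : ∀ i < 6, tw (chz (-1) α) (tw (κ ^ j) (glRep ρ)) (lv b c t i) =
    Matrix.toLin' (twM j i • ((lM hu i : GLC) : MatC)) := by
  have hρ : ∀ i, ρ (lv b c t i) = lM hu i := by
    intro i
    rw [map_lv, hb, hc, ht]; rfl
  have hgen : ∀ g : G, tw (chz (-1) α) (tw (κ ^ j) (glRep ρ)) g =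
      Matrix.toLin' ((((chz (-1) α g : ℂˣ) : ℂ) * ((κ g : ℂ)) ^ j) • ((ρ g : GLC) : MatC)) := by
    intro g
    refine LinearMap.ext fun x => ?_
    rw [tw_apply, tw_apply, glRep_apply, smul_smul, map_smul, LinearMap.smul_apply]
    rw [MonoidHom.pow_apply, Units.val_pow_eq_pow_val]
  have hch : ∀ g : G, ((chz (-1 : ℂˣ) α g : ℂˣ) : ℂ) = (((-1 : ℂˣ) ^ (toAdd (α g)) : ℂˣ) : ℂ) := by
    intro g
    rw [chz, MonoidHom.comp_apply, zpowersHom_apply]
  intro i hi
  rw [hgen, hρ]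
  congr 2
  interval_cases i
  · show ((chz (-1) α t : ℂˣ) : ℂ) * ((κ t : ℂ)) ^ j = -1
    rw [hch, hαt, hκt]; simp
  · show ((chz (-1) α t⁻¹ : ℂˣ) : ℂ) * ((κ t⁻¹ : ℂ)) ^ j = -1
    rw [hch, map_inv α, hαt, map_inv κ, hκt]; simp
  · show ((chz (-1) α b : ℂˣ) : ℂ) * ((κ b : ℂ)) ^ j = omg ^ j
    rw [hch, hαb, hκb]; simp
  · show ((chz (-1) α b⁻¹ : ℂˣ) : ℂ) * ((κ b⁻¹ : ℂ)) ^ j = (starRingEnd ℂ) (wb j)
    rw [hch, map_inv α, hαb, map_inv κ, Units.val_inv_eq_inv_val, hκb, ← wb_inv, inv_pow]; simp [wb]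
  · show ((chz (-1) α c : ℂˣ) : ℂ) * ((κ c : ℂ)) ^ j = I ^ j
    rw [hch, hαc, hκc]; simp
  · show ((chz (-1) α c⁻¹ : ℂˣ) : ℂ) * ((κ c⁻¹ : ℂ)) ^ j = (starRingEnd ℂ) (wc j)
    rw [hch, map_inv α, hαc, map_inv κ, Units.val_inv_eq_inv_val, hκc, ← wc_inv, inv_pow]; simp [wc]

/-- **A4 numerics**: for every twist, no crossed homomorphism at z = -1 -/
theorem A4_twist (hgen : Subgroup.closure {b, c, t} = ⊤) (hR : WRels b c t) (j : ℕ) (hj : j < 12) :
    ∀ z ∈ Zt (tw (chz (-1) α) (tw (κ ^ j) (glRep ρ))) t, z = 0 := by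
  intro z hz
  obtain ⟨h1, h2⟩ := A4_core hu hj hR (A4_letters hu ρ hb hc ht α hαb hαc hαt κ hκb hκc hκt j) hz
  refine Zc_ext hz.1 (zero_mem _) {b, c, t} hgen ?_
  intro s hs
  simp only [Set.mem_insert_iff, Set.mem_singleton_iff] at hs
  rcases hs with rfl | rfl | rfl
  · exact h1
  · exact h2
  · exact hz.2

end

/-- commutator of b and c as a word -/
def wBC : List ℕ := [2, 4, 3, 5]

theorem det_comm_ne {u : V3} (hu : u ∈ box cen rho) : (((MW hu wBC : GLC) : MatC) - 1).det ≠ 0 := by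
  rw [Matrix.det_fin_two]
  have m := (mem_MW hu wBC).sub CBM.mem_one
  exact CB.ne_zero ((m.1.mul m.2.2.2).sub (m.2.1.mul m.2.2.1)) (by decide +kernel)

section

variable {G : Type*} [Group G] {b c t : G} {u : V3} (hu : u ∈ box cen rho)
  (ρ : G →* GL (Fin 2) ℂ) (hb : ρ b = bG u) (hc : ρ c = cG u (kappa_ne hu)) (ht : ρ t = tG u)

include hb hc ht

/-- no vector is fixed by the commutator of b and c -/
theorem fix_zero (v : Fin 2 → ℂ) (h : glRep ρ (b * c * b⁻¹ * c⁻¹) v = v) : v = 0 := by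
  have e : ρ (b * c * b⁻¹ * c⁻¹) = MW hu wBC := by
    have : b * c * b⁻¹ * c⁻¹ = ev b c t wBC := by simp [ev, lv, wBC, mul_assoc]
    rw [this, rho_ev hu ρ hb hc ht]
  rw [glRep_apply, e, Matrix.toLin'_apply] at h
  by_contra hne
  apply det_comm_ne hu
  apply Matrix.exists_mulVec_eq_zero_iff.1
  refine ⟨v, hne, ?_⟩
  rw [Matrix.sub_mulVec, Matrix.one_mulVec, h, sub_self]

/-- the fixed sequences are zero (all twists) -/
theorem hinv_all (α : G →* Multiplicative ℤ) (κ : G →* ℂˣ) (j : ℕ) (m : ℤ → Fin 2 → ℂ)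
    (h : ∀ g, seqRep (tw (κ ^ j) (glRep ρ)) α g m = m) : m = 0 := by
  have h1 := h (b * c * b⁻¹ * c⁻¹)
  funext i
  refine fix_zero hu ρ hb hc ht (m i) ?_
  have h2 := congrFun h1 i
  rw [seqRep_apply] at h2
  have hα : α (b * c * b⁻¹ * c⁻¹) = 1 := by
    rw [map_mul, map_mul, map_mul, map_inv α, map_inv α]
    rw [mul_assoc (α b), mul_comm (α c), ← mul_assoc, mul_inv_cancel, one_mul, mul_inv_cancel]
  have hκ : κ (b * c * b⁻¹ * c⁻¹) = 1 := by
    rw [map_mul, map_mul, map_mul, map_inv κ, map_inv κ]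
    rw [mul_assoc (κ b), mul_comm (κ c), ← mul_assoc, mul_inv_cancel, one_mul, mul_inv_cancel]
  rw [hα, toAdd_one, sub_zero, tw_apply, MonoidHom.pow_apply, hκ, one_pow, Units.val_one, one_smul] at h2
  exact h2

/-- the sequences fixed by the kernel are zero -/
theorem hinv_ker (α : G →* Multiplicative ℤ) (κ : G →* ℂˣ) (m : ℤ → Fin 2 → ℂ)
    (h : ∀ g ∈ κ.ker, seqRep (glRep ρ) α g m = m) : m = 0 := by
  have hα : α (b * c * b⁻¹ * c⁻¹) = 1 := by
    rw [map_mul, map_mul, map_mul, map_inv α, map_inv α]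
    rw [mul_assoc (α b), mul_comm (α c), ← mul_assoc, mul_inv_cancel, one_mul, mul_inv_cancel]
  have hκ : b * c * b⁻¹ * c⁻¹ ∈ κ.ker := by
    rw [MonoidHom.mem_ker, map_mul, map_mul, map_mul, map_inv κ, map_inv κ]
    rw [mul_assoc (κ b), mul_comm (κ c), ← mul_assoc, mul_inv_cancel, one_mul, mul_inv_cancel]
  have h1 := h _ hκ
  funext i
  refine fix_zero hu ρ hb hc ht (m i) ?_
  have h2 := congrFun h1 i
  rw [seqRep_apply, hα, toAdd_one, sub_zero] at h2
  exact h2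

end

/-- a primitive twelfth root of unity -/
noncomputable def zet : ℂ := ⟨Real.sqrt 3 / 2, 1 / 2⟩

theorem zet_sq : zet ^ 2 = -(starRingEnd ℂ) omg := by
  have h : Real.sqrt 3 * Real.sqrt 3 = 3 := Real.mul_self_sqrt (by norm_num)
  rw [pow_two]
  apply Complex.ext
  · rw [mul_re, neg_re, conj_re]
    show (Real.sqrt 3 / 2) * (Real.sqrt 3 / 2) - (1 / 2 : ℝ) * (1 / 2) = -(-1 / 2)
    linarith
  · rw [mul_im, neg_im, conj_im]
    show (Real.sqrt 3 / 2) * (1 / 2 : ℝ) + (1 / 2 : ℝ) * (Real.sqrt 3 / 2) = -(-(Real.sqrt 3 / 2))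
    ring

theorem zet_three : zet ^ 3 = I := by
  have h : Real.sqrt 3 * Real.sqrt 3 = 3 := Real.mul_self_sqrt (by norm_num)
  rw [pow_succ, zet_sq]
  apply Complex.ext
  · rw [mul_re, neg_re, neg_im, conj_re, conj_im]
    show -(-1 / 2 : ℝ) * (Real.sqrt 3 / 2) - -(-(Real.sqrt 3 / 2)) * (1 / 2) = 0
    ring
  · rw [mul_im, neg_re, neg_im, conj_re, conj_im]
    show -(-1 / 2 : ℝ) * (1 / 2) + -(-(Real.sqrt 3 / 2)) * (Real.sqrt 3 / 2) = 1
    linarith

theorem zet_four : zet ^ 4 = omg := by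
  have : zet ^ 4 = (zet ^ 2) ^ 2 := by ring
  rw [this, zet_sq, neg_sq, pow_two, ← map_mul, omg_sq, Complex.conj_conj]

theorem zet_ne : zet ≠ 0 := by
  intro h
  have := zet_three
  rw [h, zero_pow (by norm_num)] at this
  exact I_ne_zero this.symm

theorem zet_prim : IsPrimitiveRoot zet 12 := by
  have h12 : zet ^ 12 = 1 := by
    have : zet ^ 12 = (zet ^ 3) ^ 4 := by ring
    rw [this, zet_three, I_pow_four]
  have h6 : zet ^ 6 ≠ 1 := by
    have : zet ^ 6 = (zet ^ 3) ^ 2 := by ring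
    rw [this, zet_three, I_sq]; norm_num
  have h4 : zet ^ 4 ≠ 1 := by
    rw [zet_four]
    intro h
    have := congrArg Complex.re h
    simp only [one_re] at this
    have h2 : (-1 / 2 : ℝ) = 1 := this
    norm_num at h2
  have hd : orderOf zet ∣ 12 := orderOf_dvd_of_pow_eq_one h12
  have ho : orderOf zet = 12 := by
    have hle : orderOf zet ≤ 12 := Nat.le_of_dvd (by norm_num) hd
    have n6 : ¬ orderOf zet ∣ 6 := fun h => h6 (orderOf_dvd_iff_pow_eq_one.1 h)
    have n4 : ¬ orderOf zet ∣ 4 := fun h => h4 (orderOf_dvd_iff_pow_eq_one.1 h)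
    interval_cases hh : orderOf zet <;> omega
  rw [← ho]
  exact IsPrimitiveRoot.orderOf zet

end Helper46.DFJ

end

section

/-!
Dimensions of the kernels of the norm elements of b and c in the twists.
-/

set_option linter.unusedSimpArgs false
set_option linter.unusedVariables false
set_option linter.unusedSectionVars false

namespace Helper46.DFJ

open Complex Multiplicative Pool.Agent.Helper95.DFJ Module

theorem finrank_ker_le_one (f : (Fin 2 → ℂ) →ₗ[ℂ] (Fin 2 → ℂ)) (hf : f ≠ 0) : finrank ℂ (LinearMap.ker f) ≤ 1 := by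
  have h1 := LinearMap.finrank_range_add_finrank_ker f
  have h2 : finrank ℂ (Fin 2 → ℂ) = 2 := by simp
  rw [h2] at h1
  have h3 : finrank ℂ (LinearMap.range f) ≠ 0 := by
    intro h
    rw [Submodule.finrank_eq_zero, LinearMap.range_eq_bot] at h
    exact hf h
  omega

theorem finrank_ker_le_two (f : (Fin 2 → ℂ) →ₗ[ℂ] (Fin 2 → ℂ)) : finrank ℂ (LinearMap.ker f) ≤ 2 := by
  have h := Submodule.finrank_le (LinearMap.ker f)
  have h2 : finrank ℂ (Fin 2 → ℂ) = 2 := by simp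
  omega

section

variable {G : Type*} [Group G] {b c t : G} {u : V3} (hu : u ∈ box cen rho)
  (ρ : G →* GL (Fin 2) ℂ) (hb : ρ b = bG u) (hc : ρ c = cG u (kappa_ne hu))
  (κ : G →* ℂˣ) (hκb : (κ b : ℂ) = omg) (hκc : (κ c : ℂ) = I)

theorem tw_toLin (j : ℕ) (g : G) : tw (κ ^ j) (glRep ρ) g = Matrix.toLin' (((κ g : ℂ)) ^ j • ((ρ g : GLC) : MatC)) := by
  refine LinearMap.ext fun x => ?_
  rw [tw_apply, glRep_apply, map_smul, LinearMap.smul_apply, MonoidHom.pow_apply, Units.val_pow_eq_pow_val]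

include hb hκb in
theorem dimB (j : ℕ) : finrank ℂ (LinearMap.ker (1 + tw (κ ^ j) (glRep ρ) b + tw (κ ^ j) (glRep ρ) b ^ 2)) ≤
    if j % 3 = 0 then 2 else 1 := by
  split_ifs with h
  · exact finrank_ker_le_two _
  · apply finrank_ker_le_one
    intro h0
    have hB : ((bG u : GLC) : MatC) = !![0, -1; 1, -1] := rfl
    have hM : (1 + tw (κ ^ j) (glRep ρ) b + tw (κ ^ j) (glRep ρ) b ^ 2) =
        Matrix.toLin' (1 + (omg ^ j) • (!![0, -1; 1, -1] : MatC) + ((omg ^ j) • (!![0, -1; 1, -1] : MatC)) * ((omg ^ j) • (!![0, -1; 1, -1] : MatC))) := by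
      rw [tw_toLin, hb, hκb, hB]
      simp only [map_add, Matrix.toLin'_one, Matrix.toLin'_mul, pow_succ, pow_zero]
      rfl
    rw [hM] at h0
    have h1 : (1 + (omg ^ j) • (!![0, -1; 1, -1] : MatC) + ((omg ^ j) • (!![0, -1; 1, -1] : MatC)) * ((omg ^ j) • (!![0, -1; 1, -1] : MatC))) = 0 := by
      apply Matrix.toLin'.injective
      rw [h0, map_zero]
    have h2 := congrFun (congrFun h1 0) 0
    simp only [Matrix.add_apply, Matrix.smul_apply, Matrix.mul_apply, Fin.sum_univ_two, smul_eq_mul, Matrix.zero_apply,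
      Matrix.one_apply_eq, Matrix.of_apply, Matrix.cons_val', Matrix.cons_val_zero, Matrix.cons_val_one, Matrix.cons_val_fin_one] at h2
    have e : (omg ^ j) ^ 2 = 1 := by linear_combination -h2
    have e2 : omg ^ (2 * j) = 1 := by rw [mul_comm, pow_mul]; exact e
    have e3 : omg ^ (2 * j) = omg ^ (2 * j % 3) := by
      conv_lhs => rw [← Nat.div_add_mod (2 * j) 3, pow_add, pow_mul, omg_cube, one_pow, one_mul]
    rw [e3] at e2
    have h3 : 2 * j % 3 = 1 ∨ 2 * j % 3 = 2 := by omega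
    have hne : omg ≠ 1 := by
      intro hh
      have := congrArg Complex.re hh
      simp only [one_re] at this
      have h2 : (-1 / 2 : ℝ) = 1 := this
      norm_num at h2
    rcases h3 with h3 | h3
    · rw [h3, pow_one] at e2; exact hne e2
    · rw [h3] at e2
      apply hne
      have := omg_cube
      calc omg = omg * omg ^ 2 := by rw [e2, mul_one]
        _ = omg ^ 3 := by ring
        _ = 1 := this

include hc hκc in
theorem dimC (j : ℕ) : finrank ℂ (LinearMap.ker (1 + tw (κ ^ j) (glRep ρ) c + tw (κ ^ j) (glRep ρ) c ^ 2 + tw (κ ^ j) (glRep ρ) c ^ 3)) ≤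
    if j % 4 = 0 ∨ j % 4 = 3 then 1 else 2 := by
  split_ifs with h
  · apply finrank_ker_le_one
    intro h0
    set C : MatC := ((cG u (kappa_ne hu) : GLC) : MatC) with hC
    have hk := kappa_ne hu
    have vC : C = (u 1 - u 2)⁻¹ • gensM u 4 := rfl
    have sq : C * C = (I + 1) • C - I • (1 : MatC) := by
      rw [vC, Matrix.smul_mul, Matrix.mul_smul, gens4_sq, smul_smul, smul_sub, smul_smul, smul_smul, smul_smul]
      congr 2
      · field_simp
      · field_simp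
    have cu : C * (C * C) = I • C + (1 - I) • (1 : MatC) := by
      rw [sq, mul_sub, Matrix.mul_smul, sq, Matrix.mul_smul, mul_one, smul_sub, smul_smul, smul_smul]
      have e1 : (I + 1) * (I + 1) = 2 * I := by ring_nf; simp only [I_sq]; ring
      have e2 : (I + 1) * I = I - 1 := by ring_nf; simp only [I_sq]; ring
      rw [e1, e2]
      have e3 : (2 * I) • C - (I - 1) • (1 : MatC) - I • C = ((2 * I) - I) • C - (I - 1) • (1 : MatC) := by
        rw [sub_right_comm, ← sub_smul (2 * I) I C]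
      rw [e3]
      have e4 : 2 * I - I = I := by ring
      rw [e4, sub_eq_add_neg, ← neg_smul, neg_sub]
    set w : ℂ := I ^ j with hw
    have hM : (1 + tw (κ ^ j) (glRep ρ) c + tw (κ ^ j) (glRep ρ) c ^ 2 + tw (κ ^ j) (glRep ρ) c ^ 3) =
        Matrix.toLin' (1 + w • C + (w • C) * (w • C) + (w • C) * ((w • C) * (w • C))) := by
      rw [tw_toLin, hc, hκc]
      simp only [map_add, Matrix.toLin'_one, Matrix.toLin'_mul, pow_succ, pow_zero]
      rfl
    rw [hM] at h0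
    have h1 : (1 + w • C + (w • C) * (w • C) + (w • C) * ((w • C) * (w • C)) : MatC) = 0 := by
      apply Matrix.toLin'.injective
      rw [h0, map_zero]
    have h2 := congrFun (congrFun h1 1) 0
    have e5 : (w • C) * (w • C) = (w ^ 2) • (C * C) := by
      rw [Matrix.smul_mul, Matrix.mul_smul, smul_smul, pow_two]
    have e6 : (w • C) * ((w • C) * (w • C)) = (w ^ 3) • (C * (C * C)) := by
      rw [e5, Matrix.smul_mul, Matrix.mul_smul, smul_smul]
      congr 1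
      ring
    rw [e6, e5, cu, sq] at h2
    simp only [Matrix.add_apply, Matrix.sub_apply, Matrix.smul_apply, smul_eq_mul, Matrix.zero_apply,
      Matrix.one_apply_ne (show (1 : Fin 2) ≠ 0 by decide), mul_zero, sub_zero, add_zero, zero_add] at h2
    have hC10 : C 1 0 ≠ 0 := by
      rw [vC, Matrix.smul_apply, smul_eq_mul]
      have : gensM u 4 1 0 = I - 1 := rfl
      rw [this]
      refine mul_ne_zero (inv_ne_zero hk) ?_
      intro hh
      have := congrArg Complex.re hh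
      simp at this
    have h3 : (w + (I + 1) * w ^ 2 + I * w ^ 3) * C 1 0 = 0 := by linear_combination h2
    have h4 := (mul_eq_zero.1 h3).resolve_right hC10
    have e : w = I ^ (j % 4) := by
      rw [hw]
      conv_lhs => rw [← Nat.div_add_mod j 4, pow_add, pow_mul, I_pow_four, one_pow, one_mul]
    rcases h with h | h
    · rw [h, pow_zero] at e
      rw [e] at h4
      have := congrArg Complex.re h4
      simp at this
    · rw [h] at e
      have e3 : I ^ 3 = -I := by rw [pow_succ, I_sq]; ring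
      rw [e3] at e
      rw [e] at h4
      have h5 : (-2 : ℂ) - 2 * I = 0 := by
        have hI := I_sq
        linear_combination h4 + (I ^ 2 - I - 2) * hI
      have := congrArg Complex.re h5
      simp at this
  · exact finrank_ker_le_two _

/-- the bound for the dimension of the crossed homomorphisms in the twist j -/
def zj (j : ℕ) : ℕ :=
  min (3 * (if j % 3 = 0 then 2 else 1) + (if j % 4 = 0 ∨ j % 4 = 3 then 1 else 2))
    ((if j % 3 = 0 then 2 else 1) + 3 * (if j % 4 = 0 ∨ j % 4 = 3 then 1 else 2))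

theorem zj_ge (j : ℕ) : 2 ≤ zj j := by
  unfold zj
  split_ifs <;> norm_num

theorem zj_sum : ∑ j : Fin 12, (zj j - 2) = 38 := by decide

end

end Helper46.DFJ

end

section

/-!
# The degree of Wada's invariant of the knot is at most 38
-/

noncomputable section

namespace Pool.Agent.Helper20.DFJ

open Multiplicative Module Pool.Agent.Helper95.DFJ Complex
open scoped LaurentPolynomial MatrixGroups

section Transport

variable {F : Type*} [Field F] {M : Type*} [AddCommGroup M] [Module F M] {G H : Type*} [Group G]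
  [Group H]

/-- composition with a map, linear -/
def pull (F : Type*) [Field F] {M : Type*} [AddCommGroup M] [Module F M] {G H : Type*}
    (e : G → H) : (H → M) →ₗ[F] (G → M) where
  toFun c g := c (e g)
  map_add' _ _ := rfl
  map_smul' _ _ := rfl

/-- transport of the spanning property of the cohomology along an isomorphism -/
theorem transport (e : G ≃* H) (σ : Representation F H M) (σ' : Representation F G M)
    (hσ : ∀ g, σ' g = σ (e g)) (D : Submodule F (H → M)) [FiniteDimensional F D]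
    (hspan : ∀ c ∈ Zc σ, ∃ d ∈ D, ∃ m : M, c = d + cob σ m) :
    ∃ D' : Submodule F (G → M), FiniteDimensional F D' ∧ finrank F D' ≤ finrank F D ∧
      ∀ c ∈ Zc σ', ∃ d ∈ D', ∃ m : M, c = d + cob σ' m := by
  refine ⟨D.map (pull F e), inferInstance, Submodule.finrank_map_le _ _, fun c hc => ?_⟩
  have h1 : (fun x : H => c (e.symm x)) ∈ Zc σ := by
    intro x y
    show c (e.symm (x * y)) = c (e.symm x) + σ x (c (e.symm y))
    rw [map_mul, hc, hσ, MulEquiv.apply_symm_apply]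
  obtain ⟨d, hd, m, h⟩ := hspan _ h1
  refine ⟨pull F e d, Submodule.mem_map_of_mem hd, m, ?_⟩
  funext g
  have h2 := congrFun h (e g)
  rw [MulEquiv.symm_apply_apply] at h2
  rw [h2]
  show d (e g) + (σ (e g) m - m) = d (e g) + (σ' g m - m)
  rw [hσ]

end Transport

/-- degree of the elements of a grid group: every meridian has degree one -/
def alphaD : D60.Grp →* Multiplicative ℤ := alpha.comp ff

theorem alphaD_mer (c : Fin 60) : alphaD (D60.mer c) = ofAdd 1 := by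
  obtain ⟨x, hx⟩ := isConj_iff.1 (conj_mer c)
  have h := congrArg alpha hx
  rw [map_mul, map_mul, map_inv, alpha_t, mul_comm (alpha x), mul_inv_cancel_right] at h
  exact h

/-- the primitive root -/
def zU : ℂˣ := Units.mk0 Helper46.DFJ.zet Helper46.DFJ.zet_ne

theorem zU_prim : IsPrimitiveRoot zU 12 := by
  rw [← IsPrimitiveRoot.coe_units_iff]
  exact Helper46.DFJ.zet_prim

theorem zU_pow : zU ^ 12 = 1 := zU_prim.pow_eq_one

/-- the character of order 12 with complex values -/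
abbrev kapC : G3 →* ℂˣ := kap zU zU_pow

theorem kapC_b : ((kapC G3.b : ℂˣ) : ℂ) = Helper46.DFJ.omg := by
  rw [kap_b]
  show Helper46.DFJ.zet ^ 4 = _
  exact Helper46.DFJ.zet_four

theorem kapC_c : ((kapC G3.c : ℂˣ) : ℂ) = I := by
  rw [kap_c]
  show Helper46.DFJ.zet ^ 3 = _
  exact Helper46.DFJ.zet_three

theorem wrels_G3 : Helper46.DFJ.WRels G3.b G3.c G3.t :=
  Helper46.DFJ.wrels_of G3.rel.b3 G3.rel.c4 G3.rel.r5 G3.rel.r4

section Main

variable {u : Helper46.DFJ.V3} (hu : u ∈ Helper46.DFJ.box Helper46.DFJ.cen Helper46.DFJ.rho)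
  (ρ : G3 →* GL (Fin 2) ℂ) (hb : ρ G3.b = Helper46.DFJ.bG u)
  (hc : ρ G3.c = Helper46.DFJ.cG u (Helper46.DFJ.kappa_ne hu)) (ht : ρ G3.t = Helper46.DFJ.tG u)

include hb hc ht

theorem fin_twist (j : Fin 12) : FiniteDimensional ℂ
    (Zt (seqRep (tw (kapC ^ (j : ℕ)) (Helper46.DFJ.glRep ρ)) alpha) G3.t) := by
  classical
  refine A4 (tw (kapC ^ (j : ℕ)) (Helper46.DFJ.glRep ρ)) alpha G3.t {G3.b, G3.c, G3.t} ?_ (-1) ?_
  · rw [← G3.closure_eq]; congr 1; simp
  · exact Helper46.DFJ.A4_twist hu ρ hb hc ht alpha alpha_b alpha_c alpha_t kapC kapC_b kapC_c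
      (kap_t _ _) G3.closure_eq wrels_G3 j j.2

theorem dim_twist (j : Fin 12) : finrank ℂ
    (Zt (seqRep (tw (kapC ^ (j : ℕ)) (Helper46.DFJ.glRep ρ)) alpha) G3.t) ≤
      Helper46.DFJ.zj j := by
  have := fin_twist hu ρ hb hc ht j
  have h := A3 G3.b G3.c G3.t G3_univ (tw (kapC ^ (j : ℕ)) (Helper46.DFJ.glRep ρ)) alpha alpha_b
    alpha_c alpha_t
  have h1 := Helper46.DFJ.dimB ρ hb kapC kapC_b (j : ℕ)
  have h2 := Helper46.DFJ.dimC hu ρ hc kapC kapC_c (j : ℕ)
  unfold Helper46.DFJ.zj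
  refine le_min ?_ ?_
  · exact h.1.trans (add_le_add (Nat.mul_le_mul_left 3 h1) h2)
  · exact h.2.trans (add_le_add h1 (Nat.mul_le_mul_left 3 h2))

theorem span_ker : ∃ D : Submodule ℂ (kapC.ker → ℤ → Fin 2 → ℂ), FiniteDimensional ℂ D ∧
    finrank ℂ D ≤ 38 ∧
    ∀ c ∈ Zc (resRep kapC.ker (seqRep (Helper46.DFJ.glRep ρ) alpha)), ∃ d ∈ D,
      ∃ m : ℤ → Fin 2 → ℂ,
        c = d + cob (resRep kapC.ker (seqRep (Helper46.DFJ.glRep ρ) alpha)) m := by
  have h2 : finrank ℂ (Fin 2 → ℂ) = 2 := by simp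
  obtain ⟨D, h1, h3, -, h4⟩ := A7 (Helper46.DFJ.glRep ρ) alpha G3.t alpha_t 12 (by norm_num) zU
    zU_prim kapC (kap_pow zU zU_pow) (G3.b * G3.c⁻¹) (kap_gen zU zU_pow) (kap_t _ _)
    (fin_twist hu ρ hb hc ht)
    (fun j m hm => Helper46.DFJ.hinv_all hu ρ hb hc ht alpha kapC j m hm)
    (fun j => Helper46.DFJ.zj j) (dim_twist hu ρ hb hc ht)
    (fun j => by rw [h2]; exact Helper46.DFJ.zj_ge j)
  refine ⟨D, h1, h3.trans ?_, h4⟩
  rw [h2]
  exact le_of_eq Helper46.DFJ.zj_sum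

theorem det_t : (ρ G3.t).1.det = 1 := by
  rw [ht]
  show (Helper46.DFJ.nM u 0).det = 1
  simp [Helper46.DFJ.nM, Helper46.DFJ.gensM]

theorem trace_t : (ρ G3.t).1.trace = 2 := by
  rw [ht]
  show (Helper46.DFJ.nM u 0).trace = 2
  simp [Helper46.DFJ.nM, Helper46.DFJ.gensM, Matrix.trace, Fin.sum_univ_two]
  norm_num

theorem seqRep_eKer (g : D60.Grp) :
    seqRep (repV (rho0 ρ (det_t hu ρ hb hc ht))) alphaD g =
      resRep kapC.ker (seqRep (Helper46.DFJ.glRep ρ) alpha) (eKer zU zU_pow zU_prim g) := rfl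

theorem upper_aux : ∃ δ : ℤ, δ ≤ 38 ∧ ∀ (m : ℕ) (r : Fin m → FreeGroup (Fin (m + 1)))
    (π : FreeGroup (Fin (m + 1)) →* D60.Grp), IsPresentation r π → ∀ k : Fin (m + 1),
      wadaDen (rho0 ρ (det_t hu ρ hb hc ht)) alphaD π k ≠ 0 →
        wadaNum (rho0 ρ (det_t hu ρ hb hc ht)) alphaD r π k ≠ 0 ∧
          breadth (wadaNum (rho0 ρ (det_t hu ρ hb hc ht)) alphaD r π k) -
            breadth (wadaDen (rho0 ρ (det_t hu ρ hb hc ht)) alphaD π k) = δ := by
  obtain ⟨D, h1, h2, h3⟩ := span_ker hu ρ hb hc ht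
  obtain ⟨D', h4, h5, h6⟩ := transport (eKer zU zU_pow zU_prim) _ _
    (seqRep_eKer hu ρ hb hc ht) D h3
  obtain ⟨δ, h7, h8⟩ := Helper35.DFJ.exists_degree (rho0 ρ (det_t hu ρ hb hc ht)) alphaD D' h6
  have h9 : finrank ℂ D' ≤ 38 := h5.trans h2
  have h10 : (finrank ℂ D' : ℤ) ≤ 38 := by exact_mod_cast h9
  exact ⟨δ, h7.trans h10, h8⟩

end Main

/-- The knot is hyperbolic, and the degree of Wada's invariant of the lift of the holonomy
representation is at most 38. -/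
theorem upper : ∃ ρ₀ : D60.Grp →* SL(2, ℂ),
    (∀ g, ((ρ₀ g : SL(2, ℂ)) : Matrix (Fin 2) (Fin 2) ℂ) = 1 ∨
      ((ρ₀ g : SL(2, ℂ)) : Matrix (Fin 2) (Fin 2) ℂ) = -1 → g = 1) ∧
    (∃ ε : ℝ, 0 < ε ∧ ∀ g : D60.Grp,
      (∀ i j, ‖((ρ₀ g : SL(2, ℂ)) : Matrix (Fin 2) (Fin 2) ℂ) i j -
        (1 : Matrix (Fin 2) (Fin 2) ℂ) i j‖ < ε) → g = 1) ∧
    (∀ c, ((ρ₀ (D60.mer c) : SL(2, ℂ)) : Matrix (Fin 2) (Fin 2) ℂ).trace = 2) ∧
    ∃ δ : ℤ, δ ≤ 38 ∧ ∀ (m : ℕ) (r : Fin m → FreeGroup (Fin (m + 1)))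
      (π : FreeGroup (Fin (m + 1)) →* D60.Grp), IsPresentation r π → ∀ k : Fin (m + 1),
        wadaDen ρ₀ alphaD π k ≠ 0 → wadaNum ρ₀ alphaD r π k ≠ 0 ∧
          breadth (wadaNum ρ₀ alphaD r π k) - breadth (wadaDen ρ₀ alphaD π k) = δ := by
  obtain ⟨u, hu, hz, ρ, hb, hc, ht, hf, hd⟩ := exists_holonomy
  exact ⟨rho0 ρ (det_t hu ρ hb hc ht), fun g hg => rho0_faithful ρ _ hf g hg,
    rho0_discrete ρ _ hd, rho0_trace ρ _ (trace_t hu ρ hb hc ht), upper_aux hu ρ hb hc ht⟩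

end Pool.Agent.Helper20.DFJ

end

end

section

/-!
# The genus of the knot is at least 11
-/

noncomputable section

namespace Pool.Agent.Helper20.DFJ

open Multiplicative Module Pool.Agent.Helper95.DFJ

section Conj

variable {F : Type*} [Field F] (z : Fˣ) (hz : z ^ 12 = 1)

/-- the image of the longitude under the character generates -/
theorem kap_P : kap z hz (Helper46.DFJ.Pel G3.b G3.c G3.t) = z ^ 7 := by
  rw [Helper46.DFJ.map_Pel, kap_b, kap_c, kap_t]
  unfold Helper46.DFJ.Pel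
  have h : ∀ x y : Fˣ, 1 * x * 1 * x * y * 1⁻¹ * y⁻¹ * 1 * x⁻¹ * 1⁻¹ * y = x * y := by
    intro x y
    apply Additive.ofMul.injective
    simp only [ofMul_mul, ofMul_inv, ofMul_one]
    abel
  rw [h, ← pow_add]

theorem comm_P : G3.t * Helper46.DFJ.Pel G3.b G3.c G3.t = Helper46.DFJ.Pel G3.b G3.c G3.t * G3.t :=
  rels_G3.hP

/-- every meridian of the knot group is conjugate to `t` inside the kernel -/
theorem conj_ker (hp : IsPrimitiveRoot z 12) (c : Fin 60) :
    IsConj (eKer z hz hp (D60.mer c)) (⟨G3.t, kap_t z hz⟩ : (kap z hz).ker) := by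
  obtain ⟨x, hx⟩ := isConj_iff.1 (conj_mer c)
  obtain ⟨j, hj⟩ := kap_pow z hz x
  have hcomm : Commute G3.t (Helper46.DFJ.Pel G3.b G3.c G3.t) := comm_P
  have hy : Helper46.DFJ.Pel G3.b G3.c G3.t ^ (5 * j) * x ∈ (kap z hz).ker := by
    rw [MonoidHom.mem_ker, map_mul, map_pow, kap_P, hj, ← pow_mul, ← pow_add,
      show 7 * (5 * j) + j = 12 * (3 * j) by ring, pow_mul, hz, one_pow]
  refine isConj_iff.2 ⟨⟨_, hy⟩, ?_⟩
  apply Subtype.ext
  show Helper46.DFJ.Pel G3.b G3.c G3.t ^ (5 * j) * x * ff (D60.mer c) *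
    (Helper46.DFJ.Pel G3.b G3.c G3.t ^ (5 * j) * x)⁻¹ = G3.t
  rw [mul_inv_rev]
  have h1 : Helper46.DFJ.Pel G3.b G3.c G3.t ^ (5 * j) * x * ff (D60.mer c) *
      (x⁻¹ * (Helper46.DFJ.Pel G3.b G3.c G3.t ^ (5 * j))⁻¹) =
      Helper46.DFJ.Pel G3.b G3.c G3.t ^ (5 * j) * (x * ff (D60.mer c) * x⁻¹) *
        (Helper46.DFJ.Pel G3.b G3.c G3.t ^ (5 * j))⁻¹ := by group
  rw [h1, hx, ← (hcomm.pow_right (5 * j)).eq, mul_inv_cancel_right]

end Conj

section Bound

variable {F : Type} [Field F] {V : Type} [AddCommGroup V] [Module F V] [FiniteDimensional F V]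
  (z : Fˣ) (hz : z ^ 12 = 1)

/-- The genus of a Seifert surface is bounded below by the twisted homology of the knot group. -/
theorem genus_bound (hp : IsPrimitiveRoot z 12) (ρ : Representation F G3 V)
    (hfin : FiniteDimensional F (Zt (resRep (kap z hz).ker (seqRep ρ alpha))
      (⟨G3.t, kap_t z hz⟩ : (kap z hz).ker)))
    (S : BandSurface) (hS : S.IsKnot) (h : ℕ) (hg : S.HasGenus h) (e : S.Grp ≃* D60.Grp)
    (he : ∀ i, ∃ c, IsConj (e (mer S.n S.word i)) (D60.mer c)) :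
    finrank F (Zt (resRep (kap z hz).ker (seqRep ρ alpha))
      (⟨G3.t, kap_t z hz⟩ : (kap z hz).ker)) ≤ 2 * h * finrank F V := by
  have hn : 0 < S.n := by
    rcases Nat.eq_zero_or_pos S.n with h0 | h0
    · exfalso
      have h1 : S.bands = [] := by
        rw [List.eq_nil_iff_forall_not_mem]
        intro b hb
        have := S.valid b hb
        omega
      have h2 : S.bands.length + 1 = S.n + 2 * h := hg
      rw [h1, h0] at h2
      simp at h2
      omega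
    · exact h0
  let e' : S.Grp ≃* (kap z hz).ker := e.trans (eKer z hz hp)
  have hconj : ∀ i, IsConj (e' (mer S.n S.word i)) (⟨G3.t, kap_t z hz⟩ : (kap z hz).ker) := by
    intro i
    obtain ⟨c, hc⟩ := he i
    exact ((eKer z hz hp).toMonoidHom.map_isConj hc).trans (conj_ker z hz hp c)
  let inc : S.Grp →* G3 := (kap z hz).ker.subtype.comp e'.toMonoidHom
  have hα : ∀ i, (alpha.comp inc) (mer S.n S.word i) = ofAdd 1 := by
    intro i
    obtain ⟨x, hx⟩ := isConj_iff.1 (((kap z hz).ker.subtype).map_isConj (hconj i))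
    have h1 := congrArg alpha hx
    rw [map_mul, map_mul, map_inv, mul_comm (alpha x), mul_inv_cancel_right] at h1
    exact h1.trans alpha_t
  obtain ⟨iso⟩ := A10 e' (resRep (kap z hz).ker (seqRep ρ alpha)) (mer S.n S.word ⟨0, hn⟩) _
    (hconj ⟨0, hn⟩)
  have hfin' : FiniteDimensional F (Zt (seqRep (ρ.comp inc : Representation F S.Grp V)
      (alpha.comp inc)) (mer S.n S.word ⟨0, hn⟩)) := Module.Finite.equiv iso.symm
  have h1 := L1 S hn hS (ρ.comp inc : Representation F S.Grp V) (alpha.comp inc) hα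
  have h2 : finrank F (Zt (seqRep (ρ.comp inc : Representation F S.Grp V)
      (alpha.comp inc)) (mer S.n S.word ⟨0, hn⟩)) =
      finrank F (Zt (resRep (kap z hz).ker (seqRep ρ alpha))
      (⟨G3.t, kap_t z hz⟩ : (kap z hz).ker)) := iso.finrank_eq
  rw [h2] at h1
  have h3 : S.bands.length + 1 = S.n + 2 * h := hg
  rw [h3, add_mul] at h1
  omega

end Bound

end Pool.Agent.Helper20.DFJ

end

end

section

/-!
# The final theorem
-/

noncomputable section

namespace Pool.Agent.DFJ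

open Multiplicative Module
open scoped LaurentPolynomial MatrixGroups
open Pool.Agent.Helper20.DFJ (D60 S60 alphaD)

/-! ### Comparison of the definitions -/

/-- the same surface, for the definitions of the algebraic part -/
def toH (S : BandSurface) : Pool.Agent.Helper95.DFJ.BandSurface := ⟨S.n, S.bands, S.valid⟩

theorem crossing_eq {H : Type*} [Group H] (x : ℕ → H) (l : ℕ × Bool) :
    crossing x l = Pool.Agent.Helper95.DFJ.crossing l x := rfl

theorem rels_toH (S : BandSurface) :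
    S.boundary.rels = Pool.Agent.Helper95.DFJ.closureRels (toH S).n (toH S).word := rfl

/-- the groups are the same -/
def grpH (S : BandSurface) : S.boundary.Grp ≃* (toH S).Grp := MulEquiv.refl _

theorem grpH_mer (S : BandSurface) (i : Fin S.n) :
    grpH S (S.boundary.mer i) = Pool.Agent.Helper95.DFJ.mer (toH S).n (toH S).word i := rfl

theorem isKnot_toH (S : BandSurface) : (toH S).IsKnot ↔ S.boundary.IsKnot := Iff.rfl

theorem degree_eq (f : ℂ[T;T⁻¹]) : degree f = Pool.Agent.Helper95.DFJ.breadth f := rfl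

theorem foxWord_eq {n : ℕ} (j : Fin n) (L : List (Fin n × Bool)) :
    foxWord j L = Pool.Agent.Helper95.DFJ.foxList j L := by
  induction L with
  | nil => rfl
  | cons a L ih =>
    obtain ⟨i, b⟩ := a
    cases b
    · rw [foxWord, Pool.Agent.Helper95.DFJ.foxList, ih]
    · rw [foxWord, Pool.Agent.Helper95.DFJ.foxList, ih]

theorem fox_eq {n : ℕ} (j : Fin n) (w : FreeGroup (Fin n)) :
    fox j w = Pool.Agent.Helper95.DFJ.fox j w := foxWord_eq j _

section Transfer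

variable {G G' : Type*} [Group G] [Group G'] (E : G ≃* G')

theorem Phi_eq {n : ℕ} (ρ : G' →* SL(2, ℂ)) (α : G' →* Multiplicative ℤ)
    (π : FreeGroup (Fin n) →* G) :
    Phi (ρ.comp E.toMonoidHom) (α.comp E.toMonoidHom) π =
      Pool.Agent.Helper95.DFJ.wadaPhi ρ α (E.toMonoidHom.comp π) := rfl

theorem num_eq {m : ℕ} (ρ : G' →* SL(2, ℂ)) (α : G' →* Multiplicative ℤ)
    (r : Fin m → FreeGroup (Fin (m + 1))) (π : FreeGroup (Fin (m + 1)) →* G) (k : Fin (m + 1)) :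
    num (ρ.comp E.toMonoidHom) (α.comp E.toMonoidHom) r π k =
      Pool.Agent.Helper95.DFJ.wadaNum ρ α r (E.toMonoidHom.comp π) k := by
  unfold num Pool.Agent.Helper95.DFJ.wadaNum
  rw [Phi_eq]
  simp only [fox_eq]

theorem den_eq {m : ℕ} (ρ : G' →* SL(2, ℂ)) (α : G' →* Multiplicative ℤ)
    (π : FreeGroup (Fin (m + 1)) →* G) (k : Fin (m + 1)) :
    den (ρ.comp E.toMonoidHom) (α.comp E.toMonoidHom) π k =
      Pool.Agent.Helper95.DFJ.wadaDen ρ α (E.toMonoidHom.comp π) k := by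
  unfold den Pool.Agent.Helper95.DFJ.wadaDen
  rw [Phi_eq]

theorem pres_transfer {m : ℕ} (r : Fin m → FreeGroup (Fin (m + 1)))
    (π : FreeGroup (Fin (m + 1)) →* G) (h : IsPresentation r π) :
    Pool.Agent.Helper95.DFJ.IsPresentation r (E.toMonoidHom.comp π) := by
  refine ⟨E.surjective.comp h.1, ?_⟩
  rw [← h.2]
  ext x
  rw [MonoidHom.mem_ker, MonoidHom.mem_ker]
  exact E.map_eq_one_iff

end Transfer

/-! ### The knot -/

/-- the same surface, for the definitions of the statement -/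
def ofH (T : Pool.Agent.Helper95.DFJ.BandSurface) : BandSurface := ⟨T.n, T.bands, T.valid⟩

theorem ofH_E {A : Type*} [Group A] {ι : Type*} (m : ι → A)
    (T : Pool.Agent.Helper95.DFJ.BandSurface)
    (h : ∃ e : T.Grp ≃* A, ∀ i, ∃ c, IsConj (e (Pool.Agent.Helper95.DFJ.mer T.n T.word i)) (m c)) :
    ∃ e : (ofH T).boundary.Grp ≃* A, ∀ i, ∃ c, IsConj (e ((ofH T).boundary.mer i)) (m c) := h

theorem ofH_isKnot (T : Pool.Agent.Helper95.DFJ.BandSurface) (h : T.IsKnot) :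
    (ofH T).boundary.IsKnot := h

theorem ofH_genus (T : Pool.Agent.Helper95.DFJ.BandSurface) (g : ℕ) (h : T.HasGenus g) :
    (ofH T).HasGenus g := h

/-- the surface with one band for every crossing -/
def S₀ : BandSurface := ofH S60

/-- the knot, as a closed braid -/
def K₀ : Braid := S₀.boundary

theorem K₀_isKnot : K₀.IsKnot := ofH_isKnot S60 Pool.Agent.Helper20.DFJ.S60_isKnot

/-- the group of the knot -/
theorem exists_E : ∃ E : K₀.Grp ≃* D60.Grp, ∀ i, ∃ c, IsConj (E (K₀.mer i)) (D60.mer c) :=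
  ofH_E D60.mer S60 Pool.Agent.Helper20.DFJ.exists_surface

theorem isotopic_surface {A : Type*} [Group A] {ι : Type*} (m : ι → A) (K : Braid)
    (E : K.Grp ≃* A) (hE : ∀ i, ∃ c, IsConj (E (K.mer i)) (m c)) (S : BandSurface)
    (hS : S.boundary.Isotopic K) : ∃ e : (toH S).Grp ≃* A,
      ∀ i, ∃ c, IsConj (e (Pool.Agent.Helper95.DFJ.mer (toH S).n (toH S).word i)) (m c) := by
  obtain ⟨f, hf, -⟩ := hS.merIso
  refine ⟨(grpH S).symm.trans (f.trans E), fun i => ?_⟩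
  obtain ⟨j, hj, h1⟩ := hf i i.2
  obtain ⟨c, h2⟩ := hE ⟨j, hj⟩
  refine ⟨c, ?_⟩
  have h3 : IsConj (E (f (S.boundary.mL i))) (E (K.mL j)) := E.toMonoidHom.map_isConj h1
  rw [K.mL_lt hj] at h3
  have h4 : (grpH S).symm.trans (f.trans E)
      (Pool.Agent.Helper95.DFJ.mer (toH S).n (toH S).word i) = E (f (S.boundary.mL i)) := by
    rw [S.boundary.mL_lt i.2]; rfl
  rw [h4]
  exact h3.trans h2

section

open Pool.Agent.Helper20.DFJ (G3 kap kap_t alpha genus_bound)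
open Pool.Agent.Helper95.DFJ (Zt resRep seqRep)

variable {F : Type} [Field F] {V : Type} [AddCommGroup V] [Module F V] [FiniteDimensional F V]
  (z : Fˣ) (hz : z ^ 12 = 1)

/-- every Seifert surface of the knot has genus at least 11 -/
theorem genus_ge (hp : IsPrimitiveRoot z 12) (ρ : Representation F G3 V) (hV : finrank F V = 3)
    (hfin : FiniteDimensional F (Zt (resRep (kap z hz).ker (seqRep ρ alpha))
      (⟨G3.t, kap_t z hz⟩ : (kap z hz).ker)))
    (h66 : 66 ≤ finrank F (Zt (resRep (kap z hz).ker (seqRep ρ alpha))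
      (⟨G3.t, kap_t z hz⟩ : (kap z hz).ker)))
    (S : BandSurface) (h1 : S.boundary.IsKnot) (h2 : S.boundary.Isotopic K₀) (h : ℕ)
    (h3 : S.HasGenus h) : 11 ≤ h := by
  obtain ⟨E, hE⟩ := exists_E
  obtain ⟨e, he⟩ := isotopic_surface D60.mer K₀ E hE S h2
  have h4 := genus_bound z hz hp ρ hfin (toH S) ((isKnot_toH S).2 h1) h h3 e he
  rw [hV] at h4
  omega

end

/-- the genus exists -/
theorem exists_genus : ∃ g, K₀.IsGenus g := by
  classical
  have h : ∃ h, ∃ S : BandSurface, S.boundary.IsKnot ∧ S.boundary.Isotopic K₀ ∧ S.HasGenus h :=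
    ⟨396, S₀, K₀_isKnot, Relation.EqvGen.refl _, ofH_genus S60 396 Pool.Agent.Helper20.DFJ.S60_genus⟩
  exact ⟨Nat.find h, Nat.find_spec h, fun m hm => Nat.find_min' h hm⟩

section Lift

variable (E : K₀.Grp ≃* D60.Grp) (hE : ∀ i, ∃ c, IsConj (E (K₀.mer i)) (D60.mer c))

include hE

theorem alpha_mer (i : Fin K₀.n) : (alphaD.comp E.toMonoidHom) (K₀.mer i) = ofAdd 1 := by
  obtain ⟨c, hc⟩ := hE i
  obtain ⟨x, hx⟩ := isConj_iff.1 hc
  have h := congrArg alphaD hx
  rw [map_mul, map_mul, map_inv, mul_comm (alphaD x), mul_inv_cancel_right] at h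
  exact h.trans (Pool.Agent.Helper20.DFJ.alphaD_mer c)

theorem trace_mer (ρ : D60.Grp →* SL(2, ℂ))
    (h : ∀ c, ((ρ (D60.mer c) : SL(2, ℂ)) : Matrix (Fin 2) (Fin 2) ℂ).trace = 2) (i : Fin K₀.n) :
    (((ρ.comp E.toMonoidHom) (K₀.mer i) : SL(2, ℂ)) : Matrix (Fin 2) (Fin 2) ℂ).trace = 2 := by
  obtain ⟨c, hc⟩ := hE i
  obtain ⟨x, hx⟩ := isConj_iff.1 hc
  rw [← h c, ← hx, map_mul, map_mul]
  show _ = ((ρ x : Matrix (Fin 2) (Fin 2) ℂ) * (ρ (E (K₀.mer i)) : Matrix (Fin 2) (Fin 2) ℂ) *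
    (ρ x⁻¹ : Matrix (Fin 2) (Fin 2) ℂ)).trace
  rw [Matrix.trace_mul_comm, ← mul_assoc]
  have h1 : (ρ x⁻¹ : Matrix (Fin 2) (Fin 2) ℂ) * (ρ x : Matrix (Fin 2) (Fin 2) ℂ) = 1 := by
    rw [← Matrix.SpecialLinearGroup.coe_mul, ← map_mul, inv_mul_cancel, map_one]
    rfl
  rw [h1, one_mul]
  rfl

end Lift

/-- the upper bound -/
theorem upper : ∃ (ρ : K₀.Grp →* SL(2, ℂ)) (α : K₀.Grp →* Multiplicative ℤ) (δ : ℤ),
    K₀.IsHolonomyLift ρ ∧ (∀ i, α (K₀.mer i) = ofAdd 1) ∧ δ ≤ 38 ∧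
    ∀ (m : ℕ) (r : Fin m → FreeGroup (Fin (m + 1))) (π : FreeGroup (Fin (m + 1)) →* K₀.Grp),
      IsPresentation r π → ∀ k : Fin (m + 1), den ρ α π k ≠ 0 →
        num ρ α r π k ≠ 0 ∧ degree (num ρ α r π k) - degree (den ρ α π k) = δ := by
  obtain ⟨E, hE⟩ := exists_E
  obtain ⟨ρ₀, h1, ⟨ε, hε, h2⟩, h3, δ, hδ, h4⟩ := Pool.Agent.Helper20.DFJ.upper
  refine ⟨ρ₀.comp E.toMonoidHom, alphaD.comp E.toMonoidHom, δ, ⟨?_, ?_, ⟨ε, hε, ?_⟩, ?_⟩, ?_, hδ, ?_⟩
  · obtain ⟨x, y, hxy⟩ := Pool.Agent.Helper20.DFJ.D60_nonabelian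
    refine ⟨E.symm x, E.symm y, fun h => hxy ?_⟩
    have := congrArg E h
    rwa [map_mul, map_mul, E.apply_symm_apply, E.apply_symm_apply] at this
  · intro x hx
    exact E.map_eq_one_iff.1 (h1 (E x) hx)
  · intro x hx
    exact E.map_eq_one_iff.1 (h2 (E x) hx)
  · exact trace_mer E hE ρ₀ h3
  · exact alpha_mer E hE
  · intro m r π hπ k hden
    rw [den_eq] at hden ⊢
    rw [num_eq]
    obtain ⟨h5, h6⟩ := h4 m r (E.toMonoidHom.comp π) (pres_transfer E r π hπ) k hden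
    refine ⟨h5, ?_⟩
    rw [degree_eq, degree_eq]
    exact h6

theorem K₀_n : K₀.n = 44 + 1 := Pool.Agent.Helper20.DFJ.braid_length.2

/-- the Wirtinger presentation of the closed braid -/
theorem wirtinger (ρ : K₀.Grp →* SL(2, ℂ)) (α : K₀.Grp →* Multiplicative ℤ)
    (hρ : ∀ i, (ρ (K₀.mer i) : Matrix (Fin 2) (Fin 2) ℂ).trace = 2)
    (hα : ∀ i, α (K₀.mer i) = ofAdd 1) :
    ∃ (m : ℕ) (r : Fin m → FreeGroup (Fin (m + 1))) (π : FreeGroup (Fin (m + 1)) →* K₀.Grp),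
      IsPresentation r π ∧ ∀ k, (∃ i, π (FreeGroup.of k) = K₀.mer i) ∧ den ρ α π k ≠ 0 := by
  obtain ⟨r, π, h, hk⟩ := K₀.exists_wirtinger 44 K₀_n
  refine ⟨44, r, π, h, fun k => ⟨⟨_, hk k⟩, ?_⟩⟩
  exact den_ne ρ α π k (by rw [hk k]; exact hρ _) (by rw [hk k]; exact hα _)

/-- the theorem, with the lower bound of the genus as an input -/
theorem final_of (hg : ∀ S : BandSurface, S.boundary.IsKnot → S.boundary.Isotopic K₀ → ∀ h : ℕ,
    S.HasGenus h → 11 ≤ h) :
    ∃ (K : Braid) (ρ : K.Grp →* SL(2, ℂ)) (α : K.Grp →* Multiplicative ℤ) (g : ℕ) (δ : ℤ),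
      K.IsKnot ∧ K.IsHolonomyLift ρ ∧ (∀ i, α (K.mer i) = ofAdd 1) ∧ K.IsGenus g ∧
      (∃ (m : ℕ) (r : Fin m → FreeGroup (Fin (m + 1))) (π : FreeGroup (Fin (m + 1)) →* K.Grp),
        IsPresentation r π ∧ ∀ k, (∃ i, π (FreeGroup.of k) = K.mer i) ∧ den ρ α π k ≠ 0) ∧
      (∀ (m : ℕ) (r : Fin m → FreeGroup (Fin (m + 1))) (π : FreeGroup (Fin (m + 1)) →* K.Grp),
        IsPresentation r π → ∀ k, den ρ α π k ≠ 0 →
          num ρ α r π k ≠ 0 ∧ degree (num ρ α r π k) - degree (den ρ α π k) = δ) ∧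
      δ ≠ 4 * g - 2 ∧ δ ≤ 38 ∧ 11 ≤ g := by
  obtain ⟨ρ, α, δ, h1, h2, h3, h4⟩ := upper
  obtain ⟨g, hg1⟩ := exists_genus
  have h11 : 11 ≤ g := by
    obtain ⟨S, a, b, c⟩ := hg1.1
    exact hg S a b g c
  exact ⟨K₀, ρ, α, g, δ, K₀_isKnot, h1, h2, hg1, wirtinger ρ α h1.trace h2, h4, by omega, h3, h11⟩

end Pool.Agent.DFJ

end

end
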