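import Pool.Agent.Helper20.DFJ.Lines

/-!
# The two presentations of the orbifold group
-/

namespace Pool.Agent.Helper20.DFJ

variable {A : Type*} [Group A]

/-- the word `(tb)^-2 b (tb)^2` -/
def wW (b t : A) : A := b⁻¹ * t⁻¹ * b⁻¹ * t⁻¹ * b * t * b * t * b

/-- relations of the orbifold group in the generators `b`, `c`, `t` -/
structure GRel (b c t : A) : Prop where
  b3 : b ^ 3 = 1
  c4 : c ^ 4 = 1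
  r5 : c * t⁻¹ * c * t * c⁻¹ = wW b t * c * (wW b t)⁻¹
  r4 : c⁻¹ * t * b⁻¹ * t⁻¹ * c =
    t * c⁻¹ * t * b * c⁻¹ * (wW b t)⁻¹ * c * b⁻¹ * t⁻¹ * c * t⁻¹

/-- relations of the orbifold group coming from the toroidal grid diagram -/
structure TRel (al be : A) (v : ℕ → A) : Prop where
  comm : al * be = be * al
  be4 : be ^ 4 = 1
  h3 : (be⁻¹ * v 0 * be * (be⁻¹ * v 1 * be) * v 2 * al) ^ 3 = 1
  r0 : be⁻¹ * v 1 * be * v 2 = v 2 * v 4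
  r1 : v 2 * v 4 * (al * (be⁻¹ * v 0 * be) * al⁻¹) = v 1 * v 2 * v 4
  r2 : v 4 * (al * v 1 * al⁻¹) * (al * v 2 * al⁻¹) = al * v 1 * al⁻¹
  r3 : v 3 * (al * v 1 * al⁻¹) * (al * (be * v 2 * be⁻¹) * al⁻¹) = al * v 1 * al⁻¹
  r4 : v 1 * (be * v 2 * be⁻¹) * v 3 = v 0 * v 1 * (be * v 2 * be⁻¹)

/-- `al` as a word in `b`, `c`, `t` -/
def alW (b c t : A) : A := c * t * c⁻¹ * wW b t

/-- `v 2` as a word in `b`, `c`, `t` -/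
def uW (b c t : A) : A := t * b⁻¹ * t⁻¹ * c * t * c⁻¹ * t * b * t⁻¹

/-- the `v i` as words in `b`, `c`, `t` -/
def vW (b c t : A) : ℕ → A
  | 0 => (alW b c t)⁻¹ * c⁻¹ * (uW b c t)⁻¹ * c * t * c⁻¹ * b * c
  | 1 => t⁻¹
  | 2 => uW b c t
  | 3 => alW b c t * t⁻¹ * c⁻¹ * (uW b c t)⁻¹ * c * t * (alW b c t)⁻¹
  | _ => alW b c t * t⁻¹ * (uW b c t)⁻¹ * t * (alW b c t)⁻¹

/-- `b` as a word in the toroidal generators -/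
def bW (al be : A) (v : ℕ → A) : A := be⁻¹ * v 1 * (be * v 2 * be⁻¹) * al * v 0 * be

section fromT

variable {al be : A} {v : ℕ → A} (h : TRel al be v)

include h

theorem TRel.v0 : v 0 = al⁻¹ * be * (v 2)⁻¹ * be⁻¹ * (v 1)⁻¹ * be * bW al be v * be⁻¹ := by
  unfold bW; group

/-- `al` from the relation of row 1 -/
theorem TRel.al1 : al = (v 2)⁻¹ * be⁻¹ * (v 1)⁻¹ * be * (v 1)⁻¹ * bW al be v := by
  have e4 : v 4 = (v 2)⁻¹ * (be⁻¹ * v 1 * be * v 2) := by rw [h.r0]; group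
  have e1 := h.r1
  rw [e4] at e1
  have e2 : be⁻¹ * v 1 * be * v 2 * (al * (be⁻¹ * v 0 * be) * al⁻¹) =
      v 1 * (be⁻¹ * v 1 * be * v 2) := by
    calc be⁻¹ * v 1 * be * v 2 * (al * (be⁻¹ * v 0 * be) * al⁻¹)
        = v 2 * ((v 2)⁻¹ * (be⁻¹ * v 1 * be * v 2)) * (al * (be⁻¹ * v 0 * be) * al⁻¹) := by group
      _ = _ := by rw [e1]; group
  have c1 : al * be⁻¹ = be⁻¹ * al := by
    calc al * be⁻¹ = be⁻¹ * (be * al) * be⁻¹ := by group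
      _ = be⁻¹ * (al * be) * be⁻¹ := by rw [h.comm]
      _ = _ := by group
  have e3 : be⁻¹ * v 1 * be * v 2 * (al * (be⁻¹ * v 0 * be) * al⁻¹) = bW al be v * al⁻¹ := by
    unfold bW
    calc be⁻¹ * v 1 * be * v 2 * (al * (be⁻¹ * v 0 * be) * al⁻¹)
        = be⁻¹ * v 1 * be * v 2 * (al * be⁻¹) * v 0 * be * al⁻¹ := by group
      _ = be⁻¹ * v 1 * be * v 2 * (be⁻¹ * al) * v 0 * be * al⁻¹ := by rw [c1]
      _ = _ := by group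
  rw [e3] at e2
  calc al = (bW al be v * al⁻¹)⁻¹ * bW al be v := by group
    _ = _ := by rw [e2]; group

theorem TRel.v4 : v 4 = al * v 1 * (v 2)⁻¹ * (v 1)⁻¹ * al⁻¹ := by
  calc v 4 = (v 4 * (al * v 1 * al⁻¹) * (al * v 2 * al⁻¹)) * al * (v 2)⁻¹ * (v 1)⁻¹ * al⁻¹ := by
        group
    _ = _ := by rw [h.r2]; group

theorem TRel.v3 : v 3 = al * v 1 * be * (v 2)⁻¹ * be⁻¹ * (v 1)⁻¹ * al⁻¹ := by
  calc v 3 = (v 3 * (al * v 1 * al⁻¹) * (al * (be * v 2 * be⁻¹) * al⁻¹)) *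
        al * be * (v 2)⁻¹ * be⁻¹ * (v 1)⁻¹ * al⁻¹ := by group
    _ = _ := by rw [h.r3]; group

/-- `v 2` as a word in `b`, `c`, `t` -/
theorem TRel.v2 : v 2 = uW (bW al be v) be⁻¹ (v 1)⁻¹ := by
  set b := bW al be v with hb
  have ha := h.al1
  rw [← hb] at ha
  have e1 : (v 2)⁻¹ * be⁻¹ * v 1 * be * v 2 * al = al * v 1 * (v 2)⁻¹ * (v 1)⁻¹ := by
    have e2 : (v 2)⁻¹ * (be⁻¹ * v 1 * be * v 2) = al * v 1 * (v 2)⁻¹ * (v 1)⁻¹ * al⁻¹ := by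
      rw [h.r0, ← h.v4]; group
    calc (v 2)⁻¹ * be⁻¹ * v 1 * be * v 2 * al = ((v 2)⁻¹ * (be⁻¹ * v 1 * be * v 2)) * al := by group
      _ = _ := by rw [e2]; group
  have e3 : (v 2)⁻¹ * be⁻¹ * v 1 * be * v 2 * al = (v 2)⁻¹ * (v 1)⁻¹ * b := by
    conv_lhs => rw [ha]
    group
  have e4 : al * v 1 * (v 2)⁻¹ * (v 1)⁻¹ =
      (v 2)⁻¹ * be⁻¹ * (v 1)⁻¹ * be * (v 1)⁻¹ * b * v 1 * (v 2)⁻¹ * (v 1)⁻¹ := by
    conv_lhs => rw [ha]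
  have e5 : (v 1)⁻¹ * b = be⁻¹ * (v 1)⁻¹ * be * (v 1)⁻¹ * b * v 1 * (v 2)⁻¹ * (v 1)⁻¹ := by
    calc (v 1)⁻¹ * b = v 2 * ((v 2)⁻¹ * (v 1)⁻¹ * b) := by group
      _ = v 2 * (al * v 1 * (v 2)⁻¹ * (v 1)⁻¹) := by rw [← e3, e1]
      _ = _ := by rw [e4]; group
  unfold uW
  calc v 2 = (v 1)⁻¹ * (be⁻¹ * (v 1)⁻¹ * be * (v 1)⁻¹ * b * v 1 * (v 2)⁻¹ * (v 1)⁻¹)⁻¹ *
        (be⁻¹ * (v 1)⁻¹ * be * (v 1)⁻¹ * b * v 1) := by group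
    _ = (v 1)⁻¹ * ((v 1)⁻¹ * b)⁻¹ * (be⁻¹ * (v 1)⁻¹ * be * (v 1)⁻¹ * b * v 1) := by rw [← e5]
    _ = _ := by group

/-- `al` as a word in `b`, `c`, `t` -/
theorem TRel.al_eq : al = alW (bW al be v) be⁻¹ (v 1)⁻¹ := by
  set b := bW al be v with hb
  have ha := h.al1
  rw [← hb] at ha
  have c1 : be * al = al * be := h.comm.symm
  have c2 : al⁻¹ * be = be * al⁻¹ := by
    calc al⁻¹ * be = al⁻¹ * (be * al) * al⁻¹ := by group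
      _ = _ := by rw [c1]; group
  have c3 : al⁻¹ * be⁻¹ = be⁻¹ * al⁻¹ := by
    calc al⁻¹ * be⁻¹ = (be * al)⁻¹ := by group
      _ = (al * be)⁻¹ := by rw [c1]
      _ = _ := by group
  have k1 : (v 2)⁻¹ * be⁻¹ * (v 1)⁻¹ = al * b⁻¹ * v 1 * be⁻¹ := by
    conv_rhs => rw [ha]
    group
  have k2 : be⁻¹ * v 1 * be * v 2 = (v 1)⁻¹ * b * al⁻¹ := by
    conv_rhs => rw [ha]
    group
  -- v 3 in two ways
  have e1 : v 3 = be * ((v 2)⁻¹ * be⁻¹ * (v 1)⁻¹) * v 0 * v 1 * be * v 2 * be⁻¹ := by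
    calc v 3 = (v 1 * (be * v 2 * be⁻¹))⁻¹ * (v 1 * (be * v 2 * be⁻¹) * v 3) := by group
      _ = _ := by rw [h.r4]; group
  have e2 : v 0 = al⁻¹ * be * ((v 2)⁻¹ * be⁻¹ * (v 1)⁻¹) * be * b * be⁻¹ := by
    have := h.v0
    rw [← hb] at this
    rw [this]; group
  have e3 : v 3 = be * al * b⁻¹ * v 1 * b⁻¹ * v 1 * b * (v 1)⁻¹ * b * al⁻¹ * be⁻¹ := by
    rw [e1, e2, k1]
    calc be * (al * b⁻¹ * v 1 * be⁻¹) * (al⁻¹ * be * (al * b⁻¹ * v 1 * be⁻¹) * be * b * be⁻¹) *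
          v 1 * be * v 2 * be⁻¹
        = be * al * b⁻¹ * v 1 * be⁻¹ * (al⁻¹ * be) * al * b⁻¹ * v 1 * b *
          (be⁻¹ * v 1 * be * v 2) * be⁻¹ := by group
      _ = _ := by rw [c2, k2]; group
  have e4 : v 3 = al * v 1 * be * (al * b⁻¹ * v 1 * be⁻¹) * al⁻¹ := by
    rw [← k1]
    rw [h.v3]; group
  have e5 : al * be * b⁻¹ * v 1 * b⁻¹ * v 1 * b * (v 1)⁻¹ * b * be⁻¹ * al⁻¹ =
      al * v 1 * al * be * b⁻¹ * v 1 * be⁻¹ * al⁻¹ := by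
    calc al * be * b⁻¹ * v 1 * b⁻¹ * v 1 * b * (v 1)⁻¹ * b * be⁻¹ * al⁻¹
        = (be * al) * b⁻¹ * v 1 * b⁻¹ * v 1 * b * (v 1)⁻¹ * b * (al⁻¹ * be⁻¹) := by
          rw [c1, c3]; group
      _ = v 3 := by rw [e3]; group
      _ = al * v 1 * (be * al) * b⁻¹ * v 1 * be⁻¹ * al⁻¹ := by rw [e4]; group
      _ = _ := by rw [c1]; group
  have e6 : al = (v 1)⁻¹ * be * b⁻¹ * v 1 * b⁻¹ * v 1 * b * (v 1)⁻¹ * b * be⁻¹ *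
      (be * (v 1)⁻¹ * b * be⁻¹) := by
    calc al = (v 1)⁻¹ * al⁻¹ * (al * v 1 * al * be * b⁻¹ * v 1 * be⁻¹ * al⁻¹) * al *
          (be * (v 1)⁻¹ * b * be⁻¹) := by group
      _ = _ := by rw [← e5]; group
  have e7 : al = be⁻¹ * al * be := by
    calc al = be⁻¹ * (be * al) := by group
      _ = _ := by rw [c1]; group
  rw [e7]
  conv_lhs => rw [e6]
  unfold alW wW
  group

theorem TRel.toG : GRel (bW al be v) be⁻¹ (v 1)⁻¹ := by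
  set b := bW al be v with hb
  have ha := h.al_eq
  have ha1 := h.al1
  have hu := h.v2
  rw [← hb] at ha ha1 hu
  have c1 : be * al = al * be := h.comm.symm
  have hW : wW b (v 1)⁻¹ = be⁻¹ * v 1 * be * al := by
    conv_rhs => rw [ha]
    unfold alW; group
  refine ⟨?_, ?_, ?_, ?_⟩
  · have e : be⁻¹ * v 0 * be * (be⁻¹ * v 1 * be) * v 2 * al =
        (al⁻¹ * (v 2)⁻¹ * be⁻¹ * (v 1)⁻¹ * be) * b * (al⁻¹ * (v 2)⁻¹ * be⁻¹ * (v 1)⁻¹ * be)⁻¹ := by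
      have e0 := h.v0
      rw [← hb] at e0
      have c2 : be⁻¹ * al⁻¹ * be = al⁻¹ := by
        calc be⁻¹ * al⁻¹ * be = (be⁻¹ * (al * be))⁻¹ := by group
          _ = _ := by rw [← c1]; group
      rw [e0]
      calc be⁻¹ * (al⁻¹ * be * (v 2)⁻¹ * be⁻¹ * (v 1)⁻¹ * be * b * be⁻¹) * be *
            (be⁻¹ * v 1 * be) * v 2 * al
          = (be⁻¹ * al⁻¹ * be) * (v 2)⁻¹ * be⁻¹ * (v 1)⁻¹ * be * b *
            (be⁻¹ * v 1 * be) * v 2 * al := by group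
        _ = _ := by rw [c2]; group
    have h3 := h.h3
    rw [e, conj_pow] at h3
    have : b ^ 3 = (al⁻¹ * (v 2)⁻¹ * be⁻¹ * (v 1)⁻¹ * be)⁻¹ *
        ((al⁻¹ * (v 2)⁻¹ * be⁻¹ * (v 1)⁻¹ * be) * b ^ 3 *
          (al⁻¹ * (v 2)⁻¹ * be⁻¹ * (v 1)⁻¹ * be)⁻¹) * (al⁻¹ * (v 2)⁻¹ * be⁻¹ * (v 1)⁻¹ * be) := by
      group
    rw [this, h3]; group
  · rw [inv_pow, h.be4, inv_one]
  · rw [hW]
    have c4 : al * be⁻¹ * al⁻¹ = be⁻¹ := by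
      calc al * be⁻¹ * al⁻¹ = be⁻¹ * (be * al) * be⁻¹ * al⁻¹ := by group
        _ = _ := by rw [c1]; group
    calc be⁻¹ * (v 1)⁻¹⁻¹ * be⁻¹ * (v 1)⁻¹ * be⁻¹⁻¹
        = be⁻¹ * v 1 * be * be⁻¹ * be⁻¹ * (v 1)⁻¹ * be := by group
      _ = be⁻¹ * v 1 * be * (al * be⁻¹ * al⁻¹) * be⁻¹ * (v 1)⁻¹ * be := by rw [c4]
      _ = _ := by group
  · rw [hW]
    have k2 : be⁻¹ * v 1 * be * v 2 = (v 1)⁻¹ * b * al⁻¹ := by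
      conv_rhs => rw [ha1]
      group
    have c5 : be * al⁻¹ * be⁻¹ = al⁻¹ := by
      calc be * al⁻¹ * be⁻¹ = al⁻¹ * (al * be) * al⁻¹ * be⁻¹ := by group
        _ = al⁻¹ * (be * al) * al⁻¹ * be⁻¹ := by rw [c1]
        _ = _ := by group
    unfold uW at hu
    calc be⁻¹⁻¹ * (v 1)⁻¹ * b⁻¹ * (v 1)⁻¹⁻¹ * be⁻¹
        = be * ((v 1)⁻¹ * b⁻¹ * (v 1)⁻¹⁻¹ * be⁻¹ * (v 1)⁻¹ * be⁻¹⁻¹ * (v 1)⁻¹ * b * (v 1)⁻¹⁻¹) *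
          (v 1)⁻¹ * b⁻¹ * v 1 * be⁻¹ * v 1 := by group
      _ = be * v 2 * (v 1)⁻¹ * b⁻¹ * v 1 * be⁻¹ * v 1 := by rw [← hu]
      _ = (v 1)⁻¹ * be * (be⁻¹ * v 1 * be * v 2) * (v 1)⁻¹ * b⁻¹ * v 1 * be⁻¹ * v 1 := by group
      _ = (v 1)⁻¹ * be * ((v 1)⁻¹ * b * al⁻¹) * (v 1)⁻¹ * b⁻¹ * v 1 * be⁻¹ * v 1 := by rw [k2]
      _ = (v 1)⁻¹ * be * ((v 1)⁻¹ * b * (be * al⁻¹ * be⁻¹)) * (v 1)⁻¹ * b⁻¹ * v 1 * be⁻¹ * v 1 := by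
          rw [c5]
      _ = _ := by group

end fromT

section fromG

variable {b c t : A} (h : GRel b c t)

include h

theorem GRel.comm : alW b c t * c = c * alW b c t := by
  have h5 := h.r5
  unfold alW
  calc c * t * c⁻¹ * wW b t * c
      = c * t * c⁻¹ * (wW b t * c * (wW b t)⁻¹) * wW b t := by group
    _ = _ := by rw [← h5]; group

/-- `al` in a second form -/
theorem GRel.al1 : alW b c t = (uW b c t)⁻¹ * c * t * c⁻¹ * t * b := by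
  have h4 := h.r4
  have h5 := h.r5
  set W := wW b t with hW
  have e1 : W = c * (b⁻¹ * t⁻¹ * c * t⁻¹ * c⁻¹ * t * b * t⁻¹ * c * t * c⁻¹ * t * b) * c⁻¹ := by
    calc W = c * b⁻¹ * t⁻¹ * c * t⁻¹ *
          (t * c⁻¹ * t * b * c⁻¹ * W⁻¹ * c * b⁻¹ * t⁻¹ * c * t⁻¹)⁻¹ *
          (t * c⁻¹ * t * b * c⁻¹) := by group
      _ = _ := by rw [← h4]; group
  set Z := b⁻¹ * t⁻¹ * c * t⁻¹ * c⁻¹ * t * b * t⁻¹ * c * t * c⁻¹ * t * b with hZ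
  have e2 : Z * c⁻¹ * Z⁻¹ = t⁻¹ * c⁻¹ * t := by
    calc Z * c⁻¹ * Z⁻¹ = c⁻¹ * ((c * Z * c⁻¹) * c * (c * Z * c⁻¹)⁻¹)⁻¹ * c := by group
      _ = c⁻¹ * (W * c * W⁻¹)⁻¹ * c := by rw [← e1]
      _ = _ := by rw [← h5]; group
  have e3 : alW b c t = t * Z := by
    unfold alW
    rw [← hW, e1]
    calc c * t * c⁻¹ * (c * Z * c⁻¹) = c * t * (Z * c⁻¹ * Z⁻¹) * Z := by group
      _ = _ := by rw [e2]; group
  rw [e3, hZ]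
  unfold uW
  group

theorem GRel.toT : TRel (alW b c t) c⁻¹ (vW b c t) := by
  have hcomm := h.comm
  have ha1 := h.al1
  have hdef : alW b c t = c * t * c⁻¹ * (b⁻¹ * t⁻¹ * b⁻¹ * t⁻¹ * b * t * b * t * b) := rfl
  have hu : uW b c t = t * b⁻¹ * t⁻¹ * c * t * c⁻¹ * t * b * t⁻¹ := rfl
  set a := alW b c t with ha
  set u := uW b c t with hu'
  have w0 : vW b c t 0 = a⁻¹ * c⁻¹ * u⁻¹ * c * t * c⁻¹ * b * c := rfl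
  have w1 : vW b c t 1 = t⁻¹ := rfl
  have w2 : vW b c t 2 = u := rfl
  have w3 : vW b c t 3 = a * t⁻¹ * c⁻¹ * u⁻¹ * c * t * a⁻¹ := rfl
  have w4 : vW b c t 4 = a * t⁻¹ * u⁻¹ * t * a⁻¹ := rfl
  have c1 : c * a⁻¹ * c⁻¹ = a⁻¹ := by
    calc c * a⁻¹ * c⁻¹ = a⁻¹ * (a * c) * a⁻¹ * c⁻¹ := by group
      _ = _ := by rw [hcomm]; group
  have c2 : c⁻¹ * a = a * c⁻¹ := by
    calc c⁻¹ * a = c⁻¹ * (a * c) * c⁻¹ := by group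
      _ = _ := by rw [hcomm]; group
  have c3 : c * a = a * c := hcomm.symm
  have r0 : c * t⁻¹ * c⁻¹ * u = u * (a * t⁻¹ * u⁻¹ * t * a⁻¹) := by
    have e1 : u⁻¹ * c * t⁻¹ * c⁻¹ * u * a = a * t⁻¹ * u⁻¹ * t := by
      conv_lhs => rw [ha1]
      conv_rhs => rw [ha1]
      rw [hu]
      group
    calc c * t⁻¹ * c⁻¹ * u = u * (u⁻¹ * c * t⁻¹ * c⁻¹ * u * a) * a⁻¹ := by group
      _ = _ := by rw [e1]; group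
  have k1 : u⁻¹ * c * t = a * b⁻¹ * t⁻¹ * c := by rw [ha1]; group
  refine ⟨?_, ?_, ?_, ?_, ?_, ?_, ?_, ?_⟩
  · exact c2.symm
  · rw [inv_pow, h.c4, inv_one]
  · rw [w0, w1, w2]
    have e : c⁻¹⁻¹ * (a⁻¹ * c⁻¹ * u⁻¹ * c * t * c⁻¹ * b * c) * c⁻¹ *
        (c⁻¹⁻¹ * t⁻¹ * c⁻¹) * u * a =
        (a⁻¹ * u⁻¹ * c * t * c⁻¹) * b * (a⁻¹ * u⁻¹ * c * t * c⁻¹)⁻¹ := by
      calc c⁻¹⁻¹ * (a⁻¹ * c⁻¹ * u⁻¹ * c * t * c⁻¹ * b * c) * c⁻¹ * (c⁻¹⁻¹ * t⁻¹ * c⁻¹) * u * a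
          = (c * a⁻¹ * c⁻¹) * u⁻¹ * c * t * c⁻¹ * b * c * t⁻¹ * c⁻¹ * u * a := by group
        _ = _ := by rw [c1]; group
    rw [e, conj_pow, h.b3]; group
  · rw [w1, w2, w4, inv_inv]; exact r0
  · rw [w0, w1, w2, w4, ← r0, inv_inv]
    have k2 : c * t⁻¹ * c⁻¹ * u = t * b * a⁻¹ := by rw [ha1]; group
    calc c * t⁻¹ * c⁻¹ * u * (a * (c * (a⁻¹ * c⁻¹ * u⁻¹ * c * t * c⁻¹ * b * c) * c⁻¹) * a⁻¹)
        = c * t⁻¹ * c⁻¹ * u * a * (c * a⁻¹ * c⁻¹) * u⁻¹ * c * t * c⁻¹ * b * a⁻¹ := by group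
      _ = b * a⁻¹ := by rw [c1]; group
      _ = t⁻¹ * (t * b * a⁻¹) := by group
      _ = t⁻¹ * (c * t⁻¹ * c⁻¹ * u) := by rw [k2]
      _ = _ := by rw [r0]; group
  · rw [w1, w2, w4]; group
  · rw [w1, w2, w3]; group
  · rw [w0, w1, w2, w3]
    -- both sides in terms of a, b, c, t
    have k2 : t⁻¹ * c⁻¹ * u * c = c⁻¹ * (t * b * a⁻¹) * c := by
      have : c * t⁻¹ * c⁻¹ * u = t * b * a⁻¹ := by rw [ha1]; group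
      rw [← this]; group
    have e1 : a * t⁻¹ * c⁻¹ * u⁻¹ * c * t * a⁻¹ =
        c⁻¹ * a * b⁻¹ * t⁻¹ * b⁻¹ * t⁻¹ * b * t * b * a⁻¹ * c := by
      calc a * t⁻¹ * c⁻¹ * u⁻¹ * c * t * a⁻¹
          = a * t⁻¹ * c⁻¹ * (u⁻¹ * c * t) * a⁻¹ := by group
        _ = a * t⁻¹ * (c⁻¹ * a) * b⁻¹ * t⁻¹ * c * a⁻¹ := by rw [k1]; group
        _ = a * t⁻¹ * a * c⁻¹ * b⁻¹ * t⁻¹ * c * a⁻¹ := by rw [c2]; group
        _ = a * t⁻¹ * (c⁻¹ * a * c) * c⁻¹ * b⁻¹ * t⁻¹ * c * a⁻¹ := by rw [c2]; group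
        _ = a * c⁻¹ * b⁻¹ * t⁻¹ * b⁻¹ * t⁻¹ * b * t * b * (c * a⁻¹ * c⁻¹) * c := by
            rw [hdef]; group
        _ = (a * c⁻¹) * b⁻¹ * t⁻¹ * b⁻¹ * t⁻¹ * b * t * b * a⁻¹ * c := by rw [c1]
        _ = _ := by rw [← c2]
    have e2 : c⁻¹ * u⁻¹ * c * t * (a⁻¹ * c⁻¹ * u⁻¹ * c * t * c⁻¹ * b * c) *
        (t⁻¹ * c⁻¹ * u * c) =
        c⁻¹ * a * b⁻¹ * t⁻¹ * b⁻¹ * t⁻¹ * b * t * b * a⁻¹ * c := by
      rw [k2]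
      calc c⁻¹ * u⁻¹ * c * t * (a⁻¹ * c⁻¹ * u⁻¹ * c * t * c⁻¹ * b * c) *
            (c⁻¹ * (t * b * a⁻¹) * c)
          = c⁻¹ * (u⁻¹ * c * t) * a⁻¹ * c⁻¹ * (u⁻¹ * c * t) * c⁻¹ * b * t * b * a⁻¹ * c := by
            group
        _ = c⁻¹ * a * b⁻¹ * t⁻¹ * (c * a⁻¹ * c⁻¹) * a * b⁻¹ * t⁻¹ * b * t * b * a⁻¹ * c := by
            rw [k1]; group
        _ = _ := by rw [c1]; group
    calc t⁻¹ * (c⁻¹ * u * c⁻¹⁻¹) * (a * t⁻¹ * c⁻¹ * u⁻¹ * c * t * a⁻¹)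
        = (t⁻¹ * c⁻¹ * u * c) * (a * t⁻¹ * c⁻¹ * u⁻¹ * c * t * a⁻¹) := by group
      _ = (t⁻¹ * c⁻¹ * u * c) * (c⁻¹ * u⁻¹ * c * t *
          (a⁻¹ * c⁻¹ * u⁻¹ * c * t * c⁻¹ * b * c) * (t⁻¹ * c⁻¹ * u * c)) := by rw [e1, e2]
      _ = _ := by group

/-- the word for `b` gives back `b` -/
theorem GRel.bW_eq : bW (alW b c t) c⁻¹ (vW b c t) = b := by
  have w0 : vW b c t 0 = (alW b c t)⁻¹ * c⁻¹ * (uW b c t)⁻¹ * c * t * c⁻¹ * b * c := rfl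
  have w1 : vW b c t 1 = t⁻¹ := rfl
  have w2 : vW b c t 2 = uW b c t := rfl
  unfold bW
  rw [w0, w1, w2]
  group

end fromG

end Pool.Agent.Helper20.DFJ
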