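import Pool.Agent.Helper20.DFJ.Lines
import Pool.Agent.Helper20.DFJ.Rels

/-!
# DFJ: Cover, Knot
-/

section

/-!
# The homomorphism from the knot group to the orbifold group, and the Schreier action
-/

namespace Pool.Agent.Helper20.DFJ

section Conj

variable {A : Type*} [Group A] {al be : A} {v : ℕ → A}

/-- the translates of the meridians -/
def trans (al be : A) (v : ℕ → A) (m i n : ℕ) : A :=
  (al ^ m * be ^ n) * v i * (al ^ m * be ^ n)⁻¹

variable (h : TRel al be v)

include h

theorem TRel.alpow (m n : ℕ) : al ^ (m + 1) * be ^ n = al ^ m * be ^ n * al := by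
  have c : Commute al be := h.comm
  rw [pow_succ, mul_assoc, mul_assoc, (c.pow_right n).eq]

theorem TRel.trans_four (m i n : ℕ) : trans al be v m i (n + 4) = trans al be v m i n := by
  unfold trans
  rw [pow_add, h.be4, mul_one]

theorem TRel.trans_three (m i n : ℕ) : trans al be v m i (n + 3) =
    (al ^ m * be ^ n) * (be⁻¹ * v i * be) * (al ^ m * be ^ n)⁻¹ := by
  unfold trans
  have e : be ^ 3 = be⁻¹ := by
    rw [eq_inv_iff_mul_eq_one, ← pow_succ, h.be4]
  rw [pow_add, e]; group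

theorem TRel.trans_one (m i n : ℕ) : trans al be v m i (n + 1) =
    (al ^ m * be ^ n) * (be * v i * be⁻¹) * (al ^ m * be ^ n)⁻¹ := by
  unfold trans
  rw [pow_succ]; group

theorem TRel.trans_al (m i n : ℕ) : trans al be v (m + 1) i n =
    (al ^ m * be ^ n) * (al * v i * al⁻¹) * (al ^ m * be ^ n)⁻¹ := by
  unfold trans
  rw [h.alpow]; group

theorem TRel.trans_al_three (m i n : ℕ) : trans al be v (m + 1) i (n + 3) =
    (al ^ m * be ^ n) * (al * (be⁻¹ * v i * be) * al⁻¹) * (al ^ m * be ^ n)⁻¹ := by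
  rw [h.trans_three, h.alpow]; group

theorem TRel.trans_al_one (m i n : ℕ) : trans al be v (m + 1) i (n + 1) =
    (al ^ m * be ^ n) * (al * (be * v i * be⁻¹) * al⁻¹) * (al ^ m * be ^ n)⁻¹ := by
  rw [h.trans_one, h.alpow]; group

theorem TRel.total : tprod (trans al be v) 0 0 = (al ^ 3)⁻¹ := by
  rw [eq_inv_iff_mul_eq_one]
  have e : ∀ m i, trans al be v m i 3 = al ^ m * (be⁻¹ * v i * be) * (al ^ m)⁻¹ := by
    intro m i
    have := h.trans_three m i 0
    simpa using this
  have e0 : ∀ m i, trans al be v m i 0 = al ^ m * v i * (al ^ m)⁻¹ := by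
    intro m i
    simp [trans]
  simp only [tprod, tlist, List.map_cons, List.map_nil, List.prod_cons, List.prod_nil, e, e0,
    zero_add]
  have h3 := h.h3
  rw [pow_succ, pow_succ, pow_one] at h3
  refine Eq.trans ?_ h3
  group

theorem TRel.ext_eq (m i n : ℕ) (hm : m < 3) :
    ext (tprod (trans al be v) 0 0) (trans al be v) (m + 1) i n = trans al be v (m + 1) i n := by
  unfold ext
  split_ifs with h3
  · have : m = 2 := by omega
    subst this
    rw [h.total]
    unfold trans
    group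
  · rfl

theorem TRel.rows : Rows (tprod (trans al be v) 0 0) (trans al be v) where
  r0 m hm n := by
    rw [h.trans_three]
    unfold trans
    set g := al ^ m * be ^ n
    calc g * (be⁻¹ * v 1 * be) * g⁻¹ * (g * v 2 * g⁻¹) = g * (be⁻¹ * v 1 * be * v 2) * g⁻¹ := by
          group
      _ = _ := by rw [h.r0]; group
  r1 m hm n := by
    rw [h.ext_eq _ _ _ hm, h.trans_al_three]
    unfold trans
    set g := al ^ m * be ^ n
    calc g * v 2 * g⁻¹ * (g * v 4 * g⁻¹) * (g * (al * (be⁻¹ * v 0 * be) * al⁻¹) * g⁻¹)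
        = g * (v 2 * v 4 * (al * (be⁻¹ * v 0 * be) * al⁻¹)) * g⁻¹ := by group
      _ = _ := by rw [h.r1]; group
  r2 m hm n := by
    rw [h.ext_eq _ _ _ hm, h.ext_eq _ _ _ hm, h.trans_al, h.trans_al]
    unfold trans
    set g := al ^ m * be ^ n
    calc g * v 4 * g⁻¹ * (g * (al * v 1 * al⁻¹) * g⁻¹) * (g * (al * v 2 * al⁻¹) * g⁻¹)
        = g * (v 4 * (al * v 1 * al⁻¹) * (al * v 2 * al⁻¹)) * g⁻¹ := by group
      _ = _ := by rw [h.r2]
  r3 m hm n := by
    rw [h.ext_eq _ _ _ hm, h.ext_eq _ _ _ hm, h.trans_al, h.trans_al_one]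
    unfold trans
    set g := al ^ m * be ^ n
    calc g * v 3 * g⁻¹ * (g * (al * v 1 * al⁻¹) * g⁻¹) *
          (g * (al * (be * v 2 * be⁻¹) * al⁻¹) * g⁻¹)
        = g * (v 3 * (al * v 1 * al⁻¹) * (al * (be * v 2 * be⁻¹) * al⁻¹)) * g⁻¹ := by group
      _ = _ := by rw [h.r3]
  r4 m hm n := by
    rw [h.trans_one]
    unfold trans
    set g := al ^ m * be ^ n
    calc g * v 1 * g⁻¹ * (g * (be * v 2 * be⁻¹) * g⁻¹) * (g * v 3 * g⁻¹)
        = g * (v 1 * (be * v 2 * be⁻¹) * v 3) * g⁻¹ := by group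
      _ = _ := by rw [h.r4]; group

end Conj

/-! ### The homomorphism -/

section Hom

variable {A : Type*} [Group A]

/-- the torus meridians of `D60` from the function of `(m, i, n)` -/
def dec (E : ℕ → ℕ → ℕ → A) (c : ℕ) : A := E (c / 20) (c % 20 / 4) (c % 4)

theorem tri_dec (E : ℕ → ℕ → ℕ → A) (hper : ∀ m i n, E m i (n + 4) = E m i n) (m i n : ℕ)
    (hi : i < 5) : tri (dec E) m i n = E m i n := by
  unfold tri dec
  have h1 : (20 * m + 4 * i + n % 4) / 20 = m := by omega
  have h2 : (20 * m + 4 * i + n % 4) % 20 / 4 = i := by omega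
  have h3 : (20 * m + 4 * i + n % 4) % 4 = n % 4 := by omega
  rw [h1, h2, h3]
  have : ∀ k, E m i (n % 4 + 4 * k) = E m i (n % 4) := by
    intro k
    induction k with
    | zero => rfl
    | succ k ih => rw [← ih, ← hper m i (n % 4 + 4 * k)]; congr 1
  rw [← this (n / 4)]
  congr 1
  omega

theorem tlist_lt : ∀ n s : ℕ, ∀ t ∈ tlist n s, t.2.1 < 5 := by
  intro n s t ht
  unfold tlist at ht
  split at ht <;> simp only [List.mem_cons, List.not_mem_nil, or_false] at ht <;>
    (rcases ht with rfl | rfl | rfl | rfl | rfl | rfl | rfl | rfl | rfl <;> simp)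

theorem tprod_tri_dec (E : ℕ → ℕ → ℕ → A) (hper : ∀ m i n, E m i (n + 4) = E m i n) (n s : ℕ) :
    tprod (tri (dec E)) n s = tprod E n s := by
  unfold tprod
  congr 1
  apply List.map_congr_left
  intro t ht
  exact tri_dec E hper _ _ _ (tlist_lt n s t ht)

/-- the torus relations give the Wirtinger relations of `D60` -/
theorem wirt_of_tprod (v : ℕ → A) (x : Fin 60 → A) (hx : ∀ c : Fin 60, D60.un x c = fl flip60 v c)
    (hF : ∀ n s, s < 16 → tprod (tri v) n s = tprod (tri v) 0 0) (r : Fin 60) : D60.Wirt x r := by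
  refine (D60.wirt_iff_tline flip60 v x hx).2 ?_ r
  intro y hy
  rw [flipPre_eq]
  by_cases h : y = 60
  · subst h
    exact (tline_eq v 3 15 (by omega) (by omega)).trans (hF _ _ (by omega))
  · have e : y = 15 * (y / 15) + y % 15 := by omega
    rw [e, tline_eq v (y / 15) (y % 15) (by omega) (by omega)]
    exact hF _ _ (by omega)

/-- the Wirtinger relations of `D60` give the torus relations -/
theorem tprod_of_wirt (v : ℕ → A) (x : Fin 60 → A) (hx : ∀ c : Fin 60, D60.un x c = fl flip60 v c)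
    (hW : ∀ r, D60.Wirt x r) : ∀ n s, s < 16 → tprod (tri v) n s = tprod (tri v) 0 0 := by
  have h1 : ∀ n s, n < 4 → s < 16 → tprod (tri v) n s = tprod (tri v) 0 0 := by
    intro n s hn hs
    rw [← tline_eq v n s hn hs, ← flipPre_eq]
    exact (D60.wirt_iff_tline flip60 v x hx).1 hW _ (by omega)
  intro n s hs
  rw [← h1 (n % 4) s (by omega) hs]
  unfold tprod
  congr 1
  have e3 : (n % 4 + 3) % 4 = (n + 3) % 4 := by omega
  have e1 : (n % 4 + 1) % 4 = (n + 1) % 4 := by omega
  interval_cases s <;> simp [tlist, tri, e1, e3]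

theorem tri_four (v : ℕ → A) (m i n : ℕ) : tri v m i (n + 4) = tri v m i n := by
  unfold tri
  rw [Nat.add_mod_right]

/-- planar oriented meridians from torus meridians -/
def plane (v : ℕ → A) (c : Fin 60) : A := fl flip60 v c ^ D60.sgn c

theorem un_plane (v : ℕ → A) (c : Fin 60) : D60.un (plane v) c = fl flip60 v c := by
  unfold Grid.un plane
  simp only [c.2, dif_pos, Fin.eta]
  rw [← zpow_mul, D60.sgn_sq, zpow_one]

variable {al be : A} {v : ℕ → A}

/-- the meridians in a group with the toroidal relations satisfy the Wirtinger relations -/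
theorem TRel.wirt (h : TRel al be v) (r : Fin 60) :
    D60.Wirt (plane (dec (trans al be v))) r := by
  apply wirt_of_tprod (dec (trans al be v)) _ (un_plane _)
  intro n s hs
  rw [tprod_tri_dec _ h.trans_four, tprod_tri_dec _ h.trans_four]
  exact (rows_iff (trans al be v) _ h.trans_four rfl).2 h.rows n s hs

/-- the homomorphism from the knot group to the orbifold group -/
noncomputable def TRel.hom (h : TRel al be v) : D60.Grp →* A :=
  D60.lift (plane (dec (trans al be v))) h.wirt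

theorem TRel.hom_mer (h : TRel al be v) (c : Fin 60) :
    h.hom (D60.mer c) = plane (dec (trans al be v)) c := D60.lift_mer _ _ _

end Hom

/-! ### The action -/

section Action

/-- torus meridians in the knot group -/
noncomputable def tm : ℕ → D60.Grp := fl flip60 (D60.un D60.mer)

theorem fl_tm : fl flip60 tm = D60.un D60.mer := fl_fl _ _

theorem tm_tprod : ∀ n s, s < 16 → tprod (tri tm) n s = tprod (tri tm) 0 0 := by
  apply tprod_of_wirt tm D60.mer
  · intro c; rw [fl_tm]
  · exact D60.wirt_mer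

/-- the element `F` of the knot group -/
noncomputable def FK : D60.Grp := tprod (tri tm) 0 0

theorem tm_rows : Rows FK (tri tm) :=
  (rows_iff (tri tm) FK (tri_four tm) rfl).1 tm_tprod

/-- `(m, i, n) ↦` meridian, with `n` modulo 4 -/
noncomputable def eK (m i : ℕ) (n : ZMod 4) : D60.Grp := tri tm m i n.val

theorem tri_val (m i k : ℕ) : tri tm m i k = eK m i (k : ZMod 4) := by
  unfold eK tri
  rw [ZMod.val_natCast, Nat.mod_mod]

/-- the set on which the orbifold group acts -/
abbrev Om : Type := Fin 3 × ZMod 4 × D60.Grp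

/-- action of `be` -/
noncomputable def permBe : Equiv.Perm Om where
  toFun p := (p.1, p.2.1 - 1, p.2.2)
  invFun p := (p.1, p.2.1 + 1, p.2.2)
  left_inv p := by simp
  right_inv p := by simp

/-- action of `al` -/
noncomputable def permAl : Equiv.Perm Om where
  toFun p := if p.1 = 0 then (2, p.2.1, FK⁻¹ * p.2.2) else (p.1 - 1, p.2.1, p.2.2)
  invFun p := if p.1 = 2 then (0, p.2.1, FK * p.2.2) else (p.1 + 1, p.2.1, p.2.2)
  left_inv p := by
    obtain ⟨m, n, g⟩ := p
    fin_cases m <;> simp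
  right_inv p := by
    obtain ⟨m, n, g⟩ := p
    fin_cases m <;> simp

/-- action of the meridians -/
noncomputable def permV (i : ℕ) : Equiv.Perm Om where
  toFun p := (p.1, p.2.1, eK p.1.val i p.2.1 * p.2.2)
  invFun p := (p.1, p.2.1, (eK p.1.val i p.2.1)⁻¹ * p.2.2)
  left_inv p := by simp
  right_inv p := by simp

theorem val_sub_one : ∀ n : ZMod 4, (((n.val + 3 : ℕ) : ZMod 4)) = n - 1 := by decide

theorem val_add_one : ∀ n : ZMod 4, (((n.val + 1 : ℕ) : ZMod 4)) = n + 1 := by decide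

theorem val_cast : ∀ n : ZMod 4, ((n.val : ℕ) : ZMod 4) = n := by decide

theorem ek0 (m : Fin 3) (n : ZMod 4) : eK m 1 (n - 1) * eK m 2 n = eK m 2 n * eK m 4 n := by
  have h := tm_rows.r0 m m.2 n.val
  simp only [tri_val, val_sub_one, val_cast] at h
  exact h

theorem ek1 (m : Fin 2) (n : ZMod 4) :
    eK m 2 n * eK m 4 n * eK (m + 1) 0 (n - 1) = eK m 1 n * eK m 2 n * eK m 4 n := by
  have h := tm_rows.r1 m (by omega) n.val
  have : ¬ (m : ℕ) + 1 = 3 := by omega
  simp only [ext, if_neg this, tri_val, val_sub_one, val_cast] at h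
  exact h

theorem ek1w (n : ZMod 4) :
    eK 2 2 n * eK 2 4 n * (FK⁻¹ * eK 0 0 (n - 1) * FK) = eK 2 1 n * eK 2 2 n * eK 2 4 n := by
  have h := tm_rows.r1 2 (by omega) n.val
  simp only [ext, tri_val, val_sub_one, val_cast, if_true] at h
  exact h

theorem ek2 (m : Fin 2) (n : ZMod 4) :
    eK m 4 n * eK (m + 1) 1 n * eK (m + 1) 2 n = eK (m + 1) 1 n := by
  have h := tm_rows.r2 m (by omega) n.val
  have : ¬ (m : ℕ) + 1 = 3 := by omega
  simp only [ext, if_neg this, tri_val, val_cast] at h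
  exact h

theorem ek2w (n : ZMod 4) :
    eK 2 4 n * (FK⁻¹ * eK 0 1 n * FK) * (FK⁻¹ * eK 0 2 n * FK) = FK⁻¹ * eK 0 1 n * FK := by
  have h := tm_rows.r2 2 (by omega) n.val
  simp only [ext, tri_val, val_cast, if_true] at h
  exact h

theorem ek3 (m : Fin 2) (n : ZMod 4) :
    eK m 3 n * eK (m + 1) 1 n * eK (m + 1) 2 (n + 1) = eK (m + 1) 1 n := by
  have h := tm_rows.r3 m (by omega) n.val
  have : ¬ (m : ℕ) + 1 = 3 := by omega
  simp only [ext, if_neg this, tri_val, val_add_one, val_cast] at h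
  exact h

theorem ek3w (n : ZMod 4) :
    eK 2 3 n * (FK⁻¹ * eK 0 1 n * FK) * (FK⁻¹ * eK 0 2 (n + 1) * FK) = FK⁻¹ * eK 0 1 n * FK := by
  have h := tm_rows.r3 2 (by omega) n.val
  simp only [ext, tri_val, val_add_one, val_cast, if_true] at h
  exact h

theorem ek4 (m : Fin 3) (n : ZMod 4) :
    eK m 1 n * eK m 2 (n + 1) * eK m 3 n = eK m 0 n * eK m 1 n * eK m 2 (n + 1) := by
  have h := tm_rows.r4 m m.2 n.val
  simp only [tri_val, val_add_one, val_cast] at h
  exact h

/-- `F` in terms of the meridians crossing the line `n` -/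
theorem FK_eq (n : ZMod 4) : FK = eK 0 0 (n - 1) * eK 0 1 (n - 1) * eK 0 2 n *
    (eK 1 0 (n - 1) * eK 1 1 (n - 1) * eK 1 2 n) *
    (eK 2 0 (n - 1) * eK 2 1 (n - 1) * eK 2 2 n) := by
  have h := tm_tprod n.val 0 (by omega)
  simp only [tprod, tlist, List.map_cons, List.map_nil, List.prod_cons, List.prod_nil, tri_val,
    val_sub_one, val_cast, mul_one] at h
  unfold FK
  simp only [tprod, tlist, List.map_cons, List.map_nil, List.prod_cons, List.prod_nil, tri_val,
    mul_one]
  simp only [mul_assoc] at h ⊢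
  exact h.symm

theorem permBe_apply (m : Fin 3) (n : ZMod 4) (g : D60.Grp) : permBe (m, n, g) = (m, n - 1, g) :=
  rfl

theorem permBe_inv (m : Fin 3) (n : ZMod 4) (g : D60.Grp) : permBe⁻¹ (m, n, g) = (m, n + 1, g) :=
  rfl

theorem permV_apply (i : ℕ) (m : Fin 3) (n : ZMod 4) (g : D60.Grp) :
    permV i (m, n, g) = (m, n, eK m i n * g) := rfl

theorem permAl_zero (n : ZMod 4) (g : D60.Grp) : permAl (0, n, g) = (2, n, FK⁻¹ * g) := rfl

theorem permAl_one (n : ZMod 4) (g : D60.Grp) : permAl (1, n, g) = (0, n, g) := rfl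

theorem permAl_two (n : ZMod 4) (g : D60.Grp) : permAl (2, n, g) = (1, n, g) := rfl

theorem permAl_inv_zero (n : ZMod 4) (g : D60.Grp) : permAl⁻¹ (0, n, g) = (1, n, g) := rfl

theorem permAl_inv_one (n : ZMod 4) (g : D60.Grp) : permAl⁻¹ (1, n, g) = (2, n, g) := rfl

theorem permAl_inv_two (n : ZMod 4) (g : D60.Grp) : permAl⁻¹ (2, n, g) = (0, n, FK * g) := rfl

theorem perm_conj (i : ℕ) (m : Fin 3) (n : ZMod 4) (g : D60.Grp) :
    (permBe⁻¹ * permV i * permBe) (m, n, g) = (m, n, eK m i (n - 1) * g) := by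
  simp [Equiv.Perm.mul_apply, permBe_apply, permBe_inv, permV_apply]

theorem perm_conj' (i : ℕ) (m : Fin 3) (n : ZMod 4) (g : D60.Grp) :
    (permBe * permV i * permBe⁻¹) (m, n, g) = (m, n, eK m i (n + 1) * g) := by
  simp [Equiv.Perm.mul_apply, permBe_apply, permBe_inv, permV_apply]

theorem al_conj {Q : Equiv.Perm Om} {q : Fin 3 → ZMod 4 → D60.Grp}
    (hQ : ∀ m n g, Q (m, n, g) = (m, n, q m n * g)) (n : ZMod 4) (g : D60.Grp) :
    (permAl * Q * permAl⁻¹) (0, n, g) = (0, n, q 1 n * g) ∧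
    (permAl * Q * permAl⁻¹) (1, n, g) = (1, n, q 2 n * g) ∧
    (permAl * Q * permAl⁻¹) (2, n, g) = (2, n, FK⁻¹ * (q 0 n * (FK * g))) := by
  refine ⟨?_, ?_, ?_⟩
  · rw [Equiv.Perm.mul_apply, Equiv.Perm.mul_apply, permAl_inv_zero, hQ, permAl_one]
  · rw [Equiv.Perm.mul_apply, Equiv.Perm.mul_apply, permAl_inv_one, hQ, permAl_two]
  · rw [Equiv.Perm.mul_apply, Equiv.Perm.mul_apply, permAl_inv_two, hQ, permAl_zero]

theorem perm_TRel : TRel permAl permBe permV where
  comm := by
    ext1 ⟨m, n, g⟩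
    fin_cases m <;> rfl
  be4 := by
    ext1 ⟨m, n, g⟩
    have h : n - 1 - 1 - 1 - 1 = n := by
      revert n; decide
    show (m, n - 1 - 1 - 1 - 1, g) = (m, n, g)
    rw [h]
  h3 := by
    ext1 ⟨m, n, g⟩
    set hp : Equiv.Perm Om := permBe⁻¹ * permV 0 * permBe *
        (permBe⁻¹ * permV 1 * permBe) * permV 2 with hhp
    set H : Fin 3 → D60.Grp := fun m => eK m 0 (n - 1) * eK m 1 (n - 1) * eK m 2 n with hH
    have e : ∀ (m : Fin 3) (g : D60.Grp), hp (m, n, g) = (m, n, H m * g) := by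
      intro m g
      rw [hhp, hH, Equiv.Perm.mul_apply, Equiv.Perm.mul_apply, permV_apply, perm_conj, perm_conj]
      simp only [mul_assoc]
    have hF : FK = H 0 * H 1 * H 2 := FK_eq n
    rw [pow_succ, pow_two]
    show hp (permAl (hp (permAl (hp (permAl (m, n, g)))))) = (m, n, g)
    fin_cases m
    · show hp (permAl (hp (permAl (hp (permAl (0, n, g)))))) = (0, n, g)
      rw [permAl_zero, e, permAl_two, e, permAl_one, e]
      have : H 0 * (H 1 * (H 2 * (FK⁻¹ * g))) = g := by rw [hF]; group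
      rw [this]
    · show hp (permAl (hp (permAl (hp (permAl (1, n, g)))))) = (1, n, g)
      rw [permAl_one, e, permAl_zero, e, permAl_two, e]
      have : H 1 * (H 2 * (FK⁻¹ * (H 0 * g))) = g := by rw [hF]; group
      rw [this]
    · show hp (permAl (hp (permAl (hp (permAl (2, n, g)))))) = (2, n, g)
      rw [permAl_two, e, permAl_one, e, permAl_zero, e]
      have : H 2 * (FK⁻¹ * (H 0 * (H 1 * g))) = g := by rw [hF]; group
      rw [this]
  r0 := by
    ext1 ⟨m, n, g⟩
    rw [Equiv.Perm.mul_apply, permV_apply, perm_conj, Equiv.Perm.mul_apply, permV_apply,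
      permV_apply, ← mul_assoc, ← mul_assoc, ek0]
  r1 := by
    ext1 ⟨m, n, g⟩
    have hc := al_conj (Q := permBe⁻¹ * permV 0 * permBe) (q := fun m n => eK m 0 (n - 1))
      (fun m n g => perm_conj 0 m n g) n g
    rw [Equiv.Perm.mul_apply, Equiv.Perm.mul_apply (permV 1 * permV 2), Equiv.Perm.mul_apply
      (permV 1), permV_apply, permV_apply, permV_apply, Equiv.Perm.mul_apply]
    fin_cases m
    · refine (congrArg (fun z => permV 2 (permV 4 z)) hc.1).trans ?_
      have h := ek1 0 n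
      show (0, n, eK 0 2 n * (eK 0 4 n * (eK 1 0 (n - 1) * g))) =
        (0, n, eK 0 1 n * (eK 0 2 n * (eK 0 4 n * g)))
      rw [← mul_assoc, ← mul_assoc, ← mul_assoc, ← mul_assoc]
      exact congrArg (fun z => (0, n, z * g)) h
    · refine (congrArg (fun z => permV 2 (permV 4 z)) hc.2.1).trans ?_
      have h := ek1 1 n
      show (1, n, eK 1 2 n * (eK 1 4 n * (eK 2 0 (n - 1) * g))) =
        (1, n, eK 1 1 n * (eK 1 2 n * (eK 1 4 n * g)))
      rw [← mul_assoc, ← mul_assoc, ← mul_assoc, ← mul_assoc]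
      exact congrArg (fun z => (1, n, z * g)) h
    · refine (congrArg (fun z => permV 2 (permV 4 z)) hc.2.2).trans ?_
      have h := congrArg (fun z => (((2 : Fin 3), n, z * g) : Om)) (ek1w n)
      show (2, n, eK 2 2 n * (eK 2 4 n * (FK⁻¹ * (eK 0 0 (n - 1) * (FK * g))))) =
        (2, n, eK 2 1 n * (eK 2 2 n * (eK 2 4 n * g)))
      simp only [mul_assoc] at h ⊢
      exact h
  r2 := by
    ext1 ⟨m, n, g⟩
    have hc1 := al_conj (Q := permV 1) (q := fun m n => eK m 1 n) (fun m n g => permV_apply 1 m n g)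
    have hc2 := al_conj (Q := permV 2) (q := fun m n => eK m 2 n) (fun m n g => permV_apply 2 m n g)
    rw [Equiv.Perm.mul_apply, Equiv.Perm.mul_apply]
    fin_cases m
    · refine (congrArg (fun z => permV 4 ((permAl * permV 1 * permAl⁻¹) z)) (hc2 n g).1).trans ?_
      refine (congrArg (fun z => permV 4 z) (hc1 n _).1).trans ?_
      refine Eq.trans ?_ (hc1 n g).1.symm
      have h := congrArg (fun z => (((0 : Fin 3), n, z * g) : Om)) (ek2 0 n)
      simp only [mul_assoc] at h
      exact h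
    · refine (congrArg (fun z => permV 4 ((permAl * permV 1 * permAl⁻¹) z)) (hc2 n g).2.1).trans ?_
      refine (congrArg (fun z => permV 4 z) (hc1 n _).2.1).trans ?_
      refine Eq.trans ?_ (hc1 n g).2.1.symm
      have h := congrArg (fun z => (((1 : Fin 3), n, z * g) : Om)) (ek2 1 n)
      simp only [mul_assoc] at h
      exact h
    · refine (congrArg (fun z => permV 4 ((permAl * permV 1 * permAl⁻¹) z)) (hc2 n g).2.2).trans ?_
      refine (congrArg (fun z => permV 4 z) (hc1 n _).2.2).trans ?_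
      refine Eq.trans ?_ (hc1 n g).2.2.symm
      have h := congrArg (fun z => (((2 : Fin 3), n, z * g) : Om)) (ek2w n)
      simp only [mul_assoc] at h
      exact h
  r3 := by
    ext1 ⟨m, n, g⟩
    have hc1 := al_conj (Q := permV 1) (q := fun m n => eK m 1 n) (fun m n g => permV_apply 1 m n g)
    have hc2 := al_conj (Q := permBe * permV 2 * permBe⁻¹) (q := fun m n => eK m 2 (n + 1))
      (fun m n g => perm_conj' 2 m n g)
    rw [Equiv.Perm.mul_apply, Equiv.Perm.mul_apply]
    fin_cases m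
    · refine (congrArg (fun z => permV 3 ((permAl * permV 1 * permAl⁻¹) z)) (hc2 n g).1).trans ?_
      refine (congrArg (fun z => permV 3 z) (hc1 n _).1).trans ?_
      refine Eq.trans ?_ (hc1 n g).1.symm
      have h := congrArg (fun z => (((0 : Fin 3), n, z * g) : Om)) (ek3 0 n)
      simp only [mul_assoc] at h
      exact h
    · refine (congrArg (fun z => permV 3 ((permAl * permV 1 * permAl⁻¹) z)) (hc2 n g).2.1).trans ?_
      refine (congrArg (fun z => permV 3 z) (hc1 n _).2.1).trans ?_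
      refine Eq.trans ?_ (hc1 n g).2.1.symm
      have h := congrArg (fun z => (((1 : Fin 3), n, z * g) : Om)) (ek3 1 n)
      simp only [mul_assoc] at h
      exact h
    · refine (congrArg (fun z => permV 3 ((permAl * permV 1 * permAl⁻¹) z)) (hc2 n g).2.2).trans ?_
      refine (congrArg (fun z => permV 3 z) (hc1 n _).2.2).trans ?_
      refine Eq.trans ?_ (hc1 n g).2.2.symm
      have h := congrArg (fun z => (((2 : Fin 3), n, z * g) : Om)) (ek3w n)
      simp only [mul_assoc] at h
      exact h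
  r4 := by
    ext1 ⟨m, n, g⟩
    rw [Equiv.Perm.mul_apply, permV_apply, Equiv.Perm.mul_apply, perm_conj', permV_apply,
      Equiv.Perm.mul_apply, perm_conj', Equiv.Perm.mul_apply, permV_apply, permV_apply,
      ← mul_assoc, ← mul_assoc, ek4]
    simp only [mul_assoc]

end Action

end Pool.Agent.Helper20.DFJ

end

section

/-!
# The knot group of `D60` is the kernel of a character of the orbifold group
-/

namespace Pool.Agent.Helper20.DFJ

/-! ### The presented group -/

/-- relators of the orbifold group (generators `b = 0`, `c = 1`, `t = 2`) -/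
def g3rels : Set (FreeGroup (Fin 3)) :=
  let b : FreeGroup (Fin 3) := FreeGroup.of 0
  let c : FreeGroup (Fin 3) := FreeGroup.of 1
  let t : FreeGroup (Fin 3) := FreeGroup.of 2
  {b ^ 3, c ^ 4, c * t⁻¹ * c * t * c⁻¹ * (wW b t * c * (wW b t)⁻¹)⁻¹,
    c⁻¹ * t * b⁻¹ * t⁻¹ * c *
      (t * c⁻¹ * t * b * c⁻¹ * (wW b t)⁻¹ * c * b⁻¹ * t⁻¹ * c * t⁻¹)⁻¹}

/-- the orbifold group -/
abbrev G3 : Type := PresentedGroup g3rels

namespace G3

def b : G3 := PresentedGroup.of 0
def c : G3 := PresentedGroup.of 1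
def t : G3 := PresentedGroup.of 2

theorem map_wW {A B : Type*} [Group A] [Group B] (f : A →* B) (b t : A) :
    f (wW b t) = wW (f b) (f t) := by
  simp [wW]

theorem rel : GRel b c t := by
  have h : ∀ r ∈ g3rels, (PresentedGroup.mk g3rels) r = 1 := fun r hr =>
    PresentedGroup.one_of_mem hr
  have h1 := h _ (Or.inl rfl)
  have h2 := h _ (Or.inr (Or.inl rfl))
  have h3 := h _ (Or.inr (Or.inr (Or.inl rfl)))
  have h4 := h _ (Or.inr (Or.inr (Or.inr rfl)))
  refine ⟨?_, ?_, ?_, ?_⟩
  · rw [map_pow] at h1; exact h1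
  · rw [map_pow] at h2; exact h2
  · rw [map_mul, map_inv, mul_inv_eq_one] at h3
    simp only [map_mul, map_inv, map_wW] at h3
    exact h3
  · rw [map_mul, map_inv, mul_inv_eq_one] at h4
    simp only [map_mul, map_inv, map_wW] at h4
    exact h4

variable {A : Type*} [Group A]

/-- homomorphisms out of the orbifold group -/
def lift (b' c' t' : A) (h : GRel b' c' t') : G3 →* A :=
  PresentedGroup.toGroup (f := ![b', c', t']) (by
    intro r hr
    rcases hr with rfl | rfl | rfl | rfl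
    · simpa using h.b3
    · simpa using h.c4
    · rw [map_mul, map_inv, mul_inv_eq_one]
      simpa [map_wW] using h.r5
    · rw [map_mul, map_inv, mul_inv_eq_one]
      simpa [map_wW] using h.r4)

@[simp] theorem lift_b (b' c' t' : A) (h : GRel b' c' t') : lift b' c' t' h b = b' :=
  PresentedGroup.toGroup.of _

@[simp] theorem lift_c (b' c' t' : A) (h : GRel b' c' t') : lift b' c' t' h c = c' :=
  PresentedGroup.toGroup.of _

@[simp] theorem lift_t (b' c' t' : A) (h : GRel b' c' t') : lift b' c' t' h t = t' :=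
  PresentedGroup.toGroup.of _

theorem closure_eq : Subgroup.closure ({b, c, t} : Set G3) = ⊤ := by
  rw [eq_top_iff, ← PresentedGroup.closure_range_of g3rels, Subgroup.closure_le]
  rintro _ ⟨i, rfl⟩
  apply Subgroup.subset_closure
  fin_cases i
  · exact Or.inl rfl
  · exact Or.inr (Or.inl rfl)
  · exact Or.inr (Or.inr rfl)

/-- a subgroup containing the three generators is everything -/
theorem mem_of_gens {S : Subgroup G3} (hb : b ∈ S) (hc : c ∈ S) (ht : t ∈ S) (g : G3) : g ∈ S := by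
  have : Subgroup.closure ({b, c, t} : Set G3) ≤ S := by
    rw [Subgroup.closure_le]
    rintro x (rfl | rfl | rfl)
    · exact hb
    · exact hc
    · exact ht
  rw [closure_eq] at this
  exact this (Subgroup.mem_top g)

end G3

/-! ### Functoriality of the flip -/

section Map

variable {A B : Type*} [Group A] [Group B]

theorem map_pre (f : A →* B) (v : ℕ → A) (k : ℕ) : f (pre v k) = pre (fun c => f (v c)) k := by
  induction k with
  | zero => simp
  | succ k ih => rw [pre_succ, pre_succ, map_mul, ih]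

theorem map_flipPre (f : A →* B) (flip : ℕ → Bool) (v : ℕ → A) (k : ℕ) :
    f (flipPre flip v k) = flipPre flip (fun c => f (v c)) k := by
  unfold flipPre
  rw [map_pre]
  congr 1
  funext c
  split <;> simp

theorem map_fl (f : A →* B) (flip : ℕ → Bool) (v : ℕ → A) (c : ℕ) :
    f (fl flip v c) = fl flip (fun c => f (v c)) c := by
  unfold fl
  rw [map_mul, map_mul, map_inv, map_flipPre]
  congr 2
  split <;> simp

theorem flipPre_congr {flip : ℕ → Bool} {v w : ℕ → A} {k : ℕ} (h : ∀ c < k, v c = w c) :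
    flipPre flip v k = flipPre flip w k := by
  unfold flipPre
  rw [← seg_zero, ← seg_zero]
  exact seg_congr (Nat.zero_le _) (fun c _ hc => by rw [h c hc])

theorem fl_congr {flip : ℕ → Bool} {v w : ℕ → A} {k : ℕ} (h : ∀ c ≤ k, v c = w c) :
    fl flip v k = fl flip w k := by
  unfold fl
  rw [flipPre_congr (fun c hc => h c hc.le), h k le_rfl]

theorem flipPre_mem {S : Subgroup A} {flip : ℕ → Bool} {v : ℕ → A} {k : ℕ}
    (h : ∀ c < k, v c ∈ S) : flipPre flip v k ∈ S := by
  unfold flipPre pre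
  apply Subgroup.list_prod_mem
  intro x hx
  rw [List.mem_map] at hx
  obtain ⟨c, hc, rfl⟩ := hx
  split
  · exact h c (List.mem_range.1 hc)
  · exact S.one_mem

theorem fl_mem {S : Subgroup A} {flip : ℕ → Bool} {v : ℕ → A} {k : ℕ}
    (h : ∀ c ≤ k, v c ∈ S) : fl flip v k ∈ S := by
  unfold fl
  have h1 : flipPre flip v k ∈ S := flipPre_mem (fun c hc => h c hc.le)
  refine S.mul_mem (S.mul_mem h1 ?_) (S.inv_mem h1)
  split
  · exact S.inv_mem (h k le_rfl)
  · exact h k le_rfl

theorem map_trans (f : A →* B) (al be : A) (v : ℕ → A) (m i n : ℕ) :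
    f (trans al be v m i n) = trans (f al) (f be) (fun i => f (v i)) m i n := by
  simp [trans]

theorem map_alW (f : A →* B) (b c t : A) : f (alW b c t) = alW (f b) (f c) (f t) := by
  simp [alW, wW]

theorem map_uW (f : A →* B) (b c t : A) : f (uW b c t) = uW (f b) (f c) (f t) := by
  simp [uW]

theorem map_vW (f : A →* B) (b c t : A) (i : ℕ) : f (vW b c t i) = vW (f b) (f c) (f t) i := by
  match i with
  | 0 => simp [vW, map_alW, map_uW]
  | 1 => simp [vW]
  | 2 => simp [vW, map_uW]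
  | 3 => simp [vW, map_alW, map_uW]
  | n + 4 => simp [vW, map_alW, map_uW]

theorem map_bW (f : A →* B) (al be : A) (v : ℕ → A) :
    f (bW al be v) = bW (f al) (f be) (fun i => f (v i)) := by
  simp [bW]

theorem TRel.v_eq {al be : A} {v : ℕ → A} (h : TRel al be v) (i : ℕ) (hi : i < 5) :
    v i = vW (bW al be v) be⁻¹ (v 1)⁻¹ i := by
  have h1 := h.v0
  have h2 := h.v2
  have h3 := h.v3
  have h4 := h.v4
  have ha := h.al_eq
  interval_cases i
  · show v 0 = (alW (bW al be v) be⁻¹ (v 1)⁻¹)⁻¹ * be⁻¹⁻¹ * (uW (bW al be v) be⁻¹ (v 1)⁻¹)⁻¹ *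
      be⁻¹ * (v 1)⁻¹ * be⁻¹⁻¹ * bW al be v * be⁻¹
    rw [← ha, ← h2, inv_inv]; exact h1
  · simp [vW]
  · exact h2
  · show v 3 = alW (bW al be v) be⁻¹ (v 1)⁻¹ * (v 1)⁻¹⁻¹ * be⁻¹⁻¹ *
      (uW (bW al be v) be⁻¹ (v 1)⁻¹)⁻¹ * be⁻¹ * (v 1)⁻¹ * (alW (bW al be v) be⁻¹ (v 1)⁻¹)⁻¹
    rw [← ha, ← h2, inv_inv, inv_inv]; exact h3
  · show v 4 = alW (bW al be v) be⁻¹ (v 1)⁻¹ * (v 1)⁻¹⁻¹ *
      (uW (bW al be v) be⁻¹ (v 1)⁻¹)⁻¹ * (v 1)⁻¹ * (alW (bW al be v) be⁻¹ (v 1)⁻¹)⁻¹
    rw [← ha, ← h2, inv_inv]; exact h4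

end Map

/-! ### The homomorphism and the action -/

/-- the toroidal generators of `G3` -/
def gal : G3 := alW G3.b G3.c G3.t
def gv (i : ℕ) : G3 := vW G3.b G3.c G3.t i

theorem gT : TRel gal G3.c⁻¹ gv := G3.rel.toT

/-- the homomorphism from the knot group to the orbifold group -/
noncomputable def ff : D60.Grp →* G3 := gT.hom

/-- the action of the orbifold group -/
noncomputable def act : G3 →* Equiv.Perm Om :=
  G3.lift _ _ _ perm_TRel.toG

theorem act_c : act G3.c = permBe⁻¹ := G3.lift_c _ _ _ _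

theorem act_be : act G3.c⁻¹ = permBe := by rw [map_inv, act_c, inv_inv]

theorem act_al : act gal = permAl := by
  unfold gal
  rw [map_alW]
  unfold act
  rw [G3.lift_b, G3.lift_c, G3.lift_t]
  exact perm_TRel.al_eq.symm

theorem act_v (i : ℕ) (hi : i < 5) : act (gv i) = permV i := by
  unfold gv
  rw [map_vW]
  unfold act
  rw [G3.lift_b, G3.lift_c, G3.lift_t]
  exact (perm_TRel.v_eq i hi).symm

theorem perm_base (m : Fin 3) (n : ℕ) (g : D60.Grp) :
    (permAl ^ (m : ℕ) * permBe ^ n) (m, (n : ZMod 4), g) = (0, 0, g) := by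
  have h1 : ∀ n : ℕ, (permBe ^ n) (m, (n : ZMod 4), g) = (m, 0, g) := by
    intro n
    induction n with
    | zero => simp
    | succ n ih =>
      rw [pow_succ, Equiv.Perm.mul_apply, permBe_apply]
      have : ((n + 1 : ℕ) : ZMod 4) - 1 = (n : ZMod 4) := by push_cast; ring
      rw [this, ih]
  rw [Equiv.Perm.mul_apply, h1]
  fin_cases m
  · rfl
  · show (permAl ^ 1) (1, 0, g) = _
    rw [pow_one, permAl_one]
  · show (permAl ^ 2) (2, 0, g) = _
    rw [pow_two, Equiv.Perm.mul_apply, permAl_two, permAl_one]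

/-- the translates of the meridians act at the base point by multiplication -/
theorem act_trans (m i n : ℕ) (hm : m < 3) (hi : i < 5) (g : D60.Grp) :
    act (trans gal G3.c⁻¹ gv m i n) (0, 0, g) = (0, 0, eK m i n * g) := by
  have e : act (trans gal G3.c⁻¹ gv m i n) =
      (permAl ^ m * permBe ^ n) * permV i * (permAl ^ m * permBe ^ n)⁻¹ := by
    unfold trans
    rw [map_mul, map_mul, map_inv, map_mul, map_pow, map_pow, act_al, act_be, act_v i hi]
  rw [e, Equiv.Perm.mul_apply, Equiv.Perm.mul_apply]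
  have h1 : (permAl ^ m * permBe ^ n)⁻¹ (0, 0, g) = ((⟨m, hm⟩ : Fin 3), (n : ZMod 4), g) := by
    rw [Equiv.Perm.inv_eq_iff_eq]
    exact (perm_base ⟨m, hm⟩ n g).symm
  rw [h1, permV_apply]
  exact perm_base ⟨m, hm⟩ n _

/-- pairs (element of the orbifold group, element of the knot group) which agree at the base
point -/
def agree : Subgroup (G3 × D60.Grp) where
  carrier := {p | ∀ g, act p.1 (0, 0, g) = (0, 0, p.2 * g)}
  one_mem' g := by simp
  mul_mem' := by
    intro p q hp hq g
    show act (p.1 * q.1) (0, 0, g) = (0, 0, p.2 * q.2 * g)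
    rw [map_mul, Equiv.Perm.mul_apply, hq g, hp, mul_assoc]
  inv_mem' := by
    intro p hp g
    show act (p.1⁻¹) (0, 0, g) = (0, 0, p.2⁻¹ * g)
    rw [map_inv, Equiv.Perm.inv_eq_iff_eq, hp, mul_inv_cancel_left]

theorem dec_tm_mem (c : ℕ) (hc : c < 60) :
    ((dec (trans gal G3.c⁻¹ gv) c, tm c) : G3 × D60.Grp) ∈ agree := by
  intro g
  show act (trans gal G3.c⁻¹ gv (c / 20) (c % 20 / 4) (c % 4)) (0, 0, g) = (0, 0, tm c * g)
  rw [act_trans _ _ _ (by omega) (by omega)]
  have : eK (c / 20) (c % 20 / 4) ((c % 4 : ℕ) : ZMod 4) = tm c := by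
    rw [← tri_val]
    unfold tri
    congr 1
    omega
  rw [this]

theorem ff_mem (g : D60.Grp) : ((ff g, g) : G3 × D60.Grp) ∈ agree := by
  have h1 : ∀ c : Fin 60, ((ff (D60.mer c), D60.mer c) : G3 × D60.Grp) ∈ agree := by
    intro c
    have h2 : fl flip60 (fun k => ((dec (trans gal G3.c⁻¹ gv) k, tm k) : G3 × D60.Grp)) c ∈
        agree := fl_mem (fun k hk => dec_tm_mem k (by omega))
    have h3 : (ff (D60.mer c), D60.mer c) =
        (fl flip60 (fun k => ((dec (trans gal G3.c⁻¹ gv) k, tm k) : G3 × D60.Grp)) c) ^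
          D60.sgn c := by
      apply Prod.ext
      · have := map_fl (MonoidHom.fst G3 D60.Grp) flip60
          (fun k => ((dec (trans gal G3.c⁻¹ gv) k, tm k) : G3 × D60.Grp)) c
        show ff (D60.mer c) = (MonoidHom.fst G3 D60.Grp) (_ ^ D60.sgn c)
        rw [map_zpow, this]
        exact gT.hom_mer c
      · have := map_fl (MonoidHom.snd G3 D60.Grp) flip60
          (fun k => ((dec (trans gal G3.c⁻¹ gv) k, tm k) : G3 × D60.Grp)) c
        show D60.mer c = (MonoidHom.snd G3 D60.Grp) (_ ^ D60.sgn c)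
        rw [map_zpow, this]
        show D60.mer c = (fl flip60 tm c) ^ D60.sgn c
        rw [fl_tm]
        unfold Grid.un
        simp only [c.2, dif_pos, Fin.eta]
        rw [← zpow_mul, D60.sgn_sq, zpow_one]
    rw [h3]
    exact Subgroup.zpow_mem _ h2 _
  have h2 : (agree.comap (ff.prod (MonoidHom.id _))) = ⊤ := by
    rw [eq_top_iff, ← PresentedGroup.closure_range_of (Set.range D60.rel), Subgroup.closure_le]
    rintro _ ⟨c, rfl⟩
    exact h1 c
  have h3 : g ∈ agree.comap (ff.prod (MonoidHom.id _)) := by rw [h2]; exact Subgroup.mem_top _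
  exact h3

theorem act_ff (g g' : D60.Grp) : act (ff g) (0, 0, g') = (0, 0, g * g') := ff_mem g g'

/-- the knot group embeds into the orbifold group -/
theorem ff_injective : Function.Injective ff := by
  rw [injective_iff_map_eq_one]
  intro g hg
  have h := act_ff g 1
  rw [hg, map_one, mul_one] at h
  exact (congrArg (fun p : Om => p.2.2) h).symm

/-! ### The image is the kernel of a character -/

theorem chi_rel : GRel (Multiplicative.ofAdd (4 : ZMod 12)) (Multiplicative.ofAdd (3 : ZMod 12))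
    (1 : Multiplicative (ZMod 12)) :=
  ⟨by decide, by decide, by simp only [wW]; decide, by simp only [wW]; decide⟩

/-- the character of the orbifold group -/
def chi : G3 →* Multiplicative (ZMod 12) := G3.lift _ _ _ chi_rel

theorem chi_b : chi G3.b = Multiplicative.ofAdd 4 := G3.lift_b _ _ _ chi_rel
theorem chi_c : chi G3.c = Multiplicative.ofAdd 3 := G3.lift_c _ _ _ chi_rel
theorem chi_t : chi G3.t = 1 := G3.lift_t _ _ _ chi_rel

/-- position in `ZMod 12` of a point of `Om` -/
def posn (m : Fin 3) (n : ZMod 4) : Multiplicative (ZMod 12) :=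
  Multiplicative.ofAdd (4 * (m.val : ZMod 12) - 3 * (n.val : ZMod 12))

theorem posn_al : ∀ (m : Fin 3) (n : ZMod 4), posn (if m = 0 then 2 else m - 1) n =
    (Multiplicative.ofAdd 4)⁻¹ * posn m n := by decide

theorem posn_be : ∀ (m : Fin 3) (n : ZMod 4), posn m (n - 1) =
    (Multiplicative.ofAdd 3) * posn m n := by decide

theorem posn_zero : ∀ (m : Fin 3) (n : ZMod 4), posn m n = 1 → m = 0 ∧ n = 0 := by decide

/-- elements of the orbifold group which move the position according to `chi` -/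
def movers : Subgroup G3 where
  carrier := {a | ∀ p : Om, posn (act a p).1 (act a p).2.1 = (chi a)⁻¹ * posn p.1 p.2.1}
  one_mem' p := by simp
  mul_mem' := by
    intro a a' ha ha' p
    show posn (act (a * a') p).1 (act (a * a') p).2.1 = _
    rw [map_mul, Equiv.Perm.mul_apply, ha, ha', map_mul, mul_inv, mul_assoc]
  inv_mem' := by
    intro a ha p
    show posn (act a⁻¹ p).1 (act a⁻¹ p).2.1 = _
    have h := ha (act a⁻¹ p)
    have e : act a (act a⁻¹ p) = p := by
      rw [← Equiv.Perm.mul_apply, ← map_mul, mul_inv_cancel, map_one, Equiv.Perm.one_apply]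
    rw [e] at h
    have h2 : chi a⁻¹ = (chi a)⁻¹ := map_inv _ _
    rw [h, h2, inv_inv, mul_inv_cancel_left]

theorem chi_al : chi gal = Multiplicative.ofAdd 4 := by
  unfold gal
  rw [map_alW, chi_b, chi_c, chi_t]
  simp only [alW, wW]
  decide

theorem chi_v (i : ℕ) : chi (gv i) = 1 := by
  unfold gv
  rw [map_vW, chi_b, chi_c, chi_t]
  match i with
  | 0 => simp only [vW, alW, uW, wW]; decide
  | 1 => simp only [vW]; decide
  | 2 => simp only [vW, uW]; decide
  | 3 => simp only [vW, alW, uW, wW]; decide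
  | n + 4 => simp only [vW, alW, uW, wW]; decide

theorem al_mem_movers : gal ∈ movers := by
  intro p
  obtain ⟨m, n, g⟩ := p
  rw [act_al, chi_al]
  have := posn_al m n
  by_cases h : m = 0
  · subst h
    rw [permAl_zero]
    exact this
  · rw [if_neg h] at this
    have e : permAl (m, n, g) = (m - 1, n, g) := if_neg h
    rw [e]
    exact this

theorem c_mem_movers : G3.c ∈ movers := by
  rw [← inv_inv G3.c]
  apply movers.inv_mem
  intro p
  obtain ⟨m, n, g⟩ := p
  rw [act_be, map_inv, inv_inv, chi_c, permBe_apply]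
  exact posn_be m n

theorem v_mem_movers (i : ℕ) (hi : i < 5) : gv i ∈ movers := by
  intro p
  obtain ⟨m, n, g⟩ := p
  rw [act_v i hi, chi_v, permV_apply, inv_one, one_mul]

theorem b_eq : bW gal G3.c⁻¹ gv = G3.b := G3.rel.bW_eq

/-- a subgroup containing the toroidal generators is everything -/
theorem mem_of_tor {S : Subgroup G3} (h1 : gal ∈ S) (h2 : G3.c ∈ S)
    (h3 : ∀ i < 5, gv i ∈ S) (a : G3) : a ∈ S := by
  apply G3.mem_of_gens _ h2 _
  · rw [← b_eq]
    unfold bW
    have h2' := S.inv_mem h2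
    exact S.mul_mem (S.mul_mem (S.mul_mem (S.mul_mem (S.mul_mem (S.inv_mem h2')
      (h3 1 (by omega))) (S.mul_mem (S.mul_mem h2' (h3 2 (by omega))) (S.inv_mem h2'))) h1)
      (h3 0 (by omega))) h2'
  · have : G3.t = (gv 1)⁻¹ := by
      show G3.t = (G3.t⁻¹)⁻¹
      rw [inv_inv]
    rw [this]
    exact S.inv_mem (h3 1 (by omega))

theorem posn_act (a : G3) (p : Om) :
    posn (act a p).1 (act a p).2.1 = (chi a)⁻¹ * posn p.1 p.2.1 :=
  (mem_of_tor al_mem_movers c_mem_movers v_mem_movers a : a ∈ movers) p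

/-- the image of the knot group is in the kernel of `chi` -/
theorem chi_ff (g : D60.Grp) : chi (ff g) = 1 := by
  have h := posn_act (ff g) (0, 0, 1)
  rw [act_ff] at h
  exact inv_eq_one.1 (mul_eq_right.1 h.symm)

theorem ff_un (k : ℕ) (hk : k < 60) :
    ff (D60.un D60.mer k) = fl flip60 (dec (trans gal G3.c⁻¹ gv)) k := by
  unfold Grid.un
  simp only [hk, dif_pos]
  rw [map_zpow]
  have : ff (D60.mer ⟨k, hk⟩) = plane (dec (trans gal G3.c⁻¹ gv)) ⟨k, hk⟩ := gT.hom_mer _
  rw [this]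
  unfold plane
  rw [← zpow_mul, D60.sgn_sq, zpow_one]

theorem ff_tm (k : ℕ) (hk : k < 60) : ff (tm k) = dec (trans gal G3.c⁻¹ gv) k := by
  unfold tm
  rw [map_fl, fl_congr (w := fl flip60 (dec (trans gal G3.c⁻¹ gv)))
    (fun c hc => ff_un c (by omega)), fl_fl]

theorem ff_tri (m i n : ℕ) (hm : m < 3) (hi : i < 5) :
    ff (tri tm m i n) = trans gal G3.c⁻¹ gv m i n := by
  unfold tri
  rw [ff_tm _ (by omega)]
  exact tri_dec _ gT.trans_four m i n hi

theorem tlist_lt3 : ∀ n s : ℕ, ∀ t ∈ tlist n s, t.1 < 3 := by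
  intro n s t ht
  unfold tlist at ht
  split at ht <;> simp only [List.mem_cons, List.not_mem_nil, or_false] at ht <;>
    (rcases ht with rfl | rfl | rfl | rfl | rfl | rfl | rfl | rfl | rfl <;> simp)

theorem ff_FK : ff FK = (gal ^ 3)⁻¹ := by
  rw [← gT.total]
  unfold FK tprod
  rw [map_list_prod, List.map_map]
  congr 1
  apply List.map_congr_left
  intro t ht
  exact ff_tri _ _ _ (tlist_lt3 0 0 t ht) (tlist_lt 0 0 t ht)

theorem ff_eK (m i : ℕ) (n : ZMod 4) (hm : m < 3) (hi : i < 5) :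
    ff (eK m i n) = trans gal G3.c⁻¹ gv m i n.val := ff_tri _ _ _ hm hi

/-- the point of `Om` as an element of the orbifold group -/
noncomputable def psi (p : Om) : G3 :=
  (gal ^ (p.1 : ℕ) * G3.c⁻¹ ^ p.2.1.val)⁻¹ * ff p.2.2

/-- elements which act on `G3` by multiplication -/
def mults : Subgroup G3 where
  carrier := {a | ∀ p : Om, psi (act a p) = a * psi p}
  one_mem' p := by simp
  mul_mem' := by
    intro a a' ha ha' p
    show psi (act (a * a') p) = _
    rw [map_mul, Equiv.Perm.mul_apply, ha, ha', mul_assoc]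
  inv_mem' := by
    intro a ha p
    show psi (act a⁻¹ p) = _
    have h := ha (act a⁻¹ p)
    have e : act a (act a⁻¹ p) = p := by
      rw [← Equiv.Perm.mul_apply, ← map_mul, mul_inv_cancel, map_one, Equiv.Perm.one_apply]
    rw [e] at h
    rw [h, inv_mul_cancel_left]

theorem gcomm : Commute gal G3.c⁻¹ := gT.comm

theorem al_mem_mults : gal ∈ mults := by
  intro p
  obtain ⟨m, n, g⟩ := p
  rw [act_al]
  have hc : ∀ k : ℕ, (G3.c⁻¹ ^ k)⁻¹ * gal = gal * (G3.c⁻¹ ^ k)⁻¹ := fun k =>
    ((gcomm.pow_right k).inv_right.eq).symm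
  fin_cases m
  · show (gal ^ 2 * G3.c⁻¹ ^ n.val)⁻¹ * ff (FK⁻¹ * g) =
      gal * ((gal ^ 0 * G3.c⁻¹ ^ n.val)⁻¹ * ff g)
    rw [map_mul, map_inv, ff_FK, inv_inv, pow_zero, one_mul, ← mul_assoc, ← mul_assoc, ← hc]
    congr 1
    rw [mul_inv_rev, mul_assoc]
    congr 1
    group
  · show (gal ^ 0 * G3.c⁻¹ ^ n.val)⁻¹ * ff g = gal * ((gal ^ 1 * G3.c⁻¹ ^ n.val)⁻¹ * ff g)
    rw [pow_zero, one_mul, pow_one, ← mul_assoc]
    congr 1
    rw [mul_inv_rev, ← mul_assoc, ← hc, mul_inv_cancel_right]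
  · show (gal ^ 1 * G3.c⁻¹ ^ n.val)⁻¹ * ff g = gal * ((gal ^ 2 * G3.c⁻¹ ^ n.val)⁻¹ * ff g)
    rw [pow_one, ← mul_assoc]
    congr 1
    rw [mul_inv_rev, mul_inv_rev, ← mul_assoc, ← hc, pow_two]
    group

theorem be_mem_mults : G3.c⁻¹ ∈ mults := by
  intro p
  obtain ⟨m, n, g⟩ := p
  rw [act_be, permBe_apply]
  show (gal ^ (m : ℕ) * G3.c⁻¹ ^ (n - 1).val)⁻¹ * ff g =
    G3.c⁻¹ * ((gal ^ (m : ℕ) * G3.c⁻¹ ^ n.val)⁻¹ * ff g)
  have h1 : G3.c⁻¹ ^ (n - 1).val = G3.c⁻¹ ^ n.val * G3.c := by
    have h4 : G3.c⁻¹ ^ 4 = 1 := gT.be4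
    have hv : ∀ n : ZMod 4, (n - 1).val + 1 = n.val ∨ (n - 1).val + 1 = n.val + 4 := by decide
    have h5 : G3.c⁻¹ ^ ((n - 1).val + 1) = G3.c⁻¹ ^ n.val := by
      rcases hv n with h | h
      · rw [h]
      · rw [h, pow_add, h4, mul_one]
    rw [← h5, pow_succ]
    group
  rw [h1, ← mul_assoc (gal ^ (m : ℕ)), mul_inv_rev, ← mul_assoc]

theorem v_mem_mults (i : ℕ) (hi : i < 5) : gv i ∈ mults := by
  intro p
  obtain ⟨m, n, g⟩ := p
  rw [act_v i hi, permV_apply]
  show (gal ^ (m : ℕ) * G3.c⁻¹ ^ n.val)⁻¹ * ff (eK m i n * g) =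
    gv i * ((gal ^ (m : ℕ) * G3.c⁻¹ ^ n.val)⁻¹ * ff g)
  rw [map_mul, ff_eK _ _ _ m.2 hi]
  unfold trans
  group

theorem psi_act (a : G3) (p : Om) : psi (act a p) = a * psi p :=
  (mem_of_tor al_mem_mults (by rw [← inv_inv G3.c]; exact mults.inv_mem be_mem_mults)
    v_mem_mults a : a ∈ mults) p

/-- the image of the knot group in the orbifold group is the kernel of `chi` -/
theorem range_ff : ff.range = chi.ker := by
  ext a
  constructor
  · rintro ⟨g, rfl⟩
    exact chi_ff g
  · intro ha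
    have ha' : chi a = 1 := ha
    have h1 := posn_act a (0, 0, 1)
    rw [ha', inv_one, one_mul] at h1
    have h2 := posn_zero _ _ (h1.trans (by decide))
    have h3 := psi_act a (0, 0, 1)
    have e0 : psi (0, 0, 1) = 1 := by simp [psi]
    rw [e0, mul_one] at h3
    generalize act a (0, 0, 1) = q at h2 h3
    obtain ⟨m, n, g⟩ := q
    obtain ⟨rfl, rfl⟩ := h2
    refine ⟨g, ?_⟩
    rw [← h3]
    simp [psi]

end Pool.Agent.Helper20.DFJ

end
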