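import Mathlib

/-!
# DFJ: Grid, Flip, Lines
-/

section

/-!
# Grid diagrams of knots and their Wirtinger groups

A grid diagram of size `M` is given by two permutations `X`, `O` of `Fin M` with
`X c ≠ O c` for every column `c`: column `c` carries two markers, in the rows `X c` and `O c`.
The link consists of the vertical segments joining the two markers of every column and of the
horizontal segments joining the two markers of every row; at every crossing the vertical
segment is the overcrossing one.  Every knot has a grid diagram.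

Wirtinger presentation: one generator for every vertical segment (the arcs inside the
horizontal segments are eliminated) and one relation for every horizontal segment.
-/

namespace Pool.Agent.Helper20.DFJ

/-- A grid diagram of size `M`. -/
structure Grid (M : ℕ) where
  /-- row of the first marker of a column -/
  X : Equiv.Perm (Fin M)
  /-- row of the second marker of a column -/
  O : Equiv.Perm (Fin M)
  /-- the two markers of a column are different -/
  ne : ∀ c, X c ≠ O c

namespace Grid

variable {M : ℕ} (D : Grid M)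

/-- Walking along the link: along column `c` from `X c` to `O c`, then along row `O c` to the
column whose first marker is in this row. -/
def next : Equiv.Perm (Fin M) := D.O.trans D.X.symm

/-- The link has only one component. -/
def IsKnot : Prop := ∀ c c' : Fin M, ∃ k : ℕ, (D.next ^ k) c = c'

/-- The vertical segment of column `c` passes (strictly) through row `r`. -/
def Cross (c r : Fin M) : Prop := (D.X c < r ∧ r < D.O c) ∨ (D.O c < r ∧ r < D.X c)

instance (c r : Fin M) : Decidable (D.Cross c r) := by unfold Cross; infer_instance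

/-- `1` if the vertical segment of column `c` (oriented from `X c` to `O c`) runs upwards,
`-1` if it runs downwards. -/
def sgn (c : Fin M) : ℤ := if D.X c < D.O c then 1 else -1

/-- left end column of the horizontal segment in row `r` -/
def left (r : Fin M) : Fin M := min (D.X.symm r) (D.O.symm r)

/-- right end column of the horizontal segment in row `r` -/
def right (r : Fin M) : Fin M := max (D.X.symm r) (D.O.symm r)

/-- the columns whose vertical segments cross over the horizontal segment of row `r`, from left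
to right -/
def overs (r : Fin M) : List (Fin M) :=
  (List.finRange M).filter (fun c => D.left r < c ∧ c < D.right r ∧ D.Cross c r)

/-- product, from left to right, of the meridians of the vertical segments which cross over
the horizontal segment of row `r` (each one to the power `± 1` according to its direction) -/
def overWord {A : Type*} [Group A] (x : Fin M → A) (r : Fin M) : A :=
  ((D.overs r).map (fun c => x c ^ D.sgn c)).prod

/-- The Wirtinger relation of row `r` for a family of elements of a group: the horizontal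
segment of row `r` passes below the vertical segments in `D.overs r`, each of which conjugates
its meridian. -/
def Wirt {A : Type*} [Group A] (x : Fin M → A) (r : Fin M) : Prop :=
  x (D.right r) = (D.overWord x r)⁻¹ * x (D.left r) * D.overWord x r

/-- The Wirtinger relator of row `r`. -/
def rel (r : Fin M) : FreeGroup (Fin M) :=
  FreeGroup.of (D.right r) * ((D.overWord FreeGroup.of r)⁻¹ * FreeGroup.of (D.left r) *
    D.overWord FreeGroup.of r)⁻¹

/-- The Wirtinger group of the grid diagram (the fundamental group of the complement of the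
link). -/
abbrev Grp : Type := PresentedGroup (Set.range D.rel)

/-- the meridian of the vertical segment of column `c` -/
def mer (c : Fin M) : D.Grp := PresentedGroup.of c

theorem map_overWord {A B : Type*} [Group A] [Group B] (f : A →* B) (x : Fin M → A) (r : Fin M) :
    f (D.overWord x r) = D.overWord (fun c => f (x c)) r := by
  simp [overWord, map_list_prod, List.map_map, Function.comp_def]

/-- the relations hold in the Wirtinger group -/
theorem wirt_mer (r : Fin M) : D.Wirt D.mer r := by
  have h : (PresentedGroup.mk (Set.range D.rel)) (D.rel r) = 1 :=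
    PresentedGroup.one_of_mem ⟨r, rfl⟩
  unfold rel at h
  rw [map_mul, map_inv, mul_inv_eq_one, map_mul, map_mul, map_inv, map_overWord] at h
  exact h

/-- homomorphisms out of the Wirtinger group -/
def lift {A : Type*} [Group A] (x : Fin M → A) (h : ∀ r, D.Wirt x r) : D.Grp →* A :=
  PresentedGroup.toGroup (f := x) (by
    rintro _ ⟨r, rfl⟩
    unfold rel
    rw [map_mul, map_inv, mul_inv_eq_one, map_mul, map_mul, map_inv, map_overWord]
    have h' := h r
    unfold Wirt at h'
    simpa using h')

@[simp] theorem lift_mer {A : Type*} [Group A] (x : Fin M → A) (h : ∀ r, D.Wirt x r)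
    (c : Fin M) : D.lift x h (D.mer c) = x c := by
  unfold lift mer
  exact PresentedGroup.toGroup.of _

theorem hom_ext {A : Type*} [Group A] {f g : D.Grp →* A} (h : ∀ c, f (D.mer c) = g (D.mer c)) :
    f = g := PresentedGroup.ext h

end Grid

/-! ### Prefix products -/

section Prefix

variable {A : Type*} [Group A]

/-- product of `f 0, ..., f (k-1)` -/
def pre (f : ℕ → A) (k : ℕ) : A := ((List.range k).map f).prod

@[simp] theorem pre_zero (f : ℕ → A) : pre f 0 = 1 := by simp [pre]

theorem pre_succ (f : ℕ → A) (k : ℕ) : pre f (k + 1) = pre f k * f k := by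
  simp [pre, List.range_succ]

/-- product of `f a, ..., f (b-1)` -/
def seg (f : ℕ → A) (a b : ℕ) : A := (pre f a)⁻¹ * pre f b

theorem seg_zero (f : ℕ → A) (k : ℕ) : seg f 0 k = pre f k := by simp [seg]

@[simp] theorem seg_self (f : ℕ → A) (a : ℕ) : seg f a a = 1 := by simp [seg]

theorem seg_succ (f : ℕ → A) (a b : ℕ) : seg f a (b + 1) = seg f a b * f b := by
  simp [seg, pre_succ, mul_assoc]

theorem seg_trans (f : ℕ → A) (a b c : ℕ) : seg f a b * seg f b c = seg f a c := by
  simp [seg, mul_assoc]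

theorem seg_congr {f g : ℕ → A} {a b : ℕ} (hab : a ≤ b) (h : ∀ c, a ≤ c → c < b → f c = g c) :
    seg f a b = seg g a b := by
  induction b, hab using Nat.le_induction with
  | base => simp
  | succ b hb ih =>
    rw [seg_succ, seg_succ, ih (fun c h1 h2 => h c h1 (by omega)), h b hb (by omega)]

theorem seg_one {f : ℕ → A} {a b : ℕ} (hab : a ≤ b) (h : ∀ c, a ≤ c → c < b → f c = 1) :
    seg f a b = 1 := by
  induction b, hab using Nat.le_induction with
  | base => simp
  | succ b hb ih => rw [seg_succ, ih (fun c h1 h2 => h c h1 (by omega)), h b hb (by omega), one_mul]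

theorem pre_split (f : ℕ → A) {a b M : ℕ} :
    pre f M = seg f 0 a * f a * seg f (a + 1) b * f b * seg f (b + 1) M := by
  rw [← seg_succ f 0 a, seg_trans, ← seg_succ, seg_trans, seg_zero]

theorem filter_prod {α : Type*} (l : List α) (p : α → Prop) [DecidablePred p] (w : α → A) :
    ((l.filter p).map w).prod = (l.map (fun c => if p c then w c else 1)).prod := by
  induction l with
  | nil => simp
  | cons c l ih =>
    by_cases h : p c
    · simp [h, ih]
    · simp [h, ih]

theorem finRange_prod (M : ℕ) (g : ℕ → A) :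
    ((List.finRange M).map (fun c => g c.val)).prod = pre g M := by
  unfold pre
  congr 1
  rw [← List.map_coe_finRange_eq_range, List.map_map]
  rfl

end Prefix

namespace Grid

variable {M : ℕ} (D : Grid M) {A : Type*} [Group A]

/-- unoriented meridians (read from left to right) -/
def un (x : Fin M → A) (c : ℕ) : A :=
  if h : c < M then x ⟨c, h⟩ ^ D.sgn ⟨c, h⟩ else 1

/-- the vertical segment of column `c` crosses the horizontal line between the rows `y - 1`
and `y` -/
def gap (c y : ℕ) : Bool :=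
  if h : c < M then
    decide ((D.X ⟨c, h⟩ : ℕ) < y ∧ y ≤ D.O ⟨c, h⟩ ∨ (D.O ⟨c, h⟩ : ℕ) < y ∧ y ≤ D.X ⟨c, h⟩)
  else false

/-- the meridian of column `c` if it crosses the line `y` -/
def line (x : Fin M → A) (y c : ℕ) : A := if D.gap c y then D.un x c else 1

theorem left_lt_right (r : Fin M) : D.left r < D.right r := by
  unfold left right
  have : D.X.symm r ≠ D.O.symm r := by
    intro h
    apply D.ne (D.X.symm r)
    rw [Equiv.apply_symm_apply, h, Equiv.apply_symm_apply]
  rcases lt_or_gt_of_ne this with h | h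
  · rw [min_eq_left h.le, max_eq_right h.le]; exact h
  · rw [min_eq_right h.le, max_eq_left h.le]; exact h

/-- away from the two ends, a column crosses row `r` iff it crosses the line below iff it
crosses the line above -/
theorem cross_iff (r c : Fin M) (h1 : c ≠ D.X.symm r) (h2 : c ≠ D.O.symm r) :
    (D.Cross c r ↔ D.gap c r = true) ∧ (D.Cross c r ↔ D.gap c (r + 1) = true) := by
  have a1 : D.X c ≠ r := fun h => h1 (by rw [← h, Equiv.symm_apply_apply])
  have a2 : D.O c ≠ r := fun h => h2 (by rw [← h, Equiv.symm_apply_apply])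
  have b1 : (D.X c : ℕ) ≠ r := fun h => a1 (Fin.ext h)
  have b2 : (D.O c : ℕ) ≠ r := fun h => a2 (Fin.ext h)
  unfold Cross gap
  simp only [c.2, dif_pos, decide_eq_true_eq, Fin.lt_def, Fin.eta]
  constructor <;> omega

theorem line_eq (x : Fin M → A) (r : Fin M) (c : ℕ) (h1 : c ≠ D.X.symm r) (h2 : c ≠ D.O.symm r) :
    D.line x r c = D.line x (r + 1) c := by
  unfold line
  by_cases hc : c < M
  · have := D.cross_iff r ⟨c, hc⟩ (fun h => h1 (by rw [← h])) (fun h => h2 (by rw [← h]))
    have h3 : (D.gap c r = true) ↔ (D.gap c (r + 1) = true) := this.1.symm.trans this.2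
    by_cases h4 : D.gap c r = true
    · rw [if_pos h4, if_pos (h3.1 h4)]
    · rw [if_neg h4, if_neg (fun h => h4 (h3.2 h))]
  · simp [gap, hc]

/-- the word of row `r` as a segment of the line below row `r` -/
theorem overWord_eq (x : Fin M → A) (r : Fin M) :
    D.overWord x r = seg (D.line x r) ((D.left r : ℕ) + 1) (D.right r) := by
  have hlr := D.left_lt_right r
  unfold overWord overs
  rw [filter_prod (p := fun c => D.left r < c ∧ c < D.right r ∧ D.Cross c r)]
  have e1 : (fun c : Fin M => if D.left r < c ∧ c < D.right r ∧ D.Cross c r then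
      x c ^ D.sgn c else 1) =
      (fun c : Fin M => (fun k : ℕ => if (D.left r : ℕ) < k ∧ k < D.right r then
        D.line x r k else 1) c.val) := by
    funext c
    simp only [Fin.lt_def]
    by_cases h : (D.left r : ℕ) < c ∧ (c : ℕ) < D.right r
    · have hX : c ≠ D.X.symm r := by
        rintro rfl
        simp only [left, right, Fin.coe_min, Fin.coe_max] at h
        omega
      have hO : c ≠ D.O.symm r := by
        rintro rfl
        simp only [left, right, Fin.coe_min, Fin.coe_max] at h
        omega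
      rw [if_pos h]
      unfold line un
      simp only [c.2, dif_pos, Fin.eta]
      by_cases h3 : D.Cross c r
      · rw [if_pos ⟨h.1, h.2, h3⟩, if_pos ((D.cross_iff r c hX hO).1.1 h3)]
      · rw [if_neg (fun h4 => h3 h4.2.2), if_neg (fun h4 => h3 ((D.cross_iff r c hX hO).1.2 h4))]
    · rw [if_neg h, if_neg (fun h4 => h ⟨h4.1, h4.2.1⟩)]
  rw [e1, finRange_prod M (fun k : ℕ => if (D.left r : ℕ) < k ∧ k < D.right r then
        D.line x r k else 1), ← seg_zero]
  rw [← seg_trans _ 0 ((D.left r : ℕ) + 1) M, ← seg_trans _ ((D.left r : ℕ) + 1) (D.right r) M]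
  have hlr' : (D.left r : ℕ) + 1 ≤ D.right r := hlr
  rw [seg_one (Nat.zero_le _) (by intro c _ h; rw [if_neg (by omega)]), one_mul,
    seg_one (le_of_lt (D.right r).2) (by intro c h _; rw [if_neg (by omega)]), mul_one]
  exact seg_congr hlr' (by intro c h1 h2; rw [if_pos ⟨by omega, h2⟩])

/-- the Wirtinger relation of row `r` says that the products along the lines below and above
row `r` agree -/
theorem wirt_iff_line (x : Fin M → A) (r : Fin M) :
    D.Wirt x r ↔ pre (D.line x r) M = pre (D.line x (r + 1)) M := by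
  have hlr := D.left_lt_right r
  have hlr' : (D.left r : ℕ) + 1 ≤ D.right r := hlr
  set a := D.left r with ha
  set b := D.right r with hb
  unfold Wirt
  rw [overWord_eq, ← ha, ← hb]
  have hab : (a = D.X.symm r ∧ b = D.O.symm r) ∨ (a = D.O.symm r ∧ b = D.X.symm r) := by
    have : D.X.symm r ≠ D.O.symm r := by
      intro h
      apply D.ne (D.X.symm r)
      rw [Equiv.apply_symm_apply, h, Equiv.apply_symm_apply]
    rcases lt_or_gt_of_ne this with h | h
    · left; rw [ha, hb]; unfold left right
      rw [min_eq_left h.le, max_eq_right h.le]; exact ⟨rfl, rfl⟩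
    · right; rw [ha, hb]; unfold left right
      rw [min_eq_right h.le, max_eq_left h.le]; exact ⟨rfl, rfl⟩
  have hne : ∀ c : ℕ, c ≠ a → c ≠ b → D.line x r c = D.line x (r + 1) c := by
    intro c h1 h2
    rcases hab with h | h
    · exact D.line_eq x r c (by rw [← h.1]; exact h1) (by rw [← h.2]; exact h2)
    · exact D.line_eq x r c (by rw [← h.2]; exact h2) (by rw [← h.1]; exact h1)
  have s1 : seg (D.line x r) 0 a = seg (D.line x (r + 1)) 0 a :=
    seg_congr (Nat.zero_le _) (fun c _ h => hne c (by omega) (by omega))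
  have s2 : seg (D.line x r) (a + 1) b = seg (D.line x (r + 1)) (a + 1) b :=
    seg_congr hlr' (fun c h1 h2 => hne c (by omega) (by omega))
  have s3 : seg (D.line x r) (b + 1) M = seg (D.line x (r + 1)) (b + 1) M :=
    seg_congr b.2 (fun c h1 h2 => hne c (by omega) (by omega))
  rw [pre_split (D.line x r) (a := a) (b := b), pre_split (D.line x (r + 1)) (a := a) (b := b),
    s1, ← s2, s3]
  set Q := seg (D.line x r) (a + 1) b with hQ
  -- the values at the two ends
  have eX : ∀ c : Fin M, c = D.X.symm r →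
      (D.line x r c)⁻¹ * D.line x (r + 1) c = x c ∧ D.line x (r + 1) c * (D.line x r c)⁻¹ = x c := by
    intro c hc
    have h1 : D.X c = r := by rw [hc, Equiv.apply_symm_apply]
    have h2 : (D.O c : ℕ) ≠ r := fun h => D.ne c (by rw [h1]; exact (Fin.ext h).symm)
    unfold line gap un sgn
    simp only [c.2, dif_pos, decide_eq_true_eq, Fin.eta, h1, Fin.lt_def]
    rcases lt_or_gt_of_ne h2 with h | h
    · rw [if_pos (by omega), if_neg (by omega), if_neg (by omega)]; simp
    · rw [if_neg (by omega), if_pos (by omega), if_pos (by omega)]; simp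
  have eO : ∀ c : Fin M, c = D.O.symm r →
      (D.line x (r + 1) c)⁻¹ * D.line x r c = x c ∧ D.line x r c * (D.line x (r + 1) c)⁻¹ = x c := by
    intro c hc
    have h1 : D.O c = r := by rw [hc, Equiv.apply_symm_apply]
    have h2 : (D.X c : ℕ) ≠ r := fun h => D.ne c (by rw [h1]; exact Fin.ext h)
    unfold line gap un sgn
    simp only [c.2, dif_pos, decide_eq_true_eq, Fin.eta, h1, Fin.lt_def]
    rcases lt_or_gt_of_ne h2 with h | h
    · rw [if_neg (by omega), if_pos (by omega), if_pos (by omega)]; simp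
    · rw [if_pos (by omega), if_neg (by omega), if_neg (by omega)]; simp
  rcases hab with ⟨h1, h2⟩ | ⟨h1, h2⟩
  · have fa := (eX a h1).1
    have fb := (eO b h2).2
    rw [← fa, ← fb]
    constructor
    · intro h
      have h' : Q * (D.line x r b * (D.line x (r + 1) b)⁻¹) =
          ((D.line x r a)⁻¹ * D.line x (r + 1) a) * Q := by rw [h]; group
      have h3 : D.line x r a * Q * D.line x r b = D.line x (r + 1) a * Q * D.line x (r + 1) b := by
        calc D.line x r a * Q * D.line x r b
            = D.line x r a * (Q * (D.line x r b * (D.line x (r + 1) b)⁻¹)) *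
              D.line x (r + 1) b := by group
          _ = _ := by rw [h']; group
      have h4 := congrArg (fun z => seg (D.line x (r + 1)) 0 a * z *
        seg (D.line x (r + 1)) (b + 1) M) h3
      simpa only [mul_assoc] using h4
    · intro h
      have h3 : D.line x r a * Q * D.line x r b = D.line x (r + 1) a * Q * D.line x (r + 1) b := by
        have h4 := mul_right_cancel h
        simp only [mul_assoc] at h4 ⊢
        exact mul_left_cancel h4
      calc D.line x r b * (D.line x (r + 1) b)⁻¹
          = Q⁻¹ * (D.line x r a)⁻¹ * (D.line x r a * Q * D.line x r b) *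
            (D.line x (r + 1) b)⁻¹ := by group
        _ = _ := by rw [h3]; group
  · have fa := (eO a h1).1
    have fb := (eX b h2).2
    rw [← fa, ← fb]
    constructor
    · intro h
      have h' : Q * (D.line x (r + 1) b * (D.line x r b)⁻¹) =
          ((D.line x (r + 1) a)⁻¹ * D.line x r a) * Q := by rw [h]; group
      have h3 : D.line x r a * Q * D.line x r b = D.line x (r + 1) a * Q * D.line x (r + 1) b := by
        calc D.line x r a * Q * D.line x r b
            = D.line x (r + 1) a * (((D.line x (r + 1) a)⁻¹ * D.line x r a) * Q) *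
              D.line x r b := by group
          _ = _ := by rw [← h']; group
      have h4 := congrArg (fun z => seg (D.line x (r + 1)) 0 a * z *
        seg (D.line x (r + 1)) (b + 1) M) h3
      simpa only [mul_assoc] using h4
    · intro h
      have h3 : D.line x r a * Q * D.line x r b = D.line x (r + 1) a * Q * D.line x (r + 1) b := by
        have h4 := mul_right_cancel h
        simp only [mul_assoc] at h4 ⊢
        exact mul_left_cancel h4
      calc D.line x (r + 1) b * (D.line x r b)⁻¹
          = Q⁻¹ * (D.line x (r + 1) a)⁻¹ * (D.line x (r + 1) a * Q * D.line x (r + 1) b) *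
            (D.line x r b)⁻¹ := by group
        _ = _ := by rw [← h3]; group

theorem line_zero (x : Fin M → A) : pre (D.line x 0) M = 1 := by
  rw [← seg_zero]
  apply seg_one (Nat.zero_le _)
  intro c _ hc
  simp [line, gap, hc]

theorem line_top (x : Fin M → A) : pre (D.line x M) M = 1 := by
  rw [← seg_zero]
  apply seg_one (Nat.zero_le _)
  intro c _ hc
  have h1 := (D.X ⟨c, hc⟩).2
  have h2 := (D.O ⟨c, hc⟩).2
  have h3 : D.gap c M = false := by
    unfold gap
    simp only [hc, dif_pos, decide_eq_false_iff_not]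
    omega
  simp [line, h3]

/-- all Wirtinger relations hold iff the product along every horizontal line is trivial -/
theorem wirt_iff (x : Fin M → A) :
    (∀ r, D.Wirt x r) ↔ ∀ y ≤ M, pre (D.line x y) M = 1 := by
  constructor
  · intro h y hy
    induction y with
    | zero => exact D.line_zero x
    | succ y ih => rw [← (D.wirt_iff_line x ⟨y, hy⟩).1 (h _)]; exact ih (by omega)
  · intro h r
    rw [D.wirt_iff_line x r, h _ r.2.le, h _ r.2]

/-- one of the Wirtinger relations is a consequence of the others -/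
theorem wirt_of_all_but_one (x : Fin M → A) (r₀ : Fin M) (h : ∀ r, r ≠ r₀ → D.Wirt x r) :
    D.Wirt x r₀ := by
  rw [D.wirt_iff_line]
  have h1 : ∀ y ≤ (r₀ : ℕ), pre (D.line x y) M = 1 := by
    intro y hy
    induction y with
    | zero => exact D.line_zero x
    | succ y ih =>
      have hy' : y < M := lt_of_lt_of_le (Nat.lt_of_succ_le hy) r₀.2.le
      rw [← (D.wirt_iff_line x ⟨y, hy'⟩).1 (h _ (by
        intro h0; rw [← h0] at hy; simp at hy))]
      exact ih (by omega)
  have h2 : ∀ k y, y + k = M → (r₀ : ℕ) < y → pre (D.line x y) M = 1 := by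
    intro k
    induction k with
    | zero => intro y hy _; rw [← D.line_top x]; congr 2
    | succ k ih =>
      intro y hy hr
      have hy' : y < M := by omega
      rw [(D.wirt_iff_line x ⟨y, hy'⟩).1 (h _ (by
        intro h0; rw [← h0] at hr; simp at hr))]
      exact ih (y + 1) (by omega) (by omega)
  rw [h1 _ le_rfl, h2 (M - (r₀ + 1)) (r₀ + 1) (by have := r₀.2; omega) (by omega)]

end Grid

end Pool.Agent.Helper20.DFJ

end

section

/-!
# The flip lemma and the grid diagram `D60`
-/

namespace Pool.Agent.Helper20.DFJ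

section Flip

variable {A : Type*} [Group A] (flip : ℕ → Bool)

/-- product of the flipped elements before `k` -/
def flipPre (v : ℕ → A) (k : ℕ) : A := pre (fun c => if flip c then v c else 1) k

/-- change of meridians when the flipped columns are replaced by the complementary arcs -/
def fl (v : ℕ → A) (c : ℕ) : A :=
  flipPre flip v c * (if flip c then (v c)⁻¹ else v c) * (flipPre flip v c)⁻¹

theorem flipPre_succ (v : ℕ → A) (k : ℕ) :
    flipPre flip v (k + 1) = flipPre flip v k * (if flip k then v k else 1) := pre_succ _ _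

theorem flipPre_fl (v : ℕ → A) (k : ℕ) : flipPre flip (fl flip v) k = (flipPre flip v k)⁻¹ := by
  induction k with
  | zero => simp [flipPre]
  | succ k ih =>
    rw [flipPre_succ, flipPre_succ, ih]
    by_cases h : flip k = true
    · simp [h, fl, mul_assoc]
    · simp [h]

theorem fl_fl (v : ℕ → A) : fl flip (fl flip v) = v := by
  funext c
  rw [fl, flipPre_fl]
  by_cases h : flip c = true
  · simp [h, fl, mul_assoc]
  · simp [h, fl, mul_assoc]

theorem pre_fl (g : ℕ → Bool) (v : ℕ → A) (k : ℕ) :
    pre (fun c => if g c then fl flip v c else 1) k =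
      pre (fun c => if xor (g c) (flip c) then v c else 1) k * (flipPre flip v k)⁻¹ := by
  induction k with
  | zero => simp [flipPre]
  | succ k ih =>
    rw [pre_succ, pre_succ, ih, flipPre_succ]
    cases h : flip k <;> cases g k <;> simp [h, fl, mul_assoc]

end Flip

namespace Grid

variable {M : ℕ} (D : Grid M) {A : Type*} [Group A]

theorem sgn_sq (c : Fin M) : D.sgn c * D.sgn c = 1 := by
  unfold sgn
  split <;> simp

/-- the product along the torus line `y` -/
def tline (flip : ℕ → Bool) (v : ℕ → A) (y : ℕ) : A :=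
  pre (fun c => if xor (D.gap c y) (flip c) then v c else 1) M

/-- Wirtinger relations in terms of the torus meridians -/
theorem wirt_iff_tline (flip : ℕ → Bool) (v : ℕ → A) (x : Fin M → A)
    (h : ∀ c : Fin M, D.un x c = fl flip v c) :
    (∀ r, D.Wirt x r) ↔ ∀ y ≤ M, D.tline flip v y = flipPre flip v M := by
  rw [D.wirt_iff]
  have e : ∀ y, pre (D.line x y) M = D.tline flip v y * (flipPre flip v M)⁻¹ := by
    intro y
    unfold tline
    rw [← pre_fl, ← seg_zero, ← seg_zero]
    apply seg_congr (Nat.zero_le _)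
    intro c _ hc
    unfold line
    rw [h ⟨c, hc⟩]
  constructor
  · intro h1 y hy
    have := h1 y hy
    rw [e, mul_inv_eq_one] at this
    exact this
  · intro h1 y hy
    rw [e, mul_inv_eq_one]
    exact h1 y hy

end Grid

/-! ### The grid diagram of size 60

Columns are numbered `20 m + 4 i + n` and rows `15 n + 3 j + m` with `m < 3`, `i, j < 5`,
`n < 4`: this is the 12-fold lift of a toroidal grid diagram with 5 columns. -/

def tX : ℕ → ℕ
  | 0 => 4 | 1 => 1 | 2 => 2 | 3 => 3 | _ => 0

def tO : ℕ → ℕ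
  | 0 => 1 | 1 => 0 | 2 => 3 | 3 => 4 | _ => 2

def tOi : ℕ → ℕ
  | 0 => 1 | 1 => 0 | 2 => 4 | 3 => 2 | _ => 3

def tdy : ℕ → ℕ
  | 0 => 1 | 1 => 1 | 2 => 3 | _ => 0

def tdx : ℕ → ℕ
  | 0 => 2 | 1 => 0 | 2 => 2 | 3 => 0 | _ => 1

def xrow (c : ℕ) : ℕ := 15 * (c % 4) + 3 * tX (c % 20 / 4) + c / 20

def orow (c : ℕ) : ℕ :=
  15 * ((c % 4 + tdy (c % 20 / 4)) % 4) + 3 * tO (c % 20 / 4) + (c / 20 + tdx (c % 20 / 4)) % 3

def xcol (r : ℕ) : ℕ := 20 * (r % 3) + 4 * tX (r % 15 / 3) + r / 15

def ocol (r : ℕ) : ℕ :=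
  20 * ((r % 3 + 3 - tdx (tOi (r % 15 / 3))) % 3) + 4 * tOi (r % 15 / 3) +
    (r / 15 + 4 - tdy (tOi (r % 15 / 3))) % 4

theorem rows_lt : ∀ c : Fin 60, xrow c < 60 ∧ orow c < 60 ∧ xcol c < 60 ∧ ocol c < 60 := by
  decide +kernel

/-- second markers -/
def X60 : Equiv.Perm (Fin 60) where
  toFun c := ⟨xrow c, (rows_lt c).1⟩
  invFun r := ⟨xcol r, (rows_lt r).2.2.1⟩
  left_inv := by
    have : ∀ c : Fin 60, xcol (xrow c) = c := by decide +kernel
    intro c; exact Fin.ext (this c)
  right_inv := by
    have : ∀ c : Fin 60, xrow (xcol c) = c := by decide +kernel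
    intro c; exact Fin.ext (this c)

/-- first markers -/
def O60 : Equiv.Perm (Fin 60) where
  toFun c := ⟨orow c, (rows_lt c).2.1⟩
  invFun r := ⟨ocol r, (rows_lt r).2.2.2⟩
  left_inv := by
    have : ∀ c : Fin 60, ocol (orow c) = c := by decide +kernel
    intro c; exact Fin.ext (this c)
  right_inv := by
    have : ∀ c : Fin 60, orow (ocol c) = c := by decide +kernel
    intro c; exact Fin.ext (this c)

/-- the grid diagram of the knot `K` -/
def D60 : Grid 60 where
  X := O60
  O := X60
  ne := by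
    have : ∀ c : Fin 60, orow c ≠ xrow c := by decide +kernel
    intro c h
    exact this c (congrArg Fin.val h)

/-- `D60` is a diagram of a knot -/
theorem D60_isKnot : D60.IsKnot := by
  have h : ∀ c : Fin 60, (D60.next)^[60] c = c ∧ ∃ k : Fin 60, (D60.next)^[k.val] 0 = c := by
    decide +kernel
  intro c c'
  obtain ⟨h60, k, hk⟩ := h c
  obtain ⟨_, k', hk'⟩ := h c'
  refine ⟨k' + (60 - k), ?_⟩
  rw [← Equiv.Perm.iterate_eq_pow, Function.iterate_add_apply]
  have e : (D60.next)^[60 - (k : ℕ)] c = 0 := by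
    have h0 : (D60.next)^[60] 0 = 0 := (h 0).1
    rw [← hk, ← Function.iterate_add_apply]
    have : 60 - (k : ℕ) + k = 60 := by omega
    rw [this, h0]
  rw [e, hk']

/-- the table of the markers of `D60` -/
theorem D60_table :
    (List.finRange 60).map (fun c => ((D60.X c : ℕ), (D60.O c : ℕ))) =
    [(20, 12), (35, 27), (50, 42), (5, 57), (15, 3), (30, 18), (45, 33), (0, 48), (56, 6), (11,
     21), (26, 36), (41, 51), (12, 9), (27, 24), (42, 39), (57, 54), (7, 0), (22, 15), (37,
     30), (52, 45), (18, 13), (33, 28), (48, 43), (3, 58), (16, 4), (31, 19), (46, 34), (1,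
     49), (54, 7), (9, 22), (24, 37), (39, 52), (13, 10), (28, 25), (43, 40), (58, 55), (8, 1),
     (23, 16), (38, 31), (53, 46), (19, 14), (34, 29), (49, 44), (4, 59), (17, 5), (32, 20),
     (47, 35), (2, 50), (55, 8), (10, 23), (25, 38), (40, 53), (14, 11), (29, 26), (44, 41),
     (59, 56), (6, 2), (21, 17), (36, 32), (51, 47)] := by
  decide +kernel

end Pool.Agent.Helper20.DFJ

end

section

/-!
# The torus lines of `D60` and the row relations
-/

namespace Pool.Agent.Helper20.DFJ

/-- the flipped columns of `D60` -/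
def flip60 (c : ℕ) : Bool := decide (c % 20 = 3 ∨ c % 20 = 7 ∨ c % 20 = 8)

/-- the columns `(m, i, n)` which cross (in the torus) the line `15 n + s` -/
def tlist (n : ℕ) : ℕ → List (ℕ × ℕ × ℕ)
  | 0 => [(0, 0, n + 3), (0, 1, n + 3), (0, 2, n), (1, 0, n + 3), (1, 1, n + 3), (1, 2, n),
      (2, 0, n + 3), (2, 1, n + 3), (2, 2, n)]
  | 1 => [(0, 0, n + 3), (0, 2, n), (0, 4, n), (1, 0, n + 3), (1, 1, n + 3), (1, 2, n),
      (2, 0, n + 3), (2, 1, n + 3), (2, 2, n)]
  | 2 => [(0, 0, n + 3), (0, 2, n), (0, 4, n), (1, 0, n + 3), (1, 2, n), (1, 4, n),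
      (2, 0, n + 3), (2, 1, n + 3), (2, 2, n)]
  | 3 => [(0, 0, n + 3), (0, 2, n), (0, 4, n), (1, 0, n + 3), (1, 2, n), (1, 4, n),
      (2, 0, n + 3), (2, 2, n), (2, 4, n)]
  | 4 => [(0, 0, n + 3), (0, 1, n), (0, 2, n), (0, 4, n), (1, 2, n), (1, 4, n),
      (2, 0, n + 3), (2, 2, n), (2, 4, n)]
  | 5 => [(0, 0, n + 3), (0, 1, n), (0, 2, n), (0, 4, n), (1, 1, n), (1, 2, n), (1, 4, n),
      (2, 2, n), (2, 4, n)]
  | 6 => [(0, 1, n), (0, 2, n), (0, 4, n), (1, 1, n), (1, 2, n), (1, 4, n),
      (2, 1, n), (2, 2, n), (2, 4, n)]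
  | 7 => [(0, 1, n), (0, 4, n), (1, 1, n), (1, 2, n), (1, 4, n), (2, 1, n), (2, 2, n)]
  | 8 => [(0, 1, n), (1, 1, n), (1, 4, n), (2, 1, n), (2, 2, n)]
  | 9 => [(0, 1, n), (1, 1, n), (2, 1, n)]
  | 10 => [(0, 1, n), (0, 3, n), (1, 1, n), (1, 2, n + 1), (2, 1, n)]
  | 11 => [(0, 1, n), (0, 3, n), (1, 1, n), (1, 2, n + 1), (1, 3, n), (2, 1, n), (2, 2, n + 1)]
  | 12 => [(0, 1, n), (0, 2, n + 1), (0, 3, n), (1, 1, n), (1, 2, n + 1), (1, 3, n),
      (2, 1, n), (2, 2, n + 1), (2, 3, n)]
  | 13 => [(0, 0, n), (0, 1, n), (0, 2, n + 1), (1, 1, n), (1, 2, n + 1), (1, 3, n),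
      (2, 1, n), (2, 2, n + 1), (2, 3, n)]
  | 14 => [(0, 0, n), (0, 1, n), (0, 2, n + 1), (1, 0, n), (1, 1, n), (1, 2, n + 1),
      (2, 1, n), (2, 2, n + 1), (2, 3, n)]
  | _ => [(0, 0, n), (0, 1, n), (0, 2, n + 1), (1, 0, n), (1, 1, n), (1, 2, n + 1),
      (2, 0, n), (2, 1, n), (2, 2, n + 1)]

theorem tlist_spec : ∀ n : Fin 4, ∀ s : Fin 16,
    (List.range 60).filter (fun c => xor (D60.gap c (15 * n + s)) (flip60 c)) =
      (tlist n s).map (fun t => 20 * t.1 + 4 * t.2.1 + t.2.2 % 4) := by
  decide +kernel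

section

variable {A : Type*} [Group A]

/-- product along the torus line `15 n + s` -/
def tprod (E : ℕ → ℕ → ℕ → A) (n s : ℕ) : A :=
  ((tlist n s).map (fun t => E t.1 t.2.1 t.2.2)).prod

/-- the meridians as a function of `(m, i, n)` -/
def tri (v : ℕ → A) (m i n : ℕ) : A := v (20 * m + 4 * i + n % 4)

theorem tline_eq (v : ℕ → A) (n s : ℕ) (hn : n < 4) (hs : s < 16) :
    D60.tline flip60 v (15 * n + s) = tprod (tri v) n s := by
  unfold Grid.tline pre tprod
  rw [← filter_prod (List.range 60) (fun c => xor (D60.gap c (15 * n + s)) (flip60 c) = true) v]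
  have h := tlist_spec ⟨n, hn⟩ ⟨s, hs⟩
  simp only at h
  have h' : (List.range 60).filter (fun c => decide ((xor (D60.gap c (15 * n + s)) (flip60 c)) = true)) =
      (tlist n s).map (fun t => 20 * t.1 + 4 * t.2.1 + t.2.2 % 4) := by
    rw [← h]
    congr 1
    funext c
    cases (D60.gap c (15 * n + s) ^^ flip60 c) <;> rfl
  rw [h', List.map_map]
  rfl

theorem flipPre_eq (v : ℕ → A) : flipPre flip60 v 60 = tprod (tri v) 0 0 := by
  rw [← tline_eq v 0 0 (by omega) (by omega)]
  unfold flipPre Grid.tline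
  rw [← seg_zero, ← seg_zero]
  apply seg_congr (Nat.zero_le _)
  intro c _ hc
  have : D60.gap c (15 * 0 + 0) = false := by
    unfold Grid.gap
    simp [hc]
  rw [this]
  simp

/-- the letters in the block `m ≤ 3` (block 3 is block 0 conjugated by `F`) -/
def ext (F : A) (E : ℕ → ℕ → ℕ → A) (m i n : ℕ) : A :=
  if m = 3 then F⁻¹ * E 0 i n * F else E m i n

/-- the row relations -/
structure Rows (F : A) (E : ℕ → ℕ → ℕ → A) : Prop where
  r0 : ∀ m < 3, ∀ n, E m 1 (n + 3) * E m 2 n = E m 2 n * E m 4 n
  r1 : ∀ m < 3, ∀ n, E m 2 n * E m 4 n * ext F E (m + 1) 0 (n + 3) = E m 1 n * E m 2 n * E m 4 n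
  r2 : ∀ m < 3, ∀ n, E m 4 n * ext F E (m + 1) 1 n * ext F E (m + 1) 2 n = ext F E (m + 1) 1 n
  r3 : ∀ m < 3, ∀ n, E m 3 n * ext F E (m + 1) 1 n * ext F E (m + 1) 2 (n + 1) =
    ext F E (m + 1) 1 n
  r4 : ∀ m < 3, ∀ n, E m 1 n * E m 2 (n + 1) * E m 3 n = E m 0 n * E m 1 n * E m 2 (n + 1)

theorem stepIn {F U L R S p p' : A} (hp : p = U * L * S) (hp' : p' = U * R * S) (h : p = F) :
    p' = F ↔ L = R := by
  subst hp'
  rw [← h, hp]
  constructor
  · intro h1
    exact (mul_left_cancel (mul_right_cancel h1)).symm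
  · rintro rfl; rfl

theorem stepW1 {F a Y b c p p' : A} (hp : p = a * Y * b) (hp' : p' = Y * c) (h : p = F) :
    p' = F ↔ b * (F⁻¹ * a * F) = c := by
  subst hp'
  have hb : b = Y⁻¹ * a⁻¹ * F := by rw [← h, hp]; group
  have e : b * (F⁻¹ * a * F) = Y⁻¹ * F := by rw [hb]; group
  rw [e]
  constructor
  · intro h1; rw [← h1]; group
  · intro h1; rw [← h1]; group

theorem stepW2 {F a e Y b p p' : A} (hp : p = a * e * Y * b) (hp' : p' = a * Y) (h : p = F) :
    p' = F ↔ b * (F⁻¹ * a * F) * (F⁻¹ * e * F) = F⁻¹ * a * F := by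
  subst hp'
  have hb : b = Y⁻¹ * e⁻¹ * a⁻¹ * F := by rw [← h, hp]; group
  have e1 : b * (F⁻¹ * a * F) * (F⁻¹ * e * F) = Y⁻¹ * F := by rw [hb]; group
  rw [e1]
  constructor
  · intro h1
    rw [← h1]; group
  · intro h1
    have h2 : Y⁻¹ = F⁻¹ * a := mul_right_cancel h1
    have h3 : F = F * Y⁻¹ * Y := by group
    rw [h3, h2]; group

theorem stepW3 {F a e Y b p p' : A} (hp : p = a * Y) (hp' : p' = a * e * Y * b) (h : p = F) :
    p' = F ↔ b * (F⁻¹ * a * F) * (F⁻¹ * e * F) = F⁻¹ * a * F := by
  subst hp'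
  have hY : Y = a⁻¹ * F := by rw [← h, hp]; group
  rw [hY]
  constructor
  · intro h1
    have hb : b = F⁻¹ * a * e⁻¹ * a⁻¹ * F := by
      calc b = (a * e * (a⁻¹ * F))⁻¹ * (a * e * (a⁻¹ * F) * b) := by group
        _ = _ := by rw [h1]; group
    rw [hb]; group
  · intro h1
    have hb : b = F⁻¹ * a * e⁻¹ * a⁻¹ * F := by
      calc b = (b * (F⁻¹ * a * F) * (F⁻¹ * e * F)) * (F⁻¹ * e * F)⁻¹ * (F⁻¹ * a * F)⁻¹ := by group
        _ = _ := by rw [h1]; group
    rw [hb]; group

variable (E : ℕ → ℕ → ℕ → A) (F : A) (n : ℕ)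

theorem st0 (h : tprod E n 0 = F) : tprod E n 1 = F ↔
    E 0 1 (n + 3) * E 0 2 n = E 0 2 n * E 0 4 n :=
  stepIn (U := E 0 0 (n + 3))
    (S := E 1 0 (n + 3) * E 1 1 (n + 3) * E 1 2 n * E 2 0 (n + 3) * E 2 1 (n + 3) * E 2 2 n)
    (by simp [tprod, tlist, mul_assoc]) (by simp [tprod, tlist, mul_assoc]) h

theorem st1 (h : tprod E n 1 = F) : tprod E n 2 = F ↔
    E 1 1 (n + 3) * E 1 2 n = E 1 2 n * E 1 4 n :=
  stepIn (U := E 0 0 (n + 3) * E 0 2 n * E 0 4 n * E 1 0 (n + 3))
    (S := E 2 0 (n + 3) * E 2 1 (n + 3) * E 2 2 n)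
    (by simp [tprod, tlist, mul_assoc]) (by simp [tprod, tlist, mul_assoc]) h

theorem st2 (h : tprod E n 2 = F) : tprod E n 3 = F ↔
    E 2 1 (n + 3) * E 2 2 n = E 2 2 n * E 2 4 n :=
  stepIn (U := E 0 0 (n + 3) * E 0 2 n * E 0 4 n * E 1 0 (n + 3) * E 1 2 n * E 1 4 n *
      E 2 0 (n + 3)) (S := 1)
    (by simp [tprod, tlist, mul_assoc]) (by simp [tprod, tlist, mul_assoc]) h

theorem st3 (h : tprod E n 3 = F) : tprod E n 4 = F ↔
    E 0 2 n * E 0 4 n * E 1 0 (n + 3) = E 0 1 n * E 0 2 n * E 0 4 n :=
  stepIn (U := E 0 0 (n + 3))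
    (S := E 1 2 n * E 1 4 n * E 2 0 (n + 3) * E 2 2 n * E 2 4 n)
    (by simp [tprod, tlist, mul_assoc]) (by simp [tprod, tlist, mul_assoc]) h

theorem st4 (h : tprod E n 4 = F) : tprod E n 5 = F ↔
    E 1 2 n * E 1 4 n * E 2 0 (n + 3) = E 1 1 n * E 1 2 n * E 1 4 n :=
  stepIn (U := E 0 0 (n + 3) * E 0 1 n * E 0 2 n * E 0 4 n)
    (S := E 2 2 n * E 2 4 n)
    (by simp [tprod, tlist, mul_assoc]) (by simp [tprod, tlist, mul_assoc]) h

theorem st5 (h : tprod E n 5 = F) : tprod E n 6 = F ↔
    E 2 2 n * E 2 4 n * (F⁻¹ * E 0 0 (n + 3) * F) = E 2 1 n * E 2 2 n * E 2 4 n :=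
  stepW1 (Y := E 0 1 n * E 0 2 n * E 0 4 n * E 1 1 n * E 1 2 n * E 1 4 n)
    (by simp [tprod, tlist, mul_assoc]) (by simp [tprod, tlist, mul_assoc]) h

theorem st6 (h : tprod E n 6 = F) : tprod E n 7 = F ↔
    E 2 4 n * (F⁻¹ * E 0 1 n * F) * (F⁻¹ * E 0 2 n * F) = F⁻¹ * E 0 1 n * F :=
  stepW2 (Y := E 0 4 n * E 1 1 n * E 1 2 n * E 1 4 n * E 2 1 n * E 2 2 n)
    (by simp [tprod, tlist, mul_assoc]) (by simp [tprod, tlist, mul_assoc]) h

theorem st7 (h : tprod E n 7 = F) : tprod E n 8 = F ↔
    E 0 4 n * E 1 1 n * E 1 2 n = E 1 1 n :=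
  stepIn (U := E 0 1 n) (S := E 1 4 n * E 2 1 n * E 2 2 n)
    (by simp [tprod, tlist, mul_assoc]) (by simp [tprod, tlist, mul_assoc]) h

theorem st8 (h : tprod E n 8 = F) : tprod E n 9 = F ↔
    E 1 4 n * E 2 1 n * E 2 2 n = E 2 1 n :=
  stepIn (U := E 0 1 n * E 1 1 n) (S := 1)
    (by simp [tprod, tlist, mul_assoc]) (by simp [tprod, tlist, mul_assoc]) h

theorem st9 (h : tprod E n 9 = F) : tprod E n 10 = F ↔
    E 1 1 n = E 0 3 n * E 1 1 n * E 1 2 (n + 1) :=
  stepIn (U := E 0 1 n) (S := E 2 1 n)
    (by simp [tprod, tlist, mul_assoc]) (by simp [tprod, tlist, mul_assoc]) h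

theorem st10 (h : tprod E n 10 = F) : tprod E n 11 = F ↔
    E 2 1 n = E 1 3 n * E 2 1 n * E 2 2 (n + 1) :=
  stepIn (U := E 0 1 n * E 0 3 n * E 1 1 n * E 1 2 (n + 1)) (S := 1)
    (by simp [tprod, tlist, mul_assoc]) (by simp [tprod, tlist, mul_assoc]) h

theorem st11 (h : tprod E n 11 = F) : tprod E n 12 = F ↔
    E 2 3 n * (F⁻¹ * E 0 1 n * F) * (F⁻¹ * E 0 2 (n + 1) * F) = F⁻¹ * E 0 1 n * F :=
  stepW3 (Y := E 0 3 n * E 1 1 n * E 1 2 (n + 1) * E 1 3 n * E 2 1 n * E 2 2 (n + 1))
    (by simp [tprod, tlist, mul_assoc]) (by simp [tprod, tlist, mul_assoc]) h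

theorem st12 (h : tprod E n 12 = F) : tprod E n 13 = F ↔
    E 0 1 n * E 0 2 (n + 1) * E 0 3 n = E 0 0 n * E 0 1 n * E 0 2 (n + 1) :=
  stepIn (U := 1) (S := E 1 1 n * E 1 2 (n + 1) * E 1 3 n * E 2 1 n * E 2 2 (n + 1) * E 2 3 n)
    (by simp [tprod, tlist, mul_assoc]) (by simp [tprod, tlist, mul_assoc]) h

theorem st13 (h : tprod E n 13 = F) : tprod E n 14 = F ↔
    E 1 1 n * E 1 2 (n + 1) * E 1 3 n = E 1 0 n * E 1 1 n * E 1 2 (n + 1) :=
  stepIn (U := E 0 0 n * E 0 1 n * E 0 2 (n + 1)) (S := E 2 1 n * E 2 2 (n + 1) * E 2 3 n)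
    (by simp [tprod, tlist, mul_assoc]) (by simp [tprod, tlist, mul_assoc]) h

theorem st14 (h : tprod E n 14 = F) : tprod E n 15 = F ↔
    E 2 1 n * E 2 2 (n + 1) * E 2 3 n = E 2 0 n * E 2 1 n * E 2 2 (n + 1) :=
  stepIn (U := E 0 0 n * E 0 1 n * E 0 2 (n + 1) * E 1 0 n * E 1 1 n * E 1 2 (n + 1)) (S := 1)
    (by simp [tprod, tlist, mul_assoc]) (by simp [tprod, tlist, mul_assoc]) h

/-- all torus lines have the same product iff the row relations hold -/
theorem rows_iff (hper : ∀ m i n, E m i (n + 4) = E m i n) (hF : tprod E 0 0 = F) :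
    (∀ n s, s < 16 → tprod E n s = F) ↔ Rows F E := by
  constructor
  · intro h
    have q : ∀ n s, s < 15 → tprod E n s = F ∧ tprod E n (s + 1) = F :=
      fun n s hs => ⟨h n s (by omega), h n (s + 1) (by omega)⟩
    constructor
    · intro m hm n
      interval_cases m
      · exact (st0 E F n (q n 0 (by omega)).1).1 (q n 0 (by omega)).2
      · exact (st1 E F n (q n 1 (by omega)).1).1 (q n 1 (by omega)).2
      · exact (st2 E F n (q n 2 (by omega)).1).1 (q n 2 (by omega)).2
    · intro m hm n
      interval_cases m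
      · exact (st3 E F n (q n 3 (by omega)).1).1 (q n 3 (by omega)).2
      · exact (st4 E F n (q n 4 (by omega)).1).1 (q n 4 (by omega)).2
      · exact (st5 E F n (q n 5 (by omega)).1).1 (q n 5 (by omega)).2
    · intro m hm n
      interval_cases m
      · exact (st7 E F n (q n 7 (by omega)).1).1 (q n 7 (by omega)).2
      · exact (st8 E F n (q n 8 (by omega)).1).1 (q n 8 (by omega)).2
      · exact (st6 E F n (q n 6 (by omega)).1).1 (q n 6 (by omega)).2
    · intro m hm n
      interval_cases m
      · exact ((st9 E F n (q n 9 (by omega)).1).1 (q n 9 (by omega)).2).symm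
      · exact ((st10 E F n (q n 10 (by omega)).1).1 (q n 10 (by omega)).2).symm
      · exact (st11 E F n (q n 11 (by omega)).1).1 (q n 11 (by omega)).2
    · intro m hm n
      interval_cases m
      · exact (st12 E F n (q n 12 (by omega)).1).1 (q n 12 (by omega)).2
      · exact (st13 E F n (q n 13 (by omega)).1).1 (q n 13 (by omega)).2
      · exact (st14 E F n (q n 14 (by omega)).1).1 (q n 14 (by omega)).2
  · intro R
    have key : ∀ n, tprod E n 0 = F → ∀ s, s < 16 → tprod E n s = F := by
      intro n h0 s hs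
      have h1 := (st0 E F n h0).2 (R.r0 0 (by omega) n)
      have h2 := (st1 E F n h1).2 (R.r0 1 (by omega) n)
      have h3 := (st2 E F n h2).2 (R.r0 2 (by omega) n)
      have h4 := (st3 E F n h3).2 (R.r1 0 (by omega) n)
      have h5 := (st4 E F n h4).2 (R.r1 1 (by omega) n)
      have h6 := (st5 E F n h5).2 (R.r1 2 (by omega) n)
      have h7 := (st6 E F n h6).2 (R.r2 2 (by omega) n)
      have h8 := (st7 E F n h7).2 (R.r2 0 (by omega) n)
      have h9 := (st8 E F n h8).2 (R.r2 1 (by omega) n)
      have h10 := (st9 E F n h9).2 (R.r3 0 (by omega) n).symm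
      have h11 := (st10 E F n h10).2 (R.r3 1 (by omega) n).symm
      have h12 := (st11 E F n h11).2 (R.r3 2 (by omega) n)
      have h13 := (st12 E F n h12).2 (R.r4 0 (by omega) n)
      have h14 := (st13 E F n h13).2 (R.r4 1 (by omega) n)
      have h15 := (st14 E F n h14).2 (R.r4 2 (by omega) n)
      interval_cases s <;> assumption
    have h0 : ∀ n, tprod E n 0 = F := by
      intro n
      induction n with
      | zero => exact hF
      | succ n ih =>
        have := key n ih 15 (by omega)
        rw [← this]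
        simp [tprod, tlist, Nat.add_assoc, hper]
    exact fun n => key n (h0 n)

end

end Pool.Agent.Helper20.DFJ

end
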