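import Mathlib

/-!
# Genus detection by the holonomy twisted Alexander polynomial: definitions

This file holds all definitions used by the final statement; it imports only Mathlib.

* Knots are closed braids (Alexander's theorem), up to Markov's moves (Markov's theorem).
* The knot group is given by the Wirtinger presentation of the closed braid.
* Seifert surfaces are braided Seifert surfaces, that is parallel disks joined by half twisted
  bands (Rudolph's theorem: every Seifert surface is isotopic to one of these).
* The complete hyperbolic structure of the knot complement is given by its holonomy, a discrete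
  and faithful representation.
* The twisted Alexander polynomial is Wada's invariant, computed with Fox derivatives.
-/

noncomputable section

namespace Pool.Agent.DFJ

open Multiplicative
open scoped LaurentPolynomial MatrixGroups

/-! ### Knots as closed braids -/

/-- A braid word with `n` strands, standing for the closed braid. The letter `(i, true)` is the
crossing `σ` of the strands at the places `i` and `i + 1` (the places are `0, ..., n - 1`), and
`(i, false)` is the inverse crossing. -/
structure Braid where
  /-- number of strands -/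
  n : ℕ
  /-- braid word -/
  word : List (ℕ × Bool)
  /-- the letters are generators of the braid group with `n` strands -/
  valid : ∀ l ∈ word, l.1 + 1 < n

/-- The place of the strand at place `i` after one letter. -/
def place (i : ℕ) (l : ℕ × Bool) : ℕ := if i = l.1 then l.1 + 1 else if i = l.1 + 1 then l.1 else i

/-- The closed braid has one component: the permutation of the braid is transitive. -/
def Braid.IsKnot (K : Braid) : Prop :=
  ∀ i < K.n, ∃ m : ℕ, (fun j => K.word.foldl place j)^[m] 0 = i

/-- Markov's moves: inserting or deleting a letter and its inverse, the two families of braid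
relations, conjugation, and stabilisation. Closed braids are isotopic if and only if they are
joined by a chain of such moves. -/
inductive Markov : Braid → Braid → Prop
  | cancel (n : ℕ) (u v : List (ℕ × Bool)) (i : ℕ) (e : Bool) (h h') :
      Markov ⟨n, u ++ v, h⟩ ⟨n, u ++ (i, e) :: (i, !e) :: v, h'⟩
  | comm (n : ℕ) (u v : List (ℕ × Bool)) (i j : ℕ) (d e : Bool) (hij : i + 1 < j) (h h') :
      Markov ⟨n, u ++ (i, d) :: (j, e) :: v, h⟩ ⟨n, u ++ (j, e) :: (i, d) :: v, h'⟩
  | braid (n : ℕ) (u v : List (ℕ × Bool)) (i : ℕ) (h h') :
      Markov ⟨n, u ++ (i, true) :: (i + 1, true) :: (i, true) :: v, h⟩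
        ⟨n, u ++ (i + 1, true) :: (i, true) :: (i + 1, true) :: v, h'⟩
  | conj (n : ℕ) (u v : List (ℕ × Bool)) (h h') : Markov ⟨n, u ++ v, h⟩ ⟨n, v ++ u, h'⟩
  | stab (n : ℕ) (w : List (ℕ × Bool)) (e : Bool) (h h') :
      Markov ⟨n + 1, w, h⟩ ⟨n + 2, w ++ [(n, e)], h'⟩

/-- The closures of two braids are isotopic. -/
def Braid.Isotopic (K L : Braid) : Prop := Relation.EqvGen Markov K L

/-! ### The knot group -/

section

variable {H : Type*} [Group H]

/-- The Wirtinger relations at a crossing: the meridians `x` of the strands (by their places)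
before the crossing give the meridians after it. At a letter `(i, true)` the strand from the place
`i` is the overcrossing one, at a letter `(i, false)` it is the strand from the place `i + 1`. -/
def crossing (x : ℕ → H) (l : ℕ × Bool) : ℕ → H :=
  if l.2 then
    Function.update (Function.update x l.1 (x l.1 * x (l.1 + 1) * (x l.1)⁻¹)) (l.1 + 1) (x l.1)
  else
    Function.update (Function.update x l.1 (x (l.1 + 1))) (l.1 + 1)
      ((x (l.1 + 1))⁻¹ * x l.1 * x (l.1 + 1))

end

/-- The free generators, one for every strand at the beginning of the braid. -/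
def gen (n : ℕ) (j : ℕ) : FreeGroup (Fin n) := if h : j < n then FreeGroup.of ⟨j, h⟩ else 1

/-- The Wirtinger relations of the closed braid (the meridians of the inner arcs are eliminated):
every strand has the same meridian at the end of the braid as at its beginning. -/
def Braid.rels (K : Braid) : Set (FreeGroup (Fin K.n)) :=
  {r | ∃ j < K.n, r = K.word.foldl crossing (gen K.n) j * (gen K.n j)⁻¹}

/-- The group of the closed braid. -/
abbrev Braid.Grp (K : Braid) : Type := PresentedGroup K.rels

/-- The meridian of the strand at place `i`. -/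
def Braid.mer (K : Braid) (i : Fin K.n) : K.Grp := PresentedGroup.of i

/-! ### Seifert surfaces and the genus -/

/-- The braid of a band: the band `(s, t, e)` joins the disks `s < t`, passes the disks between
them and has one half twist of sign `e`; its boundary is
`(σ_{t-1} ⋯ σ_{s+1}) σ_s^{±1} (σ_{t-1} ⋯ σ_{s+1})⁻¹`, where `σ_i` is the letter `(i, true)`. -/
def bandWord (b : ℕ × ℕ × Bool) : List (ℕ × Bool) :=
  ((List.range (b.2.1 - b.1 - 1)).map fun k => (b.2.1 - 1 - k, true)) ++ [(b.1, b.2.2)] ++
    ((List.range (b.2.1 - b.1 - 1)).map fun k => (b.1 + 1 + k, false))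

/-- A braided Seifert surface: `n` parallel disks `0, ..., n - 1` and a sequence of bands. -/
structure BandSurface where
  /-- number of disks -/
  n : ℕ
  /-- the bands, in their order along the braid -/
  bands : List (ℕ × ℕ × Bool)
  /-- a band `(s, t, e)` joins the disks `s < t` -/
  valid : ∀ b ∈ bands, b.1 < b.2.1 ∧ b.2.1 < n

/-- The boundary of the surface, a closed braid. -/
def BandSurface.boundary (S : BandSurface) : Braid where
  n := S.n
  word := S.bands.flatMap bandWord
  valid := by
    intro l hl
    obtain ⟨b, hb, h⟩ := List.mem_flatMap.1 hl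
    have hv := S.valid b hb
    simp only [bandWord, List.mem_append, List.mem_map, List.mem_range, List.mem_singleton] at h
    rcases h with (⟨k, hk, rfl⟩ | rfl) | ⟨k, hk, rfl⟩ <;> simp only <;> omega

/-- A surface with `n` disks, `k` bands and connected boundary has Euler characteristic
`n - k = 1 - 2 h`, where `h` is its genus. -/
def BandSurface.HasGenus (S : BandSurface) (h : ℕ) : Prop := S.bands.length + 1 = S.n + 2 * h

/-- `g` is the Seifert genus of the knot: the least genus of a Seifert surface of it. -/
def Braid.IsGenus (K : Braid) (g : ℕ) : Prop :=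
  IsLeast {h | ∃ S : BandSurface, S.boundary.IsKnot ∧ S.boundary.Isotopic K ∧ S.HasGenus h} g

/-! ### The holonomy representation -/

/-- `ρ` is a lift to `SL(2, ℂ)`, with trace `2` on the meridians, of the holonomy representation
of a complete hyperbolic structure on the complement of the knot: the knot group is not abelian,
and `ρ` is injective modulo `± 1` with discrete image.

Such a `ρ` exists if and only if the knot is hyperbolic. The quotient of hyperbolic 3-space by the
image is a hyperbolic manifold whose fundamental group is the knot group; its Euler characteristic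
is zero, so it has finite volume; by Waldhausen's theorem it is the knot complement, and by
Mostow's theorem `ρ` is the holonomy, unique up to conjugation and complex conjugation. -/
structure Braid.IsHolonomyLift (K : Braid) (ρ : K.Grp →* SL(2, ℂ)) : Prop where
  nonabelian : ∃ x y : K.Grp, x * y ≠ y * x
  faithful : ∀ x, (ρ x : Matrix (Fin 2) (Fin 2) ℂ) = 1 ∨ (ρ x : Matrix (Fin 2) (Fin 2) ℂ) = -1 →
    x = 1
  discrete : ∃ ε : ℝ, 0 < ε ∧ ∀ x,
    (∀ i j, ‖(ρ x : Matrix (Fin 2) (Fin 2) ℂ) i j - (1 : Matrix (Fin 2) (Fin 2) ℂ) i j‖ < ε) →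
      x = 1
  trace : ∀ i, (ρ (K.mer i) : Matrix (Fin 2) (Fin 2) ℂ).trace = 2

/-! ### The twisted Alexander polynomial -/

/-- Fox derivative of a word with respect to the generator `j` -/
def foxWord {n : ℕ} (j : Fin n) : List (Fin n × Bool) → MonoidAlgebra ℤ (FreeGroup (Fin n))
  | [] => 0
  | (i, true) :: L =>
      (if i = j then 1 else 0) + MonoidAlgebra.single (FreeGroup.of i) 1 * foxWord j L
  | (i, false) :: L =>
      MonoidAlgebra.single (FreeGroup.of i)⁻¹ 1 * (foxWord j L - (if i = j then 1 else 0))

/-- Fox derivative of an element of the free group with respect to the generator `j` -/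
def fox {n : ℕ} (j : Fin n) (w : FreeGroup (Fin n)) : MonoidAlgebra ℤ (FreeGroup (Fin n)) :=
  foxWord j w.toWord

section

variable {G : Type*} [Group G]

/-- `⟨x_0, …, x_m | r_0, …, r_{m-1}⟩` is a presentation of `G`, through the homomorphism `π` of the
free group onto `G`. -/
def IsPresentation {m : ℕ} (r : Fin m → FreeGroup (Fin (m + 1))) (π : FreeGroup (Fin (m + 1)) →* G) :
    Prop := Function.Surjective π ∧ π.ker = Subgroup.normalClosure (Set.range r)

/-- the representation `ρ ⊗ α`: the element `g` goes to `T ^ α(g) ρ(g)` -/
def tensor (ρ : G →* SL(2, ℂ)) (α : G →* Multiplicative ℤ) :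
    G →* Matrix (Fin 2) (Fin 2) ℂ[T;T⁻¹] where
  toFun g := (LaurentPolynomial.T (toAdd (α g)) : ℂ[T;T⁻¹]) •
    ((ρ g : Matrix (Fin 2) (Fin 2) ℂ).map LaurentPolynomial.C)
  map_one' := by
    ext i j
    by_cases h : i = j
    · subst h; simp
    · simp [h]
  map_mul' g h := by
    have h1 : (ρ (g * h) : Matrix (Fin 2) (Fin 2) ℂ) =
        (ρ g : Matrix (Fin 2) (Fin 2) ℂ) * (ρ h : Matrix (Fin 2) (Fin 2) ℂ) := by
      rw [map_mul]; rfl
    have h2 : toAdd (α (g * h)) = toAdd (α g) + toAdd (α h) := by rw [map_mul]; rfl
    rw [h1, h2, LaurentPolynomial.T_add, Matrix.map_mul, Matrix.smul_mul, Matrix.mul_smul, smul_smul]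

/-- the ring homomorphism `Φ = ρ ⊗ α`, on the group ring of the free group of a presentation -/
def Phi {n : ℕ} (ρ : G →* SL(2, ℂ)) (α : G →* Multiplicative ℤ) (π : FreeGroup (Fin n) →* G) :
    MonoidAlgebra ℤ (FreeGroup (Fin n)) →ₐ[ℤ] Matrix (Fin 2) (Fin 2) ℂ[T;T⁻¹] :=
  MonoidAlgebra.lift ℤ (Matrix (Fin 2) (Fin 2) ℂ[T;T⁻¹]) (FreeGroup (Fin n)) ((tensor ρ α).comp π)

/-- the numerator of Wada's invariant: the determinant of the matrix of the blocks
`Φ (∂ r_i / ∂ x_j)`, `j ≠ k` -/
def num {m : ℕ} (ρ : G →* SL(2, ℂ)) (α : G →* Multiplicative ℤ)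
    (r : Fin m → FreeGroup (Fin (m + 1))) (π : FreeGroup (Fin (m + 1)) →* G) (k : Fin (m + 1)) :
    ℂ[T;T⁻¹] :=
  Matrix.det (Matrix.of fun (p q : Fin m × Fin 2) => Phi ρ α π (fox (k.succAbove q.1) (r p.1)) p.2 q.2)

/-- the denominator of Wada's invariant: `det Φ (x_k - 1)` -/
def den {m : ℕ} (ρ : G →* SL(2, ℂ)) (α : G →* Multiplicative ℤ)
    (π : FreeGroup (Fin (m + 1)) →* G) (k : Fin (m + 1)) : ℂ[T;T⁻¹] :=
  Matrix.det (Phi ρ α π (MonoidAlgebra.single (FreeGroup.of k) 1 - 1))

end

/-- degree of a nonzero Laurent polynomial: its highest exponent minus its lowest exponent -/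
def degree (f : ℂ[T;T⁻¹]) : ℤ :=
  if h : f.coeff.support.Nonempty then f.coeff.support.max' h - f.coeff.support.min' h else 0

end Pool.Agent.DFJ
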