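import Pool.Agent.Helper20.DFJ.Knot
import Pool.Agent.Helper95.DFJ.Wada

/-!
# DFJ: Univ, Lift, Braid, Surface
-/

section

/-!
# Comparison of the presentations; conjugacy of the meridians
-/

namespace Pool.Agent.Helper20.DFJ

section

variable {H : Type*} [Group H]

theorem rel_iff (b c t : H) : Helper95.DFJ.Rel b c t ↔ GRel b c t := by
  have e1 : (c⁻¹ * (t * b⁻¹ * t⁻¹) * c = t * Helper95.DFJ.X4 b c t * t⁻¹) ↔
      (c⁻¹ * t * b⁻¹ * t⁻¹ * c =
        t * c⁻¹ * t * b * c⁻¹ * (wW b t)⁻¹ * c * b⁻¹ * t⁻¹ * c * t⁻¹) := by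
    have l : c⁻¹ * (t * b⁻¹ * t⁻¹) * c = c⁻¹ * t * b⁻¹ * t⁻¹ * c := by group
    have r : t * Helper95.DFJ.X4 b c t * t⁻¹ =
        t * c⁻¹ * t * b * c⁻¹ * (wW b t)⁻¹ * c * b⁻¹ * t⁻¹ * c * t⁻¹ := by
      unfold Helper95.DFJ.X4 Helper95.DFJ.aW Helper95.DFJ.dW wW
      group
    rw [l, r]
  have e2 : (c⁻¹ * (t * b * t⁻¹) * c * (t * b⁻¹ * t⁻¹) * c = Helper95.DFJ.X5 b c t) ↔
      (c * t⁻¹ * c * t * c⁻¹ = wW b t * c * (wW b t)⁻¹) := by
    have r : Helper95.DFJ.X5 b c t =
        (c⁻¹ * t * b * c⁻¹) * (wW b t * c * (wW b t)⁻¹) * (c * b⁻¹ * t⁻¹ * c) := by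
      unfold Helper95.DFJ.X5 Helper95.DFJ.aW Helper95.DFJ.dW wW
      group
    have l : c⁻¹ * (t * b * t⁻¹) * c * (t * b⁻¹ * t⁻¹) * c =
        (c⁻¹ * t * b * c⁻¹) * (c * t⁻¹ * c * t * c⁻¹) * (c * b⁻¹ * t⁻¹ * c) := by group
    rw [l, r]
    constructor
    · intro h; exact mul_left_cancel (mul_right_cancel h)
    · intro h; rw [h]
  unfold Helper95.DFJ.Rel
  rw [e1, e2]
  constructor
  · rintro ⟨h1, h2, h3, h4⟩; exact ⟨h1, h2, h4, h3⟩
  · rintro ⟨h1, h2, h3, h4⟩; exact ⟨h1, h2, h4, h3⟩

theorem G3_univ : Helper95.DFJ.IsUniv G3.b G3.c G3.t := by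
  refine ⟨(rel_iff _ _ _).2 G3.rel, G3.closure_eq, ?_⟩
  intro K _ b' c' t' h
  have h' := (rel_iff _ _ _).1 h
  exact ⟨G3.lift b' c' t' h', G3.lift_b _ _ _ h', G3.lift_c _ _ _ h', G3.lift_t _ _ _ h'⟩

/-- the conjugacy classes of the toroidal meridians -/
theorem conj_gv (i : ℕ) (hi : i < 5) : IsConj (gv i) (if i = 2 then G3.t else G3.t⁻¹) := by
  have h2 : IsConj (gv 2) G3.t := by
    rw [isConj_comm]
    refine isConj_iff.2 ⟨G3.t * G3.b⁻¹ * G3.t⁻¹ * G3.c, ?_⟩
    show _ = uW G3.b G3.c G3.t
    unfold uW; group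
  have h2' : IsConj (gv 2)⁻¹ G3.t⁻¹ := by
    obtain ⟨x, hx⟩ := isConj_iff.1 h2
    exact isConj_iff.2 ⟨x, by rw [← hx]; group⟩
  have h3 : IsConj (gv 3) G3.t⁻¹ := by
    refine IsConj.trans ?_ h2'
    rw [isConj_comm]
    refine isConj_iff.2 ⟨gal * gv 1 * G3.c⁻¹, ?_⟩
    rw [gT.v3]; group
  interval_cases i
  · rw [if_neg (by omega)]
    refine IsConj.trans ?_ h3
    rw [isConj_comm]
    refine isConj_iff.2 ⟨gv 1 * (G3.c⁻¹ * gv 2 * G3.c⁻¹⁻¹), ?_⟩
    rw [gT.r4]; group
  · rw [if_neg (by omega)]
    exact IsConj.refl _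
  · rw [if_pos rfl]; exact h2
  · rw [if_neg (by omega)]; exact h3
  · rw [if_neg (by omega)]
    refine IsConj.trans ?_ h2'
    rw [isConj_comm]
    refine isConj_iff.2 ⟨gal * gv 1, ?_⟩
    rw [gT.v4]; group

theorem isConj_zpow {x y : H} (h : IsConj x y) (k : ℤ) : IsConj (x ^ k) (y ^ k) := by
  obtain ⟨g, hg⟩ := isConj_iff.1 h
  refine isConj_iff.2 ⟨g, ?_⟩
  rw [← hg, conj_zpow]

theorem sgn_table : ∀ c : Fin 60, (if flip60 c then - D60.sgn c else D60.sgn c) =
    if (c : ℕ) % 20 / 4 = 2 then 1 else -1 := by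
  decide +kernel

/-- every meridian of the knot is conjugate to `t` in the orbifold group -/
theorem conj_mer (c : Fin 60) : IsConj (ff (D60.mer c)) G3.t := by
  have e : ff (D60.mer c) = plane (dec (trans gal G3.c⁻¹ gv)) c := gT.hom_mer c
  rw [e]
  unfold plane fl
  set P := flipPre flip60 (dec (trans gal G3.c⁻¹ gv)) c
  set v := dec (trans gal G3.c⁻¹ gv) c with hv
  have h1 : IsConj ((P * (if flip60 c then v⁻¹ else v) * P⁻¹) ^ D60.sgn c)
      (v ^ (if flip60 c then - D60.sgn c else D60.sgn c)) := by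
    rw [isConj_comm]
    refine isConj_iff.2 ⟨P, ?_⟩
    rw [conj_zpow]
    congr 2
    split
    · rw [inv_zpow', ]
    · rfl
  refine IsConj.trans h1 ?_
  rw [sgn_table]
  have h2 : IsConj v (gv ((c : ℕ) % 20 / 4)) := by
    rw [isConj_comm]
    exact isConj_iff.2 ⟨gal ^ ((c : ℕ) / 20) * G3.c⁻¹ ^ ((c : ℕ) % 4), rfl⟩
  have h3 := conj_gv ((c : ℕ) % 20 / 4) (by omega)
  have h4 := h2.trans h3
  split
  · rename_i h5
    rw [if_pos h5] at h4
    rw [zpow_one]; exact h4
  · rename_i h5
    rw [if_neg h5] at h4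
    have := isConj_zpow h4 (-1)
    simpa using this

end

end Pool.Agent.Helper20.DFJ

end

section

/-!
# The lift to `SL(2, ℂ)` of the representation of the knot group; the knot group is not abelian
-/

namespace Pool.Agent.Helper20.DFJ

open Complex
open scoped MatrixGroups

abbrev S4 : Type := Equiv.Perm (Fin 4)

def pb : S4 := ⟨![0, 2, 3, 1], ![0, 3, 1, 2], by decide, by decide⟩
def pc : S4 := ⟨![1, 2, 3, 0], ![3, 0, 1, 2], by decide, by decide⟩
def pt : S4 := ⟨![1, 3, 0, 2], ![2, 0, 3, 1], by decide, by decide⟩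

theorem S4_rel : GRel pb pc pt :=
  ⟨by decide, by decide, by unfold wW; decide, by unfold wW; decide⟩

/-- two noncommuting elements of the knot group -/
theorem D60_nonabelian : ∃ x y : D60.Grp, x * y ≠ y * x := by
  by_contra hcon
  push Not at hcon
  have h1 : G3.t ∈ ff.range := by rw [range_ff]; exact chi_t
  have h2 : G3.c * G3.t * G3.c⁻¹ ∈ ff.range := by
    rw [range_ff]
    show chi _ = 1
    rw [map_mul, map_mul, map_inv, chi_t, mul_one, mul_inv_cancel]
  obtain ⟨x, hx⟩ := h1
  obtain ⟨y, hy⟩ := h2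
  have h3 := congrArg ff (hcon x y)
  rw [map_mul, map_mul, hx, hy] at h3
  have h4 := congrArg (G3.lift _ _ _ S4_rel) h3
  simp only [map_mul, map_inv, G3.lift_t, G3.lift_c] at h4
  revert h4
  decide

/-- determinant of the representation on the knot group -/
theorem det_ff (ρ : G3 →* GL (Fin 2) ℂ) (hdet : (ρ G3.t).1.det = 1) (g : D60.Grp) :
    (ρ (ff g)).1.det = 1 := by
  have h1 : ((Matrix.GeneralLinearGroup.det.comp ρ).comp ff) = 1 := by
    apply Grid.hom_ext
    intro c
    obtain ⟨x, hx⟩ := isConj_iff.1 (conj_mer c)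
    show Matrix.GeneralLinearGroup.det (ρ (ff (D60.mer c))) = 1
    have h2 : Matrix.GeneralLinearGroup.det (ρ G3.t) = 1 := Units.ext hdet
    rw [← h2, ← hx, map_mul, map_mul, map_mul, map_mul, map_inv, map_inv]
    rw [mul_comm (Matrix.GeneralLinearGroup.det (ρ x)), mul_inv_cancel_right]
  have h3 := DFunLike.congr_fun h1 g
  have h4 : Matrix.GeneralLinearGroup.det (ρ (ff g)) = 1 := h3
  exact congrArg Units.val h4

/-- the representation of the knot group in `SL(2, ℂ)` -/
noncomputable def rho0 (ρ : G3 →* GL (Fin 2) ℂ) (hdet : (ρ G3.t).1.det = 1) :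
    D60.Grp →* SL(2, ℂ) where
  toFun g := ⟨(ρ (ff g)).1, det_ff ρ hdet g⟩
  map_one' := by
    apply Subtype.ext
    simp
  map_mul' g h := by
    apply Subtype.ext
    simp

theorem rho0_val (ρ : G3 →* GL (Fin 2) ℂ) (hdet : (ρ G3.t).1.det = 1) (g : D60.Grp) :
    ((rho0 ρ hdet g : SL(2, ℂ)) : Matrix (Fin 2) (Fin 2) ℂ) = (ρ (ff g)).1 := rfl

theorem rho0_trace (ρ : G3 →* GL (Fin 2) ℂ) (hdet : (ρ G3.t).1.det = 1)
    (htr : (ρ G3.t).1.trace = 2) (c : Fin 60) :
    ((rho0 ρ hdet (D60.mer c) : SL(2, ℂ)) : Matrix (Fin 2) (Fin 2) ℂ).trace = 2 := by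
  rw [rho0_val]
  obtain ⟨x, hx⟩ := isConj_iff.1 (conj_mer c)
  rw [← htr, ← hx, map_mul, map_mul, map_inv]
  show _ = ((ρ x).1 * (ρ (ff (D60.mer c))).1 * ((ρ x)⁻¹).1).trace
  rw [Matrix.trace_mul_comm, ← mul_assoc, Units.inv_mul, one_mul]

theorem rho0_faithful (ρ : G3 →* GL (Fin 2) ℂ) (hdet : (ρ G3.t).1.det = 1)
    (h : ∀ (g : G3) (l : ℂ), (ρ g).1 = l • (1 : Matrix (Fin 2) (Fin 2) ℂ) → g = 1)
    (g : D60.Grp) (hg : ((rho0 ρ hdet g : SL(2, ℂ)) : Matrix (Fin 2) (Fin 2) ℂ) = 1 ∨
      ((rho0 ρ hdet g : SL(2, ℂ)) : Matrix (Fin 2) (Fin 2) ℂ) = -1) : g = 1 := by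
  rw [rho0_val] at hg
  apply ff_injective
  rw [map_one]
  rcases hg with hg | hg
  · exact h _ 1 (by rw [hg, one_smul])
  · exact h _ (-1) (by rw [hg, neg_smul, one_smul])

theorem rho0_discrete (ρ : G3 →* GL (Fin 2) ℂ) (hdet : (ρ G3.t).1.det = 1)
    (h : ∃ ε : ℝ, 0 < ε ∧ ∀ (g : G3) (l : ℂ), normSq l = 1 →
      (∀ i j, ‖(ρ g).1 i j - (l • (1 : Matrix (Fin 2) (Fin 2) ℂ)) i j‖ < ε) → g = 1) :
    ∃ ε : ℝ, 0 < ε ∧ ∀ g : D60.Grp,
      (∀ i j, ‖((rho0 ρ hdet g : SL(2, ℂ)) : Matrix (Fin 2) (Fin 2) ℂ) i j -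
        (1 : Matrix (Fin 2) (Fin 2) ℂ) i j‖ < ε) → g = 1 := by
  obtain ⟨ε, hε, h1⟩ := h
  refine ⟨ε, hε, fun g hg => ?_⟩
  apply ff_injective
  rw [map_one]
  exact h1 _ 1 (by simp) (by simpa only [one_smul, rho0_val] using hg)

end Pool.Agent.Helper20.DFJ

end

section

/-!
# Every grid diagram as a closed braid
-/

namespace Pool.Agent.Helper20.DFJ

open Helper95.DFJ

section Lists

variable {H : Type*} [Group H]

/-- a list as a sequence of labels -/
def toF (L : List H) (i : ℕ) : H := L.getD i 1

theorem toF_append_left (A B : List H) (i : ℕ) (h : i < A.length) : toF (A ++ B) i = toF A i := by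
  unfold toF
  rw [List.getD_append _ _ _ _ h]

theorem toF_append_right (A B : List H) (i : ℕ) (h : A.length ≤ i) :
    toF (A ++ B) i = toF B (i - A.length) := by
  unfold toF
  rw [List.getD_append_right _ _ _ _ h]

theorem toF_cons_zero (x : H) (L : List H) : toF (x :: L) 0 = x := rfl

theorem toF_cons_succ (x : H) (L : List H) (i : ℕ) : toF (x :: L) (i + 1) = toF L i := rfl

theorem toF_at (A : List H) (x : H) (C : List H) : toF (A ++ x :: C) A.length = x := by
  rw [toF_append_right _ _ _ le_rfl, Nat.sub_self, toF_cons_zero]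

theorem toF_at1 (A : List H) (x y : H) (C : List H) :
    toF (A ++ x :: y :: C) (A.length + 1) = y := by
  rw [toF_append_right _ _ _ (by omega)]
  have : A.length + 1 - A.length = 1 := by omega
  rw [this]; rfl

theorem toF_other (A : List H) (x y x' y' : H) (C : List H) (i : ℕ) (h1 : i ≠ A.length)
    (h2 : i ≠ A.length + 1) : toF (A ++ x :: y :: C) i = toF (A ++ x' :: y' :: C) i := by
  rcases lt_or_ge i A.length with h | h
  · rw [toF_append_left _ _ _ h, toF_append_left _ _ _ h]
  · rw [toF_append_right _ _ _ h, toF_append_right _ _ _ h]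
    obtain ⟨j, rfl⟩ : ∃ j, i = A.length + 2 + j := ⟨i - (A.length + 2), by omega⟩
    have : A.length + 2 + j - A.length = j + 2 := by omega
    rw [this]
    rfl

theorem crossing_false (A : List H) (x y : H) (C : List H) :
    crossing (A.length, false) (toF (A ++ x :: y :: C)) = toF (A ++ y :: (y⁻¹ * x * y) :: C) := by
  funext i
  unfold crossing
  simp only [Bool.false_eq_true, if_false]
  rw [toF_at, toF_at1]
  by_cases h2 : i = A.length + 1
  · subst h2
    rw [Function.update_self, toF_at1]
  · rw [Function.update_of_ne h2]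
    by_cases h1 : i = A.length
    · subst h1
      rw [Function.update_self, toF_at]
    · rw [Function.update_of_ne h1]
      exact toF_other _ _ _ _ _ _ _ h1 h2

theorem crossing_true (A : List H) (x y : H) (C : List H) :
    crossing (A.length, true) (toF (A ++ x :: y :: C)) = toF (A ++ (x * y * x⁻¹) :: x :: C) := by
  funext i
  unfold crossing
  simp only [if_true]
  rw [toF_at, toF_at1]
  by_cases h2 : i = A.length + 1
  · subst h2
    rw [Function.update_self, toF_at1]
  · rw [Function.update_of_ne h2]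
    by_cases h1 : i = A.length
    · subst h1
      rw [Function.update_self, toF_at]
    · rw [Function.update_of_ne h1]
      exact toF_other _ _ _ _ _ _ _ h1 h2

/-- the strand at place `p` moves `k` places to the right, below the others -/
def moveR : ℕ → ℕ → List Letter
  | _, 0 => []
  | p, k + 1 => (p, false) :: moveR (p + 1) k

/-- the strand at place `p + k` moves `k` places to the left, below the others -/
def moveL : ℕ → ℕ → List Letter
  | _, 0 => []
  | p, k + 1 => (p + k, true) :: moveL p k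

theorem labels_cons (l : Letter) (w : List Letter) (x : ℕ → H) :
    labels (l :: w) x = labels w (crossing l x) := rfl

theorem labels_append (w w' : List Letter) (x : ℕ → H) :
    labels (w ++ w') x = labels w' (labels w x) := List.foldl_append

theorem labels_moveR (B : List H) : ∀ (A C : List H) (x : H),
    labels (moveR A.length B.length) (toF (A ++ x :: (B ++ C))) =
      toF (A ++ (B ++ (B.prod⁻¹ * x * B.prod) :: C)) := by
  induction B with
  | nil => intro A C x; simp [moveR, labels]
  | cons y B ih =>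
    intro A C x
    rw [List.length_cons, moveR, labels_cons, List.cons_append, crossing_false]
    have h := ih (A ++ [y]) C (y⁻¹ * x * y)
    rw [List.length_append, List.length_singleton, List.append_assoc, List.singleton_append,
      List.append_assoc, List.singleton_append] at h
    rw [h, List.prod_cons, List.cons_append]
    congr 4
    group

theorem labels_moveL (B : List H) : ∀ (A C : List H) (x : H),
    labels (moveL A.length B.length) (toF (A ++ (B ++ x :: C))) =
      toF (A ++ (B.prod * x * B.prod⁻¹) :: (B ++ C)) := by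
  induction B using List.reverseRecOn with
  | nil => intro A C x; simp [moveL, labels]
  | append_singleton B y ih =>
    intro A C x
    rw [List.length_append, List.length_singleton, moveL, labels_cons]
    have e : A ++ (B ++ [y] ++ x :: C) = (A ++ B) ++ y :: x :: C := by simp
    have h1 := crossing_true (A ++ B) y x C
    rw [List.length_append] at h1
    rw [e, h1]
    have e2 : (A ++ B) ++ (y * x * y⁻¹) :: y :: C = A ++ (B ++ (y * x * y⁻¹) :: (y :: C)) := by
      simp
    rw [e2, ih A (y :: C) (y * x * y⁻¹), List.prod_append, List.prod_singleton]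
    have e3 : A ++ (B ++ [y] ++ C) = A ++ (B ++ y :: C) := by simp
    have e4 : B.prod * y * x * (B.prod * y)⁻¹ = B.prod * (y * x * y⁻¹) * B.prod⁻¹ := by group
    rw [e4]
    simp

theorem crossing_mem {S : Subgroup H} {l : Letter} {x : ℕ → H} (h : ∀ i, x i ∈ S) (i : ℕ) :
    crossing l x i ∈ S := by
  unfold crossing
  split
  · by_cases h2 : i = l.1 + 1
    · subst h2; rw [Function.update_self]; exact h _
    · rw [Function.update_of_ne h2]
      by_cases h1 : i = l.1
      · subst h1; rw [Function.update_self]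
        exact S.mul_mem (S.mul_mem (h _) (h _)) (S.inv_mem (h _))
      · rw [Function.update_of_ne h1]; exact h _
  · by_cases h2 : i = l.1 + 1
    · subst h2; rw [Function.update_self]
      exact S.mul_mem (S.mul_mem (S.inv_mem (h _)) (h _)) (h _)
    · rw [Function.update_of_ne h2]
      by_cases h1 : i = l.1
      · subst h1; rw [Function.update_self]; exact h _
      · rw [Function.update_of_ne h1]; exact h _

theorem labels_mem {S : Subgroup H} (w : List Letter) : ∀ {x : ℕ → H}, (∀ i, x i ∈ S) →
    ∀ i, labels w x i ∈ S := by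
  induction w with
  | nil => intro x h i; exact h i
  | cons l w ih => intro x h i; exact ih (crossing_mem h) i

end Lists

namespace Grid

variable {M : ℕ} (D : Grid M)

/-- the columns which run downwards -/
def down (c : ℕ) : Bool := if h : c < M then decide (D.sgn ⟨c, h⟩ = -1) else false

/-- after flipping the downward columns: does column `c` cross the line `y`? -/
def upg (y c : ℕ) : Bool := xor (D.gap c y) (D.down c)

/-- the columns in `[i, j)` crossing the line `y` -/
def sg (y i j : ℕ) : List ℕ := (List.range' i (j - i)).filter (D.upg y)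

/-- the columns crossing the line `y` -/
def cols (y : ℕ) : List ℕ := D.sg y 0 M

/-- the braid letters of row `r` -/
def rowWord (r : Fin M) : List Letter :=
  let a := (D.O.symm r : ℕ)
  let b := (D.X.symm r : ℕ)
  if a < b then moveR (D.sg r 0 a).length (D.sg r (a + 1) b).length
  else moveL (D.sg r 0 b).length (D.sg r (b + 1) a).length

/-- the braid word up to line `y` -/
def wordTo (y : ℕ) : List Letter :=
  (List.range y).flatMap (fun r => if h : r < M then D.rowWord ⟨r, h⟩ else [])

theorem wordTo_succ (r : Fin M) : D.wordTo (r + 1) = D.wordTo r ++ D.rowWord r := by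
  unfold wordTo
  rw [List.range_succ, List.flatMap_append]
  simp [r.2]

theorem sg_append (y : ℕ) {i j k : ℕ} (h1 : i ≤ j) (h2 : j ≤ k) :
    D.sg y i k = D.sg y i j ++ D.sg y j k := by
  unfold sg
  rw [← List.filter_append]
  congr 1
  have e : k - i = (j - i) + (k - j) := by omega
  have e2 : j = i + 1 * (j - i) := by omega
  conv_rhs => rw [e2]
  rw [e]
  have := List.range'_append (s := i) (m := j - i) (n := k - j) (step := 1)
  rw [← this]
  simp only [one_mul]
  congr 2
  · omega
  · omega

theorem sg_one (y i : ℕ) : D.sg y i (i + 1) = if D.upg y i then [i] else [] := by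
  unfold sg
  simp only [Nat.add_sub_cancel_left, List.range'_one]
  by_cases h : D.upg y i = true
  · simp [h]
  · simp [h]

theorem sg_congr {y y' i j : ℕ} (h : ∀ c, i ≤ c → c < j → D.upg y c = D.upg y' c) :
    D.sg y i j = D.sg y' i j := by
  unfold sg
  apply List.filter_congr
  intro c hc
  rw [List.mem_range'] at hc
  obtain ⟨k, hk, rfl⟩ := hc
  exact h _ (by omega) (by omega)

theorem mem_sg {y i j c : ℕ} : c ∈ D.sg y i j ↔ i ≤ c ∧ c < j ∧ D.upg y c = true := by
  unfold sg
  rw [List.mem_filter, List.mem_range']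
  constructor
  · rintro ⟨⟨k, hk, rfl⟩, h⟩
    exact ⟨by omega, by omega, h⟩
  · rintro ⟨h1, h2, h3⟩
    exact ⟨⟨c - i, by omega, by omega⟩, h3⟩

theorem upg_O (r : Fin M) : D.upg r (D.O.symm r) = true ∧ D.upg (r + 1) (D.O.symm r) = false := by
  set a := D.O.symm r with ha
  have h1 : D.O a = r := by rw [ha, Equiv.apply_symm_apply]
  have h2 : (D.X a : ℕ) ≠ r := fun h => D.ne a (by rw [h1]; exact Fin.ext h)
  unfold upg gap down sgn
  simp only [a.2, dif_pos, Fin.eta, h1, Fin.lt_def]
  rcases lt_or_gt_of_ne h2 with h | h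
  · rw [if_pos h]
    constructor
    · simp; omega
    · simp; omega
  · rw [if_neg (by omega)]
    constructor
    · simp; omega
    · simp; omega

theorem upg_X (r : Fin M) : D.upg r (D.X.symm r) = false ∧ D.upg (r + 1) (D.X.symm r) = true := by
  set b := D.X.symm r with hb
  have h1 : D.X b = r := by rw [hb, Equiv.apply_symm_apply]
  have h2 : (D.O b : ℕ) ≠ r := fun h => D.ne b (by rw [h1]; exact (Fin.ext h).symm)
  unfold upg gap down sgn
  simp only [b.2, dif_pos, Fin.eta, h1, Fin.lt_def]
  rcases lt_or_gt_of_ne h2 with h | h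
  · rw [if_neg (by omega)]
    constructor
    · simp; omega
    · simp; omega
  · rw [if_pos h]
    constructor
    · simp; omega
    · simp; omega

theorem upg_other (r : Fin M) (c : ℕ) (h1 : c ≠ D.X.symm r) (h2 : c ≠ D.O.symm r) :
    D.upg r c = D.upg (r + 1) c := by
  unfold upg
  congr 1
  by_cases hc : c < M
  · have := D.cross_iff r ⟨c, hc⟩ (fun h => h1 (by rw [← h])) (fun h => h2 (by rw [← h]))
    have h3 : (D.gap c r = true) ↔ (D.gap c (r + 1) = true) := this.1.symm.trans this.2
    exact Bool.eq_iff_iff.2 h3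
  · simp [gap, hc]

theorem symm_ne (r : Fin M) : (D.O.symm r : ℕ) ≠ D.X.symm r := by
  intro h
  have h' : D.O.symm r = D.X.symm r := Fin.ext h
  apply D.ne (D.X.symm r)
  rw [Equiv.apply_symm_apply, ← h', Equiv.apply_symm_apply]

/-- the columns below and above a row, strand moving to the right -/
theorem cols_right (r : Fin M) (hab : (D.O.symm r : ℕ) < D.X.symm r) :
    D.cols r = D.sg r 0 (D.O.symm r) ++ (D.O.symm r : ℕ) ::
      (D.sg r ((D.O.symm r : ℕ) + 1) (D.X.symm r) ++ D.sg r ((D.X.symm r : ℕ) + 1) M) ∧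
    D.cols (r + 1) = D.sg r 0 (D.O.symm r) ++
      (D.sg r ((D.O.symm r : ℕ) + 1) (D.X.symm r) ++ (D.X.symm r : ℕ) ::
        D.sg r ((D.X.symm r : ℕ) + 1) M) := by
  have hO := D.upg_O r
  have hX := D.upg_X r
  have ho := D.upg_other r
  have hb := (D.X.symm r).2
  set a := (D.O.symm r : ℕ)
  set b := (D.X.symm r : ℕ)
  constructor
  · unfold cols
    rw [D.sg_append r (Nat.zero_le a) (by omega : a ≤ M),
      D.sg_append r (by omega : a ≤ a + 1) (by omega : a + 1 ≤ M), sg_one, if_pos hO.1,
      D.sg_append r (by omega : a + 1 ≤ b) (by omega : b ≤ M),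
      D.sg_append r (by omega : b ≤ b + 1) (by omega : b + 1 ≤ M), sg_one, hX.1]
    simp
  · have e1 : D.sg (r + 1) 0 a = D.sg r 0 a :=
      D.sg_congr (fun c _ h2 => (ho c (by omega) (by omega)).symm)
    have e2 : D.sg (r + 1) (a + 1) b = D.sg r (a + 1) b :=
      D.sg_congr (fun c h1 h2 => (ho c (by omega) (by omega)).symm)
    have e3 : D.sg (r + 1) (b + 1) M = D.sg r (b + 1) M :=
      D.sg_congr (fun c h1 h2 => (ho c (by omega) (by omega)).symm)
    unfold cols
    rw [D.sg_append _ (Nat.zero_le a) (by omega : a ≤ M),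
      D.sg_append _ (by omega : a ≤ a + 1) (by omega : a + 1 ≤ M), sg_one, hO.2,
      D.sg_append _ (by omega : a + 1 ≤ b) (by omega : b ≤ M),
      D.sg_append _ (by omega : b ≤ b + 1) (by omega : b + 1 ≤ M), sg_one, if_pos hX.2, e1, e2, e3]
    simp

/-- the columns below and above a row, strand moving to the left -/
theorem cols_left (r : Fin M) (hab : (D.X.symm r : ℕ) < D.O.symm r) :
    D.cols r = D.sg r 0 (D.X.symm r) ++
      (D.sg r ((D.X.symm r : ℕ) + 1) (D.O.symm r) ++ (D.O.symm r : ℕ) ::
        D.sg r ((D.O.symm r : ℕ) + 1) M) ∧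
    D.cols (r + 1) = D.sg r 0 (D.X.symm r) ++ (D.X.symm r : ℕ) ::
      (D.sg r ((D.X.symm r : ℕ) + 1) (D.O.symm r) ++ D.sg r ((D.O.symm r : ℕ) + 1) M) := by
  have hO := D.upg_O r
  have hX := D.upg_X r
  have ho := D.upg_other r
  have ha := (D.O.symm r).2
  set a := (D.O.symm r : ℕ)
  set b := (D.X.symm r : ℕ)
  constructor
  · unfold cols
    rw [D.sg_append r (Nat.zero_le b) (by omega : b ≤ M),
      D.sg_append r (by omega : b ≤ b + 1) (by omega : b + 1 ≤ M), sg_one, hX.1,
      D.sg_append r (by omega : b + 1 ≤ a) (by omega : a ≤ M),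
      D.sg_append r (by omega : a ≤ a + 1) (by omega : a + 1 ≤ M), sg_one, if_pos hO.1]
    simp
  · have e1 : D.sg (r + 1) 0 b = D.sg r 0 b :=
      D.sg_congr (fun c _ h2 => (ho c (by omega) (by omega)).symm)
    have e2 : D.sg (r + 1) (b + 1) a = D.sg r (b + 1) a :=
      D.sg_congr (fun c h1 h2 => (ho c (by omega) (by omega)).symm)
    have e3 : D.sg (r + 1) (a + 1) M = D.sg r (a + 1) M :=
      D.sg_congr (fun c h1 h2 => (ho c (by omega) (by omega)).symm)
    unfold cols
    rw [D.sg_append _ (Nat.zero_le b) (by omega : b ≤ M),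
      D.sg_append _ (by omega : b ≤ b + 1) (by omega : b + 1 ≤ M), sg_one, if_pos hX.2,
      D.sg_append _ (by omega : b + 1 ≤ a) (by omega : a ≤ M),
      D.sg_append _ (by omega : a ≤ a + 1) (by omega : a + 1 ≤ M), sg_one, hO.2, e1, e2, e3]
    simp

theorem labels_rowWord {H : Type*} [Group H] (r : Fin M) (v : ℕ → H)
    (h : ((D.cols r).map v).prod = ((D.cols (r + 1)).map v).prod) :
    labels (D.rowWord r) (toF ((D.cols r).map v)) = toF ((D.cols (r + 1)).map v) := by
  unfold rowWord
  rcases lt_or_gt_of_ne (D.symm_ne r) with hab | hab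
  · simp only [if_pos hab]
    obtain ⟨h1, h2⟩ := D.cols_right r hab
    rw [h1, h2] at h ⊢
    simp only [List.map_append, List.map_cons, List.prod_append, List.prod_cons] at h ⊢
    have l1 := List.length_map (as := D.sg r 0 (D.O.symm r)) v
    have l2 := List.length_map (as := D.sg r ((D.O.symm r : ℕ) + 1) (D.X.symm r)) v
    rw [← l1, ← l2, labels_moveR]
    set A := List.map v (D.sg r 0 (D.O.symm r))
    set B := List.map v (D.sg r ((D.O.symm r : ℕ) + 1) (D.X.symm r))
    set C := List.map v (D.sg r ((D.X.symm r : ℕ) + 1) M)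
    have e : B.prod⁻¹ * v (D.O.symm r) * B.prod = v (D.X.symm r) := by
      have h3 := mul_left_cancel h
      have h4 : v (D.O.symm r) * B.prod = B.prod * v (D.X.symm r) := by
        have h5 : v (D.O.symm r) * B.prod * C.prod = B.prod * v (D.X.symm r) * C.prod := by
          rw [mul_assoc, h3]; group
        exact mul_right_cancel h5
      rw [mul_assoc, h4]; group
    rw [e]
  · simp only [if_neg (not_lt.2 hab.le)]
    obtain ⟨h1, h2⟩ := D.cols_left r hab
    rw [h1, h2] at h ⊢
    simp only [List.map_append, List.map_cons, List.prod_append, List.prod_cons] at h ⊢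
    have l1 := List.length_map (as := D.sg r 0 (D.X.symm r)) v
    have l2 := List.length_map (as := D.sg r ((D.X.symm r : ℕ) + 1) (D.O.symm r)) v
    rw [← l1, ← l2, labels_moveL]
    set A := List.map v (D.sg r 0 (D.X.symm r))
    set B := List.map v (D.sg r ((D.X.symm r : ℕ) + 1) (D.O.symm r))
    set C := List.map v (D.sg r ((D.O.symm r : ℕ) + 1) M)
    have e : B.prod * v (D.O.symm r) * B.prod⁻¹ = v (D.X.symm r) := by
      have h3 := mul_left_cancel h
      have h4 : B.prod * v (D.O.symm r) = v (D.X.symm r) * B.prod := by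
        have h5 : B.prod * v (D.O.symm r) * C.prod = v (D.X.symm r) * B.prod * C.prod := by
          rw [mul_assoc, h3]; group
        exact mul_right_cancel h5
      rw [h4]; group
    rw [e]

theorem labels_wordTo {H : Type*} [Group H] (v : ℕ → H)
    (h : ∀ y ≤ M, ((D.cols y).map v).prod = ((D.cols 0).map v).prod) (y : ℕ) (hy : y ≤ M) :
    labels (D.wordTo y) (toF ((D.cols 0).map v)) = toF ((D.cols y).map v) := by
  induction y with
  | zero => simp [wordTo, labels]
  | succ y ih =>
    have e := D.wordTo_succ ⟨y, hy⟩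
    simp only at e
    rw [e, labels_append, ih (by omega)]
    exact D.labels_rowWord ⟨y, hy⟩ v ((h y (by omega)).trans (h (y + 1) hy).symm)

theorem cols_top : D.cols M = D.cols 0 := by
  unfold cols
  apply D.sg_congr
  intro c _ hc
  unfold upg
  congr 1
  have h1 := (D.X ⟨c, hc⟩).2
  have h2 := (D.O ⟨c, hc⟩).2
  unfold gap
  simp only [hc, dif_pos]
  rw [decide_eq_decide]
  omega

/-- the braid word -/
def braid : List Letter := D.wordTo M

/-- number of strands -/
def strands : ℕ := (D.cols 0).length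

theorem cols_length (y : ℕ) (hy : y ≤ M) : (D.cols y).length = D.strands := by
  induction y with
  | zero => rfl
  | succ y ih =>
    rw [← ih (by omega)]
    rcases lt_or_gt_of_ne (D.symm_ne ⟨y, hy⟩) with hab | hab
    · obtain ⟨h1, h2⟩ := D.cols_right ⟨y, hy⟩ hab
      simp only at h1 h2
      rw [h1, h2]
      simp only [List.length_append, List.length_cons]
      omega
    · obtain ⟨h1, h2⟩ := D.cols_left ⟨y, hy⟩ hab
      simp only at h1 h2
      rw [h1, h2]
      simp only [List.length_append, List.length_cons]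
      omega

/-! ### The process of labelling the columns -/

section Process

variable {H : Type*} [Group H]

/-- the new label produced at row `r` -/
def newLab (r : Fin M) (U : ℕ → H) : H :=
  if (D.O.symm r : ℕ) < D.X.symm r then
    (((D.sg r ((D.O.symm r : ℕ) + 1) (D.X.symm r)).map U).prod)⁻¹ * U (D.O.symm r) *
      ((D.sg r ((D.O.symm r : ℕ) + 1) (D.X.symm r)).map U).prod
  else
    ((D.sg r ((D.X.symm r : ℕ) + 1) (D.O.symm r)).map U).prod * U (D.O.symm r) *
      (((D.sg r ((D.X.symm r : ℕ) + 1) (D.O.symm r)).map U).prod)⁻¹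

/-- labels of the columns after the rows `0, ..., y - 1` -/
def proc (U : ℕ → H) : ℕ → (ℕ → H)
  | 0 => U
  | y + 1 => if h : y < M then
      Function.update (proc U y) (D.X.symm ⟨y, h⟩) (D.newLab ⟨y, h⟩ (proc U y)) else proc U y

theorem proc_succ (U : ℕ → H) (r : Fin M) : D.proc U (r + 1) =
    Function.update (D.proc U r) (D.X.symm r) (D.newLab r (D.proc U r)) := by
  show (if h : (r : ℕ) < M then _ else _) = _
  rw [dif_pos r.2]

theorem map_update_of_notMem {l : List ℕ} {U : ℕ → H} {b : ℕ} {x : H} (h : b ∉ l) :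
    l.map (Function.update U b x) = l.map U := by
  apply List.map_congr_left
  intro c hc
  rw [Function.update_of_ne]
  rintro rfl
  exact h hc

theorem labels_row_proc (r : Fin M) (U : ℕ → H) :
    labels (D.rowWord r) (toF ((D.cols r).map U)) =
      toF ((D.cols (r + 1)).map (Function.update U (D.X.symm r) (D.newLab r U))) ∧
    ((D.cols (r + 1)).map (Function.update U (D.X.symm r) (D.newLab r U))).prod =
      ((D.cols r).map U).prod := by
  have hX := (D.upg_X r).1
  unfold rowWord newLab
  rcases lt_or_gt_of_ne (D.symm_ne r) with hab | hab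
  · simp only [if_pos hab]
    obtain ⟨h1, h2⟩ := D.cols_right r hab
    have n1 : (D.X.symm r : ℕ) ∉ D.sg r 0 (D.O.symm r) := by
      rw [mem_sg]; omega
    have n2 : (D.X.symm r : ℕ) ∉ D.sg r ((D.O.symm r : ℕ) + 1) (D.X.symm r) := by
      rw [mem_sg]; omega
    have n3 : (D.X.symm r : ℕ) ∉ D.sg r ((D.X.symm r : ℕ) + 1) M := by
      rw [mem_sg]; omega
    rw [h1, h2]
    simp only [List.map_append, List.map_cons, map_update_of_notMem n1, map_update_of_notMem n2,
      map_update_of_notMem n3, Function.update_self]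
    have l1 := List.length_map (as := D.sg r 0 (D.O.symm r)) U
    have l2 := List.length_map (as := D.sg r ((D.O.symm r : ℕ) + 1) (D.X.symm r)) U
    rw [← l1, ← l2, labels_moveR]
    refine ⟨rfl, ?_⟩
    simp only [List.prod_append, List.prod_cons]
    group
  · simp only [if_neg (not_lt.2 hab.le)]
    obtain ⟨h1, h2⟩ := D.cols_left r hab
    have n1 : (D.X.symm r : ℕ) ∉ D.sg r 0 (D.X.symm r) := by
      rw [mem_sg]; omega
    have n2 : (D.X.symm r : ℕ) ∉ D.sg r ((D.X.symm r : ℕ) + 1) (D.O.symm r) := by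
      rw [mem_sg]; omega
    have n3 : (D.X.symm r : ℕ) ∉ D.sg r ((D.O.symm r : ℕ) + 1) M := by
      rw [mem_sg]; omega
    rw [h1, h2]
    simp only [List.map_append, List.map_cons, map_update_of_notMem n1, map_update_of_notMem n2,
      map_update_of_notMem n3, Function.update_self]
    have l1 := List.length_map (as := D.sg r 0 (D.X.symm r)) U
    have l2 := List.length_map (as := D.sg r ((D.X.symm r : ℕ) + 1) (D.O.symm r)) U
    rw [← l1, ← l2, labels_moveL]
    refine ⟨rfl, ?_⟩
    simp only [List.prod_append, List.prod_cons]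
    group

theorem labels_proc (U : ℕ → H) (y : ℕ) (hy : y ≤ M) :
    labels (D.wordTo y) (toF ((D.cols 0).map U)) = toF ((D.cols y).map (D.proc U y)) ∧
    ((D.cols y).map (D.proc U y)).prod = ((D.cols 0).map U).prod := by
  induction y with
  | zero => exact ⟨by simp [wordTo, labels, proc], rfl⟩
  | succ y ih =>
    obtain ⟨ih1, ih2⟩ := ih (by omega)
    have h := D.labels_row_proc ⟨y, hy⟩ (D.proc U y)
    have e := D.wordTo_succ ⟨y, hy⟩
    have e2 := D.proc_succ U ⟨y, hy⟩
    simp only at h e e2
    rw [e, labels_append, ih1, e2]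
    exact ⟨h.1, h.2.trans ih2⟩

theorem proc_before (U : ℕ → H) (c : Fin M) (y : ℕ) (hy : y ≤ D.X c) : D.proc U y c = U c := by
  induction y with
  | zero => rfl
  | succ y ih =>
    have hyM : y < M := by have := (D.X c).2; omega
    have e2 := D.proc_succ U ⟨y, hyM⟩
    simp only at e2
    rw [e2, Function.update_of_ne, ih (by omega)]
    intro h
    have h' : c = D.X.symm ⟨y, hyM⟩ := Fin.ext h
    rw [h', Equiv.apply_symm_apply] at hy
    simp at hy

theorem proc_after (U : ℕ → H) (c : Fin M) (y : ℕ) (h1 : D.X c < y) (hy : y ≤ M) :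
    D.proc U y c = D.proc U M c := by
  have key : ∀ k, y + k ≤ M → D.proc U (y + k) c = D.proc U y c := by
    intro k
    induction k with
    | zero => intro _; rfl
    | succ k ih =>
      intro hk
      have e2 := D.proc_succ U ⟨y + k, by omega⟩
      simp only at e2
      rw [← Nat.add_assoc, e2, Function.update_of_ne, ih (by omega)]
      intro h
      have h' : c = D.X.symm ⟨y + k, by omega⟩ := Fin.ext h
      rw [h', Equiv.apply_symm_apply] at h1
      simp at h1
  have := key (M - y) (by omega)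
  rw [← this]
  congr 2
  omega

theorem toF_inj {L L' : List H} (hl : L.length = L'.length) (h : toF L = toF L') : L = L' := by
  apply List.ext_getElem hl
  intro i h1 h2
  have := congrFun h i
  unfold toF at this
  rw [List.getD_eq_getElem _ _ h1, List.getD_eq_getElem _ _ h2] at this
  exact this

/-- if the braid closes up then the final labels have the same product along every line -/
theorem proc_closed (U : ℕ → H)
    (h : labels D.braid (toF ((D.cols 0).map U)) = toF ((D.cols 0).map U)) :
    (∀ c ∈ D.cols 0, D.proc U M c = U c) ∧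
    ∀ y ≤ M, ((D.cols y).map (D.proc U M)).prod = ((D.cols 0).map U).prod := by
  have h0 : ∀ c ∈ D.cols 0, D.proc U M c = U c := by
    have h1 := (D.labels_proc U M le_rfl).1
    have h2 : toF ((D.cols 0).map (D.proc U M)) = toF ((D.cols 0).map U) := by
      rw [← D.cols_top, ← h1, D.cols_top]; exact h
    have h3 := toF_inj (by simp) h2
    intro c hc
    exact (List.map_inj_left.1 h3) c hc
  refine ⟨h0, fun y hy => ?_⟩
  rw [← (D.labels_proc U y hy).2]
  congr 1
  apply List.map_congr_left
  intro c hc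
  obtain ⟨_, hcM, hup⟩ := D.mem_sg.1 hc
  have hne : (D.X ⟨c, hcM⟩ : ℕ) ≠ D.O ⟨c, hcM⟩ := fun h => D.ne _ (Fin.ext h)
  by_cases h1 : (D.X ⟨c, hcM⟩ : ℕ) < y
  · exact (D.proc_after U ⟨c, hcM⟩ y h1 hy).symm
  · have h2 := D.proc_before U ⟨c, hcM⟩ y (by omega)
    have h3 : c ∈ D.cols 0 := by
      refine D.mem_sg.2 ⟨Nat.zero_le _, hcM, ?_⟩
      unfold upg gap down sgn at hup ⊢
      simp only [hcM, dif_pos, Fin.lt_def] at hup ⊢
      by_cases h4 : (D.X ⟨c, hcM⟩ : ℕ) < D.O ⟨c, hcM⟩
      · rw [if_pos h4] at hup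
        simp at hup
        omega
      · rw [if_neg h4]
        simp
    rw [h0 c h3]
    exact h2.symm

end Process

/-! ### The group of the closed braid -/

theorem tline_down {H : Type*} [Group H] (v : ℕ → H) (y : ℕ) :
    D.tline D.down v y = ((D.cols y).map v).prod := by
  unfold tline pre cols sg
  rw [← filter_prod (List.range M) (fun c => xor (D.gap c y) (D.down c) = true) v]
  rw [Nat.sub_zero, ← List.range_eq_range']
  congr 2
  apply List.filter_congr
  intro c _
  unfold upg
  cases (D.gap c y ^^ D.down c) <;> rfl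

theorem flipPre_down {H : Type*} [Group H] (v : ℕ → H) :
    flipPre D.down v M = ((D.cols 0).map v).prod := by
  rw [← D.tline_down v 0]
  unfold flipPre tline
  rw [← seg_zero, ← seg_zero]
  apply seg_congr (Nat.zero_le _)
  intro c _ hc
  have : D.gap c 0 = false := by
    unfold gap
    simp [hc]
  rw [this]
  simp

/-- planar meridians from the torus meridians -/
def planeD {H : Type*} [Group H] (v : ℕ → H) (c : Fin M) : H := fl D.down v c ^ D.sgn c

theorem un_planeD {H : Type*} [Group H] (v : ℕ → H) (c : Fin M) :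
    D.un (D.planeD v) c = fl D.down v c := by
  unfold un planeD
  simp only [c.2, dif_pos, Fin.eta]
  rw [← zpow_mul, D.sgn_sq, zpow_one]

theorem moveR_valid (p k : ℕ) : ∀ l ∈ moveR p k, l.1 + 1 < p + k + 1 := by
  induction k generalizing p with
  | zero => simp [moveR]
  | succ k ih =>
    intro l hl
    rw [moveR, List.mem_cons] at hl
    rcases hl with rfl | hl
    · simp
    · have := ih (p + 1) l hl; omega

theorem moveL_valid (p k : ℕ) : ∀ l ∈ moveL p k, l.1 + 1 < p + k + 1 := by
  induction k with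
  | zero => simp [moveL]
  | succ k ih =>
    intro l hl
    rw [moveL, List.mem_cons] at hl
    rcases hl with rfl | hl
    · simp
    · have := ih l hl; omega

theorem rowWord_valid (r : Fin M) : ∀ l ∈ D.rowWord r, l.1 + 1 < D.strands := by
  intro l hl
  unfold rowWord at hl
  have hlen := D.cols_length r r.2.le
  rcases lt_or_gt_of_ne (D.symm_ne r) with hab | hab
  · simp only [if_pos hab] at hl
    have h := moveR_valid _ _ l hl
    rw [(D.cols_right r hab).1] at hlen
    simp only [List.length_append, List.length_cons] at hlen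
    omega
  · simp only [if_neg (not_lt.2 hab.le)] at hl
    have h := moveL_valid _ _ l hl
    rw [(D.cols_left r hab).1] at hlen
    simp only [List.length_append, List.length_cons] at hlen
    omega

theorem braid_valid : ∀ l ∈ D.braid, l.1 + 1 < D.strands := by
  intro l hl
  unfold braid wordTo at hl
  rw [List.mem_flatMap] at hl
  obtain ⟨r, hr, hl⟩ := hl
  rw [List.mem_range] at hr
  rw [dif_pos hr] at hl
  exact D.rowWord_valid _ l hl

/-- torus meridians of the knot group -/
noncomputable def tmD : ℕ → D.Grp := fl D.down (D.un D.mer)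

theorem tmD_prod (y : ℕ) (hy : y ≤ M) :
    ((D.cols y).map D.tmD).prod = ((D.cols 0).map D.tmD).prod := by
  rw [← tline_down, ← flipPre_down]
  refine (D.wirt_iff_tline D.down D.tmD D.mer ?_).1 D.wirt_mer y hy
  intro c
  unfold tmD
  rw [fl_fl]

/-- the labels at the bottom of the braid -/
noncomputable def base (i : ℕ) : D.Grp := toF ((D.cols 0).map D.tmD) i

theorem labels_base : labels D.braid D.base = D.base := by
  have h := D.labels_wordTo D.tmD D.tmD_prod M le_rfl
  rw [D.cols_top] at h
  exact h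

theorem base_out (i : ℕ) (hi : D.strands ≤ i) : D.base i = 1 := by
  unfold base toF
  rw [List.getD_eq_default]
  rw [List.length_map]; exact hi

theorem exists_theta : ∃ f : ClosureGroup D.strands D.braid →* D.Grp,
    ∀ i : Fin D.strands, f (Helper95.DFJ.mer D.strands D.braid i) = D.base i :=
  closure_univ _ _ D.base D.base_out D.labels_base

/-- the homomorphism from the group of the closed braid to the group of the grid diagram -/
noncomputable def theta : ClosureGroup D.strands D.braid →* D.Grp := D.exists_theta.choose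

theorem theta_mer (i : Fin D.strands) :
    D.theta (Helper95.DFJ.mer D.strands D.braid i) = D.base i := D.exists_theta.choose_spec i

theorem mem_cols_after (c : Fin M) : (c : ℕ) ∈ D.cols (D.X c + 1) := by
  refine D.mem_sg.2 ⟨Nat.zero_le _, c.2, ?_⟩
  have := (D.upg_X (D.X c)).2
  rw [Equiv.symm_apply_apply] at this
  exact this

theorem tmD_mem (c : Fin M) : D.tmD c ∈ D.theta.range := by
  have h1 : ∀ i, D.base i ∈ D.theta.range := by
    intro i
    by_cases hi : i < D.strands
    · exact ⟨_, D.theta_mer ⟨i, hi⟩⟩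
    · rw [D.base_out i (by omega)]; exact one_mem _
  have h2 := labels_mem (D.wordTo (D.X c + 1)) h1
  have h3 : labels (D.wordTo (D.X c + 1)) D.base = toF ((D.cols (D.X c + 1)).map D.tmD) :=
    D.labels_wordTo D.tmD D.tmD_prod _ (D.X c).2
  rw [h3] at h2
  have h4 : D.tmD c ∈ (D.cols (D.X c + 1)).map D.tmD :=
    List.mem_map.2 ⟨c, D.mem_cols_after c, rfl⟩
  obtain ⟨i, hi, he⟩ := List.getElem_of_mem h4
  have h5 := h2 i
  unfold toF at h5
  rw [List.getD_eq_getElem _ _ hi, he] at h5
  exact h5

theorem theta_surjective : Function.Surjective D.theta := by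
  rw [← MonoidHom.range_eq_top, eq_top_iff, ← PresentedGroup.closure_range_of (Set.range D.rel),
    Subgroup.closure_le]
  rintro _ ⟨c, rfl⟩
  show D.mer c ∈ D.theta.range
  have h1 : D.un D.mer c ∈ D.theta.range := by
    have h2 : D.un D.mer c = fl D.down D.tmD c := by unfold tmD; rw [fl_fl]
    rw [h2]
    exact fl_mem (fun k hk => D.tmD_mem ⟨k, by omega⟩)
  have h2 : D.mer c = (D.un D.mer c) ^ D.sgn c := by
    unfold un
    simp only [c.2, dif_pos, Fin.eta]
    rw [← zpow_mul, D.sgn_sq, zpow_one]
  rw [h2]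
  exact Subgroup.zpow_mem _ h1 _

/-- starting labels for the inverse homomorphism -/
noncomputable def startU (c : ℕ) : ClosureGroup D.strands D.braid :=
  merL D.strands D.braid ((D.cols 0).idxOf c)

theorem cols_nodup (y : ℕ) : (D.cols y).Nodup := by
  unfold cols sg
  exact List.Nodup.filter _ (List.nodup_range' (step := 1))

theorem toF_startU : toF ((D.cols 0).map D.startU) = merL D.strands D.braid := by
  funext i
  unfold toF
  by_cases hi : i < D.strands
  · have hi' : i < ((D.cols 0).map D.startU).length := by rw [List.length_map]; exact hi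
    rw [List.getD_eq_getElem _ _ hi', List.getElem_map]
    unfold startU
    rw [(D.cols_nodup 0).idxOf_getElem]
  · rw [List.getD_eq_default]
    · unfold merL; rw [dif_neg hi]
    · rw [List.length_map]; exact not_lt.1 hi

theorem startU_closed : labels D.braid (toF ((D.cols 0).map D.startU)) =
    toF ((D.cols 0).map D.startU) := by
  rw [toF_startU]
  exact closure_labels _ _ D.braid_valid

/-- final labels -/
noncomputable def finU : ℕ → ClosureGroup D.strands D.braid := D.proc D.startU M

theorem finU_wirt (r : Fin M) : D.Wirt (D.planeD D.finU) r := by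
  have h := (D.proc_closed D.startU D.startU_closed).2
  refine (D.wirt_iff_tline D.down D.finU _ (D.un_planeD D.finU)).2 ?_ r
  intro y hy
  rw [tline_down, flipPre_down]
  unfold finU
  rw [h y hy, h 0 (Nat.zero_le _)]

/-- the inverse homomorphism -/
noncomputable def lam : D.Grp →* ClosureGroup D.strands D.braid :=
  D.lift (D.planeD D.finU) D.finU_wirt

theorem lam_tmD (c : ℕ) (hc : c < M) : D.lam (D.tmD c) = D.finU c := by
  have h1 : ∀ k (hk : k < M), D.lam (D.un D.mer k) = fl D.down D.finU k := by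
    intro k hk
    unfold un
    simp only [hk, dif_pos]
    rw [map_zpow]
    have : D.lam (D.mer ⟨k, hk⟩) = D.planeD D.finU ⟨k, hk⟩ := D.lift_mer _ _ _
    rw [this]
    unfold planeD
    rw [← zpow_mul, D.sgn_sq, zpow_one]
  unfold tmD
  rw [map_fl, fl_congr (w := fl D.down D.finU) (fun k hk => h1 k (by omega)), fl_fl]

theorem lam_theta (x : ClosureGroup D.strands D.braid) : D.lam (D.theta x) = x := by
  have h : D.lam.comp D.theta = MonoidHom.id _ := by
    apply PresentedGroup.ext
    intro i
    show D.lam (D.theta (Helper95.DFJ.mer D.strands D.braid i)) =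
      Helper95.DFJ.mer D.strands D.braid i
    rw [theta_mer]
    unfold base toF
    have hi : (i : ℕ) < (D.cols 0).length := i.2
    have hi' : (i : ℕ) < ((D.cols 0).map D.tmD).length := by rw [List.length_map]; exact i.2
    rw [List.getD_eq_getElem _ _ hi', List.getElem_map]
    have hm : (D.cols 0)[(i : ℕ)] ∈ D.cols 0 := List.getElem_mem hi
    rw [D.lam_tmD _ (D.mem_sg.1 hm).2.1]
    have h2 := (D.proc_closed D.startU D.startU_closed).1 _ hm
    unfold finU
    rw [h2]
    unfold startU
    rw [(D.cols_nodup 0).idxOf_getElem]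
    unfold merL
    rw [dif_pos i.2]
  exact DFunLike.congr_fun h x

theorem theta_bijective : Function.Bijective D.theta :=
  ⟨Function.LeftInverse.injective D.lam_theta, D.theta_surjective⟩

theorem base_conj (i : Fin D.strands) : ∃ c : Fin M, IsConj (D.base i) (D.mer c) := by
  unfold base toF
  have hi : (i : ℕ) < (D.cols 0).length := i.2
  have hi' : (i : ℕ) < ((D.cols 0).map D.tmD).length := by rw [List.length_map]; exact i.2
  rw [List.getD_eq_getElem _ _ hi', List.getElem_map]
  have hm : (D.cols 0)[(i : ℕ)] ∈ D.cols 0 := List.getElem_mem hi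
  obtain ⟨_, hc, _⟩ := D.mem_sg.1 hm
  generalize (D.cols 0)[(i : ℕ)] = c at hc
  refine ⟨⟨c, hc⟩, ?_⟩
  unfold tmD fl
  set P := flipPre D.down (D.un D.mer) c
  rw [isConj_comm]
  refine isConj_iff.2 ⟨P, ?_⟩
  congr 2
  unfold down un sgn
  simp only [hc, dif_pos]
  by_cases h : D.X ⟨c, hc⟩ < D.O ⟨c, hc⟩
  · simp [h]
  · simp [h]

end Grid

end Pool.Agent.Helper20.DFJ

end

section

/-!
# A band surface bounded by the knot of `D60`
-/

namespace Pool.Agent.Helper20.DFJ

open Helper95.DFJ

/-- the permutation of the closed braid of `D60` -/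
def permTab : List ℕ := [7, 8, 9, 25, 15, 16, 41, 12, 13, 14, 21, 17, 3, 4, 5, 22, 23, 24, 40, 30,
  31, 11, 27, 28, 29, 36, 32, 18, 19, 20, 37, 38, 39, 10, 0, 1, 26, 42, 43, 44, 6, 2, 33, 34, 35]

set_option maxRecDepth 100000 in
theorem braid_length : D60.braid.length = 836 ∧ D60.strands = 45 := by decide +kernel

set_option maxRecDepth 100000 in
theorem perm_braid : (List.range 45).map (permWord D60.braid) = permTab := by decide +kernel

theorem getD_map_range (f : ℕ → ℕ) (n i : ℕ) (h : i < n) : ((List.range n).map f).getD i 0 = f i := by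
  have h' : i < ((List.range n).map f).length := by
    rw [List.length_map, List.length_range]; exact h
  rw [List.getD_eq_getElem _ _ h', List.getElem_map, List.getElem_range]

theorem perm_braid' (i : ℕ) (hi : i < 45) : permWord D60.braid i = permTab.getD i 0 :=
  (getD_map_range (permWord D60.braid) 45 i hi).symm.trans
    (congrArg (fun l : List ℕ => l.getD i 0) perm_braid)

theorem tab_lt : ∀ i : Fin 45, permTab.getD i 0 < 45 := by decide

theorem tab_orbit : ∀ i : Fin 45, ∃ m : Fin 45, (fun k => permTab.getD k 0)^[m.val] 0 = i.val := by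
  decide +kernel

theorem iterate_aux (f g : ℕ → ℕ) (n : ℕ) (hn : 0 < n) (h : ∀ i < n, f i = g i)
    (hg : ∀ i < n, g i < n) (m : ℕ) : f^[m] 0 = g^[m] 0 ∧ g^[m] 0 < n := by
  induction m with
  | zero => exact ⟨rfl, hn⟩
  | succ m ih =>
    rw [Function.iterate_succ_apply', Function.iterate_succ_apply', ih.1, h _ ih.2]
    exact ⟨rfl, hg _ ih.2⟩

theorem iterate_tab (m : ℕ) : (permWord D60.braid)^[m] 0 = (fun k => permTab.getD k 0)^[m] 0 :=
  (iterate_aux (permWord D60.braid) (fun k => permTab.getD k 0) 45 (by omega) perm_braid'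
    (fun i hi => tab_lt ⟨i, hi⟩) m).1

/-- the band surface: 45 disks, one band for every crossing of the closed braid -/
def S60 : BandSurface where
  n := D60.strands
  bands := D60.braid.map (fun l => (l.1, l.1 + 1, l.2))
  valid := by
    intro b hb
    rw [List.mem_map] at hb
    obtain ⟨l, hl, rfl⟩ := hb
    exact ⟨Nat.lt_succ_self _, D60.braid_valid l hl⟩

theorem S60_word : S60.word = D60.braid := by
  unfold BandSurface.word S60
  rw [List.flatMap_map]
  have : ∀ l : Letter, bandWord (l.1, l.1 + 1, l.2) = [l] := by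
    intro l
    unfold bandWord
    simp
  simp only [this]
  exact List.flatMap_singleton' _

theorem S60_isKnot : S60.IsKnot := by
  intro i hi
  have hi' : i < 45 := by
    have : S60.n = 45 := braid_length.2
    omega
  obtain ⟨m, hm⟩ := tab_orbit ⟨i, hi'⟩
  exact ⟨m, by rw [S60_word, iterate_tab m]; exact hm⟩

theorem S60_genus : S60.HasGenus 396 := by
  unfold BandSurface.HasGenus
  have h1 : S60.bands.length = 836 := by
    show (D60.braid.map _).length = 836
    rw [List.length_map]; exact braid_length.1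
  have h2 : S60.n = 45 := braid_length.2
  omega

/-- the knot of `D60` bounds a band surface -/
theorem exists_surface : ∃ e : S60.Grp ≃* D60.Grp, ∀ i : Fin S60.n,
    ∃ c : Fin 60, IsConj (e (Helper95.DFJ.mer S60.n S60.word i)) (D60.mer c) := by
  have key : ∀ w : List Letter, w = D60.braid → ∃ e : ClosureGroup D60.strands w ≃* D60.Grp,
      ∀ i : Fin D60.strands, ∃ c : Fin 60,
        IsConj (e (Helper95.DFJ.mer D60.strands w i)) (D60.mer c) := by
    rintro _ rfl
    refine ⟨MulEquiv.ofBijective D60.theta D60.theta_bijective, fun i => ?_⟩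
    have h := D60.base_conj i
    rw [← D60.theta_mer i] at h
    exact h
  exact key S60.word S60_word

end Pool.Agent.Helper20.DFJ

end
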